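import Pool.Agent.KNT.Defs

/-!
# LKF/Def3: moves of links in `E = ℂ × ℝ`, definitions

`StP`, `StM`: the strands `z = 1` and `z = -1`.
`BdC b`, `BdT b`: bounded ball chart, bounded family of ball charts.
`Mut Z b c`: data of the mutual move: the ribbon `b l` moves (as in `KNT.Tubes`), the ball chart `c` is fixed, both are disjoint from `Z`; `b l` does not
meet the end pieces `1/2 ≤ |s|` of `c`, and `b 0`, `b 1` do not meet `c`.
`PEq A B A' B'`: the equivalence relation of pairs (long knot `A`, compact link `B`) generated by compactly supported diffeomorphisms (of both), the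
4-move and the regular homotopy of one ribbon of `A` (away from `B`), and the mutual move: `A` contains the strand `z = 1` of `b` and the strand
`z = -1` of `c`, `B` contains the strand `z = -1` of `b` and the strand `z = 1` of `c`.
-/

open scoped ContDiff Topology
open Set Filter
open Pool.Agent.KNT (Dom BalC Tubes Str Str2 CD)

namespace Pool.Agent.LKF

/-- the strand `z = 1` -/
def StP : Set (ℂ × ℝ) := {q | q.1 = 1 ∧ |q.2| < 1}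

/-- the strand `z = -1` -/
def StM : Set (ℂ × ℝ) := {q | q.1 = -1 ∧ |q.2| < 1}

theorem st_union : StP ∪ StM = Str := by
  ext q
  constructor
  · rintro (h | h)
    · exact ⟨Or.inl h.1, h.2⟩
    · exact ⟨Or.inr h.1, h.2⟩
  · rintro ⟨h1 | h1, h2⟩
    · exact Or.inl ⟨h1, h2⟩
    · exact Or.inr ⟨h1, h2⟩

/-- bounded chart -/
def BdC (b : ℂ × ℝ → ℂ × ℝ) : Prop := ∃ R : ℝ, ∀ q ∈ Dom, ‖b q‖ ≤ R

/-- bounded family of charts -/
def BdT (b : ℝ → ℂ × ℝ → ℂ × ℝ) : Prop := ∃ R : ℝ, ∀ l ∈ Icc (0 : ℝ) 1, ∀ q ∈ Dom, ‖b l q‖ ≤ R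

/-- data of the mutual move -/
structure Mut (Z : Set (ℂ × ℝ)) (b : ℝ → ℂ × ℝ → ℂ × ℝ) (c : ℂ × ℝ → ℂ × ℝ) : Prop where
  tub : Tubes b
  bal : BalC c
  bdb : BdT b
  bdc : BdC c
  dsb : ∀ l ∈ Icc (0 : ℝ) 1, Disjoint Z (b l '' Dom)
  dsc : Disjoint Z (c '' Dom)
  ends : ∀ l ∈ Icc (0 : ℝ) 1, ∀ q ∈ Dom, ∀ q' ∈ Dom, 1 / 2 ≤ |q'.2| → b l q ≠ c q'
  ds0 : Disjoint (b 0 '' Dom) (c '' Dom)
  ds1 : Disjoint (b 1 '' Dom) (c '' Dom)

/-- The equivalence relation of pairs (long knot, compact link), as subsets of `ℂ × ℝ`. -/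
inductive PEq : Set (ℂ × ℝ) → Set (ℂ × ℝ) → Set (ℂ × ℝ) → Set (ℂ × ℝ) → Prop
  | refl (A B : Set (ℂ × ℝ)) : PEq A B A B
  | symm {A B A' B' : Set (ℂ × ℝ)} : PEq A B A' B' → PEq A' B' A B
  | trans {A B A' B' A'' B'' : Set (ℂ × ℝ)} : PEq A B A' B' → PEq A' B' A'' B'' → PEq A B A'' B''
  | diff (A B : Set (ℂ × ℝ)) {F : Equiv.Perm (ℂ × ℝ)} : CD univ F → PEq A B (F '' A) (F '' B)
  | four {Z B : Set (ℂ × ℝ)} {b : ℂ × ℝ → ℂ × ℝ} : BalC b → BdC b → Disjoint Z (b '' Dom) →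
      Disjoint B (b '' Dom) → PEq (Z ∪ b '' Str) B (Z ∪ b '' Str2) B
  | rib {Z B : Set (ℂ × ℝ)} {b : ℝ → ℂ × ℝ → ℂ × ℝ} : Tubes b → BdT b →
      (∀ l ∈ Icc (0 : ℝ) 1, Disjoint Z (b l '' Dom)) → (∀ l ∈ Icc (0 : ℝ) 1, Disjoint B (b l '' Dom)) →
      PEq (Z ∪ b 0 '' Str) B (Z ∪ b 1 '' Str) B
  | mut {A B : Set (ℂ × ℝ)} {b : ℝ → ℂ × ℝ → ℂ × ℝ} {c : ℂ × ℝ → ℂ × ℝ} : Mut (A ∪ B) b c →
      PEq (A ∪ b 0 '' StP ∪ c '' StM) (B ∪ b 0 '' StM ∪ c '' StP)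
        (A ∪ b 1 '' StP ∪ c '' StM) (B ∪ b 1 '' StM ∪ c '' StP)

end Pool.Agent.LKF
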