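import Pool.Agent.LKF.Def2
import Pool.Agent.COR.AdA

/-!
# LKF/AdaO: adapting the germ of a thick torus along an arc, in `O`   (difficulty 2)

Copy the proof of `COR.adapt_arc` (file COR/AdA.lean); the result is `κ' = F ∘ κ` with `F` from `kap_move`, the identity off the tube of `κ` (⊆ O), and `F` maps the tube of `κ` into itself (`F (κ q) = κ (H q)`, `H` preserves `‖v‖ < 1`):
`hQ.diff`.
-/

open scoped Manifold ContDiff Topology
open Set Filter
open Complex (I)
open Pool.Agent.CSG (stp)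
open Pool.Agent.COR (AdA_cut AdA_b AdA_b_eq AdA_b_ld AdA_dt_ne AdA_dt_cont AdA_dv AdA_dv_smooth AdA_rd exists_lft exists_log_arc exists_germ ThickT_diffeo lin)
open Pool.Agent.RSG (E4 S3 S4 ex cj c1 c2 ht fh pS3)
open Pool.Agent.RBM (ThickT OnT Box frc)
open Pool.Agent.RBH (Tube BoxS)
open Pool.Agent.PTH (SP ISP Act)
open Pool.Agent.COR (Equi EquiB BBox OutW PosAt half dv dt PerS)
open Pool.Agent.KNT (Dom BalC Tubes Str Str2 CD)
open Pool.Agent.KNH (rot Hat circ pb Emb Fam ThinOK thn bx)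
open Pool.Agent.CLG (io pol)

namespace Pool.Agent.LKF

universe u

variable {E : Type*} [NormedAddCommGroup E] [NormedSpace ℝ E] {H : Type*} [TopologicalSpace H]
  {J : ModelWithCorners ℝ E H} {P : Type*} [TopologicalSpace P] [ChartedSpace H P]

theorem adapt_arcO [T2Space P] {a : ℝ → P → P} (ha : Act J a) {κ b : ℝ × ℂ × ℝ → P} {O : Set P}
    (hκ : ThickT J κ) (hO : Tube κ ⊆ O) (heq : Equi a κ) (heqb : Equi a b) {c h h' : ℝ} (h0 : 0 < h) (hh : h < h')
    (hh' : h' < 1 / 2)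
    (hloc : ∀ l, |l - c| < h' → IsLocalDiffeomorphAt 𝓘(ℝ, ℝ × ℂ × ℝ) J ∞ b (l, 0, 0))
    (hcore : ∀ l, |l - c| < h' → b (l, 0, 0) = κ (l, 0, 0)) {l₀ : ℝ} (hl₀ : |l₀ - c| < h')
    (hpos : PosAt κ b l₀) :
    ∃ κ' : ℝ × ℂ × ℝ → P, ThickT J κ' ∧ Equi a κ' ∧ Tube κ' ⊆ O ∧ (∀ l t, κ' (l, 0, t) = κ (l, 0, t)) ∧
      (∃ ε : ℝ, 0 < ε ∧ ∀ l v t, |l - c| ≤ h → ‖v‖ ≤ ε → κ' (l, v, t) = b (l, v, t)) ∧
      (∀ l, h' ≤ |l - c| → |l - c| ≤ 1 / 2 → ∀ v t, ‖v‖ < 1 → κ' (l, v, t) = κ (l, v, t)) ∧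
      ∀ Q : (ℝ × ℂ × ℝ → P) → Prop, Inv0 J O Q → Q κ → Q κ' := by
  -- the radii
  obtain ⟨h₁, hm1, hm2⟩ := exists_between (max_lt hh hl₀)
  have hh1 : h < h₁ := (le_max_left _ _).trans_lt hm1
  have hl1 : |l₀ - c| < h₁ := (le_max_right _ _).trans_lt hm1
  obtain ⟨h₂, h12, h2h'⟩ := exists_between hm2
  have h1pos : 0 < h₁ := h0.trans hh1
  obtain ⟨ς, hς, hςp, hς1, hς0⟩ := AdA_cut (c := c) h1pos h12 (h2h'.trans hh')
  obtain ⟨ς₂, hς₂, hς₂p, hς₂1, hς₂0⟩ := AdA_cut (c := c) (h1 := h) (h2 := (h + h₁) / 2) h0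
    (by linarith) (by linarith)
  -- the periodic extension
  have hcd : Continuous fun l : ℝ => |(l - c) - round (l - c)| :=
    CSG.EeP_cont_round.comp (continuous_id.sub continuous_const)
  set U : Set ℝ := {l | |(l - c) - round (l - c)| < h'} with hUdef
  have hU : IsOpen U := isOpen_lt hcd continuous_const
  have hςU : tsupport ς ⊆ U := by
    have h1 : tsupport ς ⊆ {l | |(l - c) - round (l - c)| ≤ h₂} :=
      closure_minimal (fun l hl => hς0 l hl) (isClosed_le hcd continuous_const)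
    intro l hl
    have h2 : |(l - c) - round (l - c)| ≤ h₂ := h1 hl
    exact lt_of_le_of_lt h2 h2h'
  have hperb : ∀ l v t, AdA_b c b (l + 1, v, t) = AdA_b c b (l, v, t) := by
    intro l v t
    unfold AdA_b
    simp only
    rw [show l + 1 - c = (l - c) + 1 by ring, round_add_one]
    congr 2
    push_cast
    ring
  have heqb' : Equi a (AdA_b c b) := fun l v t => heqb _ _ _
  have hκper : ∀ (l : ℝ) (m : ℤ), κ (l - m, 0, 0) = κ (l, 0, 0) := by
    intro l m
    have := RSG.GerM_per (f := fun x => κ (x, 0, 0)) (fun x => hκ.perl x 0 0) l (-m)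
    rw [← this]
    push_cast
    rw [sub_eq_add_neg]
  obtain ⟨ε, hε, lam, om, tau, hlam, hom, htau, hlamp, homp, htaup, hz0, hmain, hinj, -⟩ :=
    exists_lft ha hκ heq heqb' hperb hU hς hςp hςU
      (fun l hl => AdA_b_ld hh' hloc hl)
      (fun l hl => by
        unfold AdA_b
        simp only
        have hl' : |(l - c) - round (l - c)| < h' := hl
        rw [hcore (l - round (l - c)) (by
          rw [show l - (round (l - c) : ℝ) - c = (l - c) - round (l - c) by ring]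
          exact hl'), hκper]) (R := 1) one_pos
  -- the determinant
  have hdt : ∀ l, |l - c| ≤ h₁ → dt (dv om l) ≠ 0 := fun l hl => AdA_dt_ne (hinj l (hς1 l hl))
  have hdt0 : 0 < dt (dv om l₀) := by
    obtain ⟨lam', om', tau', c1, c2, c3, e1, e2, e3, hev, hd⟩ := hpos
    have hz : om (l₀, 0) = 0 := (hz0 l₀).2.1
    have hom_eq : om =ᶠ[𝓝 (l₀, 0)] om' := by
      have o1 : ∀ᶠ q : ℝ × ℂ in 𝓝 (l₀, 0), |q.1 - c| < h₁ := by
        have hc : Continuous fun q : ℝ × ℂ => |q.1 - c| := by fun_prop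
        exact hc.continuousAt.eventually_lt continuousAt_const hl1
      have o2 : ∀ᶠ q : ℝ × ℂ in 𝓝 (l₀, 0), ‖q.2‖ < ε := by
        have hc : Continuous fun q : ℝ × ℂ => ‖q.2‖ := by fun_prop
        exact hc.continuousAt.eventually_lt continuousAt_const (by simpa using hε)
      have o3 : ∀ᶠ q : ℝ × ℂ in 𝓝 (l₀, 0), ‖om' q‖ < 1 := by
        have hc : ContinuousAt (fun q : ℝ × ℂ => ‖om' q‖) (l₀, 0) := c2.continuousAt.norm
        exact hc.eventually_lt continuousAt_const (by rw [e2]; simp)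
      filter_upwards [o1, o2, o3, hev] with q q1 q2 q3 q4
      have g1 := hmain q.1 (hς1 q.1 q1.le) q.2 0 q2.le
      have g2 := q4 0
      rw [AdA_b_eq b (lt_trans q1 (by linarith))] at g1
      exact (hκ.inj _ _ _ _ _ _ g1.2.1 q3 (g1.2.2.symm.trans g2)).1
    have hdv : dv om l₀ = dv om' l₀ := by
      unfold dv
      apply Filter.EventuallyEq.fderiv_eq
      have hc : ContinuousAt (fun v : ℂ => ((l₀, v) : ℝ × ℂ)) 0 := by fun_prop
      exact hc.eventually hom_eq
    rw [hdv]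
    exact hd
  have hdtpos : ∀ l, |l - c| ≤ h₁ → 0 < dt (dv om l) := by
    intro l hl
    by_contra hneg
    push Not at hneg
    have hconn : IsPreconnected (Set.Icc (c - h₁) (c + h₁)) := isPreconnected_Icc
    have hmem : ∀ x, |x - c| ≤ h₁ → x ∈ Set.Icc (c - h₁) (c + h₁) := by
      intro x hx
      rw [abs_le] at hx
      exact ⟨by linarith [hx.1], by linarith [hx.2]⟩
    obtain ⟨x, hx, hx0⟩ := hconn.intermediate_value (hmem l hl) (hmem l₀ hl1.le)
      (AdA_dt_cont hom).continuousOn ⟨hneg, hdt0.le⟩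
    refine hdt x ?_ hx0
    rw [abs_le]
    exact ⟨by linarith [hx.1], by linarith [hx.2]⟩
  obtain ⟨A, β, hA, hβ, hAp, hβp, hβ1, hAβ, hAβ0⟩ := exists_log_arc hom h0 hh1 (by linarith)
    hdtpos
  -- the germ
  set E : ℝ × ℂ → ℂ := fun q => (ς₂ q.1 : ℝ) • (om q - dv om q.1 q.2) with hE
  have hEs : ContDiff ℝ ∞ E := by
    exact (hς₂.comp contDiff_fst).smul (hom.sub (AdA_dv_smooth hom))
  have hdvp : ∀ l, dv om (l + 1) = dv om l := by
    intro l
    unfold dv
    congr 1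
    funext v
    exact homp l v
  have hEp : ∀ l v, E (l + 1, v) = E (l, v) := by
    intro l v
    simp only [hE]
    rw [hς₂p, homp, hdvp]
  have hE0 : ∀ l, E (l, 0) = 0 := by
    intro l
    simp only [hE]
    rw [(hz0 l).2.1, map_zero, sub_zero, smul_zero]
  have hE1 : ∀ l, dv E l = 0 := by
    intro l
    have h1 : HasFDerivAt (fun v : ℂ => om (l, v)) (dv om l) 0 := by
      have hd : Differentiable ℝ (fun v : ℂ => om (l, v)) :=
        (hom.comp (contDiff_const.prodMk contDiff_id)).differentiable (by simp)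
      exact (hd 0).hasFDerivAt
    have h2 : HasFDerivAt (fun v : ℂ => dv om l v) (dv om l) 0 := (dv om l).hasFDerivAt
    have h3 : HasFDerivAt (fun v : ℂ => E (l, v)) ((ς₂ l : ℝ) • (dv om l - dv om l)) 0 :=
      (h1.sub h2).const_smul (ς₂ l)
    rw [sub_self, smul_zero] at h3
    exact h3.fderiv
  set lam' : ℝ × ℂ → ℝ := fun q => q.1 + ς₂ q.1 * (lam q - q.1) with hlam'
  set tau' : ℝ × ℂ → ℝ := fun q => ς₂ q.1 * tau q with htau'
  have hlams : ContDiff ℝ ∞ lam' :=
    contDiff_fst.add ((hς₂.comp contDiff_fst).mul (hlam.sub contDiff_fst))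
  have htaus : ContDiff ℝ ∞ tau' := (hς₂.comp contDiff_fst).mul htau
  obtain ⟨ε', hε', H, hH, hH', hHl, hHt, hHε, hHR, hHid⟩ := exists_germ (A := A) (b := β) (E := E)
    (lam := lam') (tau := tau') hA hβ hEs hlams htaus hAp hβp hEp
    (by
      intro l v
      simp only [hlam']
      rw [hς₂p, hlamp]
      ring)
    (by
      intro l v
      simp only [htau']
      rw [hς₂p, htaup]) hβ1 hE0 hE1
    (by
      intro l
      simp only [hlam']
      rw [(hz0 l).1]
      ring)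
    (by
      intro l
      simp only [htau']
      rw [(hz0 l).2.2, mul_zero]) (R := 1 / 2) (by norm_num)
  obtain ⟨F, hF, hFκ, hFo, hFa⟩ := Pool.Agent.COR.kap_move hκ hH hH' hHl hHt (R := 1 / 2) (by norm_num) hHR
  have hlin0 : ∀ A b : ℂ, lin A b 0 = 0 := by
    intro A b
    simp [lin]
  refine ⟨fun q => F (κ q), ThickT_diffeo F hF hκ, ?_, ?_, ?_, ⟨min ε ε', lt_min hε hε', ?_⟩, ?_, ?_⟩
  · intro l v t
    show F (κ (l, v, t)) = a t (F (κ (l, v, 0)))
    rw [heq l v t, hFa a ha heq]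
  · rintro p ⟨l, v, t, hv, rfl⟩
    show F (κ (l, v, t)) ∈ O
    rw [hFκ l v t hv]
    refine hO ⟨(H (l, v, t)).1, (H (l, v, t)).2.1, (H (l, v, t)).2.2, ?_, rfl⟩
    by_contra hcon
    have k1 : H (H (l, v, t)) = H (l, v, t) :=
      hHR (H (l, v, t)).1 (H (l, v, t)).2.1 (H (l, v, t)).2.2 (by linarith [not_lt.1 hcon])
    have k2 := H.injective k1
    rw [k2] at hcon
    exact hcon hv
  · intro l t
    show F (κ (l, 0, t)) = κ (l, 0, t)
    rw [hFκ l 0 t (by simp), hHε l 0 t (by simpa using hε'.le), hlin0, hE0, zero_add]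
    simp only [hlam', htau']
    rw [(hz0 l).1, (hz0 l).2.2, sub_self, mul_zero, add_zero, add_zero]
  · intro l v t hl hv
    show F (κ (l, v, t)) = b (l, v, t)
    have hςl : ς₂ l = 1 := hς₂1 l hl
    have hv1 : ‖v‖ ≤ ε := hv.trans (min_le_left _ _)
    have hv2 : ‖v‖ ≤ ε' := hv.trans (min_le_right _ _)
    have g1 := hmain l (hς1 l (by linarith)) v t hv1
    by_cases hv3 : ‖v‖ < 1
    · rw [hFκ l v t hv3, hHε l v t hv2]
      simp only [hlam', htau', hE]
      rw [hςl, ← hAβ l hl v, one_smul, one_mul, one_mul, add_sub_cancel, add_sub_cancel,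
        ← g1.2.2, AdA_b_eq b (by linarith)]
    · exfalso
      have hH1 : H (l, v, t) = (l, v, t) := hHR l v t (by linarith [not_lt.1 hv3])
      have hH2 := hHε l v t hv2
      rw [hH1] at hH2
      simp only [hlam', htau', hE] at hH2
      rw [hςl, ← hAβ l hl v, one_smul, one_mul, one_mul, add_sub_cancel, add_sub_cancel] at hH2
      have hH3 : v = om (l, v) := congrArg (fun q : ℝ × ℂ × ℝ => q.2.1) hH2
      rw [hH3] at hv3
      exact hv3 g1.2.1
  · intro l hl1' hl2 v t hv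
    show F (κ (l, v, t)) = κ (l, v, t)
    have hςl : ς₂ l = 0 := by
      by_contra hne
      have := hς₂0 l hne
      rw [AdA_rd hl2] at this
      linarith
    obtain ⟨hA0, hb0⟩ := hAβ0 l (by linarith) hl2
    rw [hFκ l v t hv, hHid l hA0 hb0 (fun v => by simp only [hE]; rw [hςl, zero_smul])
      (fun v => by simp only [hlam']; rw [hςl, zero_mul, add_zero])
      (fun v => by simp only [htau']; rw [hςl, zero_mul])]
  · intro Q hQ hQκ
    refine hQ.diff κ F hF ?_ hκ hO hQκ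
    intro p hp
    refine hFo p ?_
    intro l v t hv he
    exact hp (hO ⟨l, v, t, hv, he.symm⟩)

end Pool.Agent.LKF
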