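import Pool.Agent.LKF.ApmF
import Pool.Agent.RBH.ApI

/-!
# LKF/ApiF: injectivity and covering for the new maps   (difficulty 3)

Family version of `RBH/ApI.lean`: copy the proofs (`ApI_Rel` gets the indices `a` resp. `i`).
-/

open scoped Manifold ContDiff Topology
open Set Filter
open Complex (I)
open Pool.Agent.RSG (E4 S4 ex cj c1 c2 ht fh Vx XW BBi)
open Pool.Agent.RBM (ThickT OnT Box frc lamJ muJ DomJ BBs gD)
open Pool.Agent.RBH (Tube BoxS)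

namespace Pool.Agent.LKF

variable {E : Type*} [NormedAddCommGroup E] [NormedSpace ℝ E] {H : Type*} [TopologicalSpace H]
  {J : ModelWithCorners ℝ E H}
  {P : Type*} [TopologicalSpace P] [ChartedSpace H P] {ι α : Type*} {κ κ' : ι → ℝ × ℂ × ℝ → P}
  {b b' : α → ℂ × ℝ × ℝ → P} {c : Cmb ι α} {σ δ : ℝ} {G : Equiv.Perm P}
  {X : Type*} [TopologicalSpace X] [ChartedSpace E4 X] {n j : ι → ℤ}

/-- `q` is the old point of the new point `p` -/
def ApiF_Rel (κ κ' : ι → ℝ × ℂ × ℝ → P) (b b' : α → ℂ × ℝ × ℝ → P) (q p : P) : Prop :=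
  (∃ (a : α) (z : ℂ) (s t : ℝ), ‖z‖ < 4 ∧ |s| < 1 ∧ p = b' a (z, s, t) ∧ q = b a (z, s, t)) ∨
    ∃ (i : ι) (l : ℝ) (v : ℂ) (t : ℝ), ‖v‖ < 1 ∧ p = κ' i (l, v, t) ∧ q = κ i (l, v, t)

theorem ApiF_mem {q p : P} (h : ApiF_Rel κ κ' b b' q p) : q ∈ BoxF b ∨ q ∈ TubF κ := by
  rcases h with ⟨a, z, s, t, hz, hs, _, e⟩ | ⟨i, l, v, t, hv, _, e⟩
  · exact Or.inl ⟨a, z, s, t, hz, hs, e⟩
  · exact Or.inr ⟨i, l, v, t, hv, e⟩

theorem ApiF_cases (D : TwinF J κ n j X) (h : RibF J κ κ' b b' c δ G) (σ : ℝ)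
    {p : P} (hp : ¬ OnF κ' p) :
    (∃ q, ¬ OnF κ q ∧ ApiF_Rel κ κ' b b' q p ∧
      Ap D κ' b b' c σ δ G p = Gm D b b' c σ δ G (D.A q)) ∨
    (p ∉ BoxF b' ∧ p ∉ TubF κ' ∧
      Ap D κ' b b' c σ δ G p = Jt D b c σ (G.symm p)) := by
  by_cases h1 : p ∈ BoxF b'
  · obtain ⟨a, z, s, t, hz, hs, rfl⟩ := h1
    left
    refine ⟨b a (z, s, t), ?_, Or.inl ⟨a, z, s, t, hz, hs, rfl, rfl⟩, ApF_box D h σ a t hz hs⟩
    rwa [← box_newF h.bun h.bun' hz hs]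
  · by_cases h2 : p ∈ TubF κ'
    · obtain ⟨i, l, v, t, hv, rfl⟩ := h2
      left
      have hv0 : v ≠ 0 := by
        rintro rfl
        exact hp ⟨i, l, t, rfl⟩
      exact ⟨κ i (l, v, t), kap_notF h.bun.link t hv0 hv, Or.inr ⟨i, l, v, t, hv, rfl, rfl⟩,
        ApF_tube D h σ t hv⟩
    · exact Or.inr ⟨h1, h2, ApF_out D κ' b b' c σ δ G h1 h2⟩

theorem ApiF_pull (h : RibF J κ κ' b b' c δ G) {q p p' : P}
    (h1 : ApiF_Rel κ κ' b b' q p) (h2 : ApiF_Rel κ κ' b b' q p') : p = p' := by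
  rcases h1 with ⟨a, z, s, t, hz, hs, rfl, rfl⟩ | ⟨i, l, v, t, hv, rfl, rfl⟩
  · rcases h2 with ⟨a', z', s', t', hz', hs', rfl, e⟩ | ⟨i', l', v', t', hv', rfl, e⟩
    · have ha := h.bun.bdisj a a' z s t z' s' t' hz hs hz' hs' e
      subst ha
      obtain ⟨rfl, rfl, m, rfl⟩ := (h.bun.box a).inj _ _ _ _ _ _ hz hs hz' hs' e
      exact (RBM.box_int (h.bun'.box a) z s t m).symm
    · exact ((win_eqF h.bun h.bun' hv' hz hs).1 e.symm).symm
  · rcases h2 with ⟨a', z', s', t', hz', hs', rfl, e⟩ | ⟨i', l', v', t', hv', rfl, e⟩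
    · exact (win_eqF h.bun h.bun' hv hz' hs').1 e
    · have hi := h.bun.link.disj i i' l v t l' v' t' hv hv' e
      subst hi
      obtain ⟨rfl, ⟨m, rfl⟩, m', rfl⟩ := (h.bun.link.thick i).inj _ _ _ _ _ _ hv hv' e
      exact (RBM.kap_int (h.bun'.link.thick i) l v t m m').symm

theorem ApiF_ne {p : P} (h1 : p ∉ BoxF b') {a : α} {x : ℂ × ℝ × ℝ} (ha : x ∈ DomJ (c.τ a) δ) :
    G.symm p ≠ G.symm (b' a x) := by
  intro e
  have e2 := G.symm.injective e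
  exact h1 ⟨a, x.1, x.2.1, x.2.2, ha.1, ha.2.1, e2⟩

theorem Ap_injF (D : TwinF J κ n j X) (h : RibF J κ κ' b b' c δ G) (hσ : DiscOK D b c σ)
    {p p' : P} (hp : ¬ OnF κ' p) (hp' : ¬ OnF κ' p')
    (he : Ap D κ' b b' c σ δ G p = Ap D κ' b b' c σ δ G p') : p = p' := by
  rcases ApiF_cases D h σ hp with ⟨q, hq, hr, e⟩ | ⟨h1, h2, e⟩
  · rcases ApiF_cases D h σ hp' with ⟨q', hq', hr', e'⟩ | ⟨h1', h2', e'⟩
    · rw [e, e'] at he
      have hQ : D.A q = D.A q' := Gm_injF D h hσ (Or.inl ⟨q, hq, ApiF_mem hr, rfl⟩)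
        (Or.inl ⟨q', hq', ApiF_mem hr', rfl⟩) he
      have hqq := D.A_inj _ _ hq hq' hQ
      subst hqq
      exact ApiF_pull h hr hr'
    · rw [e, e'] at he
      exact absurd he (Gm_JtF D h hσ (Or.inl ⟨q, hq, ApiF_mem hr, rfl⟩) (good_newF h h1' h2')
        (fun a x ha _ => ApiF_ne h1' ha))
  · rcases ApiF_cases D h σ hp' with ⟨q', hq', hr', e'⟩ | ⟨h1', h2', e'⟩
    · rw [e, e'] at he
      exact absurd he.symm (Gm_JtF D h hσ (Or.inl ⟨q', hq', ApiF_mem hr', rfl⟩) (good_newF h h1 h2)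
        (fun a x ha _ => ApiF_ne h1 ha))
    · rw [e, e'] at he
      exact G.symm.injective (Jt_injF D h.bun hσ h.pos (good_newF h h1 h2) (good_newF h h1' h2') he)

theorem Ap_disjF (D : TwinF J κ n j X) (h : RibF J κ κ' b b' c δ G) (hσ : DiscOK D b c σ)
    {i : ι} {z : S4} {p : P} (hz : fh z ≠ 0) (hc : c1 z = 0 ∨ c2 z = 0) (hp : ¬ OnF κ' p) :
    Gm D b b' c σ δ G (D.Q i z) ≠ Ap D κ' b b' c σ δ G p := by
  intro he
  have hO : D.Q i z ∈ Old D b := Or.inr ⟨i, z, hz, rfl⟩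
  rcases ApiF_cases D h σ hp with ⟨q, hq, hr, e⟩ | ⟨h1, h2, e⟩
  · rw [e] at he
    exact D.disj i z q hz hc hq (Gm_injF D h hσ hO (Or.inl ⟨q, hq, ApiF_mem hr, rfl⟩) he)
  · rw [e] at he
    exact Gm_JtF D h hσ hO (good_newF h h1 h2) (fun a x ha _ => ApiF_ne h1 ha) he

theorem ApiF_old (D : TwinF J κ n j X) (h : RibF J κ κ' b b' c δ G) {a : α} {z : ℂ} {s t : ℝ}
    (hz : ‖z‖ < 4) (hs : |s| < 1) (ht : ¬ OnF κ (b a (z, s, t))) (σ : ℝ) :
    ∃ p, ¬ OnF κ' p ∧ Gm D b b' c σ δ G (D.A (b a (z, s, t))) = Ap D κ' b b' c σ δ G p := by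
  refine ⟨b' a (z, s, t), ?_, (ApF_box D h σ a t hz hs).symm⟩
  rwa [box_newF h.bun h.bun' hz hs]

theorem ApiF_cover1 (D : TwinF J κ n j X) (h : RibF J κ κ' b b' c δ G)
    (hσ : DiscOK D b c σ) {q : P} (hq : q ∈ Good κ b c δ) :
    (∃ p, ¬ OnF κ' p ∧ Jt D b c σ q = Ap D κ' b b' c σ δ G p) ∨
      ∃ (i : ι) (z : S4), fh z ≠ 0 ∧ Jt D b c σ q = Gm D b b' c σ δ G (D.Q i z) := by
  by_cases h1 : G q ∈ BoxF b'
  · obtain ⟨a, z, s, t, hz, hs, e⟩ := h1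
    have hqe : G.symm (b' a (z, s, t)) = q := by
      rw [← e]
      exact G.symm_apply_apply q
    have hbad : q = b a (z, s, t) → (z, s, t) ∈ DomJ (c.τ a) δ ∧ |s| < 3 / 4 := by
      intro hqb
      rcases hq with ⟨a', ⟨z', s', t'⟩, ha', hs', hq'⟩ | ⟨_, hq'⟩
      · rw [hqb] at hq'
        have haa := h.bun.bdisj a a' z s t z' s' t' hz hs ha'.1 ha'.2.1 hq'
        subst haa
        obtain ⟨rfl, rfl, m, rfl⟩ := (h.bun.box a).inj _ _ _ _ _ _ hz hs ha'.1 ha'.2.1 hq'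
        refine ⟨⟨hz, hs, fun h3 => ?_⟩, hs'⟩
        have h4 := ha'.2.2 h3
        simp only at h4 ⊢
        have h5 := RBM.frc_add_int (t - c.τ a s) m
        rw [show t + (m : ℝ) - c.τ a s = t - c.τ a s + m by ring, h5] at h4
        exact h4
      · exact absurd ⟨a, z, s, t, hz, hs, hqb⟩ hq'
    have hs34 : |s| < 3 / 4 := by
      by_contra hc
      push Not at hc
      have := (hbad (by rw [← hqe]; exact g_midF h a hz (by linarith) hs)).2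
      linarith
    have hdom : (z, s, t) ∈ DomJ (c.τ a) δ := by
      by_contra hc
      have h3 : ‖z‖ ≤ 3 ∧ 1 / 2 - δ ≤ |frc (t - c.τ a s)| := by
        by_contra h4
        apply hc
        refine ⟨hz, hs, fun h5 => ?_⟩
        by_contra h6
        exact h4 ⟨h5, not_lt.mp h6⟩
      have hpos := h.pos
      exact hc (hbad (by rw [← hqe]; exact g_holeF h a (by linarith [h3.1]) hs (by linarith [h3.2]))).1
    have hx := Gm_imgF D h hσ hdom hs34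
    rw [hqe] at hx
    rw [← hx]
    rcases le_or_gt 3 ‖z‖ with h3 | h3
    · left
      rw [JmF_out D b c σ a (x := (z, s, t)) h3]
      refine ApiF_old D h hz hs ?_ σ
      rw [box_torusF h.bun hz hs]
      exact not_or.mpr (RBM.JmB_ne (by linarith))
    · rcases Jm_innF D h.bun hσ a t h3 hs with ⟨z', s', t', hz', hs', hn, hx'⟩ | ⟨i, w, hw, hx'⟩
      · left
        rw [hx']
        exact ApiF_old D h (by linarith) hs' hn σ
      · right
        exact ⟨i, w, hw, by rw [hx']⟩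
  · by_cases h2 : G q ∈ TubF κ'
    · exfalso
      obtain ⟨i, l, v, t, hv, e⟩ := h2
      have hl : RestF c i l := bk_tubeF h.bun' hv (by rwa [← e])
      have hqe : q = κ i (l, v, t) := by
        apply G.injective
        rw [e, h.G_rest i l v t hv hl]
      rcases hq with ⟨a, x, ha, _, hq'⟩ | ⟨hq', _⟩
      · exact rest_boxF h.bun (t := t) hv hl ⟨a, x.1, x.2.1, x.2.2, ha.1, ha.2.1, by rw [← hqe]; exact hq'⟩
      · exact hq' ⟨i, l, v, t, hv, hqe⟩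
    · left
      refine ⟨G q, fun hT => h2 (torus_tubF hT), ?_⟩
      rw [ApF_out D κ' b b' c σ δ G h1 h2, G.symm_apply_apply]

theorem Ap_coverF (D : TwinF J κ n j X) (h : RibF J κ κ' b b' c δ G) (hσ : DiscOK D b c σ)
    (x : X) : (∃ p, ¬ OnF κ' p ∧ x = Ap D κ' b b' c σ δ G p) ∨
      ∃ (i : ι) (z : S4), fh z ≠ 0 ∧ x = Gm D b b' c σ δ G (D.Q i z) := by
  by_cases h1 : ∃ q ∈ Good κ b c δ, x = Jt D b c σ q
  · obtain ⟨q, hq, rfl⟩ := h1
    exact ApiF_cover1 D h hσ hq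
  · push Not at h1
    have hJ : ¬ IsJ D b c σ δ x := by
      rintro ⟨⟨a, ⟨z, s, t⟩⟩, ha, hs, rfl⟩
      exact h1 (b a (z, s, t)) (Or.inl ⟨a, (z, s, t), ha, hs, rfl⟩) (JtF_box D h.bun σ a t ha.1 hs).symm
    have hG := Gm_outF D b b' c σ δ G hJ
    rcases D.cover x with ⟨p, hp, hx⟩ | ⟨i, w, hw, hx⟩
    · left
      by_cases hB : p ∈ BoxF b
      · obtain ⟨a, z, s, t, hz, hs, rfl⟩ := hB
        obtain ⟨p', hp', e⟩ := ApiF_old D h hz hs hp σ
        exact ⟨p', hp', by rw [← e, ← hx, hG]⟩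
      · by_cases hT : p ∈ TubF κ
        · obtain ⟨i, l, v, t, hv, rfl⟩ := hT
          have hv0 : v ≠ 0 := by
            rintro rfl
            exact hp ⟨i, l, t, rfl⟩
          refine ⟨κ' i (l, v, t), kap_notF h.bun'.link t hv0 hv, ?_⟩
          rw [ApF_tube D h σ t hv, ← hx, hG]
        · exfalso
          refine h1 p (Or.inr ⟨hT, hB⟩) ?_
          rw [hx]
          refine (JtF_out D b c σ ?_).symm
          rintro a z s t hz hs rfl
          exact hB ⟨a, z, s, t, hz, by linarith, rfl⟩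
    · right
      exact ⟨i, w, hw, by rw [← hx, hG]⟩

end Pool.Agent.LKF
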