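import Pool.Agent.LKF.GmF
import Pool.Agent.RBH.ApM

/-!
# LKF/ApmF: the values of the new map `A'`   (difficulty 3)

Family version of `RBH/ApM.lean`: copy the proofs.  `ApF_isJ`: the second case is now: there is a torus `i` with `p = κ i (l, v, t)`, `‖v‖ < 1/2` (`A_QF`).  `Gm_A_restF`: `κ i (l, v, t) = κ i' (l', v', t')` gives `i = i'` (`link.disj`), then `thick.inj`.
-/

open scoped Manifold ContDiff Topology
open Set Filter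
open Complex (I)
open Pool.Agent.RSG (E4 S4 ex cj c1 c2 ht fh Vx XW BBi)
open Pool.Agent.RBM (ThickT OnT Box frc lamJ muJ DomJ BBs gD)
open Pool.Agent.RBH (Tube BoxS)

namespace Pool.Agent.LKF

variable {E : Type*} [NormedAddCommGroup E] [NormedSpace ℝ E] {H : Type*} [TopologicalSpace H]
  {J : ModelWithCorners ℝ E H}
  {P : Type*} [TopologicalSpace P] [ChartedSpace H P] {ι α : Type*} {κ κ' : ι → ℝ × ℂ × ℝ → P}
  {b b' : α → ℂ × ℝ × ℝ → P} {c : Cmb ι α} {σ δ : ℝ} {G : Equiv.Perm P}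
  {X : Type*} [TopologicalSpace X] [ChartedSpace E4 X] {n j : ι → ℤ}

theorem ApF_box (D : TwinF J κ n j X) (h : RibF J κ κ' b b' c δ G) (σ : ℝ) (a : α) {z : ℂ} {s : ℝ} (t : ℝ)
    (hz : ‖z‖ < 4) (hs : |s| < 1) :
    Ap D κ' b b' c σ δ G (b' a (z, s, t)) = Gm D b b' c σ δ G (D.A (b a (z, s, t))) := by
  classical
  have hex : ∃ w : α × (ℂ × ℝ × ℝ), ‖w.2.1‖ < 4 ∧ |w.2.2.1| < 1 ∧ b' a (z, s, t) = b' w.1 w.2 :=
    ⟨(a, (z, s, t)), hz, hs, rfl⟩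
  have key : ∀ w : α × (ℂ × ℝ × ℝ), ‖w.2.1‖ < 4 → |w.2.2.1| < 1 → b' a (z, s, t) = b' w.1 w.2 →
      b w.1 w.2 = b a (z, s, t) := by
    rintro ⟨a', ⟨z', s', t'⟩⟩ h1 h2 h3
    simp only at h1 h2 h3 ⊢
    have ha := h.bun'.bdisj a a' z s t z' s' t' hz hs h1 h2 h3
    subst ha
    obtain ⟨rfl, rfl, m, rfl⟩ := (h.bun'.box a).inj _ _ _ _ _ _ hz hs h1 h2 h3
    exact RBM.box_int (h.bun.box a) z s t m
  have h1 : Ap D κ' b b' c σ δ G (b' a (z, s, t)) =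
      Gm D b b' c σ δ G (D.A (b hex.choose.1 hex.choose.2)) := by
    unfold Ap
    rw [dif_pos hex]
  rw [h1, key _ hex.choose_spec.1 hex.choose_spec.2.1 hex.choose_spec.2.2]

theorem ApF_rest (h : RibF J κ κ' b b' c δ G) {i : ι} {l : ℝ} {v : ℂ} (t : ℝ) (hv : ‖v‖ < 1)
    (hl : RestF c i l) : G.symm (κ' i (l, v, t)) = κ i (l, v, t) := by
  rw [Equiv.symm_apply_eq, h.G_rest i l v t hv hl]

theorem ApF_tube (D : TwinF J κ n j X) (h : RibF J κ κ' b b' c δ G) (σ : ℝ) {i : ι} {l : ℝ} {v : ℂ} (t : ℝ)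
    (hv : ‖v‖ < 1) :
    Ap D κ' b b' c σ δ G (κ' i (l, v, t)) = Gm D b b' c σ δ G (D.A (κ i (l, v, t))) := by
  classical
  by_cases hp : κ' i (l, v, t) ∈ BoxF b'
  · obtain ⟨a, z, s, t', hz, hs, he⟩ := hp
    rw [(win_eqF h.bun h.bun' hv hz hs).2 he, he]
    exact ApF_box D h σ a t' hz hs
  · have hl := bk_tubeF h.bun' hv hp
    have h1 : ¬ ∃ w : α × (ℂ × ℝ × ℝ), ‖w.2.1‖ < 4 ∧ |w.2.2.1| < 1 ∧ κ' i (l, v, t) = b' w.1 w.2 := by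
      rintro ⟨⟨a, ⟨z, s, t'⟩⟩, h1, h2, h3⟩
      exact hp ⟨a, z, s, t', h1, h2, h3⟩
    have h2 : κ' i (l, v, t) ∈ TubF κ' := ⟨i, l, v, t, hv, rfl⟩
    unfold Ap
    rw [dif_neg h1, if_pos h2, ApF_rest h t hv hl]

theorem ApF_out (D : TwinF J κ n j X) (κ' : ι → ℝ × ℂ × ℝ → P) (b b' : α → ℂ × ℝ × ℝ → P) (c : Cmb ι α) (σ δ : ℝ)
    (G : Equiv.Perm P) {p : P} (h1 : p ∉ BoxF b') (h2 : p ∉ TubF κ') :
    Ap D κ' b b' c σ δ G p = Jt D b c σ (G.symm p) := by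
  classical
  have h3 : ¬ ∃ w : α × (ℂ × ℝ × ℝ), ‖w.2.1‖ < 4 ∧ |w.2.2.1| < 1 ∧ p = b' w.1 w.2 := by
    rintro ⟨⟨a, ⟨z, s, t'⟩⟩, h4, h5, h6⟩
    exact h1 ⟨a, z, s, t', h4, h5, h6⟩
  unfold Ap
  rw [dif_neg h3, if_neg h2]

/-- a point of `P` whose image is in the image of `J` -/
theorem ApF_isJ (D : TwinF J κ n j X) (h : BunF J κ b c) (hσ : DiscOK D b c σ)
    {p : P} (hp : ¬ OnF κ p) (hJ : IsJ D b c σ δ (D.A p)) :
    (∃ (a : α) (z : ℂ) (s t : ℝ), ‖z‖ < 4 ∧ |s| < 3 / 4 ∧ p = b a (z, s, t)) ∨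
      ∃ (i : ι) (l : ℝ) (v : ℂ) (t : ℝ), ‖v‖ < 1 / 2 ∧ p = κ i (l, v, t) := by
  obtain ⟨⟨a, ⟨z, s, t⟩⟩, ⟨hz, hs1, -⟩, hs, he⟩ := hJ
  simp only at hz hs1 hs he
  have hσ1 : σ ≤ 1 := hσ.le.trans (by norm_num)
  rcases le_or_gt (9 / 4) ‖z‖ with h9 | h9
  · rw [JmF_mid D h hσ a s t h9] at he
    have hb := RBM.lamJ_bd hσ.pos hσ1 (‖z‖ ^ 2)
    have hl0 : 0 < lamJ σ (‖z‖ ^ 2) := hσ.pos.trans_le hb.1
    have h6 : |lamJ σ (‖z‖ ^ 2) * s| < 3 / 4 := by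
      rw [abs_mul, abs_of_pos hl0]
      nlinarith [abs_nonneg s]
    have hne := RBM.JmB_ne (z := z) (by linarith)
    have hnt : ¬ OnF κ (b a (z, lamJ σ (‖z‖ ^ 2) * s,
        lamJ σ (‖z‖ ^ 2) * frc (t - c.τ a s) + muJ (‖z‖ ^ 2) * c.τ a s)) := by
      rw [box_torusF h hz (by linarith)]
      exact not_or.mpr hne
    exact Or.inl ⟨a, z, _, _, hz, h6, D.A_inj _ _ hp hnt he⟩
  · rw [JmF_small D b c σ a s t (by linarith)] at he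
    have hb := JmF_bds hσ (t - c.τ a s) hs1
    rcases hσ.inn a z (σ * s) (σ * frc (t - c.τ a s)) h9 hb.1 hb.2 with
      ⟨w, u, x, hw, hu, hn, hx⟩ | ⟨i, w, hw, hw2, hx⟩
    · rw [hx] at he
      exact Or.inl ⟨a, w, u, x, by linarith, by linarith, D.A_inj _ _ hp hn he⟩
    · rw [hx] at he
      obtain ⟨l, v, t', -, -, h1, h2⟩ := A_QF D h.link hw hp he
      exact Or.inr ⟨i, l, v, t', by rw [h1]; exact hw2, h2⟩

theorem ApmF_A_rest (D : TwinF J κ n j X) (h : RibF J κ κ' b b' c δ G) (hσ : DiscOK D b c σ)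
    {i : ι} {l : ℝ} {v : ℂ} (t : ℝ) (hl : RestF c i l) (h0 : 1 / 2 ≤ ‖v‖) (hv : ‖v‖ < 1) :
    Gm D b b' c σ δ G (D.A (κ i (l, v, t))) = D.A (κ i (l, v, t)) := by
  have hv0 : v ≠ 0 := by
    rintro rfl
    rw [norm_zero] at h0
    linarith
  by_cases hJ : IsJ D b c σ δ (D.A (κ i (l, v, t)))
  · exfalso
    rcases ApF_isJ D h.bun hσ (kap_notF h.bun.link t hv0 hv) hJ with
      ⟨a, z, s, t', hz, hs, he⟩ | ⟨i', l', v', t', hv', he⟩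
    · exact rest_boxF h.bun hv hl ⟨a, z, s, t', hz, by linarith, he⟩
    · have hi := h.bun.link.disj i i' l v t l' v' t' hv (by linarith) he
      subst hi
      have h1 := ((h.bun.link.thick i).inj _ _ _ _ _ _ hv (by linarith) he).1
      rw [← h1] at hv'
      linarith
  · exact Gm_outF D b b' c σ δ G hJ

theorem ApmF_A_end (D : TwinF J κ n j X) (h : RibF J κ κ' b b' c δ G) (hσ : DiscOK D b c σ)
    {a : α} {z : ℂ} {s t : ℝ} (hz : ‖z‖ < 4) (hs : 3 / 4 ≤ |s|) (hs1 : |s| < 1)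
    (hne : ∀ (i : ι) (l : ℝ) (v : ℂ) (t' : ℝ), ‖v‖ ≤ 1 / 2 → b a (z, s, t) ≠ κ i (l, v, t')) :
    Gm D b b' c σ δ G (D.A (b a (z, s, t))) = D.A (b a (z, s, t)) := by
  have hnt : ¬ OnF κ (b a (z, s, t)) := by
    rintro ⟨i, l, t', he⟩
    exact hne i l 0 t' (by rw [norm_zero]; norm_num) he
  by_cases hJ : IsJ D b c σ δ (D.A (b a (z, s, t)))
  · exfalso
    rcases ApF_isJ D h.bun hσ hnt hJ with ⟨a', z', s', t', hz', hs', he⟩ | ⟨i', l', v', t', hv', he⟩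
    · have ha := h.bun.bdisj a a' z s t z' s' t' hz hs1 hz' (by linarith) he
      subst ha
      have h1 := ((h.bun.box a).inj _ _ _ _ _ _ hz hs1 hz' (by linarith) he).2.1
      rw [← h1] at hs'
      linarith
    · exact hne i' l' v' t' hv'.le he
  · exact Gm_outF D b b' c σ δ G hJ

theorem ApF_far [T2Space P] [Finite ι] [Finite α] (D : TwinF J κ n j X) (h : RibF J κ κ' b b' c δ G)
    (hσ : DiscOK D b c σ) {p : P} (h1 : p ∉ BoxF b') (h2 : p ∉ TubF κ') :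
    ∀ᶠ p' in 𝓝 p, Ap D κ' b b' c σ δ G p' = Jt D b c σ (G.symm p') := by
  have hC₁ := boxF_closed (b := b') h.bun'.box (r₀ := 3) (s₀ := 3 / 4) (by norm_num) (by norm_num)
  have hC₂ := tubF_closed (κ := κ') h.bun'.link.thick (r₀ := 1 / 2) (by norm_num)
  have n₁ : p ∈ {p : P | ∃ (a : α) (z : ℂ) (s t : ℝ), ‖z‖ ≤ 3 ∧ |s| ≤ 3 / 4 ∧ p = b' a (z, s, t)}ᶜ := by
    rintro ⟨a, z, s, t, hz, hs, he⟩
    exact h1 ⟨a, z, s, t, by linarith, by linarith, he⟩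
  have n₂ : p ∈ {p : P | ∃ (i : ι) (l : ℝ) (v : ℂ) (t : ℝ), ‖v‖ ≤ 1 / 2 ∧ p = κ' i (l, v, t)}ᶜ := by
    rintro ⟨i, l, v, t, hv, he⟩
    exact h2 ⟨i, l, v, t, by linarith, he⟩
  filter_upwards [hC₁.isOpen_compl.mem_nhds n₁, hC₂.isOpen_compl.mem_nhds n₂] with p' m₁ m₂
  by_cases hb : p' ∈ BoxF b'
  · obtain ⟨a, z, s, t, hz, hs, rfl⟩ := hb
    rw [ApF_box D h σ a t hz hs]
    rcases lt_or_ge |s| (3 / 4) with h3 | h3
    · have h4 : 3 < ‖z‖ := by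
        by_contra hc
        exact m₁ ⟨a, z, s, t, not_lt.1 hc, h3.le, rfl⟩
      have h5 : (z, s, t) ∈ DomJ (c.τ a) δ := ⟨hz, hs, fun hle => absurd hle (not_le.2 h4)⟩
      have h6 := Gm_imgF D h hσ h5 h3
      rw [JmF_out D b c σ a (x := (z, s, t)) h4.le] at h6
      exact h6
    · rw [g_midF h a hz (by linarith) hs, JtF_end D h.bun σ a t hz h3 hs]
      refine ApmF_A_end D h hσ hz h3 hs ?_
      intro i l v t' hv he
      exact m₂ ⟨i, l, v, t', hv, ((win_eqF h.bun h.bun' (by linarith) hz hs).1 he.symm).symm⟩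
  · by_cases ht : p' ∈ TubF κ'
    · obtain ⟨i, l, v, t, hv, rfl⟩ := ht
      have hl := bk_tubeF h.bun' hv hb
      have h3 : 1 / 2 ≤ ‖v‖ := by
        by_contra hc
        exact m₂ ⟨i, l, v, t, (not_le.1 hc).le, rfl⟩
      rw [ApF_tube D h σ t hv, ApF_rest h t hv hl, ApmF_A_rest D h hσ t hl h3 hv, JtF_out]
      intro a z s t' hz hs he
      exact rest_boxF h.bun hv hl ⟨a, z, s, t', hz, by linarith, he⟩
    · exact ApF_out D κ' b b' c σ δ G hb ht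

end Pool.Agent.LKF
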