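import Pool.Agent.LKF.GmlF
import Pool.Agent.LKF.ApmF
import Pool.Agent.RBH.ApL

/-!
# LKF/AplF: the new maps are local diffeomorphisms   (difficulty 2)

Family version of `RBH/ApL.lean`: copy the proofs.
-/

open scoped Manifold ContDiff Topology
open Set Filter
open Complex (I)
open Pool.Agent.RSG (E4 S4 ex cj c1 c2 ht fh Vx XW BBi)
open Pool.Agent.RBM (ThickT OnT Box frc lamJ muJ DomJ BBs gD)
open Pool.Agent.RBH (Tube BoxS)

namespace Pool.Agent.LKF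

variable {E : Type*} [NormedAddCommGroup E] [NormedSpace ℝ E] {H : Type*} [TopologicalSpace H]
  {J : ModelWithCorners ℝ E H}
  {P : Type*} [TopologicalSpace P] [ChartedSpace H P] {ι α : Type*} {κ κ' : ι → ℝ × ℂ × ℝ → P}
  {b b' : α → ℂ × ℝ × ℝ → P} {c : Cmb ι α} {σ δ : ℝ} {G : Equiv.Perm P}
  {X : Type*} [TopologicalSpace X] [ChartedSpace E4 X] {n j : ι → ℤ}

theorem Ap_ldF [T2Space P] [T2Space X] [Finite ι] [Finite α] (D : TwinF J κ n j X) (h : RibF J κ κ' b b' c δ G)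
    (hσ : DiscOK D b c σ) {p : P} (hp : ¬ OnF κ' p) :
    IsLocalDiffeomorphAt J (𝓡 4) ∞ (Ap D κ' b b' c σ δ G) p := by
  by_cases hb : p ∈ BoxF b'
  · obtain ⟨a, z, s, t, hz, hs, rfl⟩ := hb
    rw [box_newF h.bun h.bun' hz hs] at hp
    have h1 : D.A (b a (z, s, t)) ∈ Old D b := Or.inl ⟨_, hp, Or.inl ⟨a, z, s, t, hz, hs, rfl⟩, rfl⟩
    have hf := (h.bun.box a).loc z s t hz hs
    have hA := D.A_loc _ hp
    have hG := Gm_ldF D h hσ h1
    have h2 : IsLocalDiffeomorphAt 𝓘(ℝ, ℂ × ℝ × ℝ) (𝓡 4) ∞ (D.A ∘ b a) (z, s, t) :=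
      IsLocalDiffeomorphAt.comp (hf := hf) (hg := hA) ..
    have h3 : IsLocalDiffeomorphAt 𝓘(ℝ, ℂ × ℝ × ℝ) (𝓡 4) ∞
        (Gm D b b' c σ δ G ∘ (D.A ∘ b a)) (z, s, t) :=
      IsLocalDiffeomorphAt.comp (hf := h2) (hg := hG) ..
    refine CSG.ld_of_comp_left (f := b' a) (g := Ap D κ' b b' c σ δ G) (x := (z, s, t)) ?_
      ((h.bun'.box a).loc z s t hz hs)
    refine CSG.ld_congr h3 ?_
    have c1 : ContinuousAt (fun a : ℂ × ℝ × ℝ => ‖a.1‖) (z, s, t) := by fun_prop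
    have c2 : ContinuousAt (fun a : ℂ × ℝ × ℝ => |a.2.1|) (z, s, t) := by fun_prop
    filter_upwards [c1.eventually (Iio_mem_nhds hz), c2.eventually (Iio_mem_nhds hs)] with x g1 g2
    obtain ⟨z', s', t'⟩ := x
    exact ApF_box D h σ a t' g1 g2
  · by_cases ht : p ∈ TubF κ'
    · obtain ⟨i, l, v, t, hv, rfl⟩ := ht
      have hv0 : v ≠ 0 := by
        rintro rfl
        exact hp ⟨i, l, t, rfl⟩
      have hk := kap_notF h.bun.link (i := i) (l := l) t hv0 hv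
      have h1 : D.A (κ i (l, v, t)) ∈ Old D b := Or.inl ⟨_, hk, Or.inr ⟨i, l, v, t, hv, rfl⟩, rfl⟩
      have hf := (h.bun.link.thick i).loc l v t hv
      have hA := D.A_loc _ hk
      have hG := Gm_ldF D h hσ h1
      have h2 : IsLocalDiffeomorphAt 𝓘(ℝ, ℝ × ℂ × ℝ) (𝓡 4) ∞ (D.A ∘ κ i) (l, v, t) :=
        IsLocalDiffeomorphAt.comp (hf := hf) (hg := hA) ..
      have h3 : IsLocalDiffeomorphAt 𝓘(ℝ, ℝ × ℂ × ℝ) (𝓡 4) ∞
          (Gm D b b' c σ δ G ∘ (D.A ∘ κ i)) (l, v, t) :=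
        IsLocalDiffeomorphAt.comp (hf := h2) (hg := hG) ..
      refine CSG.ld_of_comp_left (f := κ' i) (g := Ap D κ' b b' c σ δ G) (x := (l, v, t)) ?_
        ((h.bun'.link.thick i).loc l v t hv)
      refine CSG.ld_congr h3 ?_
      have c1 : ContinuousAt (fun a : ℝ × ℂ × ℝ => ‖a.2.1‖) (l, v, t) := by fun_prop
      filter_upwards [c1.eventually (Iio_mem_nhds hv)] with x g1
      obtain ⟨l', v', t'⟩ := x
      exact ApF_tube D h σ t' g1
    · have hS := RBM.ld_symm (h.G_ld (G.symm p))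
      rw [Equiv.apply_symm_apply] at hS
      have hJ := Jt_ldF D h.bun hσ h.tau h.pos (good_newF h hb ht)
      have h2 : IsLocalDiffeomorphAt J (𝓡 4) ∞ (Jt D b c σ ∘ G.symm) p :=
        IsLocalDiffeomorphAt.comp (hf := hS) (hg := hJ) ..
      refine CSG.ld_congr h2 ?_
      filter_upwards [ApF_far D h hσ hb ht] with p' g1
      exact g1

theorem Qp_ldF [T2Space P] [T2Space X] [Finite ι] [Finite α] (D : TwinF J κ n j X) (h : RibF J κ κ' b b' c δ G)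
    (hσ : DiscOK D b c σ) {i : ι} {z : S4} (hz : fh z ≠ 0) :
    IsLocalDiffeomorphAt (𝓡 4) (𝓡 4) ∞ (fun z => Gm D b b' c σ δ G (D.Q i z)) z := by
  have hQ := D.Q_loc i z hz
  have hG := Gm_ldF D h hσ (Or.inr ⟨i, z, hz, rfl⟩)
  exact IsLocalDiffeomorphAt.comp (hf := hQ) (hg := hG) ..

end Pool.Agent.LKF
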