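import Pool.Agent.LKF.Defs
import Pool.Agent.RBM.GdM

/-!
# LKF/BdfM: ball coordinates of the disc for two different twins   (difficulty 1)

`BDF ε₁ ε₂ n₁ j₁ n₂ j₂` is equal to `RBM.BD ε₁ ε₂ n₁ j₁` at all points with `1 ≤ ‖q.1 + 4‖` and to `RBM.BD ε₁ ε₂ n₂ j₂` at all points with `1 ≤ ‖q.1 - 4‖` (both: unfold).  For every `p`:
`8 ≤ ‖p - 4‖ + ‖p + 4‖`, so `1 < ‖p + 4‖` or `1 < ‖p - 4‖`, and the same holds near `(p, 0)`: `RBM.BD_zero`, `RBM.BD_ld` (`CSG.ld_congr`).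
-/

open scoped Manifold ContDiff Topology
open Set Filter
open Complex (I)
open Pool.Agent.RSG (E4 S4 ex cj c1 c2 ht fh Vx XW BBi)
open Pool.Agent.RBM (ThickT OnT Box frc lamJ muJ DomJ BBs gD)
open Pool.Agent.RBH (Tube BoxS)

namespace Pool.Agent.LKF

variable {E : Type*} [NormedAddCommGroup E] [NormedSpace ℝ E] {H : Type*} [TopologicalSpace H]
  {J : ModelWithCorners ℝ E H}
  {P : Type*} [TopologicalSpace P] [ChartedSpace H P] {ι α : Type*} {κ κ' : ι → ℝ × ℂ × ℝ → P}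
  {b b' : α → ℂ × ℝ × ℝ → P} {c : Cmb ι α} {δ : ℝ} {G : Equiv.Perm P}

theorem BdfM_a {ε₁ ε₂ : ℝ} {n₁ j₁ n₂ j₂ : ℤ} {q : ℂ × ℂ} (h : 1 ≤ ‖q.1 + 4‖) :
    BDF ε₁ ε₂ n₁ j₁ n₂ j₂ q = RBM.BD ε₁ ε₂ n₁ j₁ q := by
  unfold BDF RBM.BD
  rw [if_neg (not_lt.2 h), if_neg (not_lt.2 h)]

theorem BdfM_b {ε₁ ε₂ : ℝ} {n₁ j₁ n₂ j₂ : ℤ} {q : ℂ × ℂ} (h : 1 ≤ ‖q.1 - 4‖) :
    BDF ε₁ ε₂ n₁ j₁ n₂ j₂ q = RBM.BD ε₁ ε₂ n₂ j₂ q := by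
  unfold BDF RBM.BD
  rw [if_neg (not_lt.2 h), if_neg (not_lt.2 h)]

theorem BdfM_sum (p : ℂ) : 1 < ‖p + 4‖ ∨ 1 < ‖p - 4‖ := by
  by_contra h
  push Not at h
  have h1 : ‖(p + 4) - (p - 4)‖ ≤ ‖p + 4‖ + ‖p - 4‖ := norm_sub_le _ _
  have h2 : (p + 4) - (p - 4) = 8 := by ring
  have h3 : ‖(8 : ℂ)‖ = 8 := by simp
  rw [h2, h3] at h1
  linarith [h.1, h.2]

theorem BDF_zero {ε₁ ε₂ : ℝ} (h3 : ε₁ = 1 ∨ ε₁ = -1) (h4 : ε₂ = 1 ∨ ε₂ = -1) (n₁ j₁ n₂ j₂ : ℤ) {p : ℂ}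
    (h1 : p ≠ 4) (h2 : p ≠ -4) : BDF ε₁ ε₂ n₁ j₁ n₂ j₂ (p, 0) = (gD p, 0, 0) := by
  rcases BdfM_sum p with h | h
  · rw [BdfM_a (show 1 ≤ ‖((p, 0) : ℂ × ℂ).1 + 4‖ from h.le)]
    exact RBM.BD_zero h3 h4 n₁ j₁ h1 h2
  · rw [BdfM_b (show 1 ≤ ‖((p, 0) : ℂ × ℂ).1 - 4‖ from h.le)]
    exact RBM.BD_zero h3 h4 n₂ j₂ h1 h2

theorem BDF_ld {ε₁ ε₂ : ℝ} (h3 : ε₁ = 1 ∨ ε₁ = -1) (h4 : ε₂ = 1 ∨ ε₂ = -1) (n₁ j₁ n₂ j₂ : ℤ) {p : ℂ}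
    (h1 : p ≠ 4) (h2 : p ≠ -4) :
    IsLocalDiffeomorphAt 𝓘(ℝ, ℂ × ℂ) 𝓘(ℝ, ℂ × ℝ × ℝ) ∞ (BDF ε₁ ε₂ n₁ j₁ n₂ j₂) (p, 0) := by
  rcases BdfM_sum p with h | h
  · refine Pool.Agent.CSG.ld_congr (RBM.BD_ld h3 h4 n₁ j₁ h1 h2) ?_
    have hc : Continuous fun q : ℂ × ℂ => ‖q.1 + 4‖ := by fun_prop
    filter_upwards [hc.continuousAt.eventually (lt_mem_nhds (show 1 < ‖((p, 0) : ℂ × ℂ).1 + 4‖ from h))]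
      with q hq
    exact BdfM_a hq.le
  · refine Pool.Agent.CSG.ld_congr (RBM.BD_ld h3 h4 n₂ j₂ h1 h2) ?_
    have hc : Continuous fun q : ℂ × ℂ => ‖q.1 - 4‖ := by fun_prop
    filter_upwards [hc.continuousAt.eventually (lt_mem_nhds (show 1 < ‖((p, 0) : ℂ × ℂ).1 - 4‖ from h))]
      with q hq
    exact BdfM_b hq.le

theorem BDF_far {ε₁ ε₂ : ℝ} {n₁ j₁ n₂ j₂ : ℤ} {p ν : ℂ} (hp : 9 ≤ ‖p‖) :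
    BDF ε₁ ε₂ n₁ j₁ n₂ j₂ (p, ν) = (p / 4, ν.re, ν.im) := by
  have h4 : ‖(4 : ℂ)‖ = 4 := by simp
  have h1 : ‖p‖ ≤ ‖p - 4‖ + ‖(4 : ℂ)‖ := by
    have h := norm_add_le (p - 4) 4
    rwa [sub_add_cancel] at h
  have h2 : ‖p‖ ≤ ‖p + 4‖ + ‖(4 : ℂ)‖ := by
    have h := norm_sub_le (p + 4) 4
    rwa [add_sub_cancel_right] at h
  rw [h4] at h1 h2
  unfold BDF
  rw [if_neg (by simp only; linarith), if_neg (by simp only; linarith), RBM.BBs_far hp]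

end Pool.Agent.LKF
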