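import Pool.Agent.LKF.OriF
import Pool.Agent.COR.Glu

/-!
# LKF/DumM: a second window   (difficulty 2)

`A₂ (w, s, t) = κ (l₀ + η s, η w, t)`, `f₂ u = l₀ + η u`, `ε₂ = 1`, `η` small: `η ≤ 1/4`, `f₁ 1 < l₀ - η`, `l₀ + η < f₁ (-1) + 1`, and `κ (l, v, t) ∉ F` for `|l - l₀| ≤ η`, `‖v‖ ≤ η`
(`κ` is continuous, `F` closed, `κ (l₀, 0, t) = a t (κ (l₀, 0, 0)) ∉ F`, `t` modulo `1`: tube lemma, compactness of `[0, 1]`).
`BBox`: affine change of coordinates; `inj`: `hκ.inj`: `l₀ + η s' = l₀ + η s + m`, `η |s - s'| < 1`, so `m = 0`.  `PosB`: `Ã (s, w, t) = κ (l₀ + η s, η w, t)`, derivative of determinant `η ^ 3 > 0`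
(`oJ_comp`, `posT_all`; `COR.CohL_det`-like, e.g. `COR.CohL η (2 * η)`-like maps: `LinearMap.det_prodMap`, or write `g = CohL η 1 ∘ ..`; the determinant of `(x, z, t) ↦ (η x, η z, t)`: `CohC`-like map `z ↦ η z` with `dt = η²`).
`Win1` for `A₂`: `off`: `κ (l, 0, 0) = κ (l₀ + η s, η w, t)` gives `w = 0`, `l₀ + η s = l + m`, `|s| < 3/4`, which contradicts `l₀ + η ≤ l ≤ l₀ - η + 1`.
-/

open scoped Manifold ContDiff Topology
open Set Filter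
open Complex (I)
open Pool.Agent.CSG (stp)
open Pool.Agent.RSG (E4 S3 S4 ex cj c1 c2 ht fh pS3)
open Pool.Agent.RBM (ThickT OnT Box frc)
open Pool.Agent.RBH (Tube BoxS)
open Pool.Agent.PTH (SP ISP Act)
open Pool.Agent.COR (Equi EquiB BBox OutW PosAt half dv dt PerS)
open Pool.Agent.KNT (Dom BalC Tubes Str Str2 CD)
open Pool.Agent.KNH (rot Hat circ pb Emb Fam ThinOK thn bx)
open Pool.Agent.CLG (io pol)

namespace Pool.Agent.LKF

universe u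

/-- the linear part of the window -/
noncomputable def DumM_L (η : ℝ) : (ℝ × ℂ × ℝ) →L[ℝ] (ℝ × ℂ × ℝ) :=
  (η • ContinuousLinearMap.id ℝ ℝ).prodMap ((η • ContinuousLinearMap.id ℝ ℂ).prodMap (ContinuousLinearMap.id ℝ ℝ))

theorem DumM_L_det (η : ℝ) : LinearMap.det ((DumM_L η : (ℝ × ℂ × ℝ) →L[ℝ] (ℝ × ℂ × ℝ)) :
    (ℝ × ℂ × ℝ) →ₗ[ℝ] (ℝ × ℂ × ℝ)) = η ^ 3 := by
  have h1 : ((DumM_L η : (ℝ × ℂ × ℝ) →L[ℝ] (ℝ × ℂ × ℝ)) : (ℝ × ℂ × ℝ) →ₗ[ℝ] (ℝ × ℂ × ℝ)) =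
      (η • (LinearMap.id : ℝ →ₗ[ℝ] ℝ)).prodMap
        ((η • (LinearMap.id : ℂ →ₗ[ℝ] ℂ)).prodMap (LinearMap.id : ℝ →ₗ[ℝ] ℝ)) := rfl
  rw [h1, LinearMap.det_prodMap, LinearMap.det_prodMap, LinearMap.det_smul, LinearMap.det_smul,
    LinearMap.det_id, LinearMap.det_id, Complex.finrank_real_complex,
    Module.finrank_self]
  ring

theorem DumM_tube {κ : ℝ × ℂ × ℝ → SP} (hκ : ThickT ISP κ) {F : Set SP} (hF : IsClosed F) {l₀ : ℝ}
    (hl : ∀ t, κ (l₀, 0, t) ∉ F) :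
    ∃ ε : ℝ, 0 < ε ∧ ∀ (l : ℝ) (v : ℂ) (t : ℝ), |l - l₀| < ε → ‖v‖ < ε → κ (l, v, t) ∉ F := by
  have h1 : ∀ᶠ q : ℝ × ℂ in 𝓝 (l₀, 0), ∀ t ∈ Icc (0 : ℝ) 1, κ (q.1, q.2, t) ∉ F := by
    refine isCompact_Icc.eventually_forall_of_forall_eventually
      (P := fun (q : ℝ × ℂ) (t : ℝ) => κ (q.1, q.2, t) ∉ F) (fun t _ => ?_)
    have h2 : ContinuousAt κ (l₀, 0, t) :=
      (hκ.loc l₀ 0 t (by simp)).contMDiffAt.continuousAt
    have h3 : ContinuousAt (fun z : (ℝ × ℂ) × ℝ => κ (z.1.1, z.1.2, z.2)) ((l₀, 0), t) := by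
      have h4 : ContinuousAt (fun z : (ℝ × ℂ) × ℝ => ((z.1.1, z.1.2, z.2) : ℝ × ℂ × ℝ)) ((l₀, 0), t) := by
        fun_prop
      exact ContinuousAt.comp (f := fun z : (ℝ × ℂ) × ℝ => ((z.1.1, z.1.2, z.2) : ℝ × ℂ × ℝ)) h2 h4
    exact h3.eventually_mem (hF.isOpen_compl.mem_nhds (hl t))
  obtain ⟨ε, hε, h2⟩ := Metric.eventually_nhds_iff.1 h1
  refine ⟨ε, hε, fun l v t hl hv => ?_⟩
  have h3 : κ (l, v, t) = κ (l, v, Int.fract t) := by
    have h4 : Function.Periodic (fun t => κ (l, v, t)) 1 := fun t => hκ.pert l v t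
    have h5 := h4.sub_int_mul_eq (x := t) ⌊t⌋
    rw [mul_one] at h5
    exact h5.symm
  rw [h3]
  refine h2 (y := (l, v)) ?_ _ ⟨Int.fract_nonneg t, (Int.fract_lt_one t).le⟩
  rw [Prod.dist_eq]
  refine max_lt ?_ ?_
  · rw [Real.dist_eq]; exact hl
  · rw [dist_zero_right]; exact hv

theorem exists_dummy {a : ℝ → SP → SP} (ha : Act ISP a) {κ : ℝ × ℂ × ℝ → SP} (hκ : ThickT ISP κ) (heq : Equi a κ)
    (hpos : PosT κ) {A₁ : ℂ × ℝ × ℝ → SP} {f₁ : ℝ → ℝ} {ε₁ : ℝ} (hw : Win1 A₁ (fun l => κ (l, 0, 0)) f₁ ε₁)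
    {F : Set SP} (hF : IsClosed F) {l₀ : ℝ} (h1 : f₁ 1 < l₀) (h2 : l₀ < f₁ (-1) + 1)
    (hl : ∀ t, a t (κ (l₀, 0, 0)) ∉ F) :
    ∃ (A₂ : ℂ × ℝ × ℝ → SP) (f₂ : ℝ → ℝ), BBox ISP A₂ (3 / 4) (3 / 4) ∧ EquiB a A₂ ∧ PosB A₂ ∧
      Win2 A₁ A₂ (fun l => κ (l, 0, 0)) f₁ f₂ ε₁ 1 ∧
      (∀ (l : ℝ) (w : ℂ) (s t : ℝ), ‖w‖ < 3 / 4 → |s| < 3 / 4 → κ (l, 0, 0) = A₂ (w, s, t) → w = 0) ∧
      ∀ (w : ℂ) (s t : ℝ), ‖w‖ ≤ 3 / 4 → |s| ≤ 3 / 4 → A₂ (w, s, t) ∉ F ∧ A₂ (w, s, t) ∈ Tube κ := by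
  have hl' : ∀ t, κ (l₀, 0, t) ∉ F := by
    intro t
    rw [heq l₀ 0 t]
    exact hl t
  obtain ⟨ε, hε, hF'⟩ := DumM_tube hκ hF hl'
  obtain ⟨η, h0, h3, h4, h5, h6⟩ : ∃ η : ℝ, 0 < η ∧ η ≤ 1 / 4 ∧ f₁ 1 < l₀ - η ∧ l₀ + η < f₁ (-1) + 1 ∧
      η < ε := by
    refine ⟨min (min (1 / 4) (ε / 2)) (min ((l₀ - f₁ 1) / 2) ((f₁ (-1) + 1 - l₀) / 2)), ?_, ?_, ?_, ?_, ?_⟩
    · refine lt_min (lt_min (by norm_num) (by linarith)) (lt_min (by linarith) (by linarith))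
    · exact (min_le_left _ _).trans (min_le_left _ _)
    · have := (min_le_right (min (1 / 4) (ε / 2)) (min ((l₀ - f₁ 1) / 2) ((f₁ (-1) + 1 - l₀) / 2))).trans
        (min_le_left _ _)
      linarith
    · have := (min_le_right (min (1 / 4) (ε / 2)) (min ((l₀ - f₁ 1) / 2) ((f₁ (-1) + 1 - l₀) / 2))).trans
        (min_le_right _ _)
      linarith
    · have := (min_le_left (min (1 / 4) (ε / 2)) (min ((l₀ - f₁ 1) / 2) ((f₁ (-1) + 1 - l₀) / 2))).trans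
        (min_le_right _ _)
      linarith
  have hn : ∀ w : ℂ, ‖(η : ℂ) * w‖ = η * ‖w‖ := by
    intro w
    rw [norm_mul, Complex.norm_real, Real.norm_of_nonneg h0.le]
  have hw1 : ∀ w : ℂ, ‖w‖ ≤ 3 / 4 → ‖(η : ℂ) * w‖ < 1 := by
    intro w hw
    rw [hn]
    nlinarith [norm_nonneg w]
  have hηne : (η : ℂ) ≠ 0 := by exact_mod_cast h0.ne'
  refine ⟨fun q => κ (l₀ + η * q.2.1, (η : ℂ) * q.1, q.2.2), fun u => l₀ + η * u, ?_, ?_, ?_, ?_, ?_, ?_⟩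
  · refine ⟨fun z s t => hκ.pert _ _ _, fun z s t hz hs => ?_, ?_⟩
    · have hT : IsLocalDiffeomorphAt 𝓘(ℝ, ℂ × ℝ × ℝ) 𝓘(ℝ, ℝ × ℂ × ℝ) ∞
          (fun q : ℂ × ℝ × ℝ => ((l₀ + η * q.2.1, (η : ℂ) * q.1, q.2.2) : ℝ × ℂ × ℝ)) (z, s, t) := by
        have hs1 : ContDiff ℝ ∞
            (fun q : ℂ × ℝ × ℝ => ((l₀ + η * q.2.1, (η : ℂ) * q.1, q.2.2) : ℝ × ℂ × ℝ)) := by fun_prop
        have hs2 : ContDiff ℝ ∞
            (fun q : ℝ × ℂ × ℝ => (((η : ℂ)⁻¹ * q.2.1, η⁻¹ * (q.1 - l₀), q.2.2) : ℂ × ℝ × ℝ)) := by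
          fun_prop
        refine Pool.Agent.RSG.ld_two
          (g := fun q : ℝ × ℂ × ℝ => (((η : ℂ)⁻¹ * q.2.1, η⁻¹ * (q.1 - l₀), q.2.2) : ℂ × ℝ × ℝ)) ?_ ?_ ?_ ?_
        · exact Eventually.of_forall fun y => hs1.contMDiff y
        · exact Eventually.of_forall fun y => hs2.contMDiff y
        · refine Eventually.of_forall fun y => ?_
          obtain ⟨y1, y2, y3⟩ := y
          refine Prod.ext ?_ (Prod.ext ?_ rfl)
          · show (η : ℂ)⁻¹ * ((η : ℂ) * y1) = y1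
            rw [← mul_assoc, inv_mul_cancel₀ hηne, one_mul]
          · show η⁻¹ * (l₀ + η * y2 - l₀) = y2
            rw [add_sub_cancel_left, ← mul_assoc, inv_mul_cancel₀ h0.ne', one_mul]
        · refine Eventually.of_forall fun y => ?_
          obtain ⟨y1, y2, y3⟩ := y
          refine Prod.ext ?_ (Prod.ext ?_ rfl)
          · show l₀ + η * (η⁻¹ * (y1 - l₀)) = y1
            rw [← mul_assoc, mul_inv_cancel₀ h0.ne', one_mul, add_sub_cancel]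
          · show (η : ℂ) * ((η : ℂ)⁻¹ * y2) = y2
            rw [← mul_assoc, mul_inv_cancel₀ hηne, one_mul]
      exact IsLocalDiffeomorphAt.comp (hf := hT) (hg := hκ.loc _ _ t (hw1 z hz.le))
    · intro z s t z' s' t' hz hs hz' hs' he
      obtain ⟨e1, ⟨m, e2⟩, e3⟩ := hκ.inj _ _ _ _ _ _ (hw1 z hz.le) (hw1 z' hz'.le) he
      have e4 : (m : ℝ) = η * (s' - s) := by
        have e2' : l₀ + η * s' = l₀ + η * s + m := e2
        linarith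
      have e5 : |(m : ℝ)| < 1 := by
        rw [e4, abs_mul, abs_of_pos h0]
        have : |s' - s| < 3 / 2 := by
          rw [abs_lt] at hs hs' ⊢
          constructor <;> linarith
        nlinarith [abs_nonneg (s' - s)]
      have e6 : m = 0 := by
        have : |m| < 1 := by exact_mod_cast e5
        exact Int.abs_lt_one_iff.1 this
      rw [e6, Int.cast_zero] at e4
      refine ⟨mul_left_cancel₀ hηne e1, ?_, e3⟩
      rcases mul_eq_zero.1 e4.symm with h | h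
      · exact absurd h h0.ne'
      · linarith
  · intro z s t
    exact heq _ _ t
  · have h7 : IsLocalDiffeomorphAt 𝓘(ℝ, ℝ × ℂ × ℝ) ISP ∞ κ (l₀, 0, 0) := hκ.loc l₀ 0 0 (by simp)
    obtain ⟨g, hg⟩ : ∃ g : ℝ × ℂ × ℝ → ℝ × ℂ × ℝ, g = fun q => (l₀ + η * q.1, (η : ℂ) * q.2.1, q.2.2) :=
      ⟨_, rfl⟩
    have hg0 : g (0, 0, 0) = (l₀, 0, 0) := by
      rw [hg]
      simp
    have hgs : ContDiff ℝ ∞ g := by
      rw [hg]
      fun_prop
    have hgd : fderiv ℝ g (0, 0, 0) = DumM_L η := by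
      have h8 : HasFDerivAt (fun q : ℝ × ℂ × ℝ => DumM_L η q + (l₀, 0, 0)) (DumM_L η) (0, 0, 0) :=
        (DumM_L η).hasFDerivAt.add_const _
      have h9 : (fun q : ℝ × ℂ × ℝ => DumM_L η q + (l₀, 0, 0)) = g := by
        rw [hg]
        funext q
        obtain ⟨q1, q2, q3⟩ := q
        refine Prod.ext ?_ (Prod.ext ?_ ?_)
        · show η * q1 + l₀ = l₀ + η * q1
          ring
        · show η • q2 + 0 = (η : ℂ) * q2
          rw [add_zero, Complex.real_smul]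
        · show q3 + 0 = q3
          rw [add_zero]
      rw [h9] at h8
      exact h8.fderiv
    have h10 := oJ_comp (Φ := κ) (Ψ := κ ∘ g) (g := g) (q := (0, 0, 0)) (by rw [hg0]; exact h7)
      hgs.contDiffAt (Eventually.of_forall fun _ => rfl)
    rw [hgd, DumM_L_det, hg0] at h10
    have h11 : 0 < oJ (κ ∘ g) (0, 0, 0) := by
      rw [h10]
      exact mul_pos (posT_all hκ hpos (by simp)) (by positivity)
    rw [hg] at h11
    exact h11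
  · refine ⟨hw, ?_, ?_, ?_⟩
    · refine ⟨by fun_prop, ?_, Or.inl rfl, ?_, ?_, ?_⟩
      · intro u
        have : HasDerivAt (fun u : ℝ => l₀ + η * u) η u := by
          simpa using ((hasDerivAt_id u).const_mul η).const_add l₀
        rw [this.deriv]
        exact h0
      · show l₀ + η * 1 < l₀ + η * (-1) + 1
        linarith
      · intro u _
        show κ (l₀ + η * u, 0, 0) = κ (l₀ + η * (1 * u), (η : ℂ) * 0, 0)
        rw [one_mul, mul_zero]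
      · intro l hl1 hl2 w s t hw' hs he
        have hl1' : l₀ + η * 1 ≤ l := hl1
        have hl2' : l ≤ l₀ + η * (-1) + 1 := hl2
        obtain ⟨-, ⟨m, e2⟩, -⟩ := hκ.inj _ _ _ _ _ _ (by simp) (hw1 w hw'.le) he
        have e2' : l₀ + η * s = l + m := e2
        rw [abs_lt] at hs
        have e3 : η * s < η := by nlinarith
        have e4 : -η < η * s := by nlinarith
        have e5 : (m : ℝ) < 0 := by linarith
        have e6 : m ≤ -1 := by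
          have : m < 0 := by exact_mod_cast e5
          omega
        have e7 : (m : ℝ) ≤ -1 := by exact_mod_cast e6
        linarith
    · show f₁ 1 < l₀ + η * (-1)
      linarith
    · show l₀ + η * 1 < f₁ (-1) + 1
      linarith
  · intro l w s t hw' _ he
    obtain ⟨e1, -, -⟩ := hκ.inj _ _ _ _ _ _ (by simp) (hw1 w hw'.le) he
    exact (mul_eq_zero.1 e1.symm).resolve_left hηne
  · intro w s t hw' hs
    refine ⟨hF' _ _ _ ?_ ?_, ⟨_, _, _, hw1 w hw', rfl⟩⟩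
    · rw [add_sub_cancel_left, abs_mul, abs_of_pos h0]
      nlinarith [abs_nonneg s]
    · rw [hn]
      nlinarith [norm_nonneg w]

theorem win2_swap {P : Type*} {A₁ A₂ : ℂ × ℝ × ℝ → P} {K : ℝ → P} (hK : ∀ l, K (l + 1) = K l) {f₁ f₂ : ℝ → ℝ} {ε₁ ε₂ : ℝ}
    (h : Win2 A₁ A₂ K f₁ f₂ ε₁ ε₂) : Win2 A₂ A₁ K f₂ (fun u => f₁ u + 1) ε₂ ε₁ := by
  refine ⟨h.w₂, ⟨?_, ?_, h.w₁.sign, ?_, ?_, ?_⟩, h.ord₂, ?_⟩
  · exact h.w₁.smooth.add contDiff_const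
  · intro u
    have e : deriv (fun u => f₁ u + 1) u = deriv f₁ u := by
      rw [deriv_add_const]
    rw [e]
    exact h.w₁.deriv_pos u
  · show f₁ 1 + 1 < f₁ (-1) + 1 + 1
    linarith [h.w₁.len]
  · intro u hu
    show K (f₁ u + 1) = _
    rw [hK]
    exact h.w₁.strand u hu
  · intro l hl1 hl2 w s t hw hs
    have hl1' : f₁ 1 + 1 ≤ l := hl1
    have hl2' : l ≤ f₁ (-1) + 1 + 1 := hl2
    have e := hK (l - 1)
    rw [sub_add_cancel] at e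
    rw [e]
    exact h.w₁.off (l - 1) (by linarith) (by linarith) w s t hw hs
  · show f₁ 1 + 1 < f₂ (-1) + 1
    linarith [h.ord₁]

end Pool.Agent.LKF
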