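import Pool.Agent.LKF.Def2
import Pool.Agent.KNH.PbM
import Pool.Agent.COR.Bnd

/-!
# LKF/OriF: orientations   (difficulty 3)

`oJ_loc`, `oJ_comp`: `COR.sp_orient.choose_spec`.  Proofs as in COR/Coh.lean (`coherent`, `Coh_sign`, `Coh_strand`, `Coh_posAt`; `CohL_det`).
* `posT_all`: `oJ κ` is continuous and `≠ 0` on the connected set `{‖v‖ < 1}` (a segment from `(0, 0, 0)` to the point: `f x = oJ κ (x l, x v, x t)` on `[0, 1]`, `Coh_sign` or intermediate value theorem).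
* `posT_or`: the mirror image is `κ ∘ g`, `g (l, v, t) = (l, conj v, t)`, determinant `-1`; `oJ_comp` at `(0, 0, 0)`.
* `posT_germ`: `κ' = κ` near `(0, 0, 0)`: `oJ_comp` with `g = id` (determinant of `fderiv id` is `1`).  `posT_rep`: `κ ∘ g`, `g (l, v, t) = (φ l, v, t)`, determinant `φ' 0 > 0`, and `posT_all`.
* `posT_core`: if both are positive the transition map is positive: `Coh_posAt` (`hpos`: product of two positive numbers, `posT_all`; all the `l`).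
* `posB_all`, `posB_or`: the same for the boxes, on the convex set `{‖z‖ < r, |s| < h}`.
* `posB_arc`: `B (l, v, t) = A (cj ε v / 2, w ε (l - c), t)` is `Ã ∘ g` with `Ã (s, z, t) = A (z, s, t)`, `g (l, v, t) = (w ε (l - c), cj ε v / 2, t)`: linear part with determinant `w ε ε / 4 > 0` (`COR.CohL_det`); `posB_all`, `oJ_comp`.
* `posB_shift`: `A (w, s, t) = b (z₀ + w, s, t)`: translation, `posB_all` for `b`.
* `posAt_arc`: `Coh_posAt` for `B` of `posB_arc`.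
-/

open scoped Manifold ContDiff Topology
open Set Filter
open Complex (I)
open Pool.Agent.CSG (stp)
open Pool.Agent.RSG (E4 S3 S4 ex cj c1 c2 ht fh pS3)
open Pool.Agent.RBM (ThickT OnT Box frc)
open Pool.Agent.RBH (Tube BoxS)
open Pool.Agent.PTH (SP ISP Act)
open Pool.Agent.COR (Equi EquiB BBox OutW PosAt half dv dt PerS)
open Pool.Agent.KNT (Dom BalC Tubes Str Str2 CD)
open Pool.Agent.KNH (rot Hat circ pb Emb Fam ThinOK thn bx)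
open Pool.Agent.CLG (io pol)

namespace Pool.Agent.LKF

universe u

theorem oJ_loc {Φ : ℝ × ℂ × ℝ → SP} {q : ℝ × ℂ × ℝ} (h : IsLocalDiffeomorphAt 𝓘(ℝ, ℝ × ℂ × ℝ) ISP ∞ Φ q) :
    ContinuousAt (oJ Φ) q ∧ oJ Φ q ≠ 0 := by
  exact COR.sp_orient.choose_spec.1 Φ q h

theorem oJ_comp {Φ Ψ : ℝ × ℂ × ℝ → SP} {g : ℝ × ℂ × ℝ → ℝ × ℂ × ℝ} {q : ℝ × ℂ × ℝ}
    (h : IsLocalDiffeomorphAt 𝓘(ℝ, ℝ × ℂ × ℝ) ISP ∞ Φ (g q)) (hg : ContDiffAt ℝ ∞ g q) (he : Ψ =ᶠ[𝓝 q] Φ ∘ g) :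
    oJ Ψ q = oJ Φ (g q) * LinearMap.det ((fderiv ℝ g q : (ℝ × ℂ × ℝ) →L[ℝ] (ℝ × ℂ × ℝ)) :
        (ℝ × ℂ × ℝ) →ₗ[ℝ] (ℝ × ℂ × ℝ)) := by
  exact COR.sp_orient.choose_spec.2 Φ Ψ g q h hg he

/-- `(s l, A v, t)` -/
noncomputable def OriF_L (s : ℝ) (A : ℂ →L[ℝ] ℂ) : (ℝ × ℂ × ℝ) →L[ℝ] (ℝ × ℂ × ℝ) :=
  (s • ContinuousLinearMap.id ℝ ℝ).prodMap (A.prodMap (ContinuousLinearMap.id ℝ ℝ))

theorem OriF_L_det (s : ℝ) (A : ℂ →L[ℝ] ℂ) :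
    LinearMap.det (OriF_L s A : (ℝ × ℂ × ℝ) →ₗ[ℝ] (ℝ × ℂ × ℝ)) = s * COR.dt A := by
  have h1 : (OriF_L s A : (ℝ × ℂ × ℝ) →ₗ[ℝ] (ℝ × ℂ × ℝ)) =
      LinearMap.prodMap (s • LinearMap.id) (LinearMap.prodMap (A : ℂ →ₗ[ℝ] ℂ) LinearMap.id) := rfl
  rw [h1, LinearMap.det_prodMap, LinearMap.det_prodMap, LinearMap.det_id, mul_one, COR.Coh_det_plane,
    LinearMap.det_smul]
  simp

theorem OriF_dt_id : COR.dt (ContinuousLinearMap.id ℝ ℂ) = 1 := by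
  simp [COR.dt]

/-- the reflection -/
noncomputable def OriF_C : ℂ →L[ℝ] ℂ := LinearMap.toContinuousLinearMap
  { toFun := fun v => (starRingEnd ℂ) v
    map_add' := fun v v' => map_add _ v v'
    map_smul' := fun r v => by
      apply Complex.ext
      · simp
      · simp }

theorem OriF_C_apply (v : ℂ) : OriF_C v = (starRingEnd ℂ) v := rfl

theorem OriF_dt_C : COR.dt OriF_C = -1 := by
  simp [COR.dt, OriF_C_apply]

/-- an affine change of coordinates -/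
theorem OriF_aff {Φ Ψ : ℝ × ℂ × ℝ → SP} (L : (ℝ × ℂ × ℝ) →L[ℝ] (ℝ × ℂ × ℝ)) {q q' : ℝ × ℂ × ℝ}
    (h : IsLocalDiffeomorphAt 𝓘(ℝ, ℝ × ℂ × ℝ) ISP ∞ Φ q')
    (he : Ψ =ᶠ[𝓝 q] fun x => Φ (q' + L (x - q))) :
    oJ Ψ q = oJ Φ q' * LinearMap.det (L : (ℝ × ℂ × ℝ) →ₗ[ℝ] (ℝ × ℂ × ℝ)) := by
  set g : ℝ × ℂ × ℝ → ℝ × ℂ × ℝ := fun x => q' + L (x - q) with hg
  have hg0 : g q = q' := by
    show q' + L (q - q) = q'
    rw [sub_self, map_zero, add_zero]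
  have hgd : HasFDerivAt g L q := by
    have h1 : HasFDerivAt (fun x : ℝ × ℂ × ℝ => x - q) (ContinuousLinearMap.id ℝ _) q :=
      (hasFDerivAt_id q).sub_const _
    have h2 := L.hasFDerivAt.comp q h1
    rw [ContinuousLinearMap.comp_id] at h2
    exact h2.const_add _
  have hgs : ContDiff ℝ ∞ g :=
    contDiff_const.add (L.contDiff.comp (contDiff_id.sub contDiff_const))
  have h3 := oJ_comp (Φ := Φ) (Ψ := Ψ) (g := g) (q := q) (by rw [hg0]; exact h) hgs.contDiffAt he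
  rw [h3, hgd.fderiv, hg0]

theorem OriF_eq {Φ Ψ : ℝ × ℂ × ℝ → SP} {q : ℝ × ℂ × ℝ}
    (h : IsLocalDiffeomorphAt 𝓘(ℝ, ℝ × ℂ × ℝ) ISP ∞ Φ q) (he : Ψ =ᶠ[𝓝 q] Φ) : oJ Ψ q = oJ Φ q := by
  have h1 := OriF_aff (Φ := Φ) (Ψ := Ψ) (ContinuousLinearMap.id ℝ (ℝ × ℂ × ℝ)) (q := q) (q' := q) h
    (by
      filter_upwards [he] with x hx
      rw [hx]
      show Φ x = Φ (q + (x - q))
      rw [add_sub_cancel])
  rw [h1]
  have h2 : ((ContinuousLinearMap.id ℝ (ℝ × ℂ × ℝ) : (ℝ × ℂ × ℝ) →L[ℝ] (ℝ × ℂ × ℝ)) :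
      (ℝ × ℂ × ℝ) →ₗ[ℝ] (ℝ × ℂ × ℝ)) = LinearMap.id := rfl
  rw [h2, LinearMap.det_id, mul_one]

/-- sign along a segment -/
theorem OriF_seg {Φ : ℝ × ℂ × ℝ → SP} (p q : ℝ × ℂ × ℝ)
    (h : ∀ x : ℝ, 0 ≤ x → x ≤ 1 → IsLocalDiffeomorphAt 𝓘(ℝ, ℝ × ℂ × ℝ) ISP ∞ Φ (p + x • (q - p))) :
    0 < oJ Φ p * oJ Φ q := by
  have hf : ∀ x ∈ uIcc (0 : ℝ) 1, ContinuousAt (fun x : ℝ => oJ Φ (p + x • (q - p))) x ∧
      oJ Φ (p + x • (q - p)) ≠ 0 := by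
    intro x hx
    rw [uIcc_of_le zero_le_one] at hx
    obtain ⟨h4, h5⟩ := oJ_loc (h x hx.1 hx.2)
    refine ⟨?_, h5⟩
    have h6 : ContinuousAt (fun x : ℝ => p + x • (q - p)) x := by fun_prop
    exact ContinuousAt.comp (g := oJ Φ) (f := fun x : ℝ => p + x • (q - p)) h4 h6
  have h1 := COR.Coh_sign (f := fun x : ℝ => oJ Φ (p + x • (q - p)))
    (fun x hx => (hf x hx).1.continuousWithinAt) (fun x hx => (hf x hx).2)
  simpa using h1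

section torus
variable {κ κ' : ℝ × ℂ × ℝ → SP}

theorem posT_all (h : ThickT ISP κ) (hp : PosT κ) {l : ℝ} {v : ℂ} {t : ℝ} (hv : ‖v‖ < 1) : 0 < oJ κ (l, v, t) := by
  have h1 := OriF_seg (Φ := κ) (0, 0, 0) (l, v, t) (by
    intro x hx0 hx1
    have e : ((0, 0, 0) : ℝ × ℂ × ℝ) + x • ((l, v, t) - (0, 0, 0)) = (x * l, x • v, x * t) := by
      refine Prod.ext ?_ (Prod.ext ?_ ?_) <;> simp
    rw [e]
    refine h.loc _ _ _ ?_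
    rw [norm_smul, Real.norm_of_nonneg hx0]
    nlinarith [norm_nonneg v])
  exact (mul_pos_iff_of_pos_left hp).1 h1

theorem posT_or (h : ThickT ISP κ) : PosT κ ∨ PosT (fun q => κ (q.1, (starRingEnd ℂ) q.2.1, q.2.2)) := by
  have hl := h.loc 0 0 0 (by simp)
  have h1 := OriF_aff (Φ := κ) (Ψ := fun q => κ (q.1, (starRingEnd ℂ) q.2.1, q.2.2)) (OriF_L 1 OriF_C)
    (q := (0, 0, 0)) (q' := (0, 0, 0)) hl (by
      refine Eventually.of_forall fun x => ?_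
      show κ (x.1, (starRingEnd ℂ) x.2.1, x.2.2) = κ ((0, 0, 0) + OriF_L 1 OriF_C (x - (0, 0, 0)))
      congr 1
      refine Prod.ext ?_ (Prod.ext ?_ ?_)
      · simp [OriF_L]
      · simp [OriF_L, OriF_C_apply]
      · simp [OriF_L])
  rw [OriF_L_det, OriF_dt_C] at h1
  rcases lt_or_gt_of_ne (oJ_loc hl).2 with h2 | h2
  · right
    unfold PosT
    rw [h1]
    linarith
  · left
    exact h2

theorem posT_germ (h : ThickT ISP κ) (hp : PosT κ) {η : ℝ} (hη : 0 < η)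
    (he : ∀ (l : ℝ) (v : ℂ) (t : ℝ), ‖v‖ < η → κ' (l, v, t) = κ (l, v, t)) : PosT κ' := by
  have h1 : oJ κ' (0, 0, 0) = oJ κ (0, 0, 0) := by
    refine OriF_eq (h.loc 0 0 0 (by simp)) ?_
    have h2 : ContinuousAt (fun q : ℝ × ℂ × ℝ => ‖q.2.1‖) (0, 0, 0) := by fun_prop
    have h3 : ∀ᶠ q : ℝ × ℂ × ℝ in 𝓝 (0, 0, 0), ‖q.2.1‖ < η :=
      h2.eventually (gt_mem_nhds (by simpa using hη))
    filter_upwards [h3] with q hq
    exact he q.1 q.2.1 q.2.2 hq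
  unfold PosT
  rw [h1]
  exact hp

theorem posT_rep (h : ThickT ISP κ) (hp : PosT κ) {φ : ℝ → ℝ} (hφ : ContDiff ℝ ∞ φ) (hφ' : ∀ l, 0 < deriv φ l) :
    PosT (fun q => κ (φ q.1, q.2)) := by
  have hg : ContDiff ℝ ∞ (fun q : ℝ × ℂ × ℝ => ((φ q.1, q.2) : ℝ × ℂ × ℝ)) :=
    (hφ.comp contDiff_fst).prodMk contDiff_snd
  have hd : HasFDerivAt (fun q : ℝ × ℂ × ℝ => ((φ q.1, q.2) : ℝ × ℂ × ℝ))
      (OriF_L (deriv φ 0) (ContinuousLinearMap.id ℝ ℂ)) (0, 0, 0) := by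
    have h1 : HasDerivAt φ (deriv φ 0) 0 := (hφ.differentiable (by simp) 0).hasDerivAt
    have h2 : HasFDerivAt (fun q : ℝ × ℂ × ℝ => φ q.1)
        ((ContinuousLinearMap.toSpanSingleton ℝ (deriv φ 0)).comp (ContinuousLinearMap.fst ℝ ℝ (ℂ × ℝ))) (0, 0, 0) :=
      HasFDerivAt.comp ((0, 0, 0) : ℝ × ℂ × ℝ) (g := φ) (f := fun q : ℝ × ℂ × ℝ => q.1) h1.hasFDerivAt hasFDerivAt_fst
    have h3 := h2.prodMk (hasFDerivAt_snd (𝕜 := ℝ) (E := ℝ) (F := ℂ × ℝ) (p := ((0, 0, 0) : ℝ × ℂ × ℝ)))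
    refine h3.congr_fderiv ?_
    apply ContinuousLinearMap.ext
    rintro ⟨x, v, t⟩
    refine Prod.ext ?_ (Prod.ext ?_ ?_)
    · simp [OriF_L, mul_comm]
    · simp [OriF_L]
    · simp [OriF_L]
  have h1 := oJ_comp (Φ := κ) (Ψ := fun q => κ (φ q.1, q.2))
    (g := fun q : ℝ × ℂ × ℝ => ((φ q.1, q.2) : ℝ × ℂ × ℝ)) (q := (0, 0, 0)) (h.loc _ _ _ (by simp))
    hg.contDiffAt EventuallyEq.rfl
  rw [hd.fderiv, OriF_L_det, OriF_dt_id] at h1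
  unfold PosT
  rw [h1]
  have h2 : 0 < oJ κ (φ 0, 0, 0) := posT_all h hp (by simp)
  have h3 := hφ' 0
  positivity

theorem posT_core {a : ℝ → SP → SP} (ha : Act ISP a) (h : ThickT ISP κ) (he : Equi a κ) (hp : PosT κ)
    (h' : ThickT ISP κ') (he' : Equi a κ') (hp' : PosT κ') (hc : ∀ l, κ' (l, 0, 0) = κ (l, 0, 0)) (l : ℝ) :
    PosAt κ κ' l := by
  refine COR.Coh_posAt (J := oJ) (fun Φ q hq => oJ_loc hq) (fun Φ Ψ g q hq hg he => oJ_comp hq hg he) ha h he he'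
    (h'.loc _ _ _ (by simp)) (Eventually.of_forall fun l => (hc l).symm) ?_
  exact mul_pos (posT_all h hp (by simp)) (posT_all h' hp' (by simp))

end torus

section box
variable {b : ℂ × ℝ × ℝ → SP} {r h : ℝ}

theorem OriF_bl (hb : BBox ISP b r h) {q : ℝ × ℂ × ℝ} (hz : ‖q.2.1‖ < r) (hs : |q.1| < h) :
    IsLocalDiffeomorphAt 𝓘(ℝ, ℝ × ℂ × ℝ) ISP ∞ (fun q : ℝ × ℂ × ℝ => b (q.2.1, q.1, q.2.2)) q := by
  let sw : (ℝ × ℂ × ℝ) ≃ (ℂ × ℝ × ℝ) :=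
    ⟨fun q => (q.2.1, q.1, q.2.2), fun q => (q.2.1, q.1, q.2.2), fun q => rfl, fun q => rfl⟩
  have hs1 : ContDiff ℝ ∞ sw := by
    show ContDiff ℝ ∞ fun q : ℝ × ℂ × ℝ => ((q.2.1, q.1, q.2.2) : ℂ × ℝ × ℝ)
    fun_prop
  have hs2 : ContDiff ℝ ∞ sw.symm := by
    show ContDiff ℝ ∞ fun q : ℂ × ℝ × ℝ => ((q.2.1, q.1, q.2.2) : ℝ × ℂ × ℝ)
    fun_prop
  have hsl := CSG.ld_of_perm hs1 hs2 q
  have hbl : IsLocalDiffeomorphAt 𝓘(ℝ, ℂ × ℝ × ℝ) ISP ∞ b (sw q) := hb.loc q.2.1 q.1 q.2.2 hz hs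
  exact IsLocalDiffeomorphAt.comp (hf := hsl) (hg := hbl) ..

theorem posB_all (hr : 0 < r) (hh : 0 < h) (hb : BBox ISP b r h) (hp : PosB b) {z : ℂ} {s : ℝ} (hz : ‖z‖ < r) (hs : |s| < h) (t : ℝ) :
    0 < oJ (fun q : ℝ × ℂ × ℝ => b (q.2.1, q.1, q.2.2)) (s, z, t) := by
  have h1 := OriF_seg (Φ := fun q : ℝ × ℂ × ℝ => b (q.2.1, q.1, q.2.2)) (0, 0, 0) (s, z, t) (by
    intro x hx0 hx1
    have e : ((0, 0, 0) : ℝ × ℂ × ℝ) + x • ((s, z, t) - (0, 0, 0)) = (x * s, x • z, x * t) := by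
      refine Prod.ext ?_ (Prod.ext ?_ ?_) <;> simp
    rw [e]
    refine OriF_bl hb ?_ ?_
    · show ‖x • z‖ < r
      rw [norm_smul, Real.norm_of_nonneg hx0]
      nlinarith [norm_nonneg z]
    · show |x * s| < h
      rw [abs_mul, abs_of_nonneg hx0]
      nlinarith [abs_nonneg s])
  exact (mul_pos_iff_of_pos_left hp).1 h1

theorem posB_or (hr : 0 < r) (hh : 0 < h) (hb : BBox ISP b r h) :
    PosB b ∨ PosB (fun q => b ((starRingEnd ℂ) q.1, q.2)) := by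
  have hl := OriF_bl (q := (0, 0, 0)) hb (by simpa using hr) (by simpa using hh)
  have h1 := OriF_aff (Φ := fun q : ℝ × ℂ × ℝ => b (q.2.1, q.1, q.2.2))
    (Ψ := fun q : ℝ × ℂ × ℝ => b ((starRingEnd ℂ) q.2.1, q.1, q.2.2)) (OriF_L 1 OriF_C)
    (q := (0, 0, 0)) (q' := (0, 0, 0)) hl (by
      refine Eventually.of_forall fun x => ?_
      have e : ((0, 0, 0) : ℝ × ℂ × ℝ) + OriF_L 1 OriF_C (x - (0, 0, 0)) = (x.1, (starRingEnd ℂ) x.2.1, x.2.2) := by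
        refine Prod.ext ?_ (Prod.ext ?_ ?_)
        · simp [OriF_L]
        · simp [OriF_L, OriF_C_apply]
        · simp [OriF_L]
      show b ((starRingEnd ℂ) x.2.1, x.1, x.2.2) = (fun q : ℝ × ℂ × ℝ => b (q.2.1, q.1, q.2.2)) ((0, 0, 0) + OriF_L 1 OriF_C (x - (0, 0, 0)))
      rw [e])
  rw [OriF_L_det, OriF_dt_C] at h1
  rcases lt_or_gt_of_ne (oJ_loc hl).2 with h2 | h2
  · right
    show 0 < oJ (fun q : ℝ × ℂ × ℝ => b ((starRingEnd ℂ) q.2.1, q.1, q.2.2)) (0, 0, 0)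
    rw [h1]
    linarith
  · left
    exact h2

theorem posB_shift (hr : 0 < r) (hh : 0 < h) (hb : BBox ISP b r h) (hp : PosB b) {z₀ : ℂ} (hz : ‖z₀‖ < r) :
    PosB (fun q => b (z₀ + q.1, q.2)) := by
  have hl := OriF_bl (q := (0, z₀, 0)) hb hz (by simpa using hh)
  have h1 := OriF_aff (Φ := fun q : ℝ × ℂ × ℝ => b (q.2.1, q.1, q.2.2))
    (Ψ := fun q : ℝ × ℂ × ℝ => b (z₀ + q.2.1, q.1, q.2.2)) (ContinuousLinearMap.id ℝ (ℝ × ℂ × ℝ))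
    (q := (0, 0, 0)) (q' := (0, z₀, 0)) hl (by
      refine Eventually.of_forall fun x => ?_
      have e : ((0, z₀, 0) : ℝ × ℂ × ℝ) + (ContinuousLinearMap.id ℝ (ℝ × ℂ × ℝ)) (x - (0, 0, 0)) = (x.1, z₀ + x.2.1, x.2.2) := by
        refine Prod.ext ?_ (Prod.ext ?_ ?_) <;> simp
      show b (z₀ + x.2.1, x.1, x.2.2) = (fun q : ℝ × ℂ × ℝ => b (q.2.1, q.1, q.2.2)) ((0, z₀, 0) + (ContinuousLinearMap.id ℝ (ℝ × ℂ × ℝ)) (x - (0, 0, 0)))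
      rw [e])
  have h2 : ((ContinuousLinearMap.id ℝ (ℝ × ℂ × ℝ) : (ℝ × ℂ × ℝ) →L[ℝ] (ℝ × ℂ × ℝ)) :
      (ℝ × ℂ × ℝ) →ₗ[ℝ] (ℝ × ℂ × ℝ)) = LinearMap.id := rfl
  rw [h2, LinearMap.det_id, mul_one] at h1
  show 0 < oJ (fun q : ℝ × ℂ × ℝ => b (z₀ + q.2.1, q.1, q.2.2)) (0, 0, 0)
  rw [h1]
  exact posB_all hr hh hb hp hz (by simpa using hh) 0

theorem posB_arc (hr : 0 < r) (hh : 0 < h) (hb : BBox ISP b r h) (hp : PosB b) {ε w c : ℝ} (hε : ε = 1 ∨ ε = -1)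
    (hw : 0 < w) :
    IsLocalDiffeomorphAt 𝓘(ℝ, ℝ × ℂ × ℝ) ISP ∞ (fun q : ℝ × ℂ × ℝ => b (cj ε q.2.1 / 2, w * ε * (q.1 - c), q.2.2)) (c, 0, 0) ∧
    0 < oJ (fun q : ℝ × ℂ × ℝ => b (cj ε q.2.1 / 2, w * ε * (q.1 - c), q.2.2)) (c, 0, 0) := by
  have hl := OriF_bl (q := (0, 0, 0)) hb (by simpa using hr) (by simpa using hh)
  have e : ∀ x : ℝ × ℂ × ℝ, ((0, 0, 0) : ℝ × ℂ × ℝ) + COR.CohL (w * ε) ε (x - (c, 0, 0)) =
      (w * ε * (x.1 - c), cj ε x.2.1 / 2, x.2.2) := by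
    intro x
    rw [COR.CohL_apply]
    refine Prod.ext ?_ (Prod.ext ?_ ?_) <;> simp
  have heq : (fun q : ℝ × ℂ × ℝ => b (cj ε q.2.1 / 2, w * ε * (q.1 - c), q.2.2)) =
      (fun q : ℝ × ℂ × ℝ => b (q.2.1, q.1, q.2.2)) ∘ (fun x => (0, 0, 0) + COR.CohL (w * ε) ε (x - (c, 0, 0))) := by
    funext x
    show b (cj ε x.2.1 / 2, w * ε * (x.1 - c), x.2.2) =
      (fun q : ℝ × ℂ × ℝ => b (q.2.1, q.1, q.2.2)) ((0, 0, 0) + COR.CohL (w * ε) ε (x - (c, 0, 0)))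
    rw [e]
  have hεw : w * ε ≠ 0 := by
    rcases hε with rfl | rfl
    · simpa using hw.ne'
    · simpa using hw.ne'
  have hgs : ContDiff ℝ ∞ (fun x : ℝ × ℂ × ℝ => ((0, 0, 0) : ℝ × ℂ × ℝ) + COR.CohL (w * ε) ε (x - (c, 0, 0))) :=
    contDiff_const.add ((COR.CohL (w * ε) ε).contDiff.comp (contDiff_id.sub contDiff_const))
  have hgd : ∀ q, HasFDerivAt (fun x : ℝ × ℂ × ℝ => ((0, 0, 0) : ℝ × ℂ × ℝ) + COR.CohL (w * ε) ε (x - (c, 0, 0)))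
      (COR.CohL (w * ε) ε) q := by
    intro q
    have h1 : HasFDerivAt (fun q : ℝ × ℂ × ℝ => q - (c, 0, 0)) (ContinuousLinearMap.id ℝ _) q :=
      (hasFDerivAt_id q).sub_const _
    have h2 := (COR.CohL (w * ε) ε).hasFDerivAt.comp q h1
    rw [ContinuousLinearMap.comp_id] at h2
    exact h2.const_add _
  have hgl : IsLocalDiffeomorphAt 𝓘(ℝ, ℝ × ℂ × ℝ) 𝓘(ℝ, ℝ × ℂ × ℝ) ∞
      (fun x : ℝ × ℂ × ℝ => ((0, 0, 0) : ℝ × ℂ × ℝ) + COR.CohL (w * ε) ε (x - (c, 0, 0))) (c, 0, 0) := by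
    refine CSG.ld_of_fderiv (Eventually.of_forall fun y => hgs.contDiffAt) rfl ?_
    rintro ⟨x, v, t⟩ hv
    rw [(hgd _).fderiv, COR.CohL_apply] at hv
    have k1 : w * ε * x = 0 := congrArg Prod.fst hv
    have k2 : cj ε v / 2 = 0 := congrArg (fun p : ℝ × ℂ × ℝ => p.2.1) hv
    have k3 : t = 0 := congrArg (fun p : ℝ × ℂ × ℝ => p.2.2) hv
    have k4 : x = 0 := by
      rcases mul_eq_zero.1 k1 with h | h
      · exact absurd h hεw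
      · exact h
    have k5 : v = 0 := by
      rw [← norm_eq_zero, ← RSG.cj_norm hε v, norm_eq_zero]
      simpa using k2
    rw [k3, k4, k5]; rfl
  constructor
  · rw [heq]
    refine IsLocalDiffeomorphAt.comp (hf := hgl) (hg := ?_) ..
    rw [sub_self, map_zero, add_zero]
    exact hl
  · have h1 := OriF_aff (Φ := fun q : ℝ × ℂ × ℝ => b (q.2.1, q.1, q.2.2))
      (Ψ := fun q : ℝ × ℂ × ℝ => b (cj ε q.2.1 / 2, w * ε * (q.1 - c), q.2.2)) (COR.CohL (w * ε) ε)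
      (q := (c, 0, 0)) (q' := (0, 0, 0)) hl (by rw [heq]; exact EventuallyEq.rfl)
    rw [h1, COR.CohL_det]
    have h2 : w * ε * (ε / 4) = w / 4 := by
      rcases hε with rfl | rfl <;> ring
    rw [h2]
    have h3 : 0 < oJ (fun q : ℝ × ℂ × ℝ => b (q.2.1, q.1, q.2.2)) (0, 0, 0) := hp
    positivity

/-- the thickening of an arc given by a positive chart is positive -/
theorem posAt_arc {a : ℝ → SP → SP} (ha : Act ISP a) {κ : ℝ × ℂ × ℝ → SP} (hκ : ThickT ISP κ) (he : Equi a κ)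
    (hpκ : PosT κ) (hr : 0 < r) (hh : 0 < h) (hb : BBox ISP b r h) (heb : EquiB a b) (hp : PosB b) {ε w c : ℝ}
    (hε : ε = 1 ∨ ε = -1) (hw : 0 < w) (hc : ∀ᶠ l in 𝓝 c, κ (l, 0, 0) = b (0, w * ε * (l - c), 0)) :
    PosAt κ (fun q : ℝ × ℂ × ℝ => b (cj ε q.2.1 / 2, w * ε * (q.1 - c), q.2.2)) c := by
  obtain ⟨k1, k2⟩ := posB_arc hr hh hb hp hε hw (c := c)
  refine COR.Coh_posAt (J := oJ) (fun Φ q hq => oJ_loc hq) (fun Φ Ψ g q hq hg he => oJ_comp hq hg he) ha hκ he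
    ?_ k1 ?_ ?_
  · intro l v t
    exact heb _ _ _
  · filter_upwards [hc] with l hl
    rw [hl]
    show b (0, w * ε * (l - c), 0) = b (cj ε 0 / 2, w * ε * (l - c), 0)
    rw [RSG.cj_zero, zero_div]
  · exact mul_pos (posT_all hκ hpκ (by simp)) k2

/-- conversely, `κ` is positive if it contains a positive arc -/
theorem posT_of_arc {κ : ℝ × ℂ × ℝ → SP} (hκ : ThickT ISP κ) (hr : 0 < r) (hh : 0 < h) (hb : BBox ISP b r h)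
    (hp : PosB b) {ε w c : ℝ} (hε : ε = 1 ∨ ε = -1) (hw : 0 < w)
    (hc : ∀ᶠ q in 𝓝 ((c, 0, 0) : ℝ × ℂ × ℝ), κ q = b (cj ε q.2.1 / 2, w * ε * (q.1 - c), q.2.2)) : PosT κ := by
  obtain ⟨k1, k2⟩ := posB_arc hr hh hb hp hε hw (c := c)
  have h1 : oJ κ (c, 0, 0) = oJ (fun q : ℝ × ℂ × ℝ => b (cj ε q.2.1 / 2, w * ε * (q.1 - c), q.2.2)) (c, 0, 0) :=
    OriF_eq k1 hc
  have h2 := OriF_seg (Φ := κ) (c, 0, 0) (0, 0, 0) (by
    intro x hx0 hx1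
    have e : ((c, 0, 0) : ℝ × ℂ × ℝ) + x • ((0, 0, 0) - (c, 0, 0)) = (c + x * (0 - c), 0, 0) := by
      refine Prod.ext ?_ (Prod.ext ?_ ?_) <;> simp
    rw [e]
    exact hκ.loc _ _ _ (by simp))
  rw [h1] at h2
  exact (mul_pos_iff_of_pos_left k2).1 h2

end box

end Pool.Agent.LKF
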