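import Pool.Agent.LKF.Def2
import Pool.Agent.COR.Glu
import Pool.Agent.COR.Cmp
import Pool.Agent.COR.Kmv
import Pool.Agent.LKF.OriF

/-!
# LKF/ShrM: shrinking a thick torus   (difficulty 3)

`κ' (l, v, t) = κ (l, g (‖v‖²) • v, t)` with `g` from `COR.exists_compress ε` (`Glu_G g 0`, see COR/Glu.lean, `Glu_P g 0`: local diffeomorphism `Glu_P_ld`, injective `Glu_G_inj`, `Glu_G_small`, `Glu_G_one`).
`ε ≤ 1/2` such that `κ (l, v, t) ∉ F` for `‖v‖ ≤ ε`: compactness of `[0,1] × {0} × [0,1]` in `l, t` and periodicity (tube lemma; `κ` is continuous for `‖v‖ < 1`, `F` closed), as in `COR.Glu_tub` (with `U = ∅`, `T = ∅`: maybe `Glu_tub` itself can be used).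
Tube of `κ'`: contained in `κ '' {‖v‖ < ε}`, its closure in the closed set `κ '' {‖v‖ ≤ ε}` (`COR.Kmv_closed`, `ε < 1`), which is contained in the tube of `κ` and does not meet `F`.
-/

open scoped Manifold ContDiff Topology
open Set Filter
open Complex (I)
open Pool.Agent.CSG (stp)
open Pool.Agent.RSG (E4 S3 S4 ex cj c1 c2 ht fh pS3)
open Pool.Agent.RBM (ThickT OnT Box frc)
open Pool.Agent.RBH (Tube BoxS)
open Pool.Agent.PTH (SP ISP Act)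
open Pool.Agent.COR (Equi EquiB BBox OutW PosAt half dv dt PerS)
open Pool.Agent.KNT (Dom BalC Tubes Str Str2 CD)
open Pool.Agent.KNH (rot Hat circ pb Emb Fam ThinOK thn bx)
open Pool.Agent.CLG (io pol)

namespace Pool.Agent.LKF

universe u

variable {E : Type*} [NormedAddCommGroup E] [NormedSpace ℝ E] {H : Type*} [TopologicalSpace H]
  {J : ModelWithCorners ℝ E H} {P : Type*} [TopologicalSpace P] [ChartedSpace H P]

theorem ShrM_tub [T2Space P] {κ : ℝ × ℂ × ℝ → P} (hκ : ThickT J κ) {F : Set P} (hF : IsClosed F)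
    (h : ∀ l t, κ (l, 0, t) ∉ F) :
    ∃ ε : ℝ, 0 < ε ∧ ε < 1 ∧ ∀ (l : ℝ) (v : ℂ) (t : ℝ), ‖v‖ ≤ ε → κ (l, v, t) ∉ F := by
  obtain ⟨W, hW⟩ : ∃ W : Set ((ℝ × ℝ) × ℂ), W = {p | ‖p.2‖ < 1 ∧ κ (p.1.1, p.2, p.1.2) ∉ F} :=
    ⟨_, rfl⟩
  have hWo : IsOpen W := by
    rw [isOpen_iff_mem_nhds]
    rintro ⟨⟨l, t⟩, v⟩ hp
    rw [hW] at hp
    obtain ⟨h1, h2⟩ := hp
    have c1 : ContinuousAt (fun p : (ℝ × ℝ) × ℂ => κ (p.1.1, p.2, p.1.2)) ((l, t), v) := by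
      have c2 : ContinuousAt κ (l, v, t) := CSG.ld_continuousAt (hκ.loc l v t h1)
      have c3 : ContinuousAt (fun p : (ℝ × ℝ) × ℂ => (p.1.1, p.2, p.1.2)) ((l, t), v) := by
        fun_prop
      exact ContinuousAt.comp (f := fun p : (ℝ × ℝ) × ℂ => (p.1.1, p.2, p.1.2)) c2 c3
    have c4 : ∀ᶠ p : (ℝ × ℝ) × ℂ in 𝓝 ((l, t), v), κ (p.1.1, p.2, p.1.2) ∉ F :=
      c1.eventually_mem (hF.isOpen_compl.mem_nhds h2)
    have c5 : ∀ᶠ p : (ℝ × ℝ) × ℂ in 𝓝 ((l, t), v), ‖p.2‖ < 1 :=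
      (continuous_snd.norm).continuousAt.eventually_lt continuousAt_const h1
    rw [hW]
    filter_upwards [c4, c5] with p hp1 hp2 using ⟨hp2, hp1⟩
  obtain ⟨u, v, hu, hv, hsu, htv, huv⟩ := generalized_tube_lemma
    (s := (Icc (0 : ℝ) 1) ×ˢ Icc (0 : ℝ) 1)
    (isCompact_Icc.prod isCompact_Icc) (t := {(0 : ℂ)})
    isCompact_singleton hWo (by
      rintro ⟨⟨l, t⟩, z⟩ ⟨-, hz⟩
      rw [mem_singleton_iff] at hz
      change z = 0 at hz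
      rw [hz, hW]
      exact ⟨by change ‖(0 : ℂ)‖ < 1; rw [norm_zero]; exact one_pos, h l t⟩)
  obtain ⟨ε₁, hε₁, hball⟩ := Metric.isOpen_iff.1 hv 0 (htv rfl)
  refine ⟨min ε₁ 1 / 2, by positivity, ?_, ?_⟩
  · have := min_le_right ε₁ 1
    linarith
  intro l v' t hv'
  have hlt : ‖v'‖ < ε₁ := by
    have h3 := min_le_left ε₁ 1
    linarith
  have h1 : ((Int.fract l, Int.fract t), v') ∈ W := by
    apply huv
    refine ⟨hsu ⟨⟨Int.fract_nonneg _, (Int.fract_lt_one _).le⟩, Int.fract_nonneg _,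
      (Int.fract_lt_one _).le⟩, hball ?_⟩
    rw [mem_ball_zero_iff]
    exact hlt
  rw [hW] at h1
  have h2 := h1.2
  have h4 := COR.Kmv_kap hκ (Int.fract l, v', Int.fract t) ⌊l⌋ ⌊t⌋
  have h5 : ((Int.fract l, v', Int.fract t) : ℝ × ℂ × ℝ) + ((⌊l⌋ : ℝ), 0, (⌊t⌋ : ℝ)) =
      (l, v', t) := by
    simp
  rw [h5] at h4
  rw [h4]
  exact h2

theorem shrink [T2Space P] {κ : ℝ × ℂ × ℝ → P} (hκ : ThickT J κ) {F : Set P} (hF : IsClosed F)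
    (h : ∀ l t, κ (l, 0, t) ∉ F) :
    ∃ κ' : ℝ × ℂ × ℝ → P, ThickT J κ' ∧ (∀ a : ℝ → P → P, Equi a κ → Equi a κ') ∧
      (∃ η : ℝ, 0 < η ∧ ∀ (l : ℝ) (v : ℂ) (t : ℝ), ‖v‖ < η → κ' (l, v, t) = κ (l, v, t)) ∧
      Tube κ' ⊆ Tube κ ∧ closure (Tube κ') ⊆ Tube κ ∧ Disjoint (closure (Tube κ')) F := by
  obtain ⟨ε, hε, hε1, hεF⟩ := ShrM_tub hκ hF h
  obtain ⟨g, g1, ⟨δ, hδ, g2⟩, g3, g4, g5⟩ := COR.exists_compress hε
  have hg : COR.GluC g δ ε := ⟨g1, hδ, g2, g3, g4, g5⟩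
  have hs01 : (0 : ℝ) ≤ 0 ∧ (0 : ℝ) ≤ 1 := ⟨le_refl _, zero_le_one⟩
  have hcl : closure (Tube (fun q : ℝ × ℂ × ℝ => κ (COR.Glu_P g (fun _ => 0) q))) ⊆
      κ '' {z : ℝ × ℂ × ℝ | ‖z.2.1‖ ≤ ε} := by
    refine closure_minimal ?_ (COR.Kmv_closed hκ hε1)
    rintro p ⟨l, v, t, hv, rfl⟩
    exact ⟨COR.Glu_P g (fun _ => 0) (l, v, t), (COR.Glu_G_small hg hε hv).le, rfl⟩
  have hcT : κ '' {z : ℝ × ℂ × ℝ | ‖z.2.1‖ ≤ ε} ⊆ Tube κ := by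
    rintro p ⟨⟨l, v, t⟩, hv, rfl⟩
    exact ⟨l, v, t, lt_of_le_of_lt hv hε1, rfl⟩
  refine ⟨fun q => κ (COR.Glu_P g (fun _ => 0) q), ⟨fun l v t => ?_, fun l v t => ?_,
    fun l v t hv => ?_, ?_⟩, ?_, ?_, ?_, ?_, ?_⟩
  · exact hκ.perl l _ t
  · exact hκ.pert l _ t
  · exact IsLocalDiffeomorphAt.comp
      (hf := COR.Glu_P_ld hg contDiff_const (fun _ => hs01) (l, v, t))
      (hg := hκ.loc l _ t (lt_of_le_of_lt (COR.Glu_G_le hg hs01 v) hv))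
  · intro l v t l' v' t' hv hv' he
    obtain ⟨e1, e2, e3⟩ := hκ.inj _ _ _ _ _ _ (lt_of_le_of_lt (COR.Glu_G_le hg hs01 v) hv)
      (lt_of_le_of_lt (COR.Glu_G_le hg hs01 v') hv') he
    exact ⟨COR.Glu_G_inj hg hs01 e1, e2, e3⟩
  · intro a ha l v t
    exact ha l _ t
  · refine ⟨Real.sqrt δ, Real.sqrt_pos.2 hδ, fun l v t hv => ?_⟩
    have e4 : ‖v‖ ^ 2 ≤ δ := ((Real.lt_sqrt (norm_nonneg v)).1 hv).le
    change κ (l, COR.Glu_G g 0 v, t) = _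
    rw [COR.Glu_G_one hg 0 e4]
  · exact subset_closure.trans (hcl.trans hcT)
  · exact hcl.trans hcT
  · rw [Set.disjoint_left]
    intro p hp hpF
    obtain ⟨⟨l, v, t⟩, hv, rfl⟩ := hcl hp
    exact hεF l v t hv hpF

end Pool.Agent.LKF
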