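import Pool.Agent.LKF.Def2
import Pool.Agent.KNH.StrM
import Pool.Agent.KNH.RepC

/-!
# LKF/StrN: strands   (difficulty 3)

From KNH/StrM.lean (`StrM_one`, `StrM_lift`, and the proof of `exists_strands`), `RepC_inj`, `RepC_per` (KNH/RepC.lean) give `hinj`, `hper`.
* `exists_win1`: `StrM_one` (`z = δ`; `hS` with `w = 0`): `f, ε`.  `c (f u) = c (f u')` iff `u = u'` (`β`, `io` injective), so `f u - f u'` is never a nonzero.. integer for `u ≠ u'`; as in step (3) of StrM, `|f u - f u'| < 1` (intermediate value theorem): `len`.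
  `strand` clear.  `off`: `c l = io (β (δ + w, s))` (first components, `K l = (c l, 1)`): `w = 0` by `hS`, `c l = c (f (ε s))`, `l = f (ε s) + m`, `f (-1) < f (ε s) < f 1` as `|s| < 3/4`; `f 1 ≤ l ≤ f (-1) + 1` is a contradiction for every `m`.
* `exists_win2`: `f₂ u' - f₁ u` is never an integer (`hd`), replace `f₂` by `f₂ + m` with `0 < f₂ 0 - f₁ 0 < 1`; by the intermediate value theorem `0 < f₂ u' - f₁ u < 1` for all `u, u'`.
-/

open scoped Manifold ContDiff Topology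
open Set Filter
open Complex (I)
open Pool.Agent.CSG (stp)
open Pool.Agent.RSG (E4 S3 S4 ex cj c1 c2 ht fh pS3)
open Pool.Agent.RBM (ThickT OnT Box frc)
open Pool.Agent.RBH (Tube BoxS)
open Pool.Agent.PTH (SP ISP Act)
open Pool.Agent.COR (Equi EquiB BBox OutW PosAt half dv dt PerS)
open Pool.Agent.KNT (Dom BalC Tubes Str Str2 CD)
open Pool.Agent.KNH (rot Hat circ pb Emb Fam ThinOK thn bx)
open Pool.Agent.CLG (io pol)

namespace Pool.Agent.LKF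

universe u

/-- the arc `β (δ + w, s)` as a chart of `S3 × S1` -/
noncomputable def arc (β : ℂ × ℝ → ℂ × ℝ) (δ : ℂ) (q : ℂ × ℝ × ℝ) : SP := pb β (δ + q.1, q.2)

theorem StrN_win {κ : ℝ × ℂ × ℝ → SP} (hκ : ThickT ISP κ) {c : ℝ → S3}
    (hc : ∀ l, κ (l, 0, 0) = (c l, 1))
    {β : ℂ × ℝ → ℂ × ℝ} (hβ : Emb β) {δ : ℂ}
    (hS : ∀ (w : ℂ) (u : ℝ), ‖w‖ < 3 / 4 → ((∃ l, c l = io (β (δ + w, u))) ↔ w = 0))
    {f : ℝ → ℝ} {ε : ℝ} (hε : ε = 1 ∨ ε = -1) (hs : ContDiff ℝ ∞ f) (hd : ∀ u, 0 < deriv f u)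
    (he : ∀ u, c (f u) = io (β (δ, ε * u))) :
    Win1 (arc β δ) (fun l => (c l, 1)) f ε ∧ ∀ u u', |f u - f u'| < 1 := by
  have hper := KNH.RepC_per hκ hc
  have hinj := KNH.RepC_inj hκ hc
  have hperz : ∀ (m : ℤ) l, c (l + m) = c l := by
    intro m l
    have hp : Function.Periodic c 1 := hper
    have := hp.int_mul m l
    rwa [mul_one] at this
  have hsq : ε * ε = 1 := by rcases hε with h | h <;> rw [h] <;> norm_num
  have hε0 : ε ≠ 0 := by rcases hε with h | h <;> rw [h] <;> norm_num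
  have habs : ∀ u, |ε * u| = |u| := by
    intro u
    rcases hε with h | h <;> rw [h] <;> simp
  have hm : StrictMono f := strictMono_of_deriv_pos hd
  have hne : ∀ u u', f u' - f u ≠ 1 := by
    intro u u' h
    have h1 : c (f u') = c (f u) := by
      have : f u' = f u + 1 := by linarith
      rw [this, hper]
    rw [he, he] at h1
    have h2 := (Prod.ext_iff.1 (hβ.inj (CLG.io_inj h1))).2
    simp only at h2
    have h3 : u' = u := mul_left_cancel₀ hε0 h2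
    rw [h3] at h
    norm_num at h
  have hcF : Continuous fun p : ℝ × ℝ => f p.2 - f p.1 :=
    (hs.continuous.comp continuous_snd).sub (hs.continuous.comp continuous_fst)
  have hlt : ∀ u u', f u' - f u < 1 := by
    intro u u'
    by_contra hcon
    obtain ⟨p, hp⟩ := mem_range_of_exists_le_of_exists_ge hcF
      ⟨((0, 0) : ℝ × ℝ), by simp⟩ ⟨(u, u'), not_lt.1 hcon⟩
    exact hne p.1 p.2 hp
  refine ⟨⟨hs, hd, hε, ?_, ?_, ?_⟩, ?_⟩
  · linarith [hlt (-1) 1]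
  · intro u _
    show ((c (f u), 1) : SP) = (io (β (δ + 0, ε * u)), circ 0)
    rw [he, add_zero, KNH.circ_zero]
  · intro l hl1 hl2 w s t hw hs' h
    have h1 : c l = io (β (δ + w, s)) := (Prod.ext_iff.1 h).1
    have hw0 := (hS w s hw).1 ⟨l, h1⟩
    subst hw0
    rw [add_zero] at h1
    have h2 : c (f (ε * s)) = c l := by
      rw [he, ← mul_assoc, hsq, one_mul, h1]
    obtain ⟨m, hm'⟩ := hinj _ _ h2
    have h3 : |ε * s| < 1 := by rw [habs]; linarith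
    have h4 := hm (abs_lt.1 h3).1
    have h5 := hm (abs_lt.1 h3).2
    have h6 : (0 : ℝ) < m ∧ (m : ℝ) < 1 := by constructor <;> linarith
    have h7 : (0 : ℤ) < m := by exact_mod_cast h6.1
    have h8 : m < (1 : ℤ) := by exact_mod_cast h6.2
    omega
  · intro u u'
    rw [abs_lt]
    constructor
    · linarith [hlt u u']
    · exact hlt u' u

theorem exists_win1 {κ : ℝ × ℂ × ℝ → SP} (hκ : ThickT ISP κ) {c : ℝ → S3} (hc : ∀ l, κ (l, 0, 0) = (c l, 1))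
    {β : ℂ × ℝ → ℂ × ℝ} (hβ : Emb β) {δ : ℂ}
    (hS : ∀ (w : ℂ) (u : ℝ), ‖w‖ < 3 / 4 → ((∃ l, c l = io (β (δ + w, u))) ↔ w = 0)) :
    ∃ (f : ℝ → ℝ) (ε : ℝ), Win1 (arc β δ) (fun l => (c l, 1)) f ε ∧ (∀ u, c (f u) = io (β (δ, ε * u))) ∧
      ∀ u u', |f u - f u'| < 1 := by
  obtain ⟨f, ε, hε, hs, hd, he⟩ := KNH.StrM_one (z := δ) hκ hc (KNH.RepC_per hκ hc)
    (KNH.RepC_inj hκ hc) hβ (fun u => by
      have := (hS 0 u (by norm_num)).2 rfl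
      rwa [add_zero] at this)
  obtain ⟨h1, h2⟩ := StrN_win hκ hc hβ hS hε hs hd he
  exact ⟨f, ε, h1, he, h2⟩

theorem exists_win2 {κ : ℝ × ℂ × ℝ → SP} (hκ : ThickT ISP κ) {c : ℝ → S3} (hc : ∀ l, κ (l, 0, 0) = (c l, 1))
    {β₁ β₂ : ℂ × ℝ → ℂ × ℝ} (hβ₁ : Emb β₁) (hβ₂ : Emb β₂) {δ₁ δ₂ : ℂ}
    (hS₁ : ∀ (w : ℂ) (u : ℝ), ‖w‖ < 3 / 4 → ((∃ l, c l = io (β₁ (δ₁ + w, u))) ↔ w = 0))
    (hS₂ : ∀ (w : ℂ) (u : ℝ), ‖w‖ < 3 / 4 → ((∃ l, c l = io (β₂ (δ₂ + w, u))) ↔ w = 0))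
    (hd : ∀ u u', β₁ (δ₁, u) ≠ β₂ (δ₂, u')) :
    ∃ (f₁ f₂ : ℝ → ℝ) (ε₁ ε₂ : ℝ), Win2 (arc β₁ δ₁) (arc β₂ δ₂) (fun l => (c l, 1)) f₁ f₂ ε₁ ε₂ ∧
      (∀ u, c (f₁ u) = io (β₁ (δ₁, ε₁ * u))) ∧ ∀ u, c (f₂ u) = io (β₂ (δ₂, ε₂ * u)) := by
  have hper := KNH.RepC_per hκ hc
  have hinj := KNH.RepC_inj hκ hc
  have hperz : ∀ (m : ℤ) l, c (l + m) = c l := by
    intro m l
    have hp : Function.Periodic c 1 := hper
    have := hp.int_mul m l
    rwa [mul_one] at this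
  obtain ⟨f₁, ε₁, hε₁, hs₁, hd₁, he₁⟩ := KNH.StrM_one (z := δ₁) hκ hc hper hinj hβ₁ (fun u => by
      have := (hS₁ 0 u (by norm_num)).2 rfl
      rwa [add_zero] at this)
  obtain ⟨f, ε₂, hε₂, hs, hd', he⟩ := KNH.StrM_one (z := δ₂) hκ hc hper hinj hβ₂ (fun u => by
      have := (hS₂ 0 u (by norm_num)).2 rfl
      rwa [add_zero] at this)
  have hne : ∀ u u' (m : ℤ), f u' - f₁ u ≠ m := by
    intro u u' m h
    have h1 : c (f u') = c (f₁ u) := by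
      rw [← hperz m (f₁ u)]
      congr 1
      linarith
    rw [he, he₁] at h1
    exact hd _ _ (CLG.io_inj h1).symm
  set m₀ : ℤ := ⌊f 0 - f₁ 0⌋ with hm₀
  set f₂ : ℝ → ℝ := fun u => f u - m₀ with hf₂
  have hs₂ : ContDiff ℝ ∞ f₂ := hs.sub contDiff_const
  have hd₂ : ∀ u, 0 < deriv f₂ u := by
    intro u
    have : HasDerivAt f₂ (deriv f u) u := ((hs.differentiable (by simp) u).hasDerivAt).sub_const _
    rw [this.deriv]
    exact hd' u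
  have he₂ : ∀ u, c (f₂ u) = io (β₂ (δ₂, ε₂ * u)) := by
    intro u
    rw [← he, ← hperz (-m₀) (f u)]
    congr 1
    simp [hf₂, sub_eq_add_neg]
  have hne₂ : ∀ u u' (m : ℤ), f₂ u' - f₁ u ≠ m := by
    intro u u' m h
    refine hne u u' (m + m₀) ?_
    push_cast
    simp only [hf₂] at h
    linarith
  have h0 : 0 ≤ f₂ 0 - f₁ 0 := by
    have := Int.floor_le (f 0 - f₁ 0)
    simp only [hf₂]
    linarith
  have h1 : f₂ 0 - f₁ 0 ≤ 1 := by
    have := (Int.lt_floor_add_one (f 0 - f₁ 0)).le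
    simp only [hf₂]
    linarith
  have hcF : Continuous fun p : ℝ × ℝ => f₂ p.2 - f₁ p.1 :=
    (hs₂.continuous.comp continuous_snd).sub (hs₁.continuous.comp continuous_fst)
  have hlow : ∀ u u', 0 < f₂ u' - f₁ u := by
    intro u u'
    by_contra hcon
    obtain ⟨p, hp⟩ := mem_range_of_exists_le_of_exists_ge hcF ⟨(u, u'), not_lt.1 hcon⟩
      ⟨((0, 0) : ℝ × ℝ), h0⟩
    exact hne₂ p.1 p.2 0 (by rw [Int.cast_zero]; exact hp)
  have hupp : ∀ u u', f₂ u' - f₁ u < 1 := by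
    intro u u'
    by_contra hcon
    obtain ⟨p, hp⟩ := mem_range_of_exists_le_of_exists_ge hcF ⟨((0, 0) : ℝ × ℝ), h1⟩
      ⟨(u, u'), not_lt.1 hcon⟩
    exact hne₂ p.1 p.2 1 (by rw [Int.cast_one]; exact hp)
  have w₁ := (StrN_win hκ hc hβ₁ hS₁ hε₁ hs₁ hd₁ he₁).1
  have w₂ := (StrN_win hκ hc hβ₂ hS₂ hε₂ hs₂ hd₂ he₂).1
  refine ⟨f₁, f₂, ε₁, ε₂, ⟨w₁, w₂, ?_, ?_⟩, he₁, he₂⟩
  · linarith [hlow 1 (-1)]
  · linarith [hupp (-1) 1]

end Pool.Agent.LKF
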