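import Pool.Agent.LKF.WinO
import Pool.Agent.LKF.DumM
import Pool.Agent.LKF.StrN
import Pool.Agent.LKF.ShrM
import Pool.Agent.KNH.CorM

/-!
# LKF/BunA: one torus with at most two windows   (difficulty 4)

`p₁` is the chart whose strand `z = 1` is part of the torus (if there is one), `p₂` the chart whose strand `z = -1` is part of the torus.
`BBox ISP (arc β δ) (3/4) (3/4)` (from `KNH.pb_box`), `EquiB rot (arc β δ)` (`KNH.pb_equiv`), `PosB (arc β δ)`: `posB_shift` (`|δ| = 1 < 5`, `h = 1`; the shift is by `δ`).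
* `some, some`: `exists_win2`, `exists_win` (hypothesis `hF` of `exists_win`: if `f₁ (5/8) ≤ l ≤ f₂ (-(5/8))` .. then no strand point with `|u| < 5/8`: `c l = io (β₁ (1, u)) = c (f₁ (ε₁ u))`, `l = f₁ (ε₁ u) + m` (`KNH.RepC_inj`) contradicts `|f| < ..` (use `ord₁`, `ord₂`, monotonicity)).
* `some, none`: `exists_win1`, `exists_dummy` with `F = Fc ∪ {arc β₁ 1 (w, s, t) | ‖w‖ ≤ 3/4, |s| ≤ 3/4}` (closed), `l₀` in the middle between `f₁ 1` and `f₁ (-1) + 1` (not in `F`: by `hS₁` and `hFc'`), then `exists_win`; the points of the window at `3/4` are `A₂ (..) ∉ F`.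
* `none, some`: the same with `win2_swap` (`exists_dummy` for the arc of `β₂`, which plays the role of `A₁`; then swap) : windows: `A₁' = dummy` at `1/4`, `A₂' = arc β₂ (-1)` at `3/4`; note `f₁ + 1` in `win2_swap`.
* `none, none`: `shrink` with `F = Fc`: `κ = κ'`, `φ = id` (the germ: `Inv0.germ`).
`φ` continuous: `ContDiff.continuous`; `κ (l, 0, 0) = κ₀ (φ l, 0, 0) = (c (φ l), 1)`.
-/

open scoped Manifold ContDiff Topology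
open Set Filter
open Complex (I)
open Pool.Agent.CSG (stp)
open Pool.Agent.RSG (E4 S3 S4 ex cj c1 c2 ht fh pS3)
open Pool.Agent.RBM (ThickT OnT Box frc)
open Pool.Agent.RBH (Tube BoxS)
open Pool.Agent.PTH (SP ISP Act)
open Pool.Agent.COR (Equi EquiB BBox OutW PosAt half dv dt PerS)
open Pool.Agent.KNT (Dom BalC Tubes Str Str2 CD)
open Pool.Agent.KNH (rot Hat circ pb Emb Fam ThinOK thn bx)
open Pool.Agent.CLG (io pol)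

namespace Pool.Agent.LKF

universe u

theorem BunA_bbox {β : ℂ × ℝ → ℂ × ℝ} (hβ : Emb β) (δ : ℂ) (r : ℝ) {h : ℝ} (hh : h ≤ 1) :
    BBox ISP (arc β δ) r h where
  per := fun z s t => (KNH.pb_box hβ 1).per _ _ _
  loc := fun z s t _ hs => by
    have h1 := (KNH.pb_box hβ (‖δ + z‖ + 1)).loc (δ + z) s t (by linarith) (by linarith)
    let F : (ℂ × ℝ × ℝ) ≃ (ℂ × ℝ × ℝ) := ⟨fun q => (δ + q.1, q.2), fun q => (q.1 - δ, q.2),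
      fun q => by simp, fun q => by simp⟩
    have hs1 : ContDiff ℝ ∞ F := by
      show ContDiff ℝ ∞ fun q : ℂ × ℝ × ℝ => ((δ + q.1, q.2) : ℂ × ℝ × ℝ)
      fun_prop
    have hs2 : ContDiff ℝ ∞ F.symm := by
      show ContDiff ℝ ∞ fun q : ℂ × ℝ × ℝ => ((q.1 - δ, q.2) : ℂ × ℝ × ℝ)
      fun_prop
    have hsl := CSG.ld_of_perm hs1 hs2 (z, s, t)
    have hbl : IsLocalDiffeomorphAt 𝓘(ℝ, ℂ × ℝ × ℝ) ISP ∞ (pb β) (F (z, s, t)) := h1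
    exact IsLocalDiffeomorphAt.comp (hf := hsl) (hg := hbl) ..
  inj := fun z s t z' s' t' _ hs _ hs' he => by
    obtain ⟨h1, h2, h3⟩ := (KNH.pb_box hβ (‖δ + z‖ + ‖δ + z'‖ + 1)).inj (δ + z) s t (δ + z') s' t'
      (by linarith [norm_nonneg (δ + z')]) (by linarith) (by linarith [norm_nonneg (δ + z)]) (by linarith) he
    exact ⟨add_left_cancel h1, h2, h3⟩

theorem BunA_equiv (β : ℂ × ℝ → ℂ × ℝ) (δ : ℂ) : EquiB rot (arc β δ) := fun z s t =>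
  KNH.pb_equiv β (δ + z) s t

theorem BunA_pos {β : ℂ × ℝ → ℂ × ℝ} (hβ : Emb β) (hp : PosB (pb β)) {δ : ℂ} (hδ : ‖δ‖ < 5) : PosB (arc β δ) := by
  have hb := KNH.pb_box hβ 5
  have hbb : BBox ISP (pb β) 5 1 := ⟨hb.per, hb.loc, hb.inj⟩
  exact posB_shift (by norm_num) (by norm_num) hbb hp hδ

/-- the closed arc -/
def BunA_S (β : ℂ × ℝ → ℂ × ℝ) (δ : ℂ) : Set SP :=
  {p | ∃ (w : ℂ) (s t : ℝ), ‖w‖ ≤ 3 / 4 ∧ |s| ≤ 3 / 4 ∧ p = pb β (δ + w, s, t)}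

theorem BunA_closed {β : ℂ × ℝ → ℂ × ℝ} (hβ : Emb β) (δ : ℂ) : IsClosed (BunA_S β δ) := by
  have e : BunA_S β δ = (arc β δ) '' (Metric.closedBall (0 : ℂ) (3 / 4) ×ˢ (Icc (-(3 / 4) : ℝ) (3 / 4) ×ˢ
      Icc (0 : ℝ) 1)) := by
    ext p
    constructor
    · rintro ⟨z, s, t, hz, hs, rfl⟩
      refine ⟨(z, s, Int.fract t), ⟨by simpa using hz, abs_le.1 hs, Int.fract_nonneg t,
        (Int.fract_lt_one t).le⟩, ?_⟩
      have h := COR.Bnd_int (f := fun t => pb β (δ + z, s, t)) (fun t => (KNH.pb_box hβ 1).per (δ + z) s t)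
        (Int.fract t) ⌊t⌋
      show pb β (δ + z, s, Int.fract t) = pb β (δ + z, s, t)
      rw [← h, Int.fract_add_floor]
    · rintro ⟨⟨z, s, t⟩, ⟨hz, hs, -⟩, rfl⟩
      exact ⟨z, s, t, by simpa using hz, abs_le.2 hs, rfl⟩
  rw [e]
  refine IsCompact.isClosed (IsCompact.image_of_continuousOn ?_ ?_)
  · exact (isCompact_closedBall 0 (3 / 4)).prod (isCompact_Icc.prod isCompact_Icc)
  · rintro ⟨z, s, t⟩ ⟨hz, hs, -⟩
    have h2 : |s| < 1 := by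
      have := abs_le.2 hs
      linarith
    exact ((BunA_bbox hβ δ (‖z‖ + 1) le_rfl).loc z s t (by linarith) h2).contMDiffAt.continuousAt.continuousWithinAt

theorem BunA_loc {κ₀ : ℝ × ℂ × ℝ → SP} (hκ₀ : ThickT ISP κ₀) {c : ℝ → S3}
    (hc : ∀ l, κ₀ (l, 0, 0) = (c l, 1)) {β : ℂ × ℝ → ℂ × ℝ} {δ : ℂ} {f : ℝ → ℝ} {ε : ℝ} (hε : ε = 1 ∨ ε = -1)
    (hm : StrictMono f) (hcf : ∀ u, c (f u) = io (β (δ, ε * u))) {l u r : ℝ} (h : c l = io (β (δ, u)))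
    (hu : |u| < r) : ∃ m : ℤ, f (-r) + m < l ∧ l < f r + m := by
  have hεε : ε * (ε * u) = u := by
    rcases hε with rfl | rfl <;> ring
  have h1 : c (f (ε * u)) = c l := by rw [hcf, hεε, h]
  obtain ⟨m, hm1⟩ := KNH.RepC_inj hκ₀ hc _ _ h1
  have h2 : |ε * u| < r := by
    rw [abs_mul, COR.Bnd_abs hε, one_mul]
    exact hu
  have h3 := abs_lt.1 h2
  exact ⟨m, by rw [hm1]; linarith [hm h3.1], by rw [hm1]; linarith [hm h3.2]⟩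

theorem BunA_no {κ₀ : ℝ × ℂ × ℝ → SP} (hκ₀ : ThickT ISP κ₀) {c : ℝ → S3}
    (hc : ∀ l, κ₀ (l, 0, 0) = (c l, 1)) {β : ℂ × ℝ → ℂ × ℝ} {δ : ℂ} {f : ℝ → ℝ} {ε : ℝ} (hε : ε = 1 ∨ ε = -1)
    (hm : StrictMono f) (hcf : ∀ u, c (f u) = io (β (δ, ε * u))) {l u r : ℝ} (h : c l = io (β (δ, u)))
    (h1 : f r ≤ l) (h2 : l ≤ f (-r) + 1) : r ≤ |u| := by
  by_contra hu
  push Not at hu
  obtain ⟨m, h3, h4⟩ := BunA_loc hκ₀ hc hε hm hcf h hu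
  rcases le_or_gt m 0 with h5 | h5
  · have h6 : (m : ℝ) ≤ 0 := by exact_mod_cast h5
    linarith
  · have h6 : (1 : ℝ) ≤ m := by exact_mod_cast h5
    linarith

theorem BunA_per {κ : ℝ × ℂ × ℝ → SP} (hκ : ThickT ISP κ) (l x : ℝ) (k : ℤ) (v : ℂ) (t : ℝ) :
    κ (l, v, t) = κ (x + (l - x - k), v, t) := by
  have h := COR.Bnd_int (f := fun l => κ (l, v, t)) (fun l => hκ.perl l v t) (x + (l - x - k)) k
  have e : x + (l - x - k) + k = l := by ring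
  rw [e] at h
  exact h

theorem BunA_z {κ₀ : ℝ × ℂ × ℝ → SP} {c : ℝ → S3} (hc : ∀ l, κ₀ (l, 0, 0) = (c l, 1)) {β : ℂ × ℝ → ℂ × ℝ} {δ : ℂ}
    (hS : ∀ (w : ℂ) (u : ℝ), ‖w‖ ≤ 3 / 4 → ((∃ l, c l = io (β (δ + w, u))) ↔ w = 0)) (l : ℝ) (w : ℂ) (s t : ℝ)
    (hw : ‖w‖ < 3 / 4) (_ : |s| < 3 / 4) (he : κ₀ (l, 0, 0) = arc β δ (w, s, t)) : w = 0 := by
  rw [hc] at he
  have h1 : c l = io (β (δ + w, s)) := congrArg Prod.fst he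
  exact (hS w s hw.le).1 ⟨l, h1⟩

theorem BunA_gen {κ₀ : ℝ × ℂ × ℝ → SP} (hκ₀ : ThickT ISP κ₀) (heq₀ : Equi rot κ₀) (hpos : PosT κ₀) {c : ℝ → S3}
    (hc : ∀ l, κ₀ (l, 0, 0) = (c l, 1)) {O : Set SP} (hO : Tube κ₀ ⊆ O) {p₁ p₂ : Option (ℂ × ℝ → ℂ × ℝ)}
    {A₁ A₂ : ℂ × ℝ × ℝ → SP}
    (hA₁ : BBox ISP A₁ (3 / 4) (3 / 4)) (hA₂ : BBox ISP A₂ (3 / 4) (3 / 4)) (e₁ : EquiB rot A₁) (e₂ : EquiB rot A₂)
    (hp₁ : PosB A₁) (hp₂ : PosB A₂)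
    (hd : ∀ (w : ℂ) (s t : ℝ) (w' : ℂ) (s' t' : ℝ), ‖w‖ < 3 / 4 → |s| < 3 / 4 → ‖w'‖ < 3 / 4 → |s'| < 3 / 4 →
      A₁ (w, s, t) ≠ A₂ (w', s', t'))
    (o₁ : ∀ (w : ℂ) (s t : ℝ), ‖w‖ < 3 / 4 → |s| < 3 / 4 → A₁ (w, s, t) ∈ O)
    (o₂ : ∀ (w : ℂ) (s t : ℝ), ‖w‖ < 3 / 4 → |s| < 3 / 4 → A₂ (w, s, t) ∈ O) {f₁ f₂ : ℝ → ℝ} {ε₁ ε₂ : ℝ}
    (hw : Win2 A₁ A₂ (fun l => (c l, 1)) f₁ f₂ ε₁ ε₂) {Fc : Set SP} (hFc : IsClosed Fc)
    (hF : ∀ l, (f₁ (5 / 8) ≤ l ∧ l ≤ f₂ (-(5 / 8))) ∨ (f₂ (5 / 8) ≤ l ∧ l ≤ f₁ (-(5 / 8)) + 1) →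
      ∀ t, rot t (c l, 1) ∉ Fc)
    (q₁ : ∀ β ∈ p₁, A₁ = arc β 1) (q₂ : ∀ β ∈ p₂, A₂ = arc β (-1))
    (n₁ : p₁ = none → ∀ (w : ℂ) (s t : ℝ), ‖w‖ ≤ 3 / 4 → |s| ≤ 3 / 4 → A₁ (w, s, t) ∉ Fc)
    (n₂ : p₂ = none → ∀ (w : ℂ) (s t : ℝ), ‖w‖ ≤ 3 / 4 → |s| ≤ 3 / 4 → A₂ (w, s, t) ∉ Fc)
    (z₁ : ∀ (l : ℝ) (w : ℂ) (s t : ℝ), ‖w‖ < 3 / 4 → |s| < 3 / 4 → κ₀ (l, 0, 0) = A₁ (w, s, t) → w = 0)
    (z₂ : ∀ (l : ℝ) (w : ℂ) (s t : ℝ), ‖w‖ < 3 / 4 → |s| < 3 / 4 → κ₀ (l, 0, 0) = A₂ (w, s, t) → w = 0) :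
    ∃ (κ : ℝ × ℂ × ℝ → SP) (φ : ℝ → ℝ) (ε₁ ε₂ : ℝ), (ε₁ = 1 ∨ ε₁ = -1) ∧ (ε₂ = 1 ∨ ε₂ = -1) ∧
      ThickT ISP κ ∧ Equi rot κ ∧ Tube κ ⊆ O ∧ Continuous φ ∧ (∀ l, φ (l + 1) = φ l + 1) ∧
      (∀ l, κ (l, 0, 0) = (c (φ l), 1)) ∧
      (∀ β ∈ p₁, ∀ (l : ℝ) (v : ℂ) (t : ℝ), |l| < 1 / 16 → ‖v‖ < 1 →
        κ (1 / 4 + l, v, t) = pb β (1 + cj ε₁ v / 2, 8 * ε₁ * l, t)) ∧
      (∀ β ∈ p₂, ∀ (l : ℝ) (v : ℂ) (t : ℝ), |l| < 1 / 16 → ‖v‖ < 1 →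
        κ (3 / 4 + l, v, t) = pb β (-1 + cj ε₂ v / 2, 8 * ε₂ * l, t)) ∧
      (∀ (l : ℝ) (v : ℂ) (t : ℝ), ‖v‖ < 1 → (∀ β ∈ p₁, ∀ k : ℤ, 1 / 16 ≤ |l - 1 / 4 - k|) →
        (∀ β ∈ p₂, ∀ k : ℤ, 1 / 16 ≤ |l - 3 / 4 - k|) → κ (l, v, t) ∉ Fc ∨
        (∃ β ∈ p₁, ∃ (w : ℂ) (s t' : ℝ), ‖w‖ < 1 / 2 ∧ 1 / 2 ≤ |s| ∧ |s| < 3 / 4 ∧ κ (l, v, t) = pb β (1 + w, s, t')) ∨
        ∃ β ∈ p₂, ∃ (w : ℂ) (s t' : ℝ), ‖w‖ < 1 / 2 ∧ 1 / 2 ≤ |s| ∧ |s| < 3 / 4 ∧ κ (l, v, t) = pb β (-1 + w, s, t')) ∧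
      ∀ Q : (ℝ × ℂ × ℝ → SP) → Prop, Inv0 ISP O Q → Q κ₀ → Q κ := by
  have e0 : (fun l => κ₀ (l, 0, 0)) = fun l => ((c l, 1) : SP) := funext hc
  have hw' : Win2 A₁ A₂ (fun l => κ₀ (l, 0, 0)) f₁ f₂ ε₁ ε₂ := by rw [e0]; exact hw
  obtain ⟨κ, φ, h1, h2, -, h4, h5, h6, -, h8, h9, h10, h11, h12⟩ := exists_win KNH.rot_act hκ₀ heq₀ hpos hO hA₁ hA₂
    e₁ e₂ hp₁ hp₂ hd o₁ o₂ hw' hFc (fun l hl t => by rw [hc]; exact hF l hl t) z₁ z₂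
  have hcj : ∀ ε : ℝ, (ε = 1 ∨ ε = -1) → ∀ v : ℂ, ‖v‖ < 1 → ‖cj ε v / 2‖ ≤ 3 / 4 := by
    intro ε hε v hv
    rw [norm_div, RSG.cj_norm hε]
    simp only [Complex.norm_ofNat]
    linarith
  have h8s : ∀ ε : ℝ, (ε = 1 ∨ ε = -1) → ∀ x : ℝ, |x| < 1 / 16 → |8 * ε * x| ≤ 3 / 4 := by
    intro ε hε x hx
    rw [abs_mul, abs_mul, COR.Bnd_abs hε, abs_of_pos (by norm_num : (0 : ℝ) < 8)]
    linarith
  refine ⟨κ, φ, ε₁, ε₂, hw.w₁.sign, hw.w₂.sign, h1, h2, h4, h5.continuous, h6, ?_, ?_, ?_, ?_, h12⟩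
  · intro l
    rw [h8, hc]
  · intro β hβ l v t hl hv
    rw [h9 l v t hl.le hv, q₁ β hβ]
    rfl
  · intro β hβ l v t hl hv
    rw [h10 l v t hl.le hv, q₂ β hβ]
    rfl
  · intro l v t hv r1 r2
    by_cases w1 : ∀ k : ℤ, 1 / 16 ≤ |l - 1 / 4 - k|
    · by_cases w2 : ∀ k : ℤ, 1 / 16 ≤ |l - 3 / 4 - k|
      · rcases h11 l v t hv (fun k => ⟨w1 k, w2 k⟩) with h | ⟨w, s, t', k1, k2, k3, k4 | k4⟩
        · exact Or.inl h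
        · rcases p₁ with _ | β
          · left
            rw [k4]
            exact n₁ rfl w s t' (by linarith) k3.le
          · right; left
            refine ⟨β, rfl, w, s, t', k1, k2, k3, ?_⟩
            rw [k4, q₁ β rfl]
            rfl
        · rcases p₂ with _ | β
          · left
            rw [k4]
            exact n₂ rfl w s t' (by linarith) k3.le
          · right; right
            refine ⟨β, rfl, w, s, t', k1, k2, k3, ?_⟩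
            rw [k4, q₂ β rfl]
            rfl
      · push Not at w2
        obtain ⟨k, hk⟩ := w2
        rcases p₂ with _ | β
        · left
          rw [BunA_per h1 l (3 / 4) k v t, h10 _ v t hk.le hv]
          exact n₂ rfl _ _ _ (hcj ε₂ hw.w₂.sign v hv) (h8s ε₂ hw.w₂.sign _ hk)
        · exact absurd (r2 β rfl k) (not_le.2 hk)
    · push Not at w1
      obtain ⟨k, hk⟩ := w1
      rcases p₁ with _ | β
      · left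
        rw [BunA_per h1 l (1 / 4) k v t, h9 _ v t hk.le hv]
        exact n₁ rfl _ _ _ (hcj ε₁ hw.w₁.sign v hv) (h8s ε₁ hw.w₁.sign _ hk)
      · exact absurd (r1 β rfl k) (not_le.2 hk)

theorem BunA_mono {P : Type*} {A : ℂ × ℝ × ℝ → P} {K : ℝ → P} {f : ℝ → ℝ} {ε : ℝ} (h : Win1 A K f ε) :
    StrictMono f := strictMono_of_deriv_pos h.deriv_pos

theorem BunA_mid {κ₀ : ℝ × ℂ × ℝ → SP} (hκ₀ : ThickT ISP κ₀) (heq₀ : Equi rot κ₀) (hpos : PosT κ₀) {c : ℝ → S3}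
    (hc : ∀ l, κ₀ (l, 0, 0) = (c l, 1)) {β : ℂ × ℝ → ℂ × ℝ} (hβ : Emb β) {δ : ℂ}
    (hS : ∀ (w : ℂ) (u : ℝ), ‖w‖ ≤ 3 / 4 → ((∃ l, c l = io (β (δ + w, u))) ↔ w = 0))
    {Fc : Set SP} (hFc : IsClosed Fc)
    (hF : ∀ l, (∀ u, c l = io (β (δ, u)) → 5 / 8 ≤ |u|) → ∀ t, rot t (c l, 1) ∉ Fc) :
    ∃ (A₂ : ℂ × ℝ × ℝ → SP) (f₁ f₂ : ℝ → ℝ) (ε₁ : ℝ), (∀ u, c (f₁ u) = io (β (δ, ε₁ * u))) ∧
      BBox ISP A₂ (3 / 4) (3 / 4) ∧ EquiB rot A₂ ∧ PosB A₂ ∧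
      Win2 (arc β δ) A₂ (fun l => (c l, 1)) f₁ f₂ ε₁ 1 ∧
      (∀ (l : ℝ) (w : ℂ) (s t : ℝ), ‖w‖ < 3 / 4 → |s| < 3 / 4 → κ₀ (l, 0, 0) = A₂ (w, s, t) → w = 0) ∧
      ∀ (w : ℂ) (s t : ℝ), ‖w‖ ≤ 3 / 4 → |s| ≤ 3 / 4 → A₂ (w, s, t) ∉ Fc ∧ A₂ (w, s, t) ∉ BunA_S β δ ∧
        A₂ (w, s, t) ∈ Tube κ₀ := by
  have e0 : (fun l => κ₀ (l, 0, 0)) = fun l => ((c l, 1) : SP) := funext hc
  obtain ⟨f₁, ε₁, hw1, hcf, -⟩ := exists_win1 hκ₀ hc hβ (δ := δ) (fun w u hw => hS w u hw.le)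
  have hm := BunA_mono hw1
  have hlen := hw1.len
  have hsg := hw1.sign
  have h1 : f₁ 1 < (f₁ 1 + (f₁ (-1) + 1)) / 2 := by linarith
  have h2 : (f₁ 1 + (f₁ (-1) + 1)) / 2 < f₁ (-1) + 1 := by linarith
  obtain ⟨A₂, f₂, k1, k2, k3, k4, kz, k5⟩ := exists_dummy KNH.rot_act hκ₀ heq₀ hpos (A₁ := arc β δ) (f₁ := f₁) (ε₁ := ε₁)
    (by rw [e0]; exact hw1) (hFc.union (BunA_closed hβ δ)) h1 h2 (by
      intro t
      rw [hc]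
      rintro (h | h)
      · refine hF _ ?_ t h
        intro u hu
        have h3 := BunA_no hκ₀ hc hsg hm hcf (r := 1) hu h1.le h2.le
        linarith
      · obtain ⟨w, s, t', hw, hs, he⟩ := h
        have h3 : c ((f₁ 1 + (f₁ (-1) + 1)) / 2) = io (β (δ + w, s)) := congrArg Prod.fst he
        have h4 := (hS w s hw).1 ⟨_, h3⟩
        rw [h4, add_zero] at h3
        have h5 := BunA_no hκ₀ hc hsg hm hcf (r := 1) h3 h1.le h2.le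
        linarith)
  refine ⟨A₂, f₁, f₂, ε₁, hcf, k1, k2, k3, ?_, kz, ?_⟩
  · rw [e0] at k4
    exact k4
  · intro w s t hw hs
    obtain ⟨h, h'⟩ := k5 w s t hw hs
    exact ⟨fun h3 => h (Or.inl h3), fun h3 => h (Or.inr h3), h'⟩

theorem one_comp {κ₀ : ℝ × ℂ × ℝ → SP} (hκ₀ : ThickT ISP κ₀) (heq₀ : Equi rot κ₀) (hpos : PosT κ₀) {c : ℝ → S3}
    (hc : ∀ l, κ₀ (l, 0, 0) = (c l, 1)) {O : Set SP} (hO : Tube κ₀ ⊆ O) {p₁ p₂ : Option (ℂ × ℝ → ℂ × ℝ)}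
    (he₁ : ∀ β ∈ p₁, Emb β ∧ PosB (pb β)) (he₂ : ∀ β ∈ p₂, Emb β ∧ PosB (pb β))
    (hS₁ : ∀ β ∈ p₁, ∀ (w : ℂ) (u : ℝ), ‖w‖ ≤ 3 / 4 → ((∃ l, c l = io (β (1 + w, u))) ↔ w = 0))
    (hS₂ : ∀ β ∈ p₂, ∀ (w : ℂ) (u : ℝ), ‖w‖ ≤ 3 / 4 → ((∃ l, c l = io (β (-1 + w, u))) ↔ w = 0))
    (ho₁ : ∀ β ∈ p₁, ∀ (w : ℂ) (s t : ℝ), ‖w‖ < 3 / 4 → |s| < 3 / 4 → pb β (1 + w, s, t) ∈ O)
    (ho₂ : ∀ β ∈ p₂, ∀ (w : ℂ) (s t : ℝ), ‖w‖ < 3 / 4 → |s| < 3 / 4 → pb β (-1 + w, s, t) ∈ O)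
    (hd : ∀ β ∈ p₁, ∀ β' ∈ p₂, ∀ (w : ℂ) (s : ℝ) (w' : ℂ) (s' : ℝ), ‖w‖ < 3 / 4 → ‖w'‖ < 3 / 4 →
      β (1 + w, s) ≠ β' (-1 + w', s'))
    {Fc : Set SP} (hFc : IsClosed Fc)
    (hF : ∀ l, (∀ β ∈ p₁, ∀ u, c l = io (β (1, u)) → 5 / 8 ≤ |u|) → (∀ β ∈ p₂, ∀ u, c l = io (β (-1, u)) → 5 / 8 ≤ |u|) →
      ∀ t, rot t (c l, 1) ∉ Fc) :
    ∃ (κ : ℝ × ℂ × ℝ → SP) (φ : ℝ → ℝ) (ε₁ ε₂ : ℝ), (ε₁ = 1 ∨ ε₁ = -1) ∧ (ε₂ = 1 ∨ ε₂ = -1) ∧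
      ThickT ISP κ ∧ Equi rot κ ∧ Tube κ ⊆ O ∧ Continuous φ ∧ (∀ l, φ (l + 1) = φ l + 1) ∧
      (∀ l, κ (l, 0, 0) = (c (φ l), 1)) ∧
      (∀ β ∈ p₁, ∀ (l : ℝ) (v : ℂ) (t : ℝ), |l| < 1 / 16 → ‖v‖ < 1 →
        κ (1 / 4 + l, v, t) = pb β (1 + cj ε₁ v / 2, 8 * ε₁ * l, t)) ∧
      (∀ β ∈ p₂, ∀ (l : ℝ) (v : ℂ) (t : ℝ), |l| < 1 / 16 → ‖v‖ < 1 →
        κ (3 / 4 + l, v, t) = pb β (-1 + cj ε₂ v / 2, 8 * ε₂ * l, t)) ∧
      (∀ (l : ℝ) (v : ℂ) (t : ℝ), ‖v‖ < 1 → (∀ β ∈ p₁, ∀ k : ℤ, 1 / 16 ≤ |l - 1 / 4 - k|) →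
        (∀ β ∈ p₂, ∀ k : ℤ, 1 / 16 ≤ |l - 3 / 4 - k|) → κ (l, v, t) ∉ Fc ∨
        (∃ β ∈ p₁, ∃ (w : ℂ) (s t' : ℝ), ‖w‖ < 1 / 2 ∧ 1 / 2 ≤ |s| ∧ |s| < 3 / 4 ∧ κ (l, v, t) = pb β (1 + w, s, t')) ∨
        ∃ β ∈ p₂, ∃ (w : ℂ) (s t' : ℝ), ‖w‖ < 1 / 2 ∧ 1 / 2 ≤ |s| ∧ |s| < 3 / 4 ∧ κ (l, v, t) = pb β (-1 + w, s, t')) ∧
      ∀ Q : (ℝ × ℂ × ℝ → SP) → Prop, Inv0 ISP O Q → Q κ₀ → Q κ := by
  have n1 : ‖(1 : ℂ)‖ < 5 := by norm_num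
  have n2 : ‖(-1 : ℂ)‖ < 5 := by norm_num
  rcases p₁ with _ | β₁
  · rcases p₂ with _ | β₂
    · -- no window
      have hK : ∀ l t, κ₀ (l, 0, t) ∉ Fc := by
        intro l t
        rw [heq₀ l 0 t, hc]
        exact hF l (fun β h => by simp at h) (fun β h => by simp at h) t
      obtain ⟨κ', h1, h2, ⟨η, hη, h3⟩, h4, h5, h6⟩ := shrink hκ₀ hFc hK
      refine ⟨κ', id, 1, 1, Or.inl rfl, Or.inl rfl, h1, h2 _ heq₀, h4.trans hO, continuous_id, fun l => rfl, ?_,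
        fun β h => by simp at h, fun β h => by simp at h, ?_, ?_⟩
      · intro l
        rw [h3 l 0 0 (by simpa using hη), hc]
        rfl
      · intro l v t hv _ _
        left
        exact fun h => Set.disjoint_left.1 h6 (subset_closure ⟨l, v, t, hv, rfl⟩) h
      · intro Q hQ hq
        exact hQ.germ κ₀ κ' η hη hκ₀ h1 hO (h4.trans hO) h3 hq
    · -- a window for `-1`
      obtain ⟨hβ, hpb⟩ := he₂ β₂ rfl
      obtain ⟨A, f₂, f₁, ε₂, hcf, k1, k2, k3, k4, kz, k5⟩ := BunA_mid hκ₀ heq₀ hpos hc hβ (δ := -1) (hS₂ β₂ rfl) hFc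
        (fun l hl t => hF l (fun β h => by simp at h) (fun β h u hu => by
          obtain rfl : β₂ = β := by simpa using h
          exact hl u hu) t)
      have hper : ∀ l, ((c (l + 1), 1) : SP) = (c l, 1) := fun l => by rw [KNH.RepC_per hκ₀ hc]
      have k4' := win2_swap hper k4
      have hm₂ := BunA_mono k4.w₁
      have hm₁ := BunA_mono k4.w₂
      refine BunA_gen hκ₀ heq₀ hpos hc hO (p₁ := none) (p₂ := some β₂) k1 (BunA_bbox hβ (-1) _ (by norm_num)) k2 (BunA_equiv _ _) k3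
        (BunA_pos hβ hpb n2) ?_ ?_ ?_ k4' hFc ?_ (fun β h => by simp at h) ?_ ?_ ?_ kz (BunA_z hc (hS₂ β₂ rfl))
      · intro w s t w' s' t' hw hs hw' hs' he
        exact (k5 w s t hw.le hs.le).2.1 ⟨w', s', t', hw'.le, hs'.le, he⟩
      · intro w s t hw hs
        exact hO (k5 w s t hw.le hs.le).2.2
      · intro w s t hw hs
        exact ho₂ β₂ rfl w s t hw hs
      · intro l hl t
        refine hF l (fun β h => by simp at h) (fun β h u hu => ?_) t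
        obtain rfl : β₂ = β := by simpa using h
        have a1 := hm₁ (show (-1 : ℝ) < 5 / 8 by norm_num)
        have a2 := hm₂ (show (5 / 8 : ℝ) < 1 by norm_num)
        have a3 := hm₁ (show (-(5 / 8) : ℝ) < 1 by norm_num)
        have a4 := hm₂ (show (-1 : ℝ) < -(5 / 8) by norm_num)
        have a5 := k4.ord₁
        have a6 := k4.ord₂
        rcases hl with ⟨b1, b2⟩ | ⟨b1, b2⟩
        · exact BunA_no hκ₀ hc k4.w₁.sign hm₂ hcf hu (by linarith) b2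
        · have hu' : c (l - 1) = io (β₂ (-1, u)) := by
            rw [← hu]
            have := KNH.RepC_per hκ₀ hc (l - 1)
            rw [sub_add_cancel] at this
            exact this.symm
          exact BunA_no hκ₀ hc k4.w₁.sign hm₂ hcf hu' (by linarith) (by linarith)
      · intro β h
        obtain rfl : β₂ = β := by simpa using h
        rfl
      · intro _ w s t hw hs
        exact (k5 w s t hw hs).1
      · intro h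
        simp at h
  · rcases p₂ with _ | β₂
    · -- a window for `1`
      obtain ⟨hβ, hpb⟩ := he₁ β₁ rfl
      obtain ⟨A, f₁, f₂, ε₁, hcf, k1, k2, k3, k4, kz, k5⟩ := BunA_mid hκ₀ heq₀ hpos hc hβ (δ := 1) (hS₁ β₁ rfl) hFc
        (fun l hl t => hF l (fun β h u hu => by
          obtain rfl : β₁ = β := by simpa using h
          exact hl u hu) (fun β h => by simp at h) t)
      have hm₁ := BunA_mono k4.w₁
      have hm₂ := BunA_mono k4.w₂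
      refine BunA_gen hκ₀ heq₀ hpos hc hO (p₁ := some β₁) (p₂ := none) (BunA_bbox hβ 1 _ (by norm_num)) k1 (BunA_equiv _ _) k2
        (BunA_pos hβ hpb n1) k3 ?_ ?_ ?_ k4 hFc ?_ ?_ (fun β h => by simp at h) ?_ ?_ (BunA_z hc (hS₁ β₁ rfl)) kz
      · intro w s t w' s' t' hw hs hw' hs' he
        exact (k5 w' s' t' hw'.le hs'.le).2.1 ⟨w, s, t, hw.le, hs.le, he.symm⟩
      · intro w s t hw hs
        exact ho₁ β₁ rfl w s t hw hs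
      · intro w s t hw hs
        exact hO (k5 w s t hw.le hs.le).2.2
      · intro l hl t
        refine hF l (fun β h u hu => ?_) (fun β h => by simp at h) t
        obtain rfl : β₁ = β := by simpa using h
        have a1 := hm₂ (show (-(5 / 8) : ℝ) < 1 by norm_num)
        have a2 := hm₂ (show (-1 : ℝ) < 5 / 8 by norm_num)
        have a3 := hm₁ (show (5 / 8 : ℝ) < 1 by norm_num)
        have a4 := hm₁ (show (-1 : ℝ) < -(5 / 8) by norm_num)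
        have a5 := k4.ord₁
        have a6 := k4.ord₂
        rcases hl with ⟨b1, b2⟩ | ⟨b1, b2⟩
        · exact BunA_no hκ₀ hc k4.w₁.sign hm₁ hcf hu b1 (by linarith)
        · exact BunA_no hκ₀ hc k4.w₁.sign hm₁ hcf hu (by linarith) b2
      · intro β h
        obtain rfl : β₁ = β := by simpa using h
        rfl
      · intro h
        simp at h
      · intro _ w s t hw hs
        exact (k5 w s t hw hs).1
    · -- two windows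
      obtain ⟨hβ₁, hpb₁⟩ := he₁ β₁ rfl
      obtain ⟨hβ₂, hpb₂⟩ := he₂ β₂ rfl
      have hdd := hd β₁ rfl β₂ rfl
      obtain ⟨f₁, f₂, ε₁, ε₂, k4, hcf₁, hcf₂⟩ := exists_win2 hκ₀ hc hβ₁ hβ₂ (δ₁ := 1) (δ₂ := -1)
        (fun w u hw => hS₁ β₁ rfl w u hw.le) (fun w u hw => hS₂ β₂ rfl w u hw.le) (by
          intro u u' h
          have := hdd 0 u 0 u' (by norm_num) (by norm_num)
          rw [add_zero, add_zero] at this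
          exact this h)
      have hm₁ := BunA_mono k4.w₁
      have hm₂ := BunA_mono k4.w₂
      refine BunA_gen hκ₀ heq₀ hpos hc hO (p₁ := some β₁) (p₂ := some β₂) (BunA_bbox hβ₁ 1 _ (by norm_num))
        (BunA_bbox hβ₂ (-1) _ (by norm_num)) (BunA_equiv _ _) (BunA_equiv _ _)
        (BunA_pos hβ₁ hpb₁ n1) (BunA_pos hβ₂ hpb₂ n2) ?_ ?_ ?_ k4 hFc ?_ ?_ ?_ ?_ ?_ (BunA_z hc (hS₁ β₁ rfl))
        (BunA_z hc (hS₂ β₂ rfl))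
      · intro w s t w' s' t' hw hs hw' hs' he
        have h1 : io (β₁ (1 + w, s)) = io (β₂ (-1 + w', s')) := congrArg Prod.fst he
        exact hdd w s w' s' hw hw' (KNH.io_inj h1)
      · intro w s t hw hs
        exact ho₁ β₁ rfl w s t hw hs
      · intro w s t hw hs
        exact ho₂ β₂ rfl w s t hw hs
      · intro l hl t
        have a1 := hm₂ (show (-(5 / 8) : ℝ) < 1 by norm_num)
        have a2 := hm₂ (show (-1 : ℝ) < 5 / 8 by norm_num)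
        have a3 := hm₁ (show (5 / 8 : ℝ) < 1 by norm_num)
        have a4 := hm₁ (show (-1 : ℝ) < -(5 / 8) by norm_num)
        have a5 := k4.ord₁
        have a6 := k4.ord₂
        have a7 := hm₁ (show (-1 : ℝ) < 5 / 8 by norm_num)
        have a8 := hm₂ (show (5 / 8 : ℝ) < 1 by norm_num)
        have a9 := hm₁ (show (-(5 / 8) : ℝ) < 1 by norm_num)
        have a10 := hm₂ (show (-1 : ℝ) < -(5 / 8) by norm_num)
        refine hF l (fun β h u hu => ?_) (fun β h u hu => ?_) t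
        · obtain rfl : β₁ = β := by simpa using h
          rcases hl with ⟨b1, b2⟩ | ⟨b1, b2⟩
          · exact BunA_no hκ₀ hc k4.w₁.sign hm₁ hcf₁ hu b1 (by linarith)
          · exact BunA_no hκ₀ hc k4.w₁.sign hm₁ hcf₁ hu (by linarith) b2
        · obtain rfl : β₂ = β := by simpa using h
          rcases hl with ⟨b1, b2⟩ | ⟨b1, b2⟩
          · have hu' : c (l + 1) = io (β₂ (-1, u)) := by
              rw [← hu]
              exact KNH.RepC_per hκ₀ hc l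
            exact BunA_no hκ₀ hc k4.w₂.sign hm₂ hcf₂ hu' (by linarith) (by linarith)
          · exact BunA_no hκ₀ hc k4.w₂.sign hm₂ hcf₂ hu b1 (by linarith)
      · intro β h
        obtain rfl : β₁ = β := by simpa using h
        rfl
      · intro β h
        obtain rfl : β₂ = β := by simpa using h
        rfl
      · intro h
        simp at h
      · intro h
        simp at h

end Pool.Agent.LKF
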