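import Pool.Agent.LKF.PreF
import Pool.Agent.LKF.BunA

/-!
# LKF/BunEx: from the cores to bundles in the boxes   (difficulty 5)

`cc m l = io (β a q)` for some `l` iff `q` is on a strand of the component `m`.
Foreign regions of `m`: `R' m = {pb (β a) (δ + w, s, t) | ‖w‖ ≤ 3/4, |s| ≤ 3/4, (δ = 1, i a ≠ m) or (δ = -1, k a ≠ m)}` : closed (finite union of compact sets: `t` modulo `1`), does not meet the torus `m` (`hS`: `cc m l = io (β a (δ + w, s))` implies `w = 0` and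
the strand belongs to `m`).
(1) `prepF` with `F m = R' m`: `κ₁`.
(2) Induction on a finite set `T` of indices (start: `κ₁`; step: add `m₀`), statement: there are `κ, φ, e₁, e₂` with `LinkT`, `Equi`, cores `κ m (l, 0, 0) = (cc m (φ m l), 1)`, `φ m` continuous, `φ m (l + 1) = φ m l + 1`, tubes disjoint from the OPEN foreign regions
(`‖w‖ < 3/4, |s| < 3/4`), `Q κ`; for `m ∉ T`: `κ m = κ₁ m`, `φ m = id`; for `m ∈ T`: the strand formulas (with `pb (β a) (1 + cj (e₁ a) v / 2, 8 * e₁ a * l, t)` if `i a = m`, ..), signs, and the rest condition: `κ m (l, v, t)` is not in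
`Fc' m = Fc m ∪ ⋃ a, {pb (β a) (z, s, t) | ‖z‖ ≤ 4, |s| ≤ 1/2} ∪ R' m`, or it is in an end `pb (β a) (δ + w, s, t')`, `‖w‖ < 1/2`, `1/2 ≤ |s| < 3/4`, of an own strand.
Step: `one_comp` for `κ m₀ = κ₁ m₀`, `O = Oth κ m₀` (`tube_oth`), `p₁ = some (β a)` if there is `a` with `i a = m₀` (unique, `hi`), `none` otherwise, `p₂` similarly with `k`, `Fc' m₀`.  `ho₁`: the open region of the strand `(a, 1)` is foreign for all `m' ≠ m₀`, so it is disjoint from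
the tube `m'`, and, being open (`pb_box`, local diffeomorphism: image of an open set is open), from its closure.  `hF`: outside the windows `|u| < 5/8` the core is not in `Fc m₀` (`hF` with `1/2`), not in the boxes `|s| ≤ 1/2` (`hS`), not in `R' m₀`.
`link_update`, `inv_of_mono` (`.toInv0`).  New tube: windows: `pb (β a) (1 + cj e v / 2, 8 e l, t)`, `‖cj e v / 2‖ < 1/2`: disjoint from the foreign regions (`hdis`, injectivity of `β a`: `1 + w ≠ -1 + w'`); the rest: by `Fc'` or as the windows.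
`e₁, e₂`: `Function.update`-like (`e₁ a = ε₁` if `i a = m₀`): or define at the end `e₁ a` by the value for `m = i a` (let the induction statement have signs `ε₁ ε₂ : ι → ℝ` depending on `m`; at the end `e₁ a = ε₁ (i a)`, `e₂ a = ε₂ (k a)`).
(3) `BunF`: `half 1 (pb (β a)) (z, s, t) = pb (β a) (z, s / 2, t)` (`cj 1 z = z`); `Box` by `KNH.CorM_box`; `rest` from the rest condition.
-/

open scoped Manifold ContDiff Topology
open Set Filter
open Complex (I)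
open Pool.Agent.CSG (stp)
open Pool.Agent.RSG (E4 S3 S4 ex cj c1 c2 ht fh pS3)
open Pool.Agent.RBM (ThickT OnT Box frc)
open Pool.Agent.RBH (Tube BoxS)
open Pool.Agent.PTH (SP ISP Act)
open Pool.Agent.COR (Equi EquiB BBox OutW PosAt half dv dt PerS)
open Pool.Agent.KNT (Dom BalC Tubes Str Str2 CD)
open Pool.Agent.KNH (rot Hat circ pb Emb Fam ThinOK thn bx)
open Pool.Agent.CLG (io pol)

namespace Pool.Agent.LKF

universe u

/-- `x` is not in the parts `|u| < r` of the charts -/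
def Outc {α : Type*} (β : α → ℂ × ℝ → ℂ × ℝ) (r : ℝ) (x : S3) : Prop := ∀ a q, x = io (β a q) → r ≤ |q.2|

section aux
variable {ι α : Type*}

/-- the strand regions of the charts which do not belong to the component `m` -/
def BunEx_R (β : α → ℂ × ℝ → ℂ × ℝ) (i k : α → ι) (m : ι) : Set S3 :=
  {x | ∃ (a : α) (q : ℂ × ℝ), x = io (β a q) ∧ |q.2| ≤ 3 / 4 ∧
    ((‖q.1 - 1‖ ≤ 3 / 4 ∧ i a ≠ m) ∨ (‖q.1 + 1‖ ≤ 3 / 4 ∧ k a ≠ m))}

/-- the middle parts of the charts -/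
def BunEx_B (β : α → ℂ × ℝ → ℂ × ℝ) : Set S3 :=
  {x | ∃ (a : α) (q : ℂ × ℝ), x = io (β a q) ∧ ‖q.1‖ ≤ 4 ∧ |q.2| ≤ 1 / 2}

/-- the open strand regions of the charts which do not belong to the component `m` -/
def BunEx_W (β : α → ℂ × ℝ → ℂ × ℝ) (i k : α → ι) (m : ι) : Set SP :=
  {p | ∃ (a : α) (z : ℂ) (s t : ℝ), p = pb (β a) (z, s, t) ∧ |s| < 3 / 4 ∧
    ((‖z - 1‖ < 3 / 4 ∧ i a ≠ m) ∨ (‖z + 1‖ < 3 / 4 ∧ k a ≠ m))}

/-- the torus `κ` of the component `m` is adapted to the charts -/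
structure BunEx_G (β : α → ℂ × ℝ → ℂ × ℝ) (i k : α → ι) (F : Set SP) (c : ℝ → S3) (m : ι)
    (κ : ℝ × ℂ × ℝ → SP) (φ : ℝ → ℝ) (ε₁ ε₂ : ℝ) : Prop where
  s1 : ε₁ = 1 ∨ ε₁ = -1
  s2 : ε₂ = 1 ∨ ε₂ = -1
  cont : Continuous φ
  per : ∀ l, φ (l + 1) = φ l + 1
  core : ∀ l, κ (l, 0, 0) = (c (φ l), 1)
  st1 : ∀ a, i a = m → ∀ (l : ℝ) (v : ℂ) (t : ℝ), |l| < 1 / 16 → ‖v‖ < 1 →
    κ (1 / 4 + l, v, t) = pb (β a) (1 + cj ε₁ v / 2, 8 * ε₁ * l, t)
  st2 : ∀ a, k a = m → ∀ (l : ℝ) (v : ℂ) (t : ℝ), |l| < 1 / 16 → ‖v‖ < 1 →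
    κ (3 / 4 + l, v, t) = pb (β a) (-1 + cj ε₂ v / 2, 8 * ε₂ * l, t)
  rest : ∀ (l : ℝ) (v : ℂ) (t : ℝ), ‖v‖ < 1 → (∀ a, i a = m → ∀ n : ℤ, 1 / 16 ≤ |l - 1 / 4 - n|) →
    (∀ a, k a = m → ∀ n : ℤ, 1 / 16 ≤ |l - 3 / 4 - n|) → κ (l, v, t) ∉ F ∨
    (∃ a, i a = m ∧ ∃ (w : ℂ) (s t' : ℝ), ‖w‖ < 1 / 2 ∧ 1 / 2 ≤ |s| ∧ |s| < 3 / 4 ∧
      κ (l, v, t) = pb (β a) (1 + w, s, t')) ∨
    ∃ a, k a = m ∧ ∃ (w : ℂ) (s t' : ℝ), ‖w‖ < 1 / 2 ∧ 1 / 2 ≤ |s| ∧ |s| < 3 / 4 ∧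
      κ (l, v, t) = pb (β a) (-1 + w, s, t')

theorem BunEx_Rc [Finite α] {β : α → ℂ × ℝ → ℂ × ℝ} (hβ : ∀ a, Emb (β a)) (i k : α → ι) (m : ι) :
    IsClosed (BunEx_R β i k m) := by
  have e : BunEx_R β i k m =
      (⋃ a ∈ {a | i a ≠ m}, (fun q => io (β a q)) '' (Metric.closedBall (1 : ℂ) (3 / 4) ×ˢ Metric.closedBall (0 : ℝ) (3 / 4))) ∪
      ⋃ a ∈ {a | k a ≠ m}, (fun q => io (β a q)) '' (Metric.closedBall (-1 : ℂ) (3 / 4) ×ˢ Metric.closedBall (0 : ℝ) (3 / 4)) := by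
    ext x
    simp only [mem_union, mem_iUnion]
    constructor
    · rintro ⟨a, q, e, h1, ⟨h2, h3⟩ | ⟨h2, h3⟩⟩
      · refine Or.inl ⟨a, h3, q, ⟨?_, ?_⟩, e.symm⟩
        · rw [mem_closedBall_iff_norm]; exact h2
        · rw [mem_closedBall_zero_iff]; exact h1
      · refine Or.inr ⟨a, h3, q, ⟨?_, ?_⟩, e.symm⟩
        · rw [mem_closedBall_iff_norm, sub_neg_eq_add]; exact h2
        · rw [mem_closedBall_zero_iff]; exact h1
    · rintro (⟨a, h3, q, ⟨h2, h1⟩, e⟩ | ⟨a, h3, q, ⟨h2, h1⟩, e⟩)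
      · rw [mem_closedBall_iff_norm] at h2
        rw [mem_closedBall_zero_iff] at h1
        exact ⟨a, q, e.symm, h1, Or.inl ⟨h2, h3⟩⟩
      · rw [mem_closedBall_iff_norm, sub_neg_eq_add] at h2
        rw [mem_closedBall_zero_iff] at h1
        exact ⟨a, q, e.symm, h1, Or.inr ⟨h2, h3⟩⟩
  have hc : ∀ (a : α) (z : ℂ), IsClosed ((fun q => io (β a q)) '' (Metric.closedBall z (3 / 4) ×ˢ Metric.closedBall (0 : ℝ) (3 / 4))) := by
    intro a z
    refine (IsCompact.image ?_ ?_).isClosed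
    · exact (isCompact_closedBall z _).prod (isCompact_closedBall 0 _)
    · exact CLG.io_smooth.continuous.comp (hβ a).smooth.continuous
  rw [e]
  refine IsClosed.union ?_ ?_
  · exact Set.Finite.isClosed_biUnion (toFinite _) fun a _ => hc a _
  · exact Set.Finite.isClosed_biUnion (toFinite _) fun a _ => hc a _

theorem BunEx_Bc [Finite α] {β : α → ℂ × ℝ → ℂ × ℝ} (hβ : ∀ a, Emb (β a)) : IsClosed (BunEx_B β) := by
  have e : BunEx_B β = ⋃ a, (fun q => io (β a q)) '' (Metric.closedBall (0 : ℂ) 4 ×ˢ Metric.closedBall (0 : ℝ) (1 / 2)) := by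
    ext x
    simp only [mem_iUnion]
    constructor
    · rintro ⟨a, q, e, h1, h2⟩
      refine ⟨a, q, ⟨?_, ?_⟩, e.symm⟩
      · rw [mem_closedBall_zero_iff]; exact h1
      · rw [mem_closedBall_zero_iff]; exact h2
    · rintro ⟨a, q, ⟨h1, h2⟩, e⟩
      rw [mem_closedBall_zero_iff] at h1 h2
      exact ⟨a, q, e.symm, h1, h2⟩
  rw [e]
  refine isClosed_iUnion_of_finite fun a => ?_
  refine (IsCompact.image ?_ ?_).isClosed
  · exact (isCompact_closedBall 0 _).prod (isCompact_closedBall 0 _)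
  · exact CLG.io_smooth.continuous.comp (hβ a).smooth.continuous

theorem BunEx_Wo {β : α → ℂ × ℝ → ℂ × ℝ} (hβ : ∀ a, Emb (β a)) (i k : α → ι) (m : ι) :
    IsOpen (BunEx_W β i k m) := by
  rw [isOpen_iff_mem_nhds]
  rintro _ ⟨a, z, s, t, rfl, hs, hz⟩
  have hs1 : |s| < 1 := by linarith
  have hb : IsOpen {x : ℂ × ℝ × ℝ | |x.2.1| < 3 / 4} := isOpen_lt (by fun_prop) continuous_const
  rcases hz with ⟨hz, h3⟩ | ⟨hz, h3⟩
  · have ha : IsOpen {x : ℂ × ℝ × ℝ | ‖x.1 - 1‖ < 3 / 4} := isOpen_lt (by fun_prop) continuous_const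
    have h1 : {x : ℂ × ℝ × ℝ | ‖x.1 - 1‖ < 3 / 4} ∩ {x : ℂ × ℝ × ℝ | |x.2.1| < 3 / 4} ∈ 𝓝 (z, s, t) :=
      (ha.inter hb).mem_nhds ⟨hz, hs⟩
    have h2 := (KNH.pb_box (hβ a) (‖z‖ + 1)).loc z s t (by linarith) hs1
    refine mem_of_superset (CSG.ld_image_nhds h2 h1) ?_
    rintro _ ⟨⟨z', s', t'⟩, hx, rfl⟩
    exact ⟨a, z', s', t', rfl, hx.2, Or.inl ⟨hx.1, h3⟩⟩
  · have ha : IsOpen {x : ℂ × ℝ × ℝ | ‖x.1 + 1‖ < 3 / 4} := isOpen_lt (by fun_prop) continuous_const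
    have h1 : {x : ℂ × ℝ × ℝ | ‖x.1 + 1‖ < 3 / 4} ∩ {x : ℂ × ℝ × ℝ | |x.2.1| < 3 / 4} ∈ 𝓝 (z, s, t) :=
      (ha.inter hb).mem_nhds ⟨hz, hs⟩
    have h2 := (KNH.pb_box (hβ a) (‖z‖ + 1)).loc z s t (by linarith) hs1
    refine mem_of_superset (CSG.ld_image_nhds h2 h1) ?_
    rintro _ ⟨⟨z', s', t'⟩, hx, rfl⟩
    exact ⟨a, z', s', t', rfl, hx.2, Or.inr ⟨hx.1, h3⟩⟩

/-- equality of two points of charts -/
theorem BunEx_eq {β : α → ℂ × ℝ → ℂ × ℝ} (hβ : ∀ a, Emb (β a)) (hdis : ∀ a a' q q', β a q = β a' q' → a = a')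
    {a a' : α} {z z' : ℂ} {s s' t t' : ℝ} (h : pb (β a) (z, s, t) = pb (β a') (z', s', t')) :
    a = a' ∧ z = z' ∧ s = s' := by
  have h1 : io (β a (z, s)) = io (β a' (z', s')) := congrArg Prod.fst h
  have h2 := CLG.io_inj h1
  have h3 := hdis _ _ _ _ h2
  subst h3
  have h4 := Prod.ext_iff.1 ((hβ a).inj h2)
  exact ⟨rfl, h4.1, h4.2⟩

/-- a pair of opposite strands -/
theorem BunEx_far {w w' : ℂ} (hw : ‖w‖ < 3 / 4) (hw' : ‖w'‖ ≤ 3 / 4) : (1 : ℂ) + w ≠ -1 + w' := by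
  intro e
  have h1 : (2 : ℂ) = w' - w := by linear_combination e
  have h2 : (2 : ℝ) ≤ ‖w'‖ + ‖w‖ := by
    have h3 : ‖(2 : ℂ)‖ = 2 := by simp
    rw [← h3, h1]
    exact norm_sub_le _ _
  linarith

/-- windows -/
theorem BunEx_win {P : Type*} {κ : ℝ × ℂ × ℝ → P} (hp : ∀ l v t, κ (l + 1, v, t) = κ (l, v, t)) (l : ℝ) (n : ℤ) (v : ℂ) (t : ℝ) :
    κ (l + n, v, t) = κ (l, v, t) := by
  have h : Function.Periodic (fun l => κ (l, v, t)) 1 := fun l => hp l v t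
  have h1 := (h.int_mul n) l
  rw [mul_one] at h1
  exact h1

end aux

section step
variable {ι α : Type*} [Finite ι] [Finite α]

omit [Finite ι] [Finite α] in
/-- the core of the component `m` meets the charts in its own strands only -/
theorem BunEx_core {β : α → ℂ × ℝ → ℂ × ℝ} {i k : α → ι} {m : ι} {c : ℝ → S3}
    (hS : ∀ a q, (∃ l, c l = io (β a q)) ↔ q ∈ Ln (i a) (k a) m) (l : ℝ) : c l ∉ BunEx_R β i k m := by
  rintro ⟨a, q, e, _, h⟩
  rcases (hS a q).1 ⟨l, e⟩ with ⟨h1, h2⟩ | ⟨h1, h2⟩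
  · rcases h with ⟨_, h3⟩ | ⟨h3, _⟩
    · exact h3 h2
    · rw [h1] at h3
      norm_num at h3
  · rcases h with ⟨h3, _⟩ | ⟨_, h3⟩
    · rw [h1] at h3
      norm_num at h3
    · exact h3 h2

open Classical in
theorem BunEx_step {Q : (ι → ℝ × ℂ × ℝ → SP) → Prop} (hQ : MonoF.{u} ISP Q)
    {κ : ι → ℝ × ℂ × ℝ → SP} (h : LinkT ISP κ) (m : ι) (he : Equi rot (κ m)) (hp : PosT (κ m)) {c : ℝ → S3}
    (hc : ∀ l, κ m (l, 0, 0) = (c l, 1)) (hq : Q κ)
    {β : α → ℂ × ℝ → ℂ × ℝ} (hβ : ∀ a, Emb (β a)) (hpos : ∀ a, PosB (pb (β a)))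
    (hdis : ∀ a a' q q', β a q = β a' q' → a = a') {i k : α → ι} (hi : Function.Injective i)
    (hk : Function.Injective k) (hS : ∀ a q, (∃ l, c l = io (β a q)) ↔ q ∈ Ln (i a) (k a) m)
    (hW : ∀ m', m' ≠ m → Disjoint (Tube (κ m')) (BunEx_W β i k m'))
    {Fc : Set SP} (hFc : IsClosed Fc) (hF : ∀ l, Outc β (1 / 2) (c l) → ∀ t, rot t (c l, 1) ∉ Fc) :
    ∃ (κ' : ℝ × ℂ × ℝ → SP) (φ : ℝ → ℝ) (ε₁ ε₂ : ℝ), LinkT ISP (Function.update κ m κ') ∧ Equi rot κ' ∧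
      Disjoint (Tube κ') (BunEx_W β i k m) ∧ Q (Function.update κ m κ') ∧
      BunEx_G β i k (Fc ∪ {p : SP | p.1 ∈ BunEx_B β}) c m κ' φ ε₁ ε₂ := by
  obtain ⟨p₁, hp₁⟩ : ∃ p₁ : Option (ℂ × ℝ → ℂ × ℝ), ∀ β', β' ∈ p₁ ↔ ∃ a, i a = m ∧ β a = β' := by
    by_cases h : ∃ a, i a = m
    · obtain ⟨a, ha⟩ := h
      refine ⟨some (β a), fun β' => ?_⟩
      rw [Option.mem_some_iff]
      constructor
      · intro e; exact ⟨a, ha, e⟩
      · rintro ⟨a', ha', e⟩; rw [← e, hi (ha.trans ha'.symm)]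
    · exact ⟨none, fun β' => ⟨fun h => by simp at h, fun ⟨a, ha, _⟩ => (h ⟨a, ha⟩).elim⟩⟩
  obtain ⟨p₂, hp₂⟩ : ∃ p₂ : Option (ℂ × ℝ → ℂ × ℝ), ∀ β', β' ∈ p₂ ↔ ∃ a, k a = m ∧ β a = β' := by
    by_cases h : ∃ a, k a = m
    · obtain ⟨a, ha⟩ := h
      refine ⟨some (β a), fun β' => ?_⟩
      rw [Option.mem_some_iff]
      constructor
      · intro e; exact ⟨a, ha, e⟩
      · rintro ⟨a', ha', e⟩; rw [← e, hk (ha.trans ha'.symm)]
    · exact ⟨none, fun β' => ⟨fun h => by simp at h, fun ⟨a, ha, _⟩ => (h ⟨a, ha⟩).elim⟩⟩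
  -- the open regions of the strands of `m` do not meet the closed tubes of the other tori
  have hcl : ∀ m', m' ≠ m → ∀ p ∈ BunEx_W β i k m', p ∉ closure (Tube (κ m')) := by
    intro m' hm' p hp hcp
    obtain ⟨x, hx1, hx2⟩ := mem_closure_iff.1 hcp _ (BunEx_Wo hβ i k m') hp
    exact Set.disjoint_left.1 (hW m' hm') hx2 hx1
  have key := one_comp (κ₀ := κ m) (h.thick m) he hp (c := c) hc (O := Oth κ m) (tube_oth h m) (p₁ := p₁) (p₂ := p₂)
    (by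
      intro β' hb
      obtain ⟨a, _, rfl⟩ := (hp₁ β').1 hb
      exact ⟨hβ a, hpos a⟩)
    (by
      intro β' hb
      obtain ⟨a, _, rfl⟩ := (hp₂ β').1 hb
      exact ⟨hβ a, hpos a⟩)
    (by
      intro β' hb w u hw
      obtain ⟨a, ha, rfl⟩ := (hp₁ β').1 hb
      rw [hS a (1 + w, u)]
      constructor
      · rintro (⟨h1, _⟩ | ⟨h1, _⟩)
        · have h2 : (1 : ℂ) + w = 1 := h1
          linear_combination h2
        · have h2 : (1 : ℂ) + w = -1 := h1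
          exact absurd (show (1 : ℂ) + 0 = -1 + (-w) by linear_combination h2)
            (BunEx_far (by simp) (by rw [norm_neg]; exact hw))
      · rintro rfl
        exact Or.inl ⟨add_zero 1, ha⟩)
    (by
      intro β' hb w u hw
      obtain ⟨a, ha, rfl⟩ := (hp₂ β').1 hb
      rw [hS a (-1 + w, u)]
      constructor
      · rintro (⟨h1, _⟩ | ⟨h1, _⟩)
        · have h2 : (-1 : ℂ) + w = 1 := h1
          exact absurd (show (1 : ℂ) + 0 = -1 + w by linear_combination -h2)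
            (BunEx_far (by simp) hw)
        · have h2 : (-1 : ℂ) + w = -1 := h1
          linear_combination h2
      · rintro rfl
        exact Or.inr ⟨add_zero (-1), ha⟩)
    (by
      intro β' hb w s t hw hs m' hm'
      obtain ⟨a, ha, rfl⟩ := (hp₁ β').1 hb
      refine hcl m' hm' _ ⟨a, 1 + w, s, t, rfl, hs, Or.inl ⟨?_, ?_⟩⟩
      · rw [add_sub_cancel_left]; exact hw
      · rw [ha]; exact hm'.symm)
    (by
      intro β' hb w s t hw hs m' hm'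
      obtain ⟨a, ha, rfl⟩ := (hp₂ β').1 hb
      refine hcl m' hm' _ ⟨a, -1 + w, s, t, rfl, hs, Or.inr ⟨?_, ?_⟩⟩
      · rw [show (-1 : ℂ) + w + 1 = w by ring]; exact hw
      · rw [ha]; exact hm'.symm)
    (by
      intro β' hb β'' hb' w s w' s' hw hw' e
      obtain ⟨a, ha, rfl⟩ := (hp₁ β').1 hb
      obtain ⟨a', ha', rfl⟩ := (hp₂ β'').1 hb'
      have h1 := hdis _ _ _ _ e
      subst h1
      have h2 := Prod.ext_iff.1 ((hβ a).inj e)
      exact BunEx_far hw hw'.le h2.1)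
    (Fc := (Fc ∪ {p : SP | p.1 ∈ BunEx_B β}) ∪ {p : SP | p.1 ∈ BunEx_R β i k m})
    ((hFc.union ((BunEx_Bc hβ).preimage continuous_fst)).union ((BunEx_Rc hβ i k m).preimage continuous_fst))
    (by
      intro l h1 h2 t
      have h3 : ∀ a q, c l = io (β a q) → 5 / 8 ≤ |q.2| := by
        rintro a ⟨z, u⟩ e
        rcases (hS a (z, u)).1 ⟨l, e⟩ with ⟨h4, h5⟩ | ⟨h4, h5⟩
        · have h4 : z = 1 := h4
          subst h4
          exact h1 (β a) ((hp₁ _).2 ⟨a, h5, rfl⟩) u e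
        · have h4 : z = -1 := h4
          subst h4
          exact h2 (β a) ((hp₂ _).2 ⟨a, h5, rfl⟩) u e
      rintro ((h4 | h4) | h4)
      · exact hF l (fun a q e => by linarith [h3 a q e]) t h4
      · have h4 : c l ∈ BunEx_B β := h4
        obtain ⟨a, q, e, _, h5⟩ := h4
        linarith [h3 a q e]
      · exact BunEx_core hS l h4)
  obtain ⟨κ', φ, ε₁, ε₂, s1, s2, hth, heq, htub, hcont, hper, hcore, st1, st2, hrest, hinv⟩ := key
  have hG : BunEx_G β i k ((Fc ∪ {p : SP | p.1 ∈ BunEx_B β}) ∪ {p : SP | p.1 ∈ BunEx_R β i k m}) c m κ' φ ε₁ ε₂ := by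
    refine ⟨s1, s2, hcont, hper, hcore, ?_, ?_, ?_⟩
    · intro a ha
      exact st1 (β a) ((hp₁ _).2 ⟨a, ha, rfl⟩)
    · intro a ha
      exact st2 (β a) ((hp₂ _).2 ⟨a, ha, rfl⟩)
    · intro l v t hv h1 h2
      have g1 : ∀ β' ∈ p₁, ∀ n : ℤ, 1 / 16 ≤ |l - 1 / 4 - n| := by
        intro β' hb
        obtain ⟨a, ha, rfl⟩ := (hp₁ β').1 hb
        exact h1 a ha
      have g2 : ∀ β' ∈ p₂, ∀ n : ℤ, 1 / 16 ≤ |l - 3 / 4 - n| := by
        intro β' hb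
        obtain ⟨a, ha, rfl⟩ := (hp₂ β').1 hb
        exact h2 a ha
      rcases hrest l v t hv g1 g2 with h3 | ⟨β', hb, h3⟩ | ⟨β', hb, h3⟩
      · exact Or.inl h3
      · obtain ⟨a, ha, rfl⟩ := (hp₁ β').1 hb
        exact Or.inr (Or.inl ⟨a, ha, h3⟩)
      · obtain ⟨a, ha, rfl⟩ := (hp₂ β').1 hb
        exact Or.inr (Or.inr ⟨a, ha, h3⟩)
  -- the new tube does not meet the foreign regions
  have hown : ∀ (a : α) (w : ℂ) (s t : ℝ), i a = m → ‖w‖ ≤ 1 / 2 → pb (β a) (1 + w, s, t) ∉ BunEx_W β i k m := by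
    rintro a w s t ha hw ⟨a', z', s', t', e, _, h1⟩
    obtain ⟨rfl, h2, _⟩ := BunEx_eq hβ hdis e
    rcases h1 with ⟨_, h1⟩ | ⟨h1, _⟩
    · exact h1 ha
    · rw [← h2] at h1
      exact BunEx_far (w := w) (w' := 1 + w + 1) (by linarith) h1.le (by ring)
  have hown' : ∀ (a : α) (w : ℂ) (s t : ℝ), k a = m → ‖w‖ ≤ 1 / 2 → pb (β a) (-1 + w, s, t) ∉ BunEx_W β i k m := by
    rintro a w s t ha hw ⟨a', z', s', t', e, _, h1⟩
    obtain ⟨rfl, h2, _⟩ := BunEx_eq hβ hdis e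
    rcases h1 with ⟨h1, _⟩ | ⟨_, h1⟩
    · rw [← h2] at h1
      exact BunEx_far (w := -1 + w - 1) (w' := w) h1 (by linarith) (by ring)
    · exact h1 ha
  have hdj : Disjoint (Tube κ') (BunEx_W β i k m) := by
    rw [Set.disjoint_left]
    rintro _ ⟨l, v, t, hv, rfl⟩ hw
    have hcv : ∀ ε : ℝ, (ε = 1 ∨ ε = -1) → ‖cj ε v / 2‖ ≤ 1 / 2 := by
      intro ε hε
      rw [norm_div, RSG.cj_norm hε]
      have : ‖(2 : ℂ)‖ = 2 := by simp
      rw [this]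
      linarith
    by_cases h1 : ∀ a, i a = m → ∀ n : ℤ, 1 / 16 ≤ |l - 1 / 4 - n|
    · by_cases h2 : ∀ a, k a = m → ∀ n : ℤ, 1 / 16 ≤ |l - 3 / 4 - n|
      · rcases hG.rest l v t hv h1 h2 with h3 | ⟨a, ha, w, s, t', h4, _, _, e⟩ | ⟨a, ha, w, s, t', h4, _, _, e⟩
        · refine h3 (Or.inr ?_)
          obtain ⟨a, z, s, t', e, h4, h5⟩ := hw
          refine ⟨a, (z, s), congrArg Prod.fst e, h4.le, ?_⟩
          rcases h5 with ⟨h5, h6⟩ | ⟨h5, h6⟩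
          · exact Or.inl ⟨h5.le, h6⟩
          · exact Or.inr ⟨h5.le, h6⟩
        · rw [e] at hw
          exact hown a w s t' ha h4.le hw
        · rw [e] at hw
          exact hown' a w s t' ha h4.le hw
      · push Not at h2
        obtain ⟨a, ha, n, hn⟩ := h2
        have h3 := hG.st2 a ha (l - 3 / 4 - n) v t hn hv
        rw [← BunEx_win hth.perl _ n, show (3 : ℝ) / 4 + (l - 3 / 4 - n) + n = l by ring] at h3
        rw [h3] at hw
        exact hown' a _ _ _ ha (hcv _ hG.s2) hw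
    · push Not at h1
      obtain ⟨a, ha, n, hn⟩ := h1
      have h3 := hG.st1 a ha (l - 1 / 4 - n) v t hn hv
      rw [← BunEx_win hth.perl _ n, show (1 : ℝ) / 4 + (l - 1 / 4 - n) + n = l by ring] at h3
      rw [h3] at hw
      exact hown a _ _ _ ha (hcv _ hG.s1) hw
  refine ⟨κ', φ, ε₁, ε₂, link_update h m hth htub, heq, hdj, ?_, ?_⟩
  · refine hinv (fun κ₀ => Q (Function.update κ m κ₀)) (inv_of_mono hQ h m).toInv0 ?_
    show Q (Function.update κ m (κ m))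
    rw [Function.update_eq_self]
    exact hq
  · refine ⟨hG.s1, hG.s2, hG.cont, hG.per, hG.core, hG.st1, hG.st2, ?_⟩
    intro l v t hv h1 h2
    rcases hG.rest l v t hv h1 h2 with h3 | h3
    · exact Or.inl fun h4 => h3 (Or.inl h4)
    · exact Or.inr h3

end step

theorem exists_bunF {ι α : Type*} [Finite ι] [Finite α] {Q : (ι → ℝ × ℂ × ℝ → SP) → Prop} (hQ : MonoF.{u} ISP Q)
    {κ₀ : ι → ℝ × ℂ × ℝ → SP} (h₀ : LinkT ISP κ₀) (he : ∀ m, Equi rot (κ₀ m)) {cc : ι → ℝ → S3}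
    (hc : ∀ m l, κ₀ m (l, 0, 0) = (cc m l, 1)) (hq : Q κ₀)
    {β : α → ℂ × ℝ → ℂ × ℝ} (hβ : ∀ a, Emb (β a)) (hpos : ∀ a, PosB (pb (β a)))
    (hdis : ∀ a a' q q', β a q = β a' q' → a = a') {i k : α → ι} (hi : Function.Injective i)
    (hk : Function.Injective k) (hS : ∀ m a q, (∃ l, cc m l = io (β a q)) ↔ q ∈ Ln (i a) (k a) m)
    {Fc : ι → Set SP} (hFc : ∀ m, IsClosed (Fc m))
    (hF : ∀ m l, Outc β (1 / 2) (cc m l) → ∀ t, rot t (cc m l, 1) ∉ Fc m) :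
    ∃ (κ : ι → ℝ × ℂ × ℝ → SP) (φ : ι → ℝ → ℝ) (e₁ e₂ : α → ℝ),
      (∀ τ : α → ℝ → ℝ, BunF ISP κ (fun a => half 1 (pb (β a))) ⟨i, k, e₁, e₂, τ⟩) ∧
      (∀ m, Equi rot (κ m)) ∧ (∀ m, Continuous (φ m)) ∧ (∀ m l, φ m (l + 1) = φ m l + 1) ∧
      (∀ m l, κ m (l, 0, 0) = (cc m (φ m l), 1)) ∧
      (∀ (τ : α → ℝ → ℝ) (m : ι) (l : ℝ) (v : ℂ) (t : ℝ), ‖v‖ < 1 → RestF ⟨i, k, e₁, e₂, τ⟩ m l → κ m (l, v, t) ∉ Fc m ∨
        ∃ (a : α) (z : ℂ) (s t' : ℝ), ‖z‖ < 4 ∧ 1 / 2 ≤ |s| ∧ |s| < 1 ∧ κ m (l, v, t) = pb (β a) (z, s, t')) ∧ Q κ := by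
  classical
  -- preparation
  obtain ⟨κ₁, hL₁, he₁, hp₁, hc₁, hd₁, hq₁⟩ := prepF hQ h₀ he hq (F := fun m => {p : SP | p.1 ∈ BunEx_R β i k m})
    (fun m => (BunEx_Rc hβ i k m).preimage continuous_fst)
    (fun m l t => by
      intro h1
      have h2 : (κ₀ m (l, 0, t)).1 ∈ BunEx_R β i k m := h1
      rw [he m l 0 t, hc m l] at h2
      exact BunEx_core (hS m) l h2)
  have hc₁' : ∀ m l, κ₁ m (l, 0, 0) = (cc m l, 1) := fun m l => (hc₁ m l).trans (hc m l)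
  have hw₁ : ∀ m, Disjoint (Tube (κ₁ m)) (BunEx_W β i k m) := by
    intro m
    refine (hd₁ m).mono_right ?_
    rintro p ⟨a, z, s, t, e, h4, h5⟩
    refine ⟨a, (z, s), congrArg Prod.fst e, h4.le, ?_⟩
    rcases h5 with ⟨h5, h6⟩ | ⟨h5, h6⟩
    · exact Or.inl ⟨h5.le, h6⟩
    · exact Or.inr ⟨h5.le, h6⟩
  -- induction
  have main : ∀ T : Finset ι, ∃ (κ : ι → ℝ × ℂ × ℝ → SP) (φ : ι → ℝ → ℝ) (ε₁ ε₂ : ι → ℝ), LinkT ISP κ ∧
      (∀ m, Equi rot (κ m)) ∧ (∀ m, Disjoint (Tube (κ m)) (BunEx_W β i k m)) ∧ Q κ ∧ (∀ m, m ∉ T → κ m = κ₁ m) ∧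
      ∀ m ∈ T, BunEx_G β i k (Fc m ∪ {p : SP | p.1 ∈ BunEx_B β}) (cc m) m (κ m) (φ m) (ε₁ m) (ε₂ m) := by
    intro T
    induction T using Finset.induction_on with
    | empty =>
      exact ⟨κ₁, fun _ l => l, fun _ => 1, fun _ => 1, hL₁, he₁, hw₁, hq₁, fun _ _ => rfl, fun m hm => by simp at hm⟩
    | insert m T hm ih =>
      obtain ⟨κ, φ, ε₁, ε₂, hL, heκ, hw, hqκ, hold, hnew⟩ := ih
      have e1 := hold m hm
      obtain ⟨κ', φ', ε₁', ε₂', hL', he', hdj, hq', hG⟩ := BunEx_step hQ hL m (heκ m) (by rw [e1]; exact hp₁ m) (c := cc m)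
        (fun l => by rw [e1]; exact hc₁' m l) hqκ hβ hpos hdis hi hk (hS m) (fun m' _ => hw m') (hFc m) (hF m)
      refine ⟨Function.update κ m κ', Function.update φ m φ', Function.update ε₁ m ε₁', Function.update ε₂ m ε₂', hL', ?_, ?_,
        hq', ?_, ?_⟩
      · intro m'
        by_cases h1 : m' = m
        · subst h1
          rw [Function.update_self]; exact he'
        · rw [Function.update_of_ne h1]; exact heκ m'
      · intro m'
        by_cases h1 : m' = m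
        · subst h1
          rw [Function.update_self]; exact hdj
        · rw [Function.update_of_ne h1]; exact hw m'
      · intro m' h1
        rw [Finset.mem_insert, not_or] at h1
        rw [Function.update_of_ne h1.1]
        exact hold m' h1.2
      · intro m' h1
        by_cases h2 : m' = m
        · subst h2
          rw [Function.update_self, Function.update_self, Function.update_self, Function.update_self]
          exact hG
        · rw [Function.update_of_ne h2, Function.update_of_ne h2, Function.update_of_ne h2, Function.update_of_ne h2]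
          exact hnew m' ((Finset.mem_insert.1 h1).resolve_left h2)
  have := Fintype.ofFinite ι
  obtain ⟨κ, φ, ε₁, ε₂, hL, heκ, _, hqκ, _, hG⟩ := main Finset.univ
  have hG : ∀ m, BunEx_G β i k (Fc m ∪ {p : SP | p.1 ∈ BunEx_B β}) (cc m) m (κ m) (φ m) (ε₁ m) (ε₂ m) :=
    fun m => hG m (Finset.mem_univ m)
  have hj : ∀ (a : α) (z : ℂ) (s t : ℝ), half 1 (pb (β a)) (z, s, t) = pb (β a) (z, s / 2, t) := by
    intro a z s t
    have h1 : cj 1 z = z := by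
      apply Complex.ext
      · rfl
      · show 1 * z.im = z.im
        rw [one_mul]
    show pb (β a) (cj 1 z, s / 2, t) = pb (β a) (z, s / 2, t)
    rw [h1]
  refine ⟨κ, φ, fun a => ε₁ (i a), fun a => ε₂ (k a), ?_, heκ, fun m => (hG m).cont, fun m => (hG m).per,
    fun m => (hG m).core, ?_, hqκ⟩
  · intro τ
    refine ⟨hL, fun a => KNH.CorM_box (Or.inl rfl) (KNH.pb_box (hβ a) 4), ?_, fun a => (hG (i a)).s1,
      fun a => (hG (k a)).s2, ?_, ?_, ?_⟩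
    · intro a a' z s t z' s' t' _ _ _ _ e
      rw [hj, hj] at e
      exact (BunEx_eq hβ hdis e).1
    · intro a l v t hl hv
      show κ (i a) (1 / 4 + l, v, t) = half 1 (pb (β a)) (1 + cj (ε₁ (i a)) v / 2, 16 * ε₁ (i a) * l, t)
      rw [hj, (hG (i a)).st1 a rfl l v t hl hv]
      congr 3
      ring
    · intro a l v t hl hv
      show κ (k a) (3 / 4 + l, v, t) = half 1 (pb (β a)) (-1 + cj (ε₂ (k a)) v / 2, 16 * ε₂ (k a) * l, t)
      rw [hj, (hG (k a)).st2 a rfl l v t hl hv]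
      congr 3
      ring
    · intro m l v t hv hr a z s t' hz hs e
      rw [hj] at e
      have hs2 : |s / 2| < 1 / 2 := by rw [abs_div, abs_two]; linarith
      rcases (hG m).rest l v t hv hr.1 hr.2 with h1 | ⟨a', _, w, s', t'', _, h2, _, h3⟩ | ⟨a', _, w, s', t'', _, h2, _, h3⟩
      · exact h1 (Or.inr ⟨a, (z, s / 2), congrArg Prod.fst e, hz.le, hs2.le⟩)
      · rw [e] at h3
        have h4 := (BunEx_eq hβ hdis h3).2.2
        rw [h4] at hs2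
        linarith
      · rw [e] at h3
        have h4 := (BunEx_eq hβ hdis h3).2.2
        rw [h4] at hs2
        linarith
  · intro τ m l v t hv hr
    rcases (hG m).rest l v t hv hr.1 hr.2 with h1 | ⟨a', _, w, s', t'', h5, h2, h6, h3⟩ | ⟨a', _, w, s', t'', h5, h2, h6, h3⟩
    · exact Or.inl fun h2 => h1 (Or.inl h2)
    · refine Or.inr ⟨a', 1 + w, s', t'', ?_, h2, by linarith, h3⟩
      refine (norm_add_le _ _).trans_lt ?_
      rw [norm_one]; linarith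
    · refine Or.inr ⟨a', -1 + w, s', t'', ?_, h2, by linarith, h3⟩
      refine (norm_add_le _ _).trans_lt ?_
      rw [norm_neg, norm_one]; linarith

end Pool.Agent.LKF
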