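import Pool.Agent.LKF.OriF
import Pool.Agent.KNH.FamM

/-!
# LKF/ConF: charts composed with the complex conjugation   (difficulty 2)

`cjc β q = β (conj q.1, q.2)`.  The linear map `(z, u) ↦ (conj z, u)` is an involution; `thn w₀` commutes with it (`wf w₀ u` is real); it fixes the lines `z = ±1`.
`cjc_pos`: `posB_or` for `pb β` (`BBox ISP (pb β) 5 1` from `KNH.pb_box`).  `tw2_pos`: `oJ_comp` with `g (s, z, t) = (s, ex (2 gs (2 s)) z, t)`: at `(0, 0, 0)` the derivative is `(s, z, t) ↦ (s, ex (2 gs 0) z, t)`, determinant `1 > 0`.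
-/

open scoped Manifold ContDiff Topology
open Set Filter
open Complex (I)
open Pool.Agent.CSG (stp)
open Pool.Agent.RSG (E4 S3 S4 ex cj c1 c2 ht fh pS3)
open Pool.Agent.RBM (ThickT OnT Box frc)
open Pool.Agent.RBH (Tube BoxS)
open Pool.Agent.PTH (SP ISP Act)
open Pool.Agent.COR (Equi EquiB BBox OutW PosAt half dv dt PerS)
open Pool.Agent.KNT (Dom BalC Tubes Str Str2 CD)
open Pool.Agent.KNH (rot Hat circ pb Emb Fam ThinOK thn bx)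
open Pool.Agent.CLG (io pol)

namespace Pool.Agent.LKF

universe u

/-- the conjugation -/
noncomputable def ConF_L : (ℂ × ℝ) →L[ℝ] (ℂ × ℝ) :=
  (Complex.conjCLE : ℂ →L[ℝ] ℂ).prodMap (ContinuousLinearMap.id ℝ ℝ)

theorem ConF_L_apply (q : ℂ × ℝ) : ConF_L q = ((starRingEnd ℂ) q.1, q.2) := rfl

theorem ConF_L_L (q : ℂ × ℝ) : ConF_L (ConF_L q) = q := by
  rw [ConF_L_apply, ConF_L_apply]
  exact Prod.ext (Complex.conj_conj _) rfl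

theorem ConF_L_inj : Function.Injective ConF_L := by
  intro q q' h
  have h1 := congrArg ConF_L h
  rwa [ConF_L_L, ConF_L_L] at h1

theorem ConF_L_thn (w₀ : ℝ) (q : ℂ × ℝ) : ConF_L (thn w₀ q) = thn w₀ (ConF_L q) := by
  rw [ConF_L_apply, ConF_L_apply]
  refine Prod.ext ?_ rfl
  show (starRingEnd ℂ) ((KNH.wf w₀ q.2 : ℂ) * q.1) = (KNH.wf w₀ q.2 : ℂ) * (starRingEnd ℂ) q.1
  rw [map_mul, Complex.conj_ofReal]

theorem ConF_imm {f g : ℂ × ℝ → ℂ × ℝ} {q : ℂ × ℝ} (hg : DifferentiableAt ℝ g (f q))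
    (hf : DifferentiableAt ℝ f q) (h1 : Function.Injective (fderiv ℝ g (f q)))
    (h2 : Function.Injective (fderiv ℝ f q)) : Function.Injective (fderiv ℝ (g ∘ f) q) := by
  rw [fderiv_comp q hg hf]
  exact h1.comp h2

theorem ConF_L_fd (q : ℂ × ℝ) : Function.Injective (fderiv ℝ ConF_L q) := by
  rw [ConF_L.fderiv]
  exact ConF_L_inj

theorem cjc_emb {β : ℂ × ℝ → ℂ × ℝ} (h : Emb β) : Emb (cjc β) := by
  refine ⟨h.smooth.comp ConF_L.contDiff, h.inj.comp ConF_L_inj, ?_⟩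
  intro q
  exact ConF_imm (f := ConF_L) (g := β) (h.smooth.differentiable (by simp) _)
    ConF_L.differentiableAt (h.imm _) (ConF_L_fd q)

theorem cjc_fam {β : ℝ → ℂ × ℝ → ℂ × ℝ} {Y : Set (ℂ × ℝ)} (h : Fam β Y) : Fam (fun l => cjc (β l)) Y := by
  refine ⟨?_, ?_, ?_, h.inj0.comp ConF_L_inj, h.inj1.comp ConF_L_inj, ?_, ?_⟩
  · intro l hl q
    have h1 : ContDiffAt ℝ ∞ (fun p : ℝ × (ℂ × ℝ) => (p.1, ConF_L p.2)) (l, q) :=
      contDiffAt_fst.prodMk (ConF_L.contDiff.comp contDiff_snd).contDiffAt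
    exact ContDiffAt.comp (l, q) (f := fun p : ℝ × (ℂ × ℝ) => (p.1, ConF_L p.2))
      (h.smooth l hl (ConF_L q)) h1
  · intro l hl q
    exact ConF_imm (f := ConF_L) (g := β l) ((KNH.FamM_sm h hl).differentiable (by simp) _)
      ConF_L.differentiableAt (h.imm l hl _) (ConF_L_fd q)
  · intro l hl q hq
    exact h.ends l hl (ConF_L q) hq
  · intro l hl q q' hq hq'
    exact h.sep l hl (ConF_L q) (ConF_L q') hq hq'
  · intro l hl q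
    exact h.dis l hl (ConF_L q)

theorem cjc_thin {β : ℝ → ℂ × ℝ → ℂ × ℝ} {w₀ δ : ℝ} (h : ThinOK β w₀ δ) : ThinOK (fun l => cjc (β l)) w₀ δ := by
  refine ⟨h.w_pos, h.w_le, h.d_pos, h.d_le, ?_⟩
  intro l hl q q' h1 h2 h3 h4
  have h5 : β l (ConF_L (thn w₀ q)) = β l (ConF_L (thn w₀ q')) := h4
  rw [ConF_L_thn, ConF_L_thn] at h5
  refine ConF_L_inj (h.inj l hl _ _ ?_ ?_ h3 h5)
  · rw [ConF_L_apply]
    show ‖(starRingEnd ℂ) q.1‖ ≤ 4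
    rw [Complex.norm_conj]
    exact h1
  · rw [ConF_L_apply]
    show ‖(starRingEnd ℂ) q'.1‖ ≤ 4
    rw [Complex.norm_conj]
    exact h2

theorem cjc_thn (β : ℂ × ℝ → ℂ × ℝ) (w₀ : ℝ) : cjc (fun q => β (thn w₀ q)) = fun q => cjc β (thn w₀ q) := by
  funext q
  show β (thn w₀ (ConF_L q)) = β (ConF_L (thn w₀ q))
  rw [ConF_L_thn]

theorem cjc_ln {ι : Type*} (β : ℂ × ℝ → ℂ × ℝ) (i k m : ι) : cjc β '' Ln i k m = β '' Ln i k m := by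
  have h1 : ∀ q : ℂ × ℝ, q ∈ Ln i k m → ConF_L q ∈ Ln i k m := by
    rintro q (⟨h1, h2⟩ | ⟨h1, h2⟩)
    · left
      refine ⟨?_, h2⟩
      show (starRingEnd ℂ) q.1 = 1
      rw [h1, map_one]
    · right
      refine ⟨?_, h2⟩
      show (starRingEnd ℂ) q.1 = -1
      rw [h1, map_neg, map_one]
  ext x
  constructor
  · rintro ⟨q, hq, rfl⟩
    exact ⟨ConF_L q, h1 q hq, rfl⟩
  · rintro ⟨q, hq, rfl⟩
    refine ⟨ConF_L q, h1 q hq, ?_⟩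
    show β (ConF_L (ConF_L q)) = β q
    rw [ConF_L_L]

theorem cjc_cjc (β : ℂ × ℝ → ℂ × ℝ) : cjc (cjc β) = β := by
  funext q
  show β (ConF_L (ConF_L q)) = β q
  rw [ConF_L_L]

theorem ConF_bbox {β : ℂ × ℝ → ℂ × ℝ} (h : Emb β) : BBox ISP (pb β) 5 1 := by
  have h1 := KNH.pb_box h 5
  exact ⟨h1.per, h1.loc, h1.inj⟩

theorem cjc_pos {β : ℂ × ℝ → ℂ × ℝ} (h : Emb β) : PosB (pb β) ∨ PosB (pb (cjc β)) :=
  posB_or (by norm_num) (by norm_num) (ConF_bbox h)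

/-- the twist -/
noncomputable def ConF_T (q : ℂ × ℝ) : ℂ × ℝ := (ex (2 * RBM.gs (2 * q.2)) * q.1, q.2)

/-- the inverse twist -/
noncomputable def ConF_S (q : ℂ × ℝ) : ℂ × ℝ := ((starRingEnd ℂ) (ex (2 * RBM.gs (2 * q.2))) * q.1, q.2)

theorem ConF_gs : ContDiff ℝ ∞ (fun u : ℝ => ex (2 * RBM.gs (2 * u))) := by
  have h1 : ContDiff ℝ ∞ RBM.gs := Pool.Agent.CSG.stp_smooth _ _
  have h2 : ContDiff ℝ ∞ (fun u : ℝ => RBM.gs (2 * u)) := h1.comp (contDiff_const.mul contDiff_id)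
  exact RSG.ex_smooth.comp (contDiff_const.mul h2)

theorem ConF_T_smooth : ContDiff ℝ ∞ ConF_T :=
  ((ConF_gs.comp contDiff_snd).mul contDiff_fst).prodMk contDiff_snd

theorem ConF_S_smooth : ContDiff ℝ ∞ ConF_S := by
  have h1 : ContDiff ℝ ∞ (fun u : ℝ => (starRingEnd ℂ) (ex (2 * RBM.gs (2 * u)))) :=
    Complex.conjCLE.contDiff.comp ConF_gs
  exact ((h1.comp contDiff_snd).mul contDiff_fst).prodMk contDiff_snd

theorem ConF_ST (q : ℂ × ℝ) : ConF_S (ConF_T q) = q := by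
  refine Prod.ext ?_ rfl
  show (starRingEnd ℂ) (ex (2 * RBM.gs (2 * q.2))) * (ex (2 * RBM.gs (2 * q.2)) * q.1) = q.1
  rw [← mul_assoc, mul_comm ((starRingEnd ℂ) _), RSG.ex_mul_conj, one_mul]

theorem ConF_T_inj : Function.Injective ConF_T := by
  intro q q' h
  rw [← ConF_ST q, h, ConF_ST]

theorem ConF_T_fd (q : ℂ × ℝ) : Function.Injective (fderiv ℝ ConF_T q) := by
  have h1 : ConF_S ∘ ConF_T = id := funext ConF_ST
  have h2 := fderiv_comp q (ConF_S_smooth.differentiable (by simp) (ConF_T q))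
    (ConF_T_smooth.differentiable (by simp) q)
  rw [h1, fderiv_id] at h2
  intro x y hxy
  have h3 : ∀ v : ℂ × ℝ, fderiv ℝ ConF_S (ConF_T q) (fderiv ℝ ConF_T q v) = v := by
    intro v
    have h4 := congrArg (fun A : (ℂ × ℝ) →L[ℝ] (ℂ × ℝ) => A v) h2
    exact h4.symm
  rw [← h3 x, hxy, h3]

theorem tw2_emb {β : ℂ × ℝ → ℂ × ℝ} (h : Emb β) : Emb (tw2 β) := by
  refine ⟨h.smooth.comp ConF_T_smooth, h.inj.comp ConF_T_inj, ?_⟩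
  intro q
  exact ConF_imm (f := ConF_T) (g := β) (h.smooth.differentiable (by simp) _)
    (ConF_T_smooth.differentiable (by simp) q) (h.imm _) (ConF_T_fd q)

theorem ConF_gs1 {u : ℝ} (hu : 1 / 16 ≤ |u|) : ex (2 * RBM.gs (2 * u)) = 1 := by
  rcases le_abs.1 hu with h | h
  · have h1 : RBM.gs (2 * u) = 1 := Pool.Agent.CSG.stp_one (by norm_num) (by linarith)
    rw [h1]
    have := RSG.ex_int 2
    rw [mul_one]
    exact_mod_cast this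
  · have h1 : RBM.gs (2 * u) = 0 := Pool.Agent.CSG.stp_zero (by norm_num) (by linarith)
    rw [h1, mul_zero, RSG.ex_zero]

theorem tw2_ends (β : ℂ × ℝ → ℂ × ℝ) {q : ℂ × ℝ} (h : 1 / 8 ≤ |q.2|) : tw2 β q = β q := by
  show β (ex (2 * RBM.gs (2 * q.2)) * q.1, q.2) = β q
  rw [ConF_gs1 (by linarith), one_mul]

theorem tw2_ln {ι : Type*} (β : ℂ × ℝ → ℂ × ℝ) (i k m : ι) : tw2 β '' Ln i k m = β '' Ln2 i k m := by
  ext x
  constructor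
  · rintro ⟨q, hq, rfl⟩
    refine ⟨ConF_T q, ?_, rfl⟩
    rcases hq with ⟨h1, h2⟩ | ⟨h1, h2⟩
    · left
      refine ⟨?_, h2⟩
      show ex (2 * RBM.gs (2 * q.2)) * q.1 = ex (2 * RBM.gs (2 * q.2))
      rw [h1, mul_one]
    · right
      refine ⟨?_, h2⟩
      show ex (2 * RBM.gs (2 * q.2)) * q.1 = -ex (2 * RBM.gs (2 * q.2))
      rw [h1]
      ring
  · rintro ⟨q, hq, rfl⟩
    rcases hq with ⟨h1, h2⟩ | ⟨h1, h2⟩
    · refine ⟨(1, q.2), Or.inl ⟨rfl, h2⟩, ?_⟩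
      show β (ex (2 * RBM.gs (2 * q.2)) * 1, q.2) = β q
      rw [mul_one, ← h1]
    · refine ⟨(-1, q.2), Or.inr ⟨rfl, h2⟩, ?_⟩
      show β (ex (2 * RBM.gs (2 * q.2)) * -1, q.2) = β q
      rw [mul_neg, mul_one, ← h1]

/-- the twist in the coordinates of the box -/
noncomputable def ConF_g (q : ℝ × ℂ × ℝ) : ℝ × ℂ × ℝ := (q.1, ex (2 * RBM.gs (2 * q.1)) * q.2.1, q.2.2)

/-- multiplication -/
noncomputable def ConF_M (c : ℂ) : ℂ →L[ℝ] ℂ := (ContinuousLinearMap.mul ℝ ℂ c)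

theorem ConF_M_dt (c : ℂ) : dt (ConF_M c) = ‖c‖ ^ 2 := by
  unfold dt ConF_M
  rw [ContinuousLinearMap.mul_apply', ContinuousLinearMap.mul_apply', mul_one, ← mul_assoc,
    ← Complex.normSq_eq_conj_mul_self, Complex.normSq_eq_norm_sq]
  rw [Complex.im_ofReal_mul, Complex.I_im, mul_one]

theorem ConF_g_smooth : ContDiff ℝ ∞ ConF_g :=
  contDiff_fst.prodMk (((ConF_gs.comp contDiff_fst).mul contDiff_snd.fst).prodMk contDiff_snd.snd)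

theorem ConF_fdg : fderiv ℝ ConF_g ((0, 0, 0) : ℝ × ℂ × ℝ) =
    (ContinuousLinearMap.id ℝ ℝ).prodMap ((ConF_M (ex (2 * RBM.gs (2 * 0)))).prodMap
      (ContinuousLinearMap.id ℝ ℝ)) := by
  have h0 : HasFDerivAt (fun q : ℝ × ℂ × ℝ => ex (2 * RBM.gs (2 * q.1)))
      (fderiv ℝ (fun q : ℝ × ℂ × ℝ => ex (2 * RBM.gs (2 * q.1))) ((0, 0, 0) : ℝ × ℂ × ℝ))
      ((0, 0, 0) : ℝ × ℂ × ℝ) :=
    ((ConF_gs.comp contDiff_fst).differentiable (by simp) _).hasFDerivAt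
  have h1 : HasFDerivAt (fun q : ℝ × ℂ × ℝ => q.2.1)
      ((ContinuousLinearMap.fst ℝ ℂ ℝ).comp (ContinuousLinearMap.snd ℝ ℝ (ℂ × ℝ)))
      ((0, 0, 0) : ℝ × ℂ × ℝ) :=
    ((ContinuousLinearMap.fst ℝ ℂ ℝ).comp (ContinuousLinearMap.snd ℝ ℝ (ℂ × ℝ))).hasFDerivAt
  have h2 : HasFDerivAt (fun q : ℝ × ℂ × ℝ => q.2.2)
      ((ContinuousLinearMap.snd ℝ ℂ ℝ).comp (ContinuousLinearMap.snd ℝ ℝ (ℂ × ℝ)))
      ((0, 0, 0) : ℝ × ℂ × ℝ) :=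
    ((ContinuousLinearMap.snd ℝ ℂ ℝ).comp (ContinuousLinearMap.snd ℝ ℝ (ℂ × ℝ))).hasFDerivAt
  have h3 : HasFDerivAt (fun q : ℝ × ℂ × ℝ => q.1) (ContinuousLinearMap.fst ℝ ℝ (ℂ × ℝ))
      ((0, 0, 0) : ℝ × ℂ × ℝ) := (ContinuousLinearMap.fst ℝ ℝ (ℂ × ℝ)).hasFDerivAt
  have h4 := (h3.prodMk ((h0.mul h1).prodMk h2)).fderiv
  refine Eq.trans ?_ (h4.trans ?_)
  · rfl
  refine ContinuousLinearMap.ext fun v => ?_
  refine Prod.ext rfl (Prod.ext ?_ rfl)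
  simp [ConF_M]

theorem ConF_det : LinearMap.det ((fderiv ℝ ConF_g ((0, 0, 0) : ℝ × ℂ × ℝ) : (ℝ × ℂ × ℝ) →L[ℝ] (ℝ × ℂ × ℝ)) :
    (ℝ × ℂ × ℝ) →ₗ[ℝ] (ℝ × ℂ × ℝ)) = 1 := by
  rw [ConF_fdg]
  have h1 : (((ContinuousLinearMap.id ℝ ℝ).prodMap ((ConF_M (ex (2 * RBM.gs (2 * 0)))).prodMap
      (ContinuousLinearMap.id ℝ ℝ)) : (ℝ × ℂ × ℝ) →L[ℝ] (ℝ × ℂ × ℝ)) : (ℝ × ℂ × ℝ) →ₗ[ℝ] (ℝ × ℂ × ℝ)) =
      LinearMap.prodMap LinearMap.id (LinearMap.prodMap (ConF_M (ex (2 * RBM.gs (2 * 0))) : ℂ →ₗ[ℝ] ℂ)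
        LinearMap.id) := rfl
  rw [h1, LinearMap.det_prodMap, LinearMap.det_prodMap, LinearMap.det_id, mul_one, one_mul,
    COR.Coh_det_plane, ConF_M_dt, RSG.ex_norm]
  norm_num

theorem tw2_pos {β : ℂ × ℝ → ℂ × ℝ} (h : Emb β) : PosB (pb (tw2 β)) ↔ PosB (pb β) := by
  have h1 : (fun q : ℝ × ℂ × ℝ => pb (tw2 β) (q.2.1, q.1, q.2.2)) =
      (fun q : ℝ × ℂ × ℝ => pb β (q.2.1, q.1, q.2.2)) ∘ ConF_g := rfl
  have h0 : ConF_g ((0, 0, 0) : ℝ × ℂ × ℝ) = (0, 0, 0) := by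
    refine Prod.ext rfl (Prod.ext ?_ rfl)
    show ex (2 * RBM.gs (2 * 0)) * 0 = 0
    rw [mul_zero]
  have h2 : IsLocalDiffeomorphAt 𝓘(ℝ, ℝ × ℂ × ℝ) ISP ∞
      (fun q : ℝ × ℂ × ℝ => pb β (q.2.1, q.1, q.2.2)) ((0, 0, 0) : ℝ × ℂ × ℝ) := by
    have h3 := (ConF_bbox h).loc 0 0 0 (by norm_num) (by norm_num)
    have h4 : IsLocalDiffeomorphAt 𝓘(ℝ, ℝ × ℂ × ℝ) 𝓘(ℝ, ℂ × ℝ × ℝ) ∞
        (fun q : ℝ × ℂ × ℝ => ((q.2.1, q.1, q.2.2) : ℂ × ℝ × ℝ)) ((0, 0, 0) : ℝ × ℂ × ℝ) := by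
      refine CSG.ld_of_perm (f := ⟨fun q : ℝ × ℂ × ℝ => ((q.2.1, q.1, q.2.2) : ℂ × ℝ × ℝ),
        fun q : ℂ × ℝ × ℝ => ((q.2.1, q.1, q.2.2) : ℝ × ℂ × ℝ), fun _ => rfl, fun _ => rfl⟩) ?_ ?_ _
      · exact contDiff_snd.fst.prodMk (contDiff_fst.prodMk contDiff_snd.snd)
      · exact contDiff_snd.fst.prodMk (contDiff_fst.prodMk contDiff_snd.snd)
    exact IsLocalDiffeomorphAt.comp (hf := h4) (g := pb β) (hg := h3)
  have h5 := oJ_comp (Φ := fun q : ℝ × ℂ × ℝ => pb β (q.2.1, q.1, q.2.2))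
    (Ψ := fun q : ℝ × ℂ × ℝ => pb (tw2 β) (q.2.1, q.1, q.2.2)) (g := ConF_g)
    (q := ((0, 0, 0) : ℝ × ℂ × ℝ)) (by rw [h0]; exact h2) ConF_g_smooth.contDiffAt (by rw [h1])
  rw [h0, ConF_det, mul_one] at h5
  unfold PosB
  rw [h5]

/-- the twist of `cjc β` is undone by the twist: `tw2 (cjc (tw2 β)) = cjc β` -/
theorem tw2_cjc (β : ℂ × ℝ → ℂ × ℝ) : tw2 (cjc (tw2 β)) = cjc β := by
  funext q
  show β (ex (2 * RBM.gs (2 * q.2)) * (starRingEnd ℂ) (ex (2 * RBM.gs (2 * q.2)) * q.1), q.2) =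
    β ((starRingEnd ℂ) q.1, q.2)
  rw [map_mul, ← mul_assoc, RSG.ex_mul_conj, one_mul]

end Pool.Agent.LKF
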