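import Pool.Agent.LKF.SwF
import Pool.Agent.KNH.CorM

/-!
# LKF/CorF: the cores of the new thick tori   (difficulty 3)

Family version of KNH/CorM.lean (copy the proof of `core_swap`): `b a = half 1 (pb (β a))`, `b' a = half 1 (pb (β' a))`, `half 1 (pb (β a)) (z, s, t) = (io (β a (z, s / 2)), circ t)` (`cj 1 z = z`), `Box`: `KNH.CorM_box`, `KNH.pb_box`.
A point `cc m (φ m l) = io (β a q)` with `‖q.1‖ < 4`, `|q.2| < 1/2` has `q ∈ Ln (c.i a) (c.k a) m`: it is in `range (cc m)`, `hY`, `hdis`, injectivity of `io`, `β a`.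
The range of the new core: the points of `Y m` are not in the boxes; `io (β a q)` with `|q.2| < 1/2`, `q ∈ Ln ..` (so `‖q.1‖ = 1`) becomes `io (β' a q)`; for `|q.2| ≥ 1/2`, `β' a q = β a q`.
-/

open scoped Manifold ContDiff Topology
open Set Filter
open Complex (I)
open Pool.Agent.CSG (stp)
open Pool.Agent.RSG (E4 S3 S4 ex cj c1 c2 ht fh pS3)
open Pool.Agent.RBM (ThickT OnT Box frc)
open Pool.Agent.RBH (Tube BoxS)
open Pool.Agent.PTH (SP ISP Act)
open Pool.Agent.COR (Equi EquiB BBox OutW PosAt half dv dt PerS)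
open Pool.Agent.KNT (Dom BalC Tubes Str Str2 CD)
open Pool.Agent.KNH (rot Hat circ pb Emb Fam ThinOK thn bx)
open Pool.Agent.CLG (io pol)

namespace Pool.Agent.LKF

universe u

theorem core_swapF {ι α : Type*} {β β' : α → ℂ × ℝ → ℂ × ℝ} (hβ : ∀ a, Emb (β a)) (hβ' : ∀ a, Emb (β' a))
    (hdis : ∀ a a' q q', β a q = β a' q' → a = a') (hends : ∀ a q, 1 / 8 ≤ |q.2| → β' a q = β a q)
    {κ : ι → ℝ × ℂ × ℝ → SP} {c : Cmb ι α} (hb : BunF ISP κ (fun a => half 1 (pb (β a))) c)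
    (heq : ∀ m, Equi rot (κ m)) {cc : ι → ℝ → S3} {φ : ι → ℝ → ℝ} (hφ : ∀ m, Continuous (φ m))
    (hφ1 : ∀ m l, φ m (l + 1) = φ m l + 1) (hcore : ∀ m l, κ m (l, 0, 0) = (cc m (φ m l), 1)) {Y : ι → Set S3}
    (hY : ∀ m a q, io (β a q) ∉ Y m)
    (hc : ∀ m, range (cc m) = Y m ∪ ⋃ a, io '' (β a '' Ln (c.i a) (c.k a) m)) :
    (∀ m, Equi rot (swpF (fun a => half 1 (pb (β a))) (fun a => half 1 (pb (β' a))) κ m)) ∧
    ∃ c' : ι → ℝ → S3, (∀ m, range (c' m) = Y m ∪ ⋃ a, io '' (β' a '' Ln (c.i a) (c.k a) m)) ∧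
      ∀ m l, swpF (fun a => half 1 (pb (β a))) (fun a => half 1 (pb (β' a))) κ m (l, 0, 0) = (c' m l, 1) := by
  have hbox : ∀ a, Box ISP (half 1 (pb (β a))) 4 := fun a =>
    KNH.CorM_box (Or.inl rfl) (KNH.pb_box (hβ a) 4)
  have hbox' : ∀ a, Box ISP (half 1 (pb (β' a))) 4 := fun a =>
    KNH.CorM_box (Or.inl rfl) (KNH.pb_box (hβ' a) 4)
  -- the value in the box
  have hbv : ∀ (B : ℂ × ℝ → ℂ × ℝ) (z : ℂ) (s t : ℝ),
      half 1 (pb B) (z, s, t) = (io (B (cj 1 z, s / 2)), circ t) := fun _ _ _ _ => rfl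
  have hd : ∀ (a a' : α) (z : ℂ) (s t : ℝ) (z' : ℂ) (s' t' : ℝ), ‖z‖ < 4 → |s| < 1 →
      ‖z'‖ < 4 → |s'| < 1 → half 1 (pb (β a)) (z, s, t) = half 1 (pb (β a')) (z', s', t') → a = a' := by
    intro a a' z s t z' s' t' _ _ _ _ h
    rw [hbv, hbv] at h
    exact hdis a a' _ _ (KNH.io_inj (congrArg Prod.fst h))
  have hin : ∀ q : ℂ × ℝ, ‖q.1‖ = 1 → |q.2| < 1 / 2 → ‖cj 1 q.1‖ < 4 ∧ |2 * q.2| < 1 ∧
      ∀ B : ℂ × ℝ → ℂ × ℝ, half 1 (pb B) (cj 1 q.1, 2 * q.2, 0) = (io (B q), 1) := by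
    intro q h1 h2
    refine ⟨by rw [RSG.cj_norm (Or.inl rfl), h1]; norm_num, by rw [abs_mul, abs_two]; linarith, fun B => ?_⟩
    rw [hbv, RSG.cj_cj (Or.inl rfl), mul_div_cancel_left₀ _ (two_ne_zero' ℝ), KNH.circ_zero]
  have hSs : ∀ (i k m : ι), ∀ q ∈ Ln i k m, ‖q.1‖ = 1 := by
    rintro i k m q (⟨h1, -⟩ | ⟨h1, -⟩) <;> rw [h1] <;> simp
  refine ⟨?_, ?_⟩
  · intro m l v t
    by_cases hc1 : ∃ (a : α) (z : ℂ) (s t' : ℝ), ‖z‖ < 4 ∧ |s| < 1 ∧ κ m (l, v, 0) = half 1 (pb (β a)) (z, s, t')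
    · obtain ⟨a, z, s, t', hz, hs, he⟩ := hc1
      have he2 : κ m (l, v, t) = half 1 (pb (β a)) (z, s, t' + t) := by
        rw [heq m l v t, he, KNH.CorM_rot]
      have e1 : swpF (fun a => half 1 (pb (β a))) (fun a => half 1 (pb (β' a))) κ m (l, v, 0) =
          half 1 (pb (β' a)) (z, s, t') := swpF_box hbox hd hbox' hz hs he
      have e2 : swpF (fun a => half 1 (pb (β a))) (fun a => half 1 (pb (β' a))) κ m (l, v, t) =
          half 1 (pb (β' a)) (z, s, t' + t) := swpF_box hbox hd hbox' hz hs he2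
      rw [e1, e2, KNH.CorM_rot]
    · have h0 : ∀ (a : α) (z : ℂ) (s t' : ℝ), ‖z‖ < 4 → |s| < 1 →
          κ m (l, v, 0) ≠ (fun a => half 1 (pb (β a))) a (z, s, t') :=
        fun a z s t' hz hs he => hc1 ⟨a, z, s, t', hz, hs, he⟩
      have h1 : ∀ (a : α) (z : ℂ) (s t' : ℝ), ‖z‖ < 4 → |s| < 1 →
          κ m (l, v, t) ≠ (fun a => half 1 (pb (β a))) a (z, s, t') := by
        intro a z s t' hz hs he
        apply h0 a z s (t' - t) hz hs
        apply KNH.CorM_rot_inj (u := t)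
        show rot t (κ m (l, v, 0)) = rot t (half 1 (pb (β a)) (z, s, t' - t))
        rw [← KNH.CorM_rot, sub_add_cancel, ← heq]
        exact he
      rw [swpF_out h0, swpF_out h1]
      exact heq m l v t
  · have hcase : ∀ m l, (∃ (a : α) (q : ℂ × ℝ), q ∈ Ln (c.i a) (c.k a) m ∧ |q.2| < 1 / 2 ∧
          cc m (φ m l) = io (β a q) ∧
        swpF (fun a => half 1 (pb (β a))) (fun a => half 1 (pb (β' a))) κ m (l, 0, 0) = (io (β' a q), 1)) ∨
        ((∀ a, ∀ q ∈ Ln (c.i a) (c.k a) m, |q.2| < 1 / 2 → cc m (φ m l) ≠ io (β a q)) ∧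
        swpF (fun a => half 1 (pb (β a))) (fun a => half 1 (pb (β' a))) κ m (l, 0, 0) =
          (cc m (φ m l), 1)) := by
      intro m l
      by_cases hc1 : ∃ (a : α) (z : ℂ) (s t' : ℝ), ‖z‖ < 4 ∧ |s| < 1 ∧
          κ m (l, 0, 0) = half 1 (pb (β a)) (z, s, t')
      · obtain ⟨a, z, s, t', hz, hs, he⟩ := hc1
        left
        have he2 := he
        rw [hcore, hbv] at he2
        have e1 : cc m (φ m l) = io (β a (cj 1 z, s / 2)) := congrArg Prod.fst he2
        have e2 : 1 = circ t' := congrArg Prod.snd he2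
        refine ⟨a, (cj 1 z, s / 2), ?_, ?_, e1, ?_⟩
        · have h1 : cc m (φ m l) ∈ Y m ∪ ⋃ a, io '' (β a '' Ln (c.i a) (c.k a) m) := by
            rw [← hc]; exact mem_range_self _
          rw [e1] at h1
          rcases h1 with h1 | h1
          · exact absurd h1 (hY _ _ _)
          · obtain ⟨a', y, ⟨q, hq, hy⟩, h1⟩ := mem_iUnion.1 h1
            have h2 := KNH.io_inj h1
            rw [← hy] at h2
            have h3 : a' = a := hdis a' a _ _ h2
            subst h3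
            have h4 := (hβ a').inj h2
            rw [← h4]
            exact hq
        · show |s / 2| < 1 / 2
          rw [abs_div, abs_two]
          linarith
        · have e3 : swpF (fun a => half 1 (pb (β a))) (fun a => half 1 (pb (β' a))) κ m (l, 0, 0) =
              half 1 (pb (β' a)) (z, s, t') := swpF_box hbox hd hbox' hz hs he
          rw [e3, hbv, ← e2]
      · right
        have h0 : ∀ (a : α) (z : ℂ) (s t' : ℝ), ‖z‖ < 4 → |s| < 1 →
            κ m (l, 0, 0) ≠ (fun a => half 1 (pb (β a))) a (z, s, t') :=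
          fun a z s t' hz hs he => hc1 ⟨a, z, s, t', hz, hs, he⟩
        refine ⟨?_, ?_⟩
        · intro a q hq hq2 he
          obtain ⟨a1, a2, a3⟩ := hin q (hSs _ _ _ q hq) hq2
          apply h0 a (cj 1 q.1) (2 * q.2) 0 a1 a2
          show κ m (l, 0, 0) = half 1 (pb (β a)) (cj 1 q.1, 2 * q.2, 0)
          rw [a3, hcore, he]
        · rw [swpF_out h0, hcore]
    refine ⟨fun m l => (swpF (fun a => half 1 (pb (β a))) (fun a => half 1 (pb (β' a))) κ m (l, 0, 0)).1, ?_, ?_⟩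
    · intro m
      apply Subset.antisymm
      · rintro _ ⟨l, rfl⟩
        show (swpF (fun a => half 1 (pb (β a))) (fun a => half 1 (pb (β' a))) κ m (l, 0, 0)).1 ∈ _
        rcases hcase m l with ⟨a, q, hq, -, -, e⟩ | ⟨hno, e⟩
        · rw [e]
          exact Or.inr (mem_iUnion.2 ⟨a, β' a q, ⟨q, hq, rfl⟩, rfl⟩)
        · rw [e]
          show cc m (φ m l) ∈ _
          have h1 : cc m (φ m l) ∈ Y m ∪ ⋃ a, io '' (β a '' Ln (c.i a) (c.k a) m) := by
            rw [← hc]; exact mem_range_self _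
          rcases h1 with h1 | h1
          · exact Or.inl h1
          · obtain ⟨a, y, ⟨q, hq, hy⟩, h1⟩ := mem_iUnion.1 h1
            rw [← hy] at h1
            rcases lt_or_ge |q.2| (1 / 2) with h2 | h2
            · exact absurd h1.symm (hno a q hq h2)
            · rw [← h1, ← hends a q (by linarith)]
              exact Or.inr (mem_iUnion.2 ⟨a, β' a q, ⟨q, hq, rfl⟩, rfl⟩)
      · intro x hx
        have hval : ∀ y ∈ Y m ∪ ⋃ a, io '' (β a '' Ln (c.i a) (c.k a) m), ∃ l, cc m (φ m l) = y := by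
          intro y hy
          rw [← hc] at hy
          obtain ⟨u, rfl⟩ := hy
          obtain ⟨l, rfl⟩ := KNH.CorM_surj (hφ m) (hφ1 m) u
          exact ⟨l, rfl⟩
        rcases hx with hx | hx
        · obtain ⟨l, hl⟩ := hval x (Or.inl hx)
          refine ⟨l, ?_⟩
          show (swpF (fun a => half 1 (pb (β a))) (fun a => half 1 (pb (β' a))) κ m (l, 0, 0)).1 = x
          rcases hcase m l with ⟨a, q, -, -, e, -⟩ | ⟨-, e⟩
          · rw [hl] at e
            exact absurd (e ▸ hx) (hY m a q)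
          · rw [e]; exact hl
        · obtain ⟨a, y, ⟨q, hq, hy⟩, hx⟩ := mem_iUnion.1 hx
          obtain ⟨l, hl⟩ := hval (io (β a q)) (Or.inr (mem_iUnion.2 ⟨a, β a q, ⟨q, hq, rfl⟩, rfl⟩))
          refine ⟨l, ?_⟩
          show (swpF (fun a => half 1 (pb (β a))) (fun a => half 1 (pb (β' a))) κ m (l, 0, 0)).1 = x
          rcases hcase m l with ⟨a', q', -, -, e1, e⟩ | ⟨hno, e⟩
          · rw [hl] at e1
            have h2 := KNH.io_inj e1
            have h3 : a = a' := hdis a a' _ _ h2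
            subst h3
            rw [e, ← hx, ← hy, (hβ a).inj h2]
          · rw [e, ← hx, ← hy]
            show cc m (φ m l) = io (β' a q)
            rcases lt_or_ge |q.2| (1 / 2) with h2 | h2
            · exact absurd hl (hno a q hq h2)
            · rw [hends a q (by linarith)]
              exact hl
    · intro m l
      show swpF (fun a => half 1 (pb (β a))) (fun a => half 1 (pb (β' a))) κ m (l, 0, 0) =
        ((swpF (fun a => half 1 (pb (β a))) (fun a => half 1 (pb (β' a))) κ m (l, 0, 0)).1, 1)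
      rcases hcase m l with ⟨a, q, -, -, -, e⟩ | ⟨-, e⟩ <;> rw [e]

end Pool.Agent.LKF
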