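import Pool.Agent.LKF.RepO
import Pool.Agent.COR.CorB

/-!
# LKF/CorO: two thick tori with the same core, in `O`   (difficulty 2)

Copy `COR.core_pos`, `COR.core_eq` (file COR/CorA.lean) with `Q` instead of `TwinP`: `hQ.diff` (`F` is the identity off the tube of `κ`), `hQ.germ`; the tube of `κ' (l, v ex (k φ l), t)` is contained in the tube of `κ'`.
`core_O`: `core_eqO` with `φ l = l`; then `hQ.frame` and (for `σ = -1`) `hQ.mirror`, as `QS_core` in KNH/RevQ.lean.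
-/

open scoped Manifold ContDiff Topology
open Set Filter
open Complex (I)
open Pool.Agent.CSG (stp)
open Pool.Agent.RSG (E4 S3 S4 ex cj c1 c2 ht fh pS3)
open Pool.Agent.RBM (ThickT OnT Box frc)
open Pool.Agent.RBH (Tube BoxS)
open Pool.Agent.PTH (SP ISP Act)
open Pool.Agent.COR (Equi EquiB BBox OutW PosAt half dv dt PerS)
open Pool.Agent.KNT (Dom BalC Tubes Str Str2 CD)
open Pool.Agent.KNH (rot Hat circ pb Emb Fam ThinOK thn bx)
open Pool.Agent.CLG (io pol)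

namespace Pool.Agent.LKF

universe u

variable {E : Type*} [NormedAddCommGroup E] [NormedSpace ℝ E] {H : Type*} [TopologicalSpace H]
  {J : ModelWithCorners ℝ E H} {P : Type*} [TopologicalSpace P] [ChartedSpace H P]

section CorOAux

open Pool.Agent.COR
open Pool.Agent.RSG (ex_add ex_add_int ex_norm ex_smooth ex_zero)

theorem CorO_geo [T2Space P] {a : ℝ → P → P} (ha : Act J a) {κ κ' : ℝ × ℂ × ℝ → P}
    (hκ : ThickT J κ) (heq : Equi a κ) (hκ' : ThickT J κ') (heq' : Equi a κ')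
    (hcore : ∀ l, κ' (l, 0, 0) = κ (l, 0, 0)) {l₀ : ℝ} (hpos : PosAt κ κ' l₀) {φ : ℝ → ℝ}
    (hφ : ContDiff ℝ ∞ φ) (hφ1 : ∀ l, φ (l + 1) = φ l + 1) :
    ∃ (k : ℤ) (F : Equiv.Perm P), (∀ p, IsLocalDiffeomorphAt J J ∞ F p) ∧
      (∀ p, (∀ l v t, ‖v‖ < 1 → κ (l, v, t) ≠ p) → F p = p) ∧
      ∃ η : ℝ, 0 < η ∧ ∀ (l : ℝ) (v : ℂ) (t : ℝ), ‖v‖ < η →
        κ' (l, v * ex (k * φ l), t) = F (κ (l, v, t)) := by
  obtain ⟨ε₁, hε₁, lam, om, tau, hlam, hom, htau, plam, pom, ptau, h0, h1, h2, -⟩ :=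
    exists_lft (U := univ) (ς := fun _ => 1) ha hκ heq heq' hκ'.perl isOpen_univ contDiff_const
      (fun _ => rfl) (subset_univ _) (fun l _ => hκ'.loc l 0 0 (by simp)) (fun l _ => hcore l)
      (R := 1 / 2) (by norm_num)
  have hrep : ∀ l v t, ‖v‖ ≤ ε₁ → ‖om (l, v)‖ < 1 ∧
      κ' (l, v, t) = κ (lam (l, v), om (l, v), t + tau (l, v)) :=
    fun l v t hv => (h1 l rfl v t hv).2
  have hp0 : 0 < dt (dv om l₀) := CorA_pos_of hκ hpos hε₁ hrep
  have hpall : ∀ l, 0 < dt (dv om l) := by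
    intro l
    by_contra hl
    obtain ⟨l', hl'⟩ := mem_range_of_exists_le_of_exists_ge (CorA_cont hom) ⟨l, not_lt.1 hl⟩
      ⟨l₀, hp0.le⟩
    exact CorA_dt_ne (h2 l' rfl) hl'
  obtain ⟨k, A, b, hA, hb, pA, pb, hb1, hAb⟩ := exists_log_loop hom pom hpall hφ hφ1
  -- twisted data
  let tw : ℝ × ℂ → ℝ × ℂ := fun q => (q.1, q.2 * ex (k * φ q.1))
  have htw : ContDiff ℝ ∞ tw := by
    refine contDiff_fst.prodMk (contDiff_snd.mul (ex_smooth.comp ?_))
    exact contDiff_const.mul (hφ.comp contDiff_fst)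
  have twp : ∀ l v, tw (l + 1, v) = (l + 1, (tw (l, v)).2) := by
    intro l v
    show (l + 1, v * ex (k * φ (l + 1))) = (l + 1, v * ex (k * φ l))
    rw [hφ1, show (k : ℝ) * (φ l + 1) = k * φ l + (k : ℤ) by push_cast; ring, ex_add_int]
  have tw0 : ∀ l, tw (l, 0) = (l, 0) := by
    intro l
    show (l, (0 : ℂ) * ex (k * φ l)) = (l, 0)
    rw [zero_mul]
  let E : ℝ × ℂ → ℂ := fun q => om (tw q) - lin (A q.1) (b q.1) q.2
  have hlin : ContDiff ℝ ∞ (fun q : ℝ × ℂ => lin (A q.1) (b q.1) q.2) := by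
    unfold lin
    have e1 : ContDiff ℝ ∞ (fun q : ℝ × ℂ => Complex.exp (A q.1)) :=
      Complex.contDiff_exp.comp (hA.comp contDiff_fst)
    have e2 : ContDiff ℝ ∞ (fun q : ℝ × ℂ => (starRingEnd ℂ) q.2) :=
      (Complex.conjCLE.contDiff).comp contDiff_snd
    exact e1.mul (contDiff_snd.add ((hb.comp contDiff_fst).mul e2))
  have hE : ContDiff ℝ ∞ E := (hom.comp htw).sub hlin
  have hEp : ∀ l v, E (l + 1, v) = E (l, v) := by
    intro l v
    show om (tw (l + 1, v)) - lin (A (l + 1)) (b (l + 1)) v = om (tw (l, v)) - lin (A l) (b l) v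
    rw [twp, pom, pA, pb]
  have hlp : ∀ l v, lam (tw (l + 1, v)) = lam (tw (l, v)) + 1 := by
    intro l v
    rw [twp, plam]
  have htp : ∀ l v, tau (tw (l + 1, v)) = tau (tw (l, v)) := by
    intro l v
    rw [twp, ptau]
  have hlin0 : ∀ a b : ℂ, lin a b 0 = 0 := by
    intro a b
    simp [lin]
  have hE0 : ∀ l, E (l, 0) = 0 := by
    intro l
    show om (tw (l, 0)) - lin (A l) (b l) 0 = 0
    rw [tw0, (h0 l).2.1, hlin0, sub_zero]
  have hE1 : ∀ l, dv E l = 0 := by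
    intro l
    have c1 : HasFDerivAt (fun v : ℂ => v * ex (k * φ l))
        (ContinuousLinearMap.mul ℝ ℂ (ex (k * φ l))) 0 := by
      have := (ContinuousLinearMap.mul ℝ ℂ (ex (k * φ l))).hasFDerivAt (x := (0 : ℂ))
      refine this.congr_of_eventuallyEq (Eventually.of_forall fun v => ?_)
      simp [mul_comm]
    have c2 : HasFDerivAt (fun v : ℂ => om (l, v * ex (k * φ l)))
        ((dv om l).comp (ContinuousLinearMap.mul ℝ ℂ (ex (k * φ l)))) 0 := by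
      have d1 : HasFDerivAt (fun v : ℂ => om (l, v)) (dv om l) ((0 : ℂ) * ex (k * φ l)) := by
        rw [zero_mul, CorA_dv_eq hom]
        exact CorA_dv hom l 0
      exact d1.comp (0 : ℂ) c1
    let Ll : ℂ →L[ℝ] ℂ := (ContinuousLinearMap.mul ℝ ℂ (Complex.exp (A l))).comp
      (ContinuousLinearMap.id ℝ ℂ + (ContinuousLinearMap.mul ℝ ℂ (b l)).comp
        (Complex.conjCLE : ℂ →L[ℝ] ℂ))
    have hLl : ∀ w, Ll w = lin (A l) (b l) w := by
      intro w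
      simp [Ll, lin]
      ring
    have c3 : HasFDerivAt (fun v : ℂ => lin (A l) (b l) v) Ll 0 := by
      refine (Ll.hasFDerivAt (x := (0 : ℂ))).congr_of_eventuallyEq
        (Eventually.of_forall fun v => (hLl v).symm)
    have c4 : HasFDerivAt (fun v : ℂ => E (l, v))
        ((dv om l).comp (ContinuousLinearMap.mul ℝ ℂ (ex (k * φ l))) - Ll) 0 := c2.sub c3
    have : dv E l = (dv om l).comp (ContinuousLinearMap.mul ℝ ℂ (ex (k * φ l))) - Ll := c4.fderiv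
    rw [this]
    refine ContinuousLinearMap.ext fun w => ?_
    show dv om l (ex (k * φ l) * w) - Ll w = 0
    rw [hLl, mul_comm, hAb, sub_self]
  obtain ⟨ε₂, hε₂, H, hH, hH', Hl, Ht, hHs, hHid, -⟩ := exists_germ (lam := fun q => lam (tw q))
    (tau := fun q => tau (tw q)) hA hb hE (hlam.comp htw) (htau.comp htw) pA pb hEp hlp htp hb1
    hE0 hE1 (fun l => by show lam (tw (l, 0)) = l; rw [tw0]; exact (h0 l).1)
    (fun l => by show tau (tw (l, 0)) = 0; rw [tw0]; exact (h0 l).2.2) (R := 1 / 2) (by norm_num)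
  obtain ⟨F, hF, hFκ, hFid, -⟩ := kap_move hκ hH hH' Hl Ht (R := 1 / 2) (by norm_num) hHid
  have hη : 0 < min (min ε₁ ε₂) 1 := lt_min (lt_min hε₁ hε₂) one_pos
  refine ⟨k, F, hF, hFid, _, hη, ?_⟩
  intro l v t hv
  have hv1 : ‖v‖ < 1 := lt_of_lt_of_le hv (min_le_right _ _)
  have hv2 : ‖v‖ ≤ ε₂ := (lt_of_lt_of_le hv ((min_le_left _ _).trans (min_le_right _ _))).le
  have hv3 : ‖v * ex (k * φ l)‖ ≤ ε₁ := by
    rw [norm_mul, ex_norm, mul_one]
    exact (lt_of_lt_of_le hv ((min_le_left _ _).trans (min_le_left _ _))).le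
  show κ' (l, v * ex (k * φ l), t) = F (κ (l, v, t))
  rw [hFκ l v t hv1, hHs l v t hv2, (hrep l _ t hv3).2]
  have : lin (A l) (b l) v + E (l, v) = om (tw (l, v)) := by
    show lin (A l) (b l) v + (om (tw (l, v)) - lin (A l) (b l) v) = om (tw (l, v))
    ring
  rw [this]

end CorOAux

theorem CorO_tube_diff {O : Set P} {κ : ℝ × ℂ × ℝ → P} (F : Equiv.Perm P)
    (hF : ∀ p, p ∉ O → F p = p) (hO : Tube κ ⊆ O) : Tube (fun q => F (κ q)) ⊆ O := by
  rintro p ⟨l, v, t, hv, rfl⟩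
  by_contra hcon
  have h1 := hF _ hcon
  have h2 : F (κ (l, v, t)) = κ (l, v, t) := F.injective h1
  apply hcon
  show F (κ (l, v, t)) ∈ O
  rw [h2]
  exact hO ⟨l, v, t, hv, rfl⟩

theorem core_posO [T2Space P] {a : ℝ → P → P} (ha : Act J a) {O : Set P} {Q : (ℝ × ℂ × ℝ → P) → Prop} (hQ : Inv0 J O Q)
    {κ κ' : ℝ × ℂ × ℝ → P} (hκ : ThickT J κ) (hO : Tube κ ⊆ O) (heq : Equi a κ) (hκ' : ThickT J κ') (hO' : Tube κ' ⊆ O)
    (heq' : Equi a κ') (hcore : ∀ l, κ' (l, 0, 0) = κ (l, 0, 0)) {l₀ : ℝ} (hpos : PosAt κ κ' l₀) (h : Q κ) :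
    ∃ k : ℤ, Q (fun q => κ' (q.1, q.2.1 * ex (k * q.1), q.2.2)) := by
  obtain ⟨k, F, hF, hFid, η, hη, hg⟩ := CorO_geo ha hκ heq hκ' heq' hcore hpos (φ := fun l => l)
    contDiff_id (fun l => rfl)
  have hFO : ∀ p, p ∉ O → F p = p := by
    intro p hp
    refine hFid p (fun l v t hv h => hp ?_)
    rw [← h]
    exact hO ⟨l, v, t, hv, rfl⟩
  refine ⟨k, ?_⟩
  refine hQ.germ (fun q => F (κ q)) _ η hη (Pool.Agent.COR.ThickT_diffeo F hF hκ) ?_ (CorO_tube_diff F hFO hO) ?_ ?_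
    (hQ.diff κ F hF hFO hκ hO h)
  · exact Pool.Agent.COR.CorA_tw hκ' k (φ := fun l => l) contDiff_id (fun l => rfl)
  · exact (tube_twi (κ := κ') (fun l => k * l)).trans hO'
  · intro l v t hv
    exact hg l v t hv

theorem core_eqO [T2Space P] {a : ℝ → P → P} (ha : Act J a) {O : Set P} {Q : (ℝ × ℂ × ℝ → P) → Prop} (hQ : Inv0 J O Q)
    {κ κ' : ℝ × ℂ × ℝ → P} (hκ : ThickT J κ) (hO : Tube κ ⊆ O) (heq : Equi a κ) (hκ' : ThickT J κ') (hO' : Tube κ' ⊆ O)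
    (heq' : Equi a κ') (hcore : ∀ l, κ' (l, 0, 0) = κ (l, 0, 0)) (h : Q κ) :
    ∃ (k : ℤ) (σ : ℝ), (σ = 1 ∨ σ = -1) ∧ Q (fun q => κ' (q.1, cj σ (q.2.1 * ex (k * q.1)), q.2.2)) := by
  obtain ⟨ε₁, hε₁, lam, om, tau, hlam, hom, htau, plam, pom, ptau, h0, h1, h2, -⟩ :=
    Pool.Agent.COR.exists_lft (U := univ) (ς := fun _ => 1) ha hκ heq heq' hκ'.perl isOpen_univ contDiff_const
      (fun _ => rfl) (subset_univ _) (fun l _ => hκ'.loc l 0 0 (by simp)) (fun l _ => hcore l)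
      (R := 1 / 2) (by norm_num)
  have hrep : ∀ l v t, ‖v‖ ≤ ε₁ → κ' (l, v, t) = κ (lam (l, v), om (l, v), t + tau (l, v)) :=
    fun l v t hv => (h1 l rfl v t hv).2.2
  have hne : dt (dv om 0) ≠ 0 := Pool.Agent.COR.CorA_dt_ne (h2 0 rfl)
  have hcj1 : ∀ v, cj 1 v = v := by
    intro v
    apply Complex.ext <;> simp [cj]
  have hcjm : ∀ v, cj (-1) v = (starRingEnd ℂ) v := by
    intro v
    apply Complex.ext <;> simp [cj]
  rcases lt_or_gt_of_ne hne with hneg | hpos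
  · -- mirror image
    let κm : ℝ × ℂ × ℝ → P := fun q => κ' (q.1, (starRingEnd ℂ) q.2.1, q.2.2)
    have hκm : ThickT J κm := Pool.Agent.COR.CorA_mir hκ'
    have heqm : Equi a κm := fun l v t => heq' l ((starRingEnd ℂ) v) t
    have hcorem : ∀ l, κm (l, 0, 0) = κ (l, 0, 0) := by
      intro l
      show κ' (l, (starRingEnd ℂ) 0, 0) = κ (l, 0, 0)
      rw [map_zero, hcore]
    let cc : ℝ × ℂ → ℝ × ℂ := fun q => (q.1, (starRingEnd ℂ) q.2)
    have hcc : ContDiff ℝ ∞ cc := contDiff_fst.prodMk ((Complex.conjCLE.contDiff).comp contDiff_snd)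
    have cc0 : ∀ l, cc (l, 0) = (l, 0) := by
      intro l
      show (l, (starRingEnd ℂ) 0) = (l, 0)
      rw [map_zero]
    have hdv : dv (fun q => om (cc q)) 0 = (dv om 0).comp (Complex.conjCLE : ℂ →L[ℝ] ℂ) := by
      have d1 : HasFDerivAt (fun v : ℂ => om (0, v)) (dv om 0) ((Complex.conjCLE : ℂ →L[ℝ] ℂ) 0) := by
        rw [map_zero, Pool.Agent.COR.CorA_dv_eq hom]
        exact Pool.Agent.COR.CorA_dv hom 0 0
      exact (d1.comp (0 : ℂ) (Complex.conjCLE : ℂ →L[ℝ] ℂ).hasFDerivAt).fderiv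
    have hdt : 0 < dt (dv (fun q => om (cc q)) 0) := by
      rw [hdv]
      have : dt ((dv om 0).comp (Complex.conjCLE : ℂ →L[ℝ] ℂ)) = - dt (dv om 0) := by
        unfold dt
        have e1 : ((dv om 0).comp (Complex.conjCLE : ℂ →L[ℝ] ℂ)) 1 = dv om 0 1 := by
          show dv om 0 ((starRingEnd ℂ) 1) = dv om 0 1
          rw [map_one]
        have e2 : ((dv om 0).comp (Complex.conjCLE : ℂ →L[ℝ] ℂ)) I = - dv om 0 I := by
          show dv om 0 ((starRingEnd ℂ) I) = - dv om 0 I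
          rw [Complex.conj_I, map_neg]
        rw [e1, e2, mul_neg, Complex.neg_im]
      rw [this]
      linarith
    have hpm : PosAt κ κm 0 := by
      refine Pool.Agent.COR.CorA_posAt hε₁ (hlam.comp hcc) (hom.comp hcc) (htau.comp hcc) ?_ ?_ hdt
      · show lam (cc (0, 0)) = 0 ∧ om (cc (0, 0)) = 0 ∧ tau (cc (0, 0)) = 0
        rw [cc0]
        exact h0 0
      · intro l v t hv
        exact hrep l ((starRingEnd ℂ) v) t (by rw [RCLike.norm_conj]; exact hv)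
    obtain ⟨k, hk⟩ := core_posO ha hQ hκ hO heq hκm (tube_mir.trans hO') heqm hcorem hpm h
    refine ⟨k, -1, Or.inr rfl, ?_⟩
    have e : (fun q : ℝ × ℂ × ℝ => κ' (q.1, cj (-1) (q.2.1 * ex (k * q.1)), q.2.2)) =
        fun q => κm (q.1, q.2.1 * ex (k * q.1), q.2.2) := by
      funext q
      rw [hcjm]
    rw [e]
    exact hk
  · have hpm : PosAt κ κ' 0 := Pool.Agent.COR.CorA_posAt hε₁ hlam hom htau (h0 0) hrep hpos
    obtain ⟨k, hk⟩ := core_posO ha hQ hκ hO heq hκ' hO' heq' hcore hpm h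
    refine ⟨k, 1, Or.inl rfl, ?_⟩
    have e : (fun q : ℝ × ℂ × ℝ => κ' (q.1, cj 1 (q.2.1 * ex (k * q.1)), q.2.2)) =
        fun q => κ' (q.1, q.2.1 * ex (k * q.1), q.2.2) := by
      funext q
      rw [hcj1]
    rw [e]
    exact hk

theorem core_O [T2Space P] {a : ℝ → P → P} (ha : Act J a) {O : Set P} {Q : (ℝ × ℂ × ℝ → P) → Prop} (hQ : Inv J O Q)
    {κ κ' : ℝ × ℂ × ℝ → P} (hκ : ThickT J κ) (hO : Tube κ ⊆ O) (heq : Equi a κ) (hκ' : ThickT J κ') (hO' : Tube κ' ⊆ O)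
    (heq' : Equi a κ') (hcore : ∀ l, κ' (l, 0, 0) = κ (l, 0, 0)) (h : Q κ) : Q κ' := by
  obtain ⟨k, σ, hσ, hk⟩ := core_eqO ha hQ.toInv0 hκ hO heq hκ' hO' heq' hcore h
  rcases hσ with rfl | rfl
  · simp only [Pool.Agent.COR.CorB_cj_one] at hk
    exact hQ.frame κ' k hκ' hO' hk
  · simp only [Pool.Agent.COR.CorB_cj_neg] at hk
    have hb := Pool.Agent.COR.CorB_thick hκ'
    have h1 := hQ.frame (fun q => κ' (q.1, (starRingEnd ℂ) q.2.1, q.2.2)) k hb (tube_mir.trans hO') hk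
    have h2 := hQ.mirror (fun q => κ' (q.1, (starRingEnd ℂ) q.2.1, q.2.2)) hb (tube_mir.trans hO') h1
    simp only [Complex.conj_conj] at h2
    exact h2

end Pool.Agent.LKF
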