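import Pool.Agent.LKF.Defs
import Pool.Agent.RBM.VgP

/-!
# LKF/VgF: the charts at the vertices   (difficulty 1)

Copy of the proof of `RBM.vertex_glueP` (RBM/VgP.lean), with `D.Q i`, `κ i`, `n i`, `j i` and the box `B`.
-/

open scoped Manifold ContDiff Topology
open Set Filter
open Complex (I)
open Pool.Agent.RSG (E4 S4 ex cj c1 c2 ht fh Vx XW BBi)
open Pool.Agent.RBM (ThickT OnT Box frc lamJ muJ DomJ BBs gD)
open Pool.Agent.RBH (Tube BoxS)

namespace Pool.Agent.LKF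

variable {E : Type*} [NormedAddCommGroup E] [NormedSpace ℝ E] {H : Type*} [TopologicalSpace H]
  {J : ModelWithCorners ℝ E H}
  {P : Type*} [TopologicalSpace P] [ChartedSpace H P] {ι α : Type*} {κ κ' : ι → ℝ × ℂ × ℝ → P}
  {b b' : α → ℂ × ℝ × ℝ → P} {c : Cmb ι α} {σ δ : ℝ} {G : Equiv.Perm P}
  {X : Type*} [TopologicalSpace X] [ChartedSpace E4 X] {n j : ι → ℤ}

theorem vertex_glueF (D : TwinF J κ n j X) {i : ι} {B : ℂ × ℝ × ℝ → P} {d ε : ℝ} (hd : d = 1 ∨ d = -1)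
    (hs : ∀ (l : ℝ) (v : ℂ) (t : ℝ), |l| < 1 / 16 → ‖v‖ < 1 →
      κ i (1 / 2 - d / 4 + l, v, t) = B (d + cj ε v / 2, 16 * ε * l, t))
    {q : ℂ × ℂ} (h : RSG.SV q < 1) (h1 : q.1 + q.2 / 2 ≠ 0)
    (h2 : q.1 - q.2 / 2 ≠ 0) (hl : |RSG.lV d (n i) q| < 1 / 16) :
    D.Q i (Vx d q) = D.A (B (RSG.Fi d ε (n i) (j i) q)) := by
  obtain ⟨v1, v2, v3⟩ := RSG.Vx_c hd h.le
  have vf := RSG.Vx_fh hd h.le
  have vn := RSG.Vx_ne hd h
  set z := Vx d q with hz
  set A : ℂ := q.1 + q.2 / 2 with hA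
  set B₀ : ℂ := q.1 - q.2 / 2 with hB
  set t := RSG.tV q with ht
  have hd2 : d * d = 1 := by rcases hd with h | h <;> rw [h] <;> norm_num
  have pA : 0 < ‖A‖ := norm_pos_iff.2 h1
  have pB : 0 < ‖B₀‖ := norm_pos_iff.2 h2
  -- the angle of B₀
  obtain ⟨β, hβ⟩ := RBM.VgP_arg (p := B₀)
  set m := β + j i * t with hm
  have eB : B₀ = (‖B₀‖ : ℂ) * ex (m - j i * t) := by
    rw [hm, show β + j i * t - j i * t = β by ring]
    exact hβ
  -- the angle of A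
  have eAB : A / B₀ = (‖A / B₀‖ : ℂ) * ex t := RBM.VgP_log
  have eA : A = (‖A‖ : ℂ) * ex (m + (1 - j i) * t) := by
    have h3 : A = A / B₀ * B₀ := (div_mul_cancel₀ _ h2).symm
    have h4 : ‖A / B₀‖ * ‖B₀‖ = ‖A‖ := by
      rw [norm_div, div_mul_cancel₀ _ pB.ne']
    calc A = A / B₀ * B₀ := h3
      _ = ((‖A / B₀‖ : ℂ) * ex t) * ((‖B₀‖ : ℂ) * ex (m - j i * t)) := by rw [← eAB, ← eB]
      _ = ((‖A / B₀‖ * ‖B₀‖ : ℝ) : ℂ) * (ex t * ex (m - j i * t)) := by push_cast; ring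
      _ = (‖A‖ : ℂ) * ex (m + (1 - j i) * t) := by
        rw [h4, ← RSG.ex_add, show t + (m - j i * t) = m + (1 - j i) * t by ring]
  -- the angle of fh
  set g : ℂ := (Real.sqrt (1 - RSG.SV q ^ 2) : ℝ) - (d * RSG.uV q : ℝ) * I with hg
  have hfg : fh z = d * I * g := by
    rw [vf, hg]
    apply Complex.ext
    · simp
      rw [← mul_assoc, hd2, one_mul]
    · simp
  have hng : ‖fh z‖ = ‖g‖ := by
    rw [hfg, norm_mul, norm_mul, Complex.norm_I, Complex.norm_real, mul_one]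
    rcases hd with h | h <;> rw [h] <;> norm_num
  have eg : g = (‖g‖ : ℂ) * ex (RSG.lV d (n i) q - n i * t) := by
    have h3 : RSG.lV d (n i) q - n i * t = (Complex.log g).im / (2 * Real.pi) := by
      unfold RSG.lV
      rw [← hg, ← ht]
      ring
    rw [h3]
    exact RBM.VgP_log
  have hdI : (d : ℂ) * I = ex (1 / 2 - d / 4) := by
    rcases hd with h | h
    · rw [h, show (1 : ℝ) / 2 - 1 / 4 = 1 / 4 by norm_num, RSG.ex_quarter]
      simp
    · rw [h, show (1 : ℝ) / 2 - -1 / 4 = 1 / 2 + 1 / 4 by norm_num, RSG.ex_add, RSG.ex_quarter,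
        RSG.ex_half]
      simp
  set l := 1 / 2 - d / 4 + RSG.lV d (n i) q with hl'
  have ef : fh z = (‖fh z‖ : ℂ) * ex (l - n i * t) := by
    rw [hng]
    calc fh z = d * I * g := hfg
      _ = ex (1 / 2 - d / 4) * ((‖g‖ : ℂ) * ex (RSG.lV d (n i) q - n i * t)) := by rw [← hdI, ← eg]
      _ = (‖g‖ : ℂ) * (ex (1 / 2 - d / 4) * ex (RSG.lV d (n i) q - n i * t)) := by ring
      _ = (‖g‖ : ℂ) * ex (l - n i * t) := by
        rw [← RSG.ex_add, show 1 / 2 - d / 4 + (RSG.lV d (n i) q - n i * t) = l - n i * t by rw [hl']; ring]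
  have hglue := D.glue i z l m t vn (by rw [v1]; exact h1) (by rw [v2]; exact h2)
    (by rw [v1]; exact eA) (by rw [v2]; exact eB) ef
  -- the point of the knot
  have hv : ((2 * ‖c1 z‖ * ‖c2 z‖ : ℝ) : ℂ) * ex m = RSG.vV (j i) q := by
    rw [v1, v2]
    unfold RSG.vV
    rw [← hA, ← hB, ← ht]
    have h3 : B₀ = (‖B₀‖ : ℂ) * ex (m - j i * t) := eB
    calc ((2 * ‖A‖ * ‖B₀‖ : ℝ) : ℂ) * ex m
        = ((2 * ‖A‖ : ℝ) : ℂ) * ((‖B₀‖ : ℂ) * ex (m - j i * t)) * ex (j i * t) := by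
          have h4 : ex m = ex (m - j i * t) * ex (j i * t) := by
            rw [← RSG.ex_add]
            congr 1
            ring
          rw [h4]
          push_cast
          ring
      _ = _ := by rw [← h3]
  have hvn : ‖RSG.vV (j i) q‖ < 1 := by
    rw [← hv]
    exact RSG.glue_norm vn m
  rw [hglue, hv]
  unfold RSG.Fi
  rw [← ht, hl', hs (RSG.lV d (n i) q) (RSG.vV (j i) q) t hl hvn]

end Pool.Agent.LKF
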