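import Pool.Agent.LKF.TopF
import Pool.Agent.LKF.BdfM
import Pool.Agent.LKF.VgF
import Pool.Agent.RBM.DCa

/-!
# LKF/DcaF: the chart of the disc, part 1   (difficulty 2)

Family version of `RBM/DCa.lean`: copy the proofs.  `DC D b c a q` uses `D.Q (c.i a)` near `p = 4`, `D.Q (c.k a)` near `p = -4` and `BDF` instead of `BD`; `DCaF_key` is applied with `i = c.i a`, `ε = c.e₁ a`
(`d = 1`) and `i = c.k a`, `ε = c.e₂ a` (`d = -1`), see `strandF`; in `DCaF_near` unfold `BDF`: near `4` it is `BBi 1 (c.e₁ a) (n (c.i a)) (j (c.i a))`, near `-4` `BBi (-1) (c.e₂ a) (n (c.k a)) (j (c.k a))`.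
-/

open scoped Manifold ContDiff Topology
open Set Filter
open Complex (I)
open Pool.Agent.RSG (E4 S4 ex cj c1 c2 ht fh Vx XW BBi)
open Pool.Agent.RBM (ThickT OnT Box frc lamJ muJ DomJ BBs gD)
open Pool.Agent.RBH (Tube BoxS)

namespace Pool.Agent.LKF

variable {E : Type*} [NormedAddCommGroup E] [NormedSpace ℝ E] {H : Type*} [TopologicalSpace H]
  {J : ModelWithCorners ℝ E H}
  {P : Type*} [TopologicalSpace P] [ChartedSpace H P] {ι α : Type*} {κ κ' : ι → ℝ × ℂ × ℝ → P}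
  {b b' : α → ℂ × ℝ × ℝ → P} {c : Cmb ι α} {σ δ : ℝ} {G : Equiv.Perm P}
  {X : Type*} [TopologicalSpace X] [ChartedSpace E4 X] {n j : ι → ℤ}

theorem DCaF_not (h : BunF J κ b c) {a : α} {z : ℂ} {s t : ℝ}
    (hz : ‖z‖ < 4) (hs : |s| < 1) (h1 : z ≠ 1) (h2 : z ≠ -1) : ¬ OnF κ (b a (z, s, t)) := by
  intro hk
  rcases (box_torusF h hz hs).1 hk with h3 | h3
  · exact h1 h3
  · exact h2 h3

theorem Ab_ldF (D : TwinF J κ n j X) (h : BunF J κ b c) (a : α) {z : ℂ} {s t : ℝ}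
    (hz : ‖z‖ < 4) (hs : |s| < 1) (h1 : z ≠ 1) (h2 : z ≠ -1) :
    IsLocalDiffeomorphAt 𝓘(ℝ, ℂ × ℝ × ℝ) (𝓡 4) ∞ (fun x => D.A (b a x)) (z, s, t) := by
  have h3 := (h.box a).loc z s t hz hs
  have h4 := D.A_loc (b a (z, s, t)) (DCaF_not h hz hs h1 h2)
  exact IsLocalDiffeomorphAt.comp (hf := h3) (hg := h4) ..

theorem Ab_injF (D : TwinF J κ n j X) (h : BunF J κ b c) {a a' : α} {z z' : ℂ} {s s' t t' : ℝ}
    (hz : ‖z‖ < 4) (hs : |s| < 1) (h1 : z ≠ 1) (h2 : z ≠ -1)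
    (hz' : ‖z'‖ < 4) (hs' : |s'| < 1) (h1' : z' ≠ 1) (h2' : z' ≠ -1)
    (he : D.A (b a (z, s, t)) = D.A (b a' (z', s', t'))) : a = a' ∧ z = z' ∧ s = s' ∧ ∃ m : ℤ, t' = t + m := by
  have he' := D.A_inj _ _ (DCaF_not h hz hs h1 h2) (DCaF_not h hz' hs' h1' h2') he
  have ha := h.bdisj a a' z s t z' s' t' hz hs hz' hs' he'
  subst ha
  exact ⟨rfl, (h.box a).inj z s t z' s' t' hz hs hz' hs' he'⟩

/-- near a strand, the vertex chart is the chart `BBi` in ball coordinates -/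
theorem DCaF_key (D : TwinF J κ n j X) {i : ι} {B : ℂ × ℝ × ℝ → P} {d ε : ℝ} (hd : d = 1 ∨ d = -1)
    (hε : ε = 1 ∨ ε = -1)
    (hs : ∀ (l : ℝ) (v : ℂ) (t : ℝ), |l| < 1 / 16 → ‖v‖ < 1 →
      κ i (1 / 2 - d / 4 + l, v, t) = B (d + cj ε v / 2, 16 * ε * l, t))
    {p : ℂ} (hp0 : p ≠ 4 * (d : ℂ)) (hp : ‖p - 4 * (d : ℂ)‖ < 1) :
    ∀ᶠ q in 𝓝 (p, (0 : ℂ)), ‖q.1 - 4 * (d : ℂ)‖ < 1 / 4 →
      D.Q i (Vx d (XW d ε q)) = D.A (B (BBi d ε (n i) (j i) q)) := by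
  have hcn : ‖cj ε (p - 4 * d)‖ = ‖p - 4 * d‖ := Pool.Agent.RSG.cj_norm hε _
  have hpp : p - 4 * d ≠ 0 := sub_ne_zero.2 hp0
  have hx0 : cj ε (p - 4 * d) / 2 ≠ 0 := by
    refine div_ne_zero ?_ two_ne_zero
    rw [← norm_ne_zero_iff, hcn]
    exact norm_ne_zero_iff.2 hpp
  have hx1 : 2 * ‖cj ε (p - 4 * d) / 2‖ ^ 2 < 1 := by
    rw [norm_div, hcn, Complex.norm_two]
    nlinarith [norm_nonneg (p - 4 * d)]
  have h8 : p + 4 * d ≠ 0 := by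
    intro h0
    have e : p - 4 * d = -(8 * d) := by
      rw [eq_neg_of_add_eq_zero_left h0]; ring
    rw [e, norm_neg, norm_mul, Complex.norm_real, Real.norm_eq_abs] at hp
    have : |d| = 1 := by rcases hd with h | h <;> simp [h]
    rw [this] at hp
    norm_num at hp
  have hc : Tendsto (XW d ε) (𝓝 (p, (0 : ℂ))) (𝓝 (cj ε (p - 4 * d) / 2, 0)) := by
    rw [← Pool.Agent.RSG.XW_zero]
    exact Pool.Agent.CSG.ld_continuousAt (Pool.Agent.RSG.XW_ld hd hε h8)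
  filter_upwards [hc.eventually (Pool.Agent.RSG.Fi_ev (δ := d) (n := n i) hx0 hx1)] with q hq hq4
  obtain ⟨a1, a2, a3, a4⟩ := hq
  rw [vertex_glueF D hd hs a1 a2 a3 a4]
  have hst : Pool.Agent.CSG.stp (1 / 16) (1 / 4) (‖q.1 - 4 * d‖ ^ 2) = 0 := by
    apply Pool.Agent.CSG.stp_zero (by norm_num)
    nlinarith [norm_nonneg (q.1 - 4 * d)]
  simp only [BBi, hst, Pool.Agent.RSG.mix, sub_zero, one_smul, zero_smul, add_zero]

theorem DC_nearF (D : TwinF J κ n j X) (h : BunF J κ b c) (a : α) {p : ℂ} (h3 : p ≠ 4) (h4 : p ≠ -4) :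
    ∀ᶠ q in 𝓝 (p, (0 : ℂ)), DC D b c a q =
      D.A (b a (BDF (c.e₁ a) (c.e₂ a) (n (c.i a)) (j (c.i a)) (n (c.k a)) (j (c.k a)) q)) := by
  have c1 : Continuous fun q : ℂ × ℂ => ‖q.1 - 4‖ := by fun_prop
  have c2 : Continuous fun q : ℂ × ℂ => ‖q.1 + 4‖ := by fun_prop
  have t1 := c1.tendsto (p, (0 : ℂ))
  have t2 := c2.tendsto (p, (0 : ℂ))
  simp only at t1 t2
  have h8 : ∀ q : ℂ, 8 ≤ ‖q - 4‖ + ‖q + 4‖ := by
    intro q
    have := norm_sub_le (q + 4) (q - 4)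
    have e : q + 4 - (q - 4) = 8 := by ring
    rw [e] at this
    have e8 : ‖(8 : ℂ)‖ = 8 := by simp
    linarith
  by_cases hp1 : ‖p - 4‖ < 1
  · obtain ⟨i, ε, hε, e1, -, hs⟩ := strandF h a (d := 1) (Or.inl rfl)
    obtain ⟨hi1, hε1⟩ := e1 rfl
    subst hi1
    subst hε1
    have hk := DCaF_key (B := b a) D (d := 1) (Or.inl rfl) hε hs (p := p)
      (by simpa using h3) (by simpa using hp1)
    filter_upwards [t1.eventually (gt_mem_nhds hp1), hk] with q hq1 hq2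
    by_cases hq : ‖q.1 - 4‖ < 1 / 4
    · rw [DC, if_pos hq, hq2 (by simpa using hq), BDF, if_pos hq1]
    · have : ¬ ‖q.1 + 4‖ < 1 / 4 := by linarith [h8 q.1]
      rw [DC, if_neg hq, if_neg this]
  · by_cases hp2 : ‖p + 4‖ < 1
    · obtain ⟨i, ε, hε, -, e1, hs⟩ := strandF h a (d := -1) (Or.inr rfl)
      obtain ⟨hi1, hε1⟩ := e1 rfl
      subst hi1
      subst hε1
      have hk := DCaF_key (B := b a) D (d := -1) (Or.inr rfl) hε hs (p := p)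
        (by simpa using h4) (by simpa using hp2)
      filter_upwards [t2.eventually (gt_mem_nhds hp2), hk] with q hq1 hq2
      have g1 : ¬ ‖q.1 - 4‖ < 1 := by linarith [h8 q.1]
      have g2 : ¬ ‖q.1 - 4‖ < 1 / 4 := by linarith [h8 q.1]
      by_cases hq : ‖q.1 + 4‖ < 1 / 4
      · rw [DC, if_neg g2, if_pos hq, hq2 (by simpa using hq), BDF, if_neg g1, if_pos hq1]
      · rw [DC, if_neg g2, if_neg hq]
    · filter_upwards [t1.eventually (lt_mem_nhds (show 1 / 4 < ‖p - 4‖ by linarith)),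
        t2.eventually (lt_mem_nhds (show 1 / 4 < ‖p + 4‖ by linarith))] with q hq1 hq2
      rw [DC, if_neg (not_lt.2 hq1.le), if_neg (not_lt.2 hq2.le)]

theorem DC_zeroF (D : TwinF J κ n j X) (h : BunF J κ b c) (a : α) {p : ℂ} (h3 : p ≠ 4) (h4 : p ≠ -4) :
    DC D b c a (p, 0) = D.A (b a (gD p, 0, 0)) := by
  rw [(DC_nearF D h a h3 h4).self_of_nhds, BDF_zero (h.sign₁ a) (h.sign₂ a) _ _ _ _ h3 h4]

theorem DC_vertexF (D : TwinF J κ n j X) (b : α → ℂ × ℝ × ℝ → P) (c : Cmb ι α) (a : α) :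
    DC D b c a (4, 0) = D.Q (c.i a) (Vx 1 (0, 0)) ∧ DC D b c a (-4, 0) = D.Q (c.k a) (Vx (-1) (0, 0)) := by
  constructor
  · have e : XW 1 (c.e₁ a) ((4 : ℂ), 0) = (0, 0) := by
      rw [Pool.Agent.RSG.XW_zero]
      simp [Pool.Agent.RSG.cj_zero]
    rw [DC, if_pos (by norm_num), e]
  · have e : XW (-1) (c.e₂ a) ((-4 : ℂ), 0) = (0, 0) := by
      rw [Pool.Agent.RSG.XW_zero]
      simp [Pool.Agent.RSG.cj_zero]
    have e8 : ¬ ‖(-4 : ℂ) - 4‖ < 1 / 4 := by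
      have : (-4 : ℂ) - 4 = -8 := by norm_num
      rw [this, norm_neg]
      norm_num
    rw [DC, if_neg e8, if_pos (by norm_num), e]

theorem DC_vertex_neF (D : TwinF J κ n j X) {d : ℝ} (hd : d = 1 ∨ d = -1) (i : ι) {p : P}
    (hp : ¬ OnF κ p) : D.Q i (Vx d (0, 0)) ≠ D.A p :=
  D.disj i (Vx d (0, 0)) p (RBM.DC_vertex_c hd).1 (Or.inl (RBM.DC_vertex_c hd).2) hp

end Pool.Agent.LKF
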