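import Pool.Agent.LKF.DcaF
import Pool.Agent.RBM.DCb
import Pool.Agent.RBH.DkM

/-!
# LKF/DcbF: the chart of the disc, part 2   (difficulty 3)

Family version of `RBM/DCb.lean` (`DC_loc`, `DC_inj0`, `DC_far`) and of `RBH.DkM_ev` (RBH/DkM.lean: `Inn2` instead of `Inn`): copy the proofs.
`DC_inj0F`: two boxes `a, a'`.  Not vertices: `Ab_injF` gives `a = a'`, `gD p = gD p'`, `RBM.gD_inj`.  Vertex and not vertex: `DC_vertex_neF`.  Two vertices: `D.Q_inj` gives `i = i'` and `Vx d 0 = Vx d' 0`, so `d = d'`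
(`RSG.Vx_inj`); `d = 1`: `c.i a = c.i a'`; then `κ (c.i a) (1/4, 0, 0) = b a (1, 0, 0) = b a' (1, 0, 0)` (`strand₁`), so `a = a'` (`bdisj`); the same for `d = -1` with `c.k`, `strand₂`.
-/

open scoped Manifold ContDiff Topology
open Set Filter
open Complex (I)
open Pool.Agent.RSG (E4 S4 ex cj c1 c2 ht fh Vx XW BBi)
open Pool.Agent.RBM (ThickT OnT Box frc lamJ muJ DomJ BBs gD)
open Pool.Agent.RBH (Tube BoxS)

namespace Pool.Agent.LKF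

variable {E : Type*} [NormedAddCommGroup E] [NormedSpace ℝ E] {H : Type*} [TopologicalSpace H]
  {J : ModelWithCorners ℝ E H}
  {P : Type*} [TopologicalSpace P] [ChartedSpace H P] {ι α : Type*} {κ κ' : ι → ℝ × ℂ × ℝ → P}
  {b b' : α → ℂ × ℝ × ℝ → P} {c : Cmb ι α} {σ δ : ℝ} {G : Equiv.Perm P}
  {X : Type*} [TopologicalSpace X] [ChartedSpace E4 X] {n j : ι → ℤ}

theorem DcbF_vx (D : TwinF J κ n j X) (i : ι) {d ε : ℝ} (hd : d = 1 ∨ d = -1) (hε : ε = 1 ∨ ε = -1)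
    {p : ℂ} (h1 : ‖p - 4 * d‖ < 1 / 4) :
    IsLocalDiffeomorphAt 𝓘(ℝ, ℂ × ℂ) (𝓡 4) ∞ (fun q => D.Q i (Vx d (XW d ε q))) (p, 0) := by
  have h2 : p + 4 * (d : ℂ) ≠ 0 := Pool.Agent.RBM.DCb_ne hd h1
  have hsv : Pool.Agent.RSG.SV (XW d ε (p, 0)) < 1 := Pool.Agent.RBM.DCb_sv hε h1
  have h3 : IsLocalDiffeomorphAt 𝓘(ℝ, ℂ × ℂ) 𝓘(ℝ, ℂ × ℂ) ∞ (XW d ε) (p, 0) :=
    Pool.Agent.RSG.XW_ld hd hε h2
  have h4 : IsLocalDiffeomorphAt 𝓘(ℝ, ℂ × ℂ) (𝓡 4) ∞ (Vx d) (XW d ε (p, 0)) :=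
    Pool.Agent.RSG.Vx_ld hd hsv
  have h5 : IsLocalDiffeomorphAt (𝓡 4) (𝓡 4) ∞ (D.Q i) (Vx d (XW d ε (p, 0))) :=
    D.Q_loc i _ (Pool.Agent.RSG.Vx_ne hd hsv)
  have h6 : IsLocalDiffeomorphAt 𝓘(ℝ, ℂ × ℂ) (𝓡 4) ∞ (Vx d ∘ XW d ε) (p, 0) :=
    IsLocalDiffeomorphAt.comp (hf := h3) (hg := h4) ..
  have h7 : IsLocalDiffeomorphAt 𝓘(ℝ, ℂ × ℂ) (𝓡 4) ∞ (D.Q i ∘ (Vx d ∘ XW d ε)) (p, 0) :=
    IsLocalDiffeomorphAt.comp (hf := h6) (hg := h5) ..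
  exact h7

theorem DC_locF (D : TwinF J κ n j X) (h : BunF J κ b c) (a : α) {p : ℂ} (hp : ‖p‖ < 16) :
    IsLocalDiffeomorphAt 𝓘(ℝ, ℂ × ℂ) (𝓡 4) ∞ (DC D b c a) (p, 0) := by
  have hc1 : ContinuousAt (fun q : ℂ × ℂ => ‖q.1 - 4‖) (p, 0) :=
    ((continuous_fst.sub continuous_const).norm).continuousAt
  have hc2 : ContinuousAt (fun q : ℂ × ℂ => ‖q.1 + 4‖) (p, 0) :=
    ((continuous_fst.add continuous_const).norm).continuousAt
  by_cases h5 : ‖p - 4‖ < 1 / 4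
  · refine Pool.Agent.CSG.ld_congr (DcbF_vx D (c.i a) (d := 1) (ε := c.e₁ a) (Or.inl rfl) (h.sign₁ a) ?_) ?_
    · rw [Pool.Agent.RBM.DCb_one]; exact h5
    · filter_upwards [hc1.eventually (gt_mem_nhds h5)] with q hq
      unfold DC
      rw [if_pos hq]
  by_cases h6 : ‖p + 4‖ < 1 / 4
  · refine Pool.Agent.CSG.ld_congr (DcbF_vx D (c.k a) (d := -1) (ε := c.e₂ a) (Or.inr rfl) (h.sign₂ a) ?_) ?_
    · rw [Pool.Agent.RBM.DCb_neg]; exact h6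
    · filter_upwards [hc2.eventually (gt_mem_nhds h6)] with q hq
      unfold DC
      have h7 : ¬ ‖q.1 - 4‖ < 1 / 4 := fun h8 => Pool.Agent.RBM.DCb_far (p := q.1) (by linarith) (by linarith)
      rw [if_neg h7, if_pos hq]
  · have h3 : p ≠ 4 := by
      rintro rfl
      apply h5
      simp
    have h4 : p ≠ -4 := by
      rintro rfl
      apply h6
      simp
    refine Pool.Agent.CSG.ld_congr ?_ (DC_nearF D h a h3 h4)
    have h7 := BDF_ld (h.sign₁ a) (h.sign₂ a) (n (c.i a)) (j (c.i a)) (n (c.k a)) (j (c.k a)) h3 h4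
    obtain ⟨h8, h9⟩ := Pool.Agent.RBM.gD_ne h3 h4
    have h10 : IsLocalDiffeomorphAt 𝓘(ℝ, ℂ × ℝ × ℝ) (𝓡 4) ∞ (fun x => D.A (b a x))
        (BDF (c.e₁ a) (c.e₂ a) (n (c.i a)) (j (c.i a)) (n (c.k a)) (j (c.k a)) (p, 0)) := by
      rw [BDF_zero (h.sign₁ a) (h.sign₂ a) (n (c.i a)) (j (c.i a)) (n (c.k a)) (j (c.k a)) h3 h4]
      exact Ab_ldF D h a (Pool.Agent.RBM.DCb_gD4 hp) (by simp) h8 h9
    exact IsLocalDiffeomorphAt.comp (hf := h7) (hg := h10) ..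

/-- a point of the vertices is not in the image of `A ∘ b` -/
theorem DcbF_vne (D : TwinF J κ n j X) (h : BunF J κ b c) (a a' : α) {p : ℂ}
    (hp : p = 4 ∨ p = -4) {z : ℂ} {s t : ℝ} (hz : ‖z‖ < 4) (hs : |s| < 1)
    (h1 : z ≠ 1) (h2 : z ≠ -1) : DC D b c a (p, 0) ≠ D.A (b a' (z, s, t)) := by
  rcases hp with rfl | rfl
  · rw [(DC_vertexF D b c a).1]
    exact DC_vertex_neF D (Or.inl rfl) _ (DCaF_not h hz hs h1 h2)
  · rw [(DC_vertexF D b c a).2]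
    exact DC_vertex_neF D (Or.inr rfl) _ (DCaF_not h hz hs h1 h2)

/-- the value at the vertices -/
theorem DcbF_v (D : TwinF J κ n j X) (b : α → ℂ × ℝ × ℝ → P) (c : Cmb ι α) (a : α) {p : ℂ}
    (hp : p = 4 ∨ p = -4) : ∃ d : ℝ, (d = 1 ∨ d = -1) ∧ p = 4 * (d : ℂ) ∧
      DC D b c a (p, 0) = D.Q (if d = 1 then c.i a else c.k a) (Vx d (0, 0)) := by
  rcases hp with rfl | rfl
  · refine ⟨1, Or.inl rfl, by push_cast; ring, ?_⟩
    rw [(DC_vertexF D b c a).1, if_pos rfl]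
  · refine ⟨-1, Or.inr rfl, by push_cast; ring, ?_⟩
    rw [(DC_vertexF D b c a).2, if_neg (by norm_num)]

/-- the boxes at the vertices -/
theorem DcbF_box (h : BunF J κ b c) {a a' : α} {d : ℝ} (hd : d = 1 ∨ d = -1)
    (he : (if d = 1 then c.i a else c.k a) = if d = 1 then c.i a' else c.k a') : a = a' := by
  have hv0 : ∀ ε : ℝ, cj ε (0 : ℂ) = 0 := fun ε => by
    apply Complex.ext <;> simp [cj]
  rcases hd with rfl | rfl
  · rw [if_pos rfl, if_pos rfl] at he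
    have e1 := h.strand₁ a 0 0 0 (by norm_num) (by simp)
    have e2 := h.strand₁ a' 0 0 0 (by norm_num) (by simp)
    rw [he] at e1
    rw [hv0, zero_div, add_zero, mul_zero] at e1 e2
    rw [e1] at e2
    exact h.bdisj a a' _ _ _ _ _ _ (by simp) (by simp) (by simp) (by simp) e2
  · rw [if_neg (by norm_num), if_neg (by norm_num)] at he
    have e1 := h.strand₂ a 0 0 0 (by norm_num) (by simp)
    have e2 := h.strand₂ a' 0 0 0 (by norm_num) (by simp)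
    rw [he] at e1
    rw [hv0, zero_div, add_zero, mul_zero] at e1 e2
    rw [e1] at e2
    exact h.bdisj a a' _ _ _ _ _ _ (by simp) (by simp) (by simp) (by simp) e2

theorem DC_inj0F (D : TwinF J κ n j X) (h : BunF J κ b c) {a a' : α} {p p' : ℂ} (hp : ‖p‖ < 16)
    (hp' : ‖p'‖ < 16) (he : DC D b c a (p, 0) = DC D b c a' (p', 0)) : a = a' ∧ p = p' := by
  by_cases hq : p = 4 ∨ p = -4
  · by_cases hq' : p' = 4 ∨ p' = -4
    · obtain ⟨d, hd, e1, e2⟩ := DcbF_v D b c a hq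
      obtain ⟨d', hd', e1', e2'⟩ := DcbF_v D b c a' hq'
      rw [e2, e2'] at he
      have hsv : Pool.Agent.RSG.SV ((0 : ℂ), (0 : ℂ)) < 1 := Pool.Agent.RBM.DCb_SV0
      obtain ⟨h1, h2⟩ := D.Q_inj _ _ _ _ (Pool.Agent.RSG.Vx_ne hd hsv) (Pool.Agent.RSG.Vx_ne hd' hsv) he
      have h3 := (Pool.Agent.RSG.Vx_inj hd hd' hsv hsv h2).1
      subst h3
      exact ⟨DcbF_box h hd h1, e1.trans e1'.symm⟩
    · exfalso
      rw [not_or] at hq'
      obtain ⟨h8, h9⟩ := Pool.Agent.RBM.gD_ne hq'.1 hq'.2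
      rw [DC_zeroF D h a' hq'.1 hq'.2] at he
      exact DcbF_vne D h a a' hq (Pool.Agent.RBM.DCb_gD4 hp') (by simp) h8 h9 he
  · rw [not_or] at hq
    obtain ⟨h8, h9⟩ := Pool.Agent.RBM.gD_ne hq.1 hq.2
    by_cases hq' : p' = 4 ∨ p' = -4
    · exfalso
      rw [DC_zeroF D h a hq.1 hq.2] at he
      exact DcbF_vne D h a' a hq' (Pool.Agent.RBM.DCb_gD4 hp) (by simp) h8 h9 he.symm
    · rw [not_or] at hq'
      obtain ⟨h8', h9'⟩ := Pool.Agent.RBM.gD_ne hq'.1 hq'.2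
      rw [DC_zeroF D h a hq.1 hq.2, DC_zeroF D h a' hq'.1 hq'.2] at he
      obtain ⟨k1, k2, -⟩ := Ab_injF D h (Pool.Agent.RBM.DCb_gD4 hp) (by simp) h8 h9
        (Pool.Agent.RBM.DCb_gD4 hp') (by simp) h8' h9' he
      exact ⟨k1, Pool.Agent.RBM.gD_inj k2⟩

theorem DC_farF (D : TwinF J κ n j X) (b : α → ℂ × ℝ × ℝ → P) (c : Cmb ι α) (a : α) {p ν : ℂ} (hp : 9 ≤ ‖p‖) :
    DC D b c a (p, ν) = D.A (b a (p / 4, ν.re, ν.im)) := by
  have h4 : ‖(4 : ℂ)‖ = 4 := by simp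
  have hm : 5 ≤ ‖p - 4‖ := by
    have := norm_sub_norm_le p 4
    rw [h4] at this
    linarith
  have hq : 5 ≤ ‖p + 4‖ := by
    have := norm_sub_norm_le p (-4)
    rw [norm_neg, h4, sub_neg_eq_add] at this
    linarith
  unfold DC
  rw [if_neg (by simp only; linarith), if_neg (by simp only; linarith), BDF_far hp]

theorem DcbF_innv (D : TwinF J κ n j X) (b : α → ℂ × ℝ × ℝ → P) (a : α) (i : ι) {d ε : ℝ} (hd : d = 1 ∨ d = -1)
    (hε : ε = 1 ∨ ε = -1) {p : ℂ} (h1 : ‖p - 4 * d‖ < 1 / 4) :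
    ∀ᶠ q in 𝓝 (p, (0 : ℂ)), D.Q i (Vx d (XW d ε q)) ∈ Inn2 D b a := by
  have hc : ContinuousAt (XW d ε) (p, (0 : ℂ)) :=
    Pool.Agent.CSG.ld_continuousAt (Pool.Agent.RSG.XW_ld hd hε (Pool.Agent.RBM.DCb_ne hd h1))
  have hS : ContinuousAt (fun q => Pool.Agent.RSG.SV (XW d ε q)) (p, (0 : ℂ)) :=
    ContinuousAt.comp (g := Pool.Agent.RSG.SV)
      (Pool.Agent.RSG.FiA_SV_smooth.continuous.continuousAt) hc
  have h0 : Pool.Agent.RSG.SV (XW d ε (p, 0)) < 1 / 2 := by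
    rw [Pool.Agent.RSG.SV_XW_zero hε]
    nlinarith [norm_nonneg (p - 4 * (d : ℂ))]
  filter_upwards [hS.eventually (gt_mem_nhds h0)] with q hq
  exact Or.inr ⟨i, _, Pool.Agent.RSG.Vx_ne hd (by linarith), Pool.Agent.RBH.DkM_c hd hq, rfl⟩

theorem DC_innF (D : TwinF J κ n j X) (h : BunF J κ b c) (a : α) {p : ℂ} (hp : ‖p‖ ≤ 9) :
    ∀ᶠ q in 𝓝 (p, (0 : ℂ)), DC D b c a q ∈ Inn2 D b a := by
  have hc1 : ContinuousAt (fun q : ℂ × ℂ => ‖q.1 - 4‖) (p, 0) :=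
    ((continuous_fst.sub continuous_const).norm).continuousAt
  have hc2 : ContinuousAt (fun q : ℂ × ℂ => ‖q.1 + 4‖) (p, 0) :=
    ((continuous_fst.add continuous_const).norm).continuousAt
  by_cases h5 : ‖p - 4‖ < 1 / 4
  · have h5' : ‖p - 4 * ((1 : ℝ) : ℂ)‖ < 1 / 4 := by rw [Pool.Agent.RBM.DCb_one]; exact h5
    filter_upwards [hc1.eventually (gt_mem_nhds h5),
      DcbF_innv D b a (c.i a) (d := 1) (ε := c.e₁ a) (Or.inl rfl) (h.sign₁ a) h5'] with q hq hq2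
    unfold DC
    rw [if_pos hq]
    exact hq2
  by_cases h6 : ‖p + 4‖ < 1 / 4
  · have h6' : ‖p - 4 * ((-1 : ℝ) : ℂ)‖ < 1 / 4 := by rw [Pool.Agent.RBM.DCb_neg]; exact h6
    filter_upwards [hc2.eventually (gt_mem_nhds h6),
      DcbF_innv D b a (c.k a) (d := -1) (ε := c.e₂ a) (Or.inr rfl) (h.sign₂ a) h6'] with q hq hq2
    unfold DC
    have h7 : ¬ ‖q.1 - 4‖ < 1 / 4 := fun h8 => Pool.Agent.RBM.DCb_far (p := q.1) (by linarith) (by linarith)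
    rw [if_neg h7, if_pos hq]
    exact hq2
  · have h3 : p ≠ 4 := by
      rintro rfl
      apply h5
      simp
    have h4 : p ≠ -4 := by
      rintro rfl
      apply h6
      simp
    obtain ⟨h8, h9⟩ := Pool.Agent.RBM.gD_ne h3 h4
    set B := BDF (c.e₁ a) (c.e₂ a) (n (c.i a)) (j (c.i a)) (n (c.k a)) (j (c.k a)) with hB
    have hc : ContinuousAt B (p, (0 : ℂ)) :=
      Pool.Agent.CSG.ld_continuousAt (BDF_ld (h.sign₁ a) (h.sign₂ a) _ _ _ _ h3 h4)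
    have e0 : B (p, 0) = (gD p, 0, 0) := BDF_zero (h.sign₁ a) (h.sign₂ a) _ _ _ _ h3 h4
    have k1 : ContinuousAt (fun q => (B q).1) (p, (0 : ℂ)) := hc.fst
    have k2 : ContinuousAt (fun q => |(B q).2.1|) (p, (0 : ℂ)) := hc.snd.fst.abs
    have k3 : ContinuousAt (fun q => ‖(B q).1‖) (p, (0 : ℂ)) := k1.norm
    filter_upwards [DC_nearF D h a h3 h4,
      k3.eventually (gt_mem_nhds (show ‖(B (p, 0)).1‖ < 5 / 2 by
        rw [e0]; exact lt_of_le_of_lt (Pool.Agent.RBM.DCb_le hp) (by norm_num))),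
      k2.eventually (gt_mem_nhds (show |(B (p, 0)).2.1| < 1 / 2 by rw [e0]; simp)),
      k1.eventually_ne (show (B (p, 0)).1 ≠ 1 by rw [e0]; exact h8),
      k1.eventually_ne (show (B (p, 0)).1 ≠ -1 by rw [e0]; exact h9)] with q q1 q2 q3 q4 q5
    rw [q1]
    refine Or.inl ⟨(B q).1, (B q).2.1, (B q).2.2, q2, q3, ?_, rfl⟩
    exact DCaF_not h (by linarith) (by linarith) q4 q5

end Pool.Agent.LKF
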