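import Pool.Agent.LKF.Defs
import Pool.Agent.LKF.Def3
import Pool.Agent.KNH.Defs
import Pool.Agent.COR.Coh

/-!
# LKF/Def2: links in `S3`, definitions

* `Inv0 O Q`: the property `Q` of ONE thick torus is invariant under change of the germ and diffeomorphisms with support in the open set `O`.
* `Inv O Q`: moreover change of the framing, mirror image, reversal, ribbon homotopy.
* `MonoF Q`: the property `Q` of a FAMILY of thick tori is monotone: if every 4-manifold carried by `κ` (with `n`, `j`) is carried by `κ'` (with `φ (n, j)`, `φ` onto) then `Q κ → Q κ'`.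
* `Oth κ i`: the complement of the closed tubes of the other tori.
* `LS Q S`: the labelled link in `S3` with components `S i` carries `Q`: there are thick tori `κ i` in `S3 × S1`, with disjoint tubes, equivariant, with cores `(c i, 1)`, `range (c i) = S i`, with `Q κ`.
* `LQ Q A B`: the same for the link with the component `Hat A = io '' A ∪ {pol}` (some component `i₀`), and the union of the other components is `io '' B`.
* `oJ`, `PosT`, `PosB`: orientations (a choice of `COR.sp_orient`): positive thick tori, positive boxes.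
* `Win2 A₁ A₂ K f₁ f₂ ε₁ ε₂`: the closed curve `K` contains the cores `w = 0` of the two thick arcs `A₁`, `A₂`.
* `Ln i k m`: the lines `z = 1` (if `i = m`) and `z = -1` (if `k = m`).  `Ln2 i k m`: the same after two full turns.
* `opt β γ`: the family of charts `β, γ a`.  `cjc β`: the chart `β` composed with the complex conjugation.
-/

open scoped Manifold ContDiff Topology
open Set Filter
open Complex (I)
open Pool.Agent.RSG (E4 S3 S4 ex cj c1 c2 ht fh)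
open Pool.Agent.RBM (ThickT OnT Box Bundle frc)
open Pool.Agent.RBH (Tube BoxS RibHom)
open Pool.Agent.PTH (SP ISP)
open Pool.Agent.COR (Equi EquiB BBox)
open Pool.Agent.KNH (rot Hat circ pb)
open Pool.Agent.CLG (io pol)

namespace Pool.Agent.LKF

universe u

section
variable {E : Type*} [NormedAddCommGroup E] [NormedSpace ℝ E] {H : Type*} [TopologicalSpace H]
  (J : ModelWithCorners ℝ E H)
  {P : Type*} [TopologicalSpace P] [ChartedSpace H P] {ι : Type*}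

/-- invariance of a property of one thick torus under change of the germ and diffeomorphisms in `O` -/
structure Inv0 (O : Set P) (Q : (ℝ × ℂ × ℝ → P) → Prop) : Prop where
  germ : ∀ (κ κ' : ℝ × ℂ × ℝ → P) (η : ℝ), 0 < η → ThickT J κ → ThickT J κ' → Tube κ ⊆ O → Tube κ' ⊆ O →
    (∀ (l : ℝ) (v : ℂ) (t : ℝ), ‖v‖ < η → κ' (l, v, t) = κ (l, v, t)) → Q κ → Q κ'
  diff : ∀ (κ : ℝ × ℂ × ℝ → P) (F : Equiv.Perm P), (∀ p, IsLocalDiffeomorphAt J J ∞ F p) → (∀ p, p ∉ O → F p = p) →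
    ThickT J κ → Tube κ ⊆ O → Q κ → Q (fun q => F (κ q))

/-- invariance of a property of one thick torus under the moves in `O` -/
structure Inv (O : Set P) (Q : (ℝ × ℂ × ℝ → P) → Prop) : Prop extends Inv0 J O Q where
  frame : ∀ (κ : ℝ × ℂ × ℝ → P) (k : ℤ), ThickT J κ → Tube κ ⊆ O →
    Q (fun q => κ (q.1, q.2.1 * ex (k * q.1), q.2.2)) → Q κ
  mirror : ∀ κ : ℝ × ℂ × ℝ → P, ThickT J κ → Tube κ ⊆ O → Q κ →
    Q (fun q => κ (q.1, (starRingEnd ℂ) q.2.1, q.2.2))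
  rev : ∀ κ : ℝ × ℂ × ℝ → P, ThickT J κ → Tube κ ⊆ O → Q κ → Q (fun q => κ (-q.1, q.2))
  rib : ∀ (κ κ' : ℝ × ℂ × ℝ → P) (b b' : ℂ × ℝ × ℝ → P) (ε₁ ε₂ : ℝ) (τ : ℝ → ℝ) (δ : ℝ) (G : Equiv.Perm P),
    RibHom J κ κ' b b' ε₁ ε₂ τ δ G → Tube κ ⊆ O → Tube κ' ⊆ O → BoxS b ⊆ O → BoxS b' ⊆ O →
    (∀ p, p ∉ O → G p = p) → Q κ → Q κ'

/-- monotone properties of families of thick tori -/
def MonoF (Q : (ι → ℝ × ℂ × ℝ → P) → Prop) : Prop :=
  ∀ κ κ' : ι → ℝ × ℂ × ℝ → P, LinkT J κ → LinkT J κ' →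
    (∃ φ : (ι → ℤ) × (ι → ℤ) → (ι → ℤ) × (ι → ℤ), Function.Surjective φ ∧
      ∀ (X : Type u) [TopologicalSpace X] [ChartedSpace E4 X] [T2Space X] (n j : ι → ℤ),
        Nonempty (TwinF J κ n j X) → Nonempty (TwinF J κ' (φ (n, j)).1 (φ (n, j)).2 X)) → Q κ → Q κ'

omit [ChartedSpace H P] in
/-- complement of the closed tubes of the other tori -/
def Oth (κ : ι → ℝ × ℂ × ℝ → P) (i : ι) : Set P := {p | ∀ m, m ≠ i → p ∉ closure (Tube (κ m))}

end

/-! ## links in `S3` -/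

section
variable {ι : Type*}

/-- the labelled link with components `S i` carries `Q` -/
def LS (Q : (ι → ℝ × ℂ × ℝ → SP) → Prop) (S : ι → Set S3) : Prop :=
  ∃ (c : ι → ℝ → S3) (κ : ι → ℝ × ℂ × ℝ → SP), LinkT ISP κ ∧ (∀ i, Equi rot (κ i)) ∧
    (∀ i l, κ i (l, 0, 0) = (c i l, 1)) ∧ (∀ i, range (c i) = S i) ∧ Q κ

/-- the link with one component `Hat A`, the union of the others being `io '' B`, carries `Q` -/
def LQ (Q : (ι → ℝ × ℂ × ℝ → SP) → Prop) (A B : Set (ℂ × ℝ)) : Prop :=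
  ∃ (i₀ : ι) (S : ι → Set S3), S i₀ = Hat A ∧ (⋃ i ∈ {i | i ≠ i₀}, S i) = io '' B ∧ LS Q S

/-- the lines `z = 1` (if `i = m`) and `z = -1` (if `k = m`) -/
def Ln (i k m : ι) : Set (ℂ × ℝ) := {q | (q.1 = 1 ∧ i = m) ∨ (q.1 = -1 ∧ k = m)}

/-- the same, after two full turns -/
def Ln2 (i k m : ι) : Set (ℂ × ℝ) := {q | (q.1 = ex (2 * RBM.gs (2 * q.2)) ∧ i = m) ∨ (q.1 = -ex (2 * RBM.gs (2 * q.2)) ∧ k = m)}

end

/-! ## orientations -/

/-- the orientation function of `S3 × S1` -/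
noncomputable def oJ : (ℝ × ℂ × ℝ → SP) → ℝ × ℂ × ℝ → ℝ := COR.sp_orient.choose

/-- positive thick torus -/
def PosT (κ : ℝ × ℂ × ℝ → SP) : Prop := 0 < oJ κ (0, 0, 0)

/-- positive box -/
def PosB (b : ℂ × ℝ × ℝ → SP) : Prop := 0 < oJ (fun q : ℝ × ℂ × ℝ => b (q.2.1, q.1, q.2.2)) (0, 0, 0)

/-! ## windows -/

/-- The closed curve `K` contains the core `w = 0` of the thick arc `A`. -/
structure Win1 {P : Type*} (A : ℂ × ℝ × ℝ → P) (K : ℝ → P) (f : ℝ → ℝ) (ε : ℝ) : Prop where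
  smooth : ContDiff ℝ ∞ f
  deriv_pos : ∀ u, 0 < deriv f u
  sign : ε = 1 ∨ ε = -1
  len : f 1 < f (-1) + 1
  strand : ∀ u, |u| < 1 → K (f u) = A (0, ε * u, 0)
  off : ∀ l, f 1 ≤ l → l ≤ f (-1) + 1 → ∀ (w : ℂ) (s t : ℝ), ‖w‖ < 3 / 4 → |s| < 3 / 4 → K l ≠ A (w, s, t)

/-- The closed curve `K` contains the cores of the two thick arcs. -/
structure Win2 {P : Type*} (A₁ A₂ : ℂ × ℝ × ℝ → P) (K : ℝ → P) (f₁ f₂ : ℝ → ℝ) (ε₁ ε₂ : ℝ) : Prop where
  w₁ : Win1 A₁ K f₁ ε₁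
  w₂ : Win1 A₂ K f₂ ε₂
  ord₁ : f₁ 1 < f₂ (-1)
  ord₂ : f₂ 1 < f₁ (-1) + 1

/-! ## charts -/

/-- the family of charts `β`, `γ a` -/
def opt {α T : Type*} (β : T) (γ : α → T) : Option α → T
  | none => β
  | some a => γ a

/-- the chart composed with the complex conjugation -/
noncomputable def cjc (β : ℂ × ℝ → ℂ × ℝ) (q : ℂ × ℝ) : ℂ × ℝ := β ((starRingEnd ℂ) q.1, q.2)

/-- the chart after two full turns -/
noncomputable def tw2 (β : ℂ × ℝ → ℂ × ℝ) (q : ℂ × ℝ) : ℂ × ℝ := β (ex (2 * RBM.gs (2 * q.2)) * q.1, q.2)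

/-! ## replacing the boxes -/

open Classical in
/-- the thick tori `κ`, with the boxes `b a` replaced by the boxes `b' a` -/
noncomputable def swpF {P ι α : Type*} (b b' : α → ℂ × ℝ × ℝ → P) (κ : ι → ℝ × ℂ × ℝ → P) (i : ι) (q : ℝ × ℂ × ℝ) : P :=
  if h : ∃ w : α × (ℂ × ℝ × ℝ), ‖w.2.1‖ < 4 ∧ |w.2.2.1| < 1 ∧ κ i q = b w.1 w.2 then b' h.choose.1 h.choose.2 else κ i q

end Pool.Agent.LKF
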