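import Pool.Agent.RBH.Main

/-!
# LKF/Defs: several tori, definitions

`κ : ι → ℝ × ℂ × ℝ → P` is a family of thick tori.
* `LinkT κ`: thick tori with disjoint (open) tubes.  `OnF κ p`: `p` is on one of the tori.  `TubF κ`: union of the open tubes.
* `TwinF κ n j X`: `X` is the union of `P - tori` (map `A`) and of one twin for each torus (maps `Q i`), glued as in `RBM.TwinP`.
* `Cmb ι α`: combinatorial data of a family of boxes `b a`, `a ∈ α`: the strand `z = 1` of `b a` is a piece of the torus `i a` (with sign `e₁ a`), the strand `z = -1` is a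
  piece of the torus `k a` (sign `e₂ a`); `τ a` is the height function of the hole.
* `BunF κ b c`: in the boxes `b a` (`r = 4`) the tori consist of the straight strands `z = ±1`.
* `RibF κ κ' b b' c δ G`: data of the ribbon homotopy theorem for a family of boxes.
* `DC, hD, Jm, Jt, Gm, Ap`: the maps of `RBM`, `RBH`, for a family of boxes.
-/

open scoped Manifold ContDiff Topology
open Set Filter
open Complex (I)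
open Pool.Agent.RSG (E4 S4 ex cj c1 c2 ht fh Vx XW BBi)
open Pool.Agent.RBM (ThickT OnT TwinP Box Bundle frc lamJ muJ DomJ BBs)
open Pool.Agent.RBH (Tube BoxS)

namespace Pool.Agent.LKF

/-- combinatorial data of a family of boxes -/
structure Cmb (ι α : Type*) where
  i : α → ι
  k : α → ι
  e₁ : α → ℝ
  e₂ : α → ℝ
  τ : α → ℝ → ℝ

/-- the parameters outside the windows -/
def RestF {ι α : Type*} (c : Cmb ι α) (i : ι) (l : ℝ) : Prop :=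
  (∀ a, c.i a = i → ∀ k : ℤ, 1 / 16 ≤ |l - 1 / 4 - k|) ∧ ∀ a, c.k a = i → ∀ k : ℤ, 1 / 16 ≤ |l - 3 / 4 - k|

open Classical in
/-- ball coordinates of the chart of the disc, in the coordinates `(p, ν)`, for two different twins -/
noncomputable def BDF (ε₁ ε₂ : ℝ) (n₁ j₁ n₂ j₂ : ℤ) (q : ℂ × ℂ) : ℂ × ℝ × ℝ :=
  if ‖q.1 - 4‖ < 1 then BBi 1 ε₁ n₁ j₁ q
  else if ‖q.1 + 4‖ < 1 then BBi (-1) ε₂ n₂ j₂ q
  else BBs q

section defs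
variable {E : Type*} [NormedAddCommGroup E] [NormedSpace ℝ E] {H : Type*} [TopologicalSpace H]
  (J : ModelWithCorners ℝ E H)
  {P : Type*} [TopologicalSpace P] [ChartedSpace H P] {ι α : Type*}

/-- thick tori with disjoint tubes -/
structure LinkT (κ : ι → ℝ × ℂ × ℝ → P) : Prop where
  thick : ∀ i, ThickT J (κ i)
  disj : ∀ (i i' : ι) (l : ℝ) (v : ℂ) (t l' : ℝ) (v' : ℂ) (t' : ℝ), ‖v‖ < 1 → ‖v'‖ < 1 →
    κ i (l, v, t) = κ i' (l', v', t') → i = i'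

/-- `p` is a point of the tori -/
def OnF (κ : ι → ℝ × ℂ × ℝ → P) (p : P) : Prop := ∃ i, OnT (κ i) p

/-- the open tubes -/
def TubF (κ : ι → ℝ × ℂ × ℝ → P) : Set P := {p | ∃ i, p ∈ Tube (κ i)}

/-- the open boxes -/
def BoxF (b : α → ℂ × ℝ × ℝ → P) : Set P := {p | ∃ a, p ∈ BoxS (b a)}

/-- `X` is the union of `P - tori` and of the twins. -/
structure TwinF (κ : ι → ℝ × ℂ × ℝ → P) (n j : ι → ℤ) (X : Type*) [TopologicalSpace X]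
    [ChartedSpace E4 X] where
  A : P → X
  Q : ι → S4 → X
  A_loc : ∀ p, ¬ OnF κ p → IsLocalDiffeomorphAt J (𝓡 4) ∞ A p
  A_inj : ∀ p p', ¬ OnF κ p → ¬ OnF κ p' → A p = A p' → p = p'
  Q_loc : ∀ i z, fh z ≠ 0 → IsLocalDiffeomorphAt (𝓡 4) (𝓡 4) ∞ (Q i) z
  Q_inj : ∀ i z i' z', fh z ≠ 0 → fh z' ≠ 0 → Q i z = Q i' z' → i = i' ∧ z = z'
  glue : ∀ (i : ι) (z : S4) (l m t : ℝ), fh z ≠ 0 → c1 z ≠ 0 → c2 z ≠ 0 →
    c1 z = ‖c1 z‖ * ex (m + (1 - j i) * t) → c2 z = ‖c2 z‖ * ex (m - j i * t) →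
    fh z = ‖fh z‖ * ex (l - n i * t) → Q i z = A (κ i (l, (2 * ‖c1 z‖ * ‖c2 z‖ : ℝ) * ex m, t))
  disj : ∀ i z p, fh z ≠ 0 → c1 z = 0 ∨ c2 z = 0 → ¬ OnF κ p → Q i z ≠ A p
  cover : ∀ q, (∃ p, ¬ OnF κ p ∧ q = A p) ∨ ∃ i z, fh z ≠ 0 ∧ q = Q i z

/-- In the boxes the tori consist of the straight strands. -/
structure BunF (κ : ι → ℝ × ℂ × ℝ → P) (b : α → ℂ × ℝ × ℝ → P) (c : Cmb ι α) : Prop where
  link : LinkT J κ
  box : ∀ a, Box J (b a) 4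
  bdisj : ∀ (a a' : α) (z : ℂ) (s t : ℝ) (z' : ℂ) (s' t' : ℝ), ‖z‖ < 4 → |s| < 1 → ‖z'‖ < 4 → |s'| < 1 →
    b a (z, s, t) = b a' (z', s', t') → a = a'
  sign₁ : ∀ a, c.e₁ a = 1 ∨ c.e₁ a = -1
  sign₂ : ∀ a, c.e₂ a = 1 ∨ c.e₂ a = -1
  strand₁ : ∀ (a : α) (l : ℝ) (v : ℂ) (t : ℝ), |l| < 1 / 16 → ‖v‖ < 1 →
    κ (c.i a) (1 / 4 + l, v, t) = b a (1 + cj (c.e₁ a) v / 2, 16 * c.e₁ a * l, t)
  strand₂ : ∀ (a : α) (l : ℝ) (v : ℂ) (t : ℝ), |l| < 1 / 16 → ‖v‖ < 1 →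
    κ (c.k a) (3 / 4 + l, v, t) = b a (-1 + cj (c.e₂ a) v / 2, 16 * c.e₂ a * l, t)
  rest : ∀ (i : ι) (l : ℝ) (v : ℂ) (t : ℝ), ‖v‖ < 1 → RestF c i l →
    ∀ (a : α) (z : ℂ) (s t' : ℝ), ‖z‖ < 4 → |s| < 1 → κ i (l, v, t) ≠ b a (z, s, t')

/-- data of the ribbon homotopy theorem -/
structure RibF (κ κ' : ι → ℝ × ℂ × ℝ → P) (b b' : α → ℂ × ℝ × ℝ → P) (c : Cmb ι α) (δ : ℝ)
    (G : Equiv.Perm P) : Prop where
  bun : BunF J κ b c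
  bun' : BunF J κ' b' c
  tau : ∀ a, ContDiff ℝ ∞ (c.τ a)
  pos : 0 < δ
  G_ld : ∀ p, IsLocalDiffeomorphAt J J ∞ G p
  G_rest : ∀ (i : ι) (l : ℝ) (v : ℂ) (t : ℝ), ‖v‖ < 1 → RestF c i l → G (κ i (l, v, t)) = κ' i (l, v, t)
  G_ends : ∀ (a : α) (z : ℂ) (s t : ℝ), ‖z‖ < 4 → 1 / 2 ≤ |s| → |s| < 1 → G (b a (z, s, t)) = b' a (z, s, t)
  G_hole : ∀ (a : α) (z : ℂ) (s t : ℝ), ‖z‖ ≤ 13 / 4 → |s| < 1 → 1 / 2 - 2 * δ ≤ |frc (t - c.τ a s)| →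
    G (b a (z, s, t)) = b' a (z, s, t)

end defs

section maps
variable {E : Type*} [NormedAddCommGroup E] [NormedSpace ℝ E] {H : Type*} [TopologicalSpace H]
  {J : ModelWithCorners ℝ E H}
  {P : Type*} [TopologicalSpace P] [ChartedSpace H P] {ι α : Type*}
  {X : Type*} [TopologicalSpace X] [ChartedSpace E4 X] {κ : ι → ℝ × ℂ × ℝ → P} {n j : ι → ℤ}

open Classical in
/-- the chart of the disc in the box `a`, in the coordinates `(p, ν)` -/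
noncomputable def DC (D : TwinF J κ n j X) (b : α → ℂ × ℝ × ℝ → P) (c : Cmb ι α) (a : α) (q : ℂ × ℂ) : X :=
  if ‖q.1 - 4‖ < 1 / 4 then D.Q (c.i a) (Vx 1 (XW 1 (c.e₁ a) q))
  else if ‖q.1 + 4‖ < 1 / 4 then D.Q (c.k a) (Vx (-1) (XW (-1) (c.e₂ a) q))
  else D.A (b a (BDF (c.e₁ a) (c.e₂ a) (n (c.i a)) (j (c.i a)) (n (c.k a)) (j (c.k a)) q))

/-- The thick disc in the box `a`. -/
noncomputable def hD (D : TwinF J κ n j X) (b : α → ℂ × ℝ × ℝ → P) (c : Cmb ι α) (a : α) (x : ℂ × ℝ × ℝ) : X :=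
  DC D b c a (4 * x.1, ⟨x.2.1, x.2.2⟩)

/-- the points of `X` which may be met by the disc: the part `‖z‖ < r` of the box, and the twins -/
def Inn (D : TwinF J κ n j X) (b : α → ℂ × ℝ × ℝ → P) (a : α) (r : ℝ) : Set X :=
  {x | (∃ (z : ℂ) (s t : ℝ), ‖z‖ < r ∧ |s| < 1 ∧ ¬ OnF κ (b a (z, s, t)) ∧ x = D.A (b a (z, s, t))) ∨
    ∃ (i : ι) (z : S4), fh z ≠ 0 ∧ x = D.Q i z}

/-- what is really met by the disc -/
def Inn2 (D : TwinF J κ n j X) (b : α → ℂ × ℝ × ℝ → P) (a : α) : Set X :=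
  {x | (∃ (z : ℂ) (s t : ℝ), ‖z‖ < 5 / 2 ∧ |s| < 1 / 2 ∧ ¬ OnF κ (b a (z, s, t)) ∧ x = D.A (b a (z, s, t))) ∨
    ∃ (i : ι) (z : S4), fh z ≠ 0 ∧ 2 * ‖c1 z‖ * ‖c2 z‖ < 1 / 2 ∧ x = D.Q i z}

/-- `σ` is small enough, for all boxes -/
structure DiscOK (D : TwinF J κ n j X) (b : α → ℂ × ℝ × ℝ → P) (c : Cmb ι α) (σ : ℝ) : Prop where
  pos : 0 < σ
  le : σ ≤ 1 / 8
  out : ∀ (a : α) (z : ℂ) (s t : ℝ), 9 / 4 ≤ ‖z‖ → hD D b c a (z, s, t) = D.A (b a (z, s, t))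
  loc : ∀ (a : α) (z : ℂ) (s t : ℝ), ‖z‖ ≤ 5 / 2 → |s| < σ → |t| < σ →
    IsLocalDiffeomorphAt 𝓘(ℝ, ℂ × ℝ × ℝ) (𝓡 4) ∞ (hD D b c a) (z, s, t)
  inj : ∀ (a : α) (z : ℂ) (s t : ℝ) (a' : α) (z' : ℂ) (s' t' : ℝ), ‖z‖ ≤ 5 / 2 → |s| < σ → |t| < σ →
    ‖z'‖ ≤ 5 / 2 → |s'| < σ → |t'| < σ →
    hD D b c a (z, s, t) = hD D b c a' (z', s', t') → a = a' ∧ (z, s, t) = (z', s', t')
  inn : ∀ (a : α) (z : ℂ) (s t : ℝ), ‖z‖ < 9 / 4 → |s| < σ → |t| < σ → hD D b c a (z, s, t) ∈ Inn2 D b a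

open Classical in
/-- the map `J` in the box `a`; the hole of `J` is at the height `1/2 + τ s`. -/
noncomputable def Jm (D : TwinF J κ n j X) (b : α → ℂ × ℝ × ℝ → P) (c : Cmb ι α) (σ : ℝ) (a : α)
    (x : ℂ × ℝ × ℝ) : X :=
  if ‖x.1‖ < 5 / 2 then hD D b c a (x.1, σ * x.2.1, σ * frc (x.2.2 - c.τ a x.2.1))
  else if ‖x.1‖ < 3 then
    D.A (b a (x.1, lamJ σ (‖x.1‖ ^ 2) * x.2.1,
      lamJ σ (‖x.1‖ ^ 2) * frc (x.2.2 - c.τ a x.2.1) + muJ (‖x.1‖ ^ 2) * c.τ a x.2.1))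
  else D.A (b a x)

open Classical in
/-- `J` on `P`: the maps `Jm` on the parts `|s| < 3/4` of the boxes, `D.A` elsewhere -/
noncomputable def Jt (D : TwinF J κ n j X) (b : α → ℂ × ℝ × ℝ → P) (c : Cmb ι α) (σ : ℝ) (p : P) : X :=
  if h : ∃ w : α × (ℂ × ℝ × ℝ), ‖w.2.1‖ < 4 ∧ |w.2.2.1| < 3 / 4 ∧ p = b w.1 w.2 then
    Jm D b c σ h.choose.1 h.choose.2
  else D.A p

/-- points where `Jt` is good -/
def Good (κ : ι → ℝ × ℂ × ℝ → P) (b : α → ℂ × ℝ × ℝ → P) (c : Cmb ι α) (δ : ℝ) : Set P :=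
  {p | (∃ a, ∃ x ∈ DomJ (c.τ a) δ, |x.2.1| < 3 / 4 ∧ p = b a x) ∨ (p ∉ TubF κ ∧ p ∉ BoxF b)}

/-- `x` is in the image of the part `|s| < 3/4` of a map `Jm` -/
def IsJ (D : TwinF J κ n j X) (b : α → ℂ × ℝ × ℝ → P) (c : Cmb ι α) (σ δ : ℝ) (x : X) : Prop :=
  ∃ w : α × (ℂ × ℝ × ℝ), w.2 ∈ DomJ (c.τ w.1) δ ∧ |w.2.2.1| < 3 / 4 ∧ x = Jm D b c σ w.1 w.2

open Classical in
/-- the map `Γ` of `X` -/
noncomputable def Gm (D : TwinF J κ n j X) (b b' : α → ℂ × ℝ × ℝ → P) (c : Cmb ι α) (σ δ : ℝ)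
    (G : Equiv.Perm P) (x : X) : X :=
  if h : IsJ D b c σ δ x then Jt D b c σ (G.symm (b' h.choose.1 h.choose.2)) else x

/-- the points of `X` to which `Γ` will be applied -/
def Old (D : TwinF J κ n j X) (b : α → ℂ × ℝ × ℝ → P) : Set X :=
  {x | (∃ p, ¬ OnF κ p ∧ (p ∈ BoxF b ∨ p ∈ TubF κ) ∧ x = D.A p) ∨ ∃ (i : ι) (z : S4), fh z ≠ 0 ∧ x = D.Q i z}

open Classical in
/-- the new map `A'` -/
noncomputable def Ap (D : TwinF J κ n j X) (κ' : ι → ℝ × ℂ × ℝ → P) (b b' : α → ℂ × ℝ × ℝ → P) (c : Cmb ι α)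
    (σ δ : ℝ) (G : Equiv.Perm P) (p : P) : X :=
  if h : ∃ w : α × (ℂ × ℝ × ℝ), ‖w.2.1‖ < 4 ∧ |w.2.2.1| < 1 ∧ p = b' w.1 w.2 then
    Gm D b b' c σ δ G (D.A (b h.choose.1 h.choose.2))
  else if p ∈ TubF κ' then Gm D b b' c σ δ G (D.A (G.symm p))
  else Jt D b c σ (G.symm p)

end maps

end Pool.Agent.LKF
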