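import Pool.Agent.LKF.Def2
import Pool.Agent.COR.Ger
import Pool.Agent.RSG.GerM

/-!
# LKF/GerF: germs and diffeomorphisms, several tori   (difficulty 3)

Copy `COR.germ`, `COR.TwinP_diffeo`, `COR.ThickT_diffeo` (file COR/Ger.lean) with an index: `Q' i z = D.Q i z` if `r z < η`, `= D.A (κ' i (L i z, r z ex (M i z), T i z))` otherwise
(`exists_phase (n i) (j i)`), `r z = 2 ‖c1 z‖ ‖c2 z‖`.  New points: `OnF` instead of `OnT` (the points with `v ≠ 0`, `‖v‖ < 1` of the tube `i` are on no torus: `h'.disj` with `v' = 0`, then `thick.inj`);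
`Q_inj` for `i ≠ i'`: a point `Q' i z` is `D.Q i z` or in the tube `κ' i` (both tubes are disjoint by `h'.disj`; `D.Q i z = D.Q i' z'` is impossible by `D.Q_inj`; `D.Q i z = D.A (κ' i' ..)`: if `c1 z, c2 z ≠ 0`
then `D.Q i z` is `D.A` of a point of the tube `i` by `D.glue` and `κ = κ'` for `‖v‖ < η`, otherwise `D.disj`).
-/

open scoped Manifold ContDiff Topology
open Set Filter
open Complex (I)
open Pool.Agent.CSG (stp)
open Pool.Agent.RSG (E4 S3 S4 ex cj c1 c2 ht fh pS3)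
open Pool.Agent.RBM (ThickT OnT Box frc)
open Pool.Agent.RBH (Tube BoxS)
open Pool.Agent.PTH (SP ISP Act)
open Pool.Agent.COR (Equi EquiB BBox OutW PosAt half dv dt PerS)
open Pool.Agent.KNT (Dom BalC Tubes Str Str2 CD)
open Pool.Agent.KNH (rot Hat circ pb Emb Fam ThinOK thn bx)
open Pool.Agent.CLG (io pol)

namespace Pool.Agent.LKF

universe u

variable {E : Type*} [NormedAddCommGroup E] [NormedSpace ℝ E] {H : Type*} [TopologicalSpace H]
  {J : ModelWithCorners ℝ E H} {P : Type*} [TopologicalSpace P] [ChartedSpace H P]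

variable {ι : Type*} {κ κ' : ι → ℝ × ℂ × ℝ → P} {n j : ι → ℤ} {X : Type u} [TopologicalSpace X] [ChartedSpace E4 X]

/-- Only the germs of the thick tori matter. -/
theorem germF {η : ℝ} (hη : 0 < η) (h : LinkT J κ) (h' : LinkT J κ')
    (he : ∀ (i : ι) (l : ℝ) (v : ℂ) (t : ℝ), ‖v‖ < η → κ' i (l, v, t) = κ i (l, v, t)) (D : TwinF J κ n j X) :
    Nonempty (TwinF J κ' n j X) := by
  classical
  let r : S4 → ℝ := fun z => 2 * ‖c1 z‖ * ‖c2 z‖
  have hrc : Continuous r :=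
    (continuous_const.mul RSG.c1_smooth.continuous.norm).mul RSG.c2_smooth.continuous.norm
  have hr0 : ∀ z, 0 ≤ r z := fun z => by positivity
  -- the knots agree
  have hK : ∀ x, OnF κ' x ↔ OnF κ x := by
    intro x
    have h0 : ∀ i l t, κ' i (l, 0, t) = κ i (l, 0, t) := fun i l t => he i l 0 t (by simpa using hη)
    constructor
    · rintro ⟨i, l, t, hl⟩; exact ⟨i, l, t, by rw [hl, h0]⟩
    · rintro ⟨i, l, t, hl⟩; exact ⟨i, l, t, by rw [hl, h0]⟩
  have notK0 : ∀ i l v t, v ≠ 0 → ‖v‖ < 1 → ¬ OnF κ' (κ' i (l, v, t)) := by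
    rintro i l v t hv hv1 ⟨i', l', t', hl'⟩
    have hii := h'.disj i i' l v t l' 0 t' hv1 (by simp) hl'
    subst hii
    exact hv ((h'.thick i).inj l v t l' 0 t' hv1 (by simp) hl').1
  have notK : ∀ i l v t, v ≠ 0 → ‖v‖ < 1 → ¬ OnF κ (κ' i (l, v, t)) := fun i l v t hv hv1 hk =>
    notK0 i l v t hv hv1 ((hK _).2 hk)
  have notK' : ∀ i l v t, v ≠ 0 → ‖v‖ < 1 → ¬ OnF κ (κ i (l, v, t)) := by
    rintro i l v t hv hv1 ⟨i', l', t', hl'⟩
    have hii := h.disj i i' l v t l' 0 t' hv1 (by simp) hl'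
    subst hii
    exact hv ((h.thick i).inj l v t l' 0 t' hv1 (by simp) hl').1
  have hrpos : ∀ z, c1 z ≠ 0 → c2 z ≠ 0 → 0 < r z := by
    intro z h1 h2
    have := norm_pos_iff.2 h1
    have := norm_pos_iff.2 h2
    show 0 < 2 * ‖c1 z‖ * ‖c2 z‖
    positivity
  have hrNZ : ∀ z, 0 < r z → c1 z ≠ 0 ∧ c2 z ≠ 0 := by
    intro z hz
    constructor
    · intro h0
      have : r z = 0 := by show 2 * ‖c1 z‖ * ‖c2 z‖ = 0; rw [h0]; simp
      linarith
    · intro h0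
      have : r z = 0 := by show 2 * ‖c1 z‖ * ‖c2 z‖ = 0; rw [h0]; simp
      linarith
  have hvne : ∀ z, c1 z ≠ 0 → c2 z ≠ 0 → ∀ m, ((r z : ℝ) : ℂ) * ex m ≠ 0 := by
    intro z h1 h2 m
    exact mul_ne_zero (by exact_mod_cast (hrpos z h1 h2).ne') (RSG.ex_ne m)
  have hvn : ∀ z m, ‖((r z : ℝ) : ℂ) * ex m‖ = r z := by
    intro z m
    rw [norm_mul, RSG.ex_norm, mul_one, Complex.norm_real, Real.norm_of_nonneg (hr0 z)]
  choose L M T P1 P2 P3 using fun i => RSG.exists_phase (n i) (j i)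
  let Q' : ι → S4 → X := fun i z => if r z < η then D.Q i z
    else D.A (κ' i (L i z, ((r z : ℝ) : ℂ) * ex (M i z), T i z))
  have hQlt : ∀ i z, r z < η → Q' i z = D.Q i z := fun i z hz => if_pos hz
  have hQge : ∀ i z, ¬ r z < η → Q' i z = D.A (κ' i (L i z, ((r z : ℝ) : ℂ) * ex (M i z), T i z)) :=
    fun i z hz => if_neg hz
  have glueD : ∀ (i : ι) (z : S4) (l m t : ℝ), fh z ≠ 0 → c1 z ≠ 0 → c2 z ≠ 0 →
      c1 z = ‖c1 z‖ * ex (((1 : ℤ) : ℝ) * m + ((1 - j i : ℤ) : ℝ) * t) →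
      c2 z = ‖c2 z‖ * ex (((1 : ℤ) : ℝ) * m + ((-j i : ℤ) : ℝ) * t) →
      fh z = ‖fh z‖ * ex (l - n i * t) →
      D.Q i z = D.A (κ i (l, (2 * ‖c1 z‖ * ‖c2 z‖ : ℝ) * ex m, t)) := by
    intro i z l m t hf h1 h2 e1 e2 e3
    refine D.glue i z l m t hf h1 h2 ?_ ?_ e3
    · have : m + (1 - (j i : ℝ)) * t = ((1 : ℤ) : ℝ) * m + ((1 - j i : ℤ) : ℝ) * t := by
        push_cast; ring
      rw [this]; exact e1
    · have : m - (j i : ℝ) * t = ((1 : ℤ) : ℝ) * m + ((-j i : ℤ) : ℝ) * t := by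
        push_cast; ring
      rw [this]; exact e2
  -- (*)
  have star : ∀ (i : ι) (z : S4) (l m t : ℝ), fh z ≠ 0 → c1 z ≠ 0 → c2 z ≠ 0 →
      c1 z = ‖c1 z‖ * ex (((1 : ℤ) : ℝ) * m + ((1 - j i : ℤ) : ℝ) * t) →
      c2 z = ‖c2 z‖ * ex (((1 : ℤ) : ℝ) * m + ((-j i : ℤ) : ℝ) * t) →
      fh z = ‖fh z‖ * ex (l - n i * t) →
      Q' i z = D.A (κ' i (l, ((r z : ℝ) : ℂ) * ex m, t)) := by
    intro i z l m t hf h1 h2 e1 e2 e3
    by_cases hz : r z < η
    · rw [hQlt i z hz, glueD i z l m t hf h1 h2 e1 e2 e3]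
      have : κ' i (l, ((r z : ℝ) : ℂ) * ex m, t) = κ i (l, ((r z : ℝ) : ℂ) * ex m, t) :=
        he _ _ _ _ (by rw [hvn]; exact hz)
      rw [this]
    · rw [hQge i z hz]
      obtain ⟨hm, ⟨a, ha⟩, ⟨c, hc⟩⟩ := RSG.GerM_phases (n i) (j i) hf h1 h2 e1 e2 e3 (P1 i z) (P2 i z) (P3 i z)
      rw [hm, ha, hc]
      have k1 := fun y => RSG.GerM_per (f := fun x => κ' i (x, ((r z : ℝ) : ℂ) * ex m, y))
        (fun x => (h'.thick i).perl _ _ _) l c
      have k2 := fun x => RSG.GerM_per (f := fun s => κ' i (x, ((r z : ℝ) : ℂ) * ex m, s))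
        (fun s => (h'.thick i).pert _ _ _) t a
      rw [k1, k2]
  -- (**)
  have star2 : ∀ (i : ι) (l t : ℝ) (v : ℂ), v ≠ 0 → ‖v‖ < 1 → Q' i (RSG.Gc (n i) (j i) (l, v, t)) =
      D.A (κ' i (l, v, t)) := by
    intro i l t v hv hv1
    obtain ⟨hf, h1, h2, hr, e1, e2, e3⟩ := RSG.Gc_spec (n i) (j i) (l := l) (t := t) hv hv1
    set z := RSG.Gc (n i) (j i) (l, v, t) with hz
    have hvp : 0 < ‖v‖ := norm_pos_iff.2 hv
    obtain ⟨m, hm⟩ := RSG.ex_surj (u := v / ‖v‖) (by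
      rw [norm_div, Complex.norm_real, norm_norm, div_self hvp.ne'])
    have hv' : ((r z : ℝ) : ℂ) * ex m = v := by
      have : r z = ‖v‖ := hr
      rw [this, ← hm]
      have : ((‖v‖ : ℝ) : ℂ) ≠ 0 := by exact_mod_cast hvp.ne'
      field_simp
    rw [hm] at e1 e2
    have := star i z l m t hf h1 h2 (by
        rw [← RSG.ex_add] at e1
        rw [show ((1 : ℤ) : ℝ) * m + ((1 - j i : ℤ) : ℝ) * t = m + (1 - j i) * t by push_cast; ring]
        exact e1) (by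
        rw [← RSG.ex_add] at e2
        rw [show ((1 : ℤ) : ℝ) * m + ((-j i : ℤ) : ℝ) * t = m + -j i * t by push_cast; ring]
        exact e2) e3
    rw [this, hv']
  have hGeq : ∀ i z, fh z ≠ 0 → c1 z ≠ 0 → c2 z ≠ 0 →
      z = RSG.Gc (n i) (j i) (L i z, ((r z : ℝ) : ℂ) * ex (M i z), T i z) := fun i z hf h1 h2 =>
    RSG.Gc_eq (n i) (j i) hf h1 h2 (P1 i z) (P2 i z) (P3 i z)
  have hvlt : ∀ z, fh z ≠ 0 → ∀ m, ‖((r z : ℝ) : ℂ) * ex m‖ < 1 := fun z hf m =>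
    RSG.glue_norm hf m
  have hNZinj : ∀ i z i' z', fh z ≠ 0 → fh z' ≠ 0 → c1 z ≠ 0 → c2 z ≠ 0 → c1 z' ≠ 0 → c2 z' ≠ 0 →
      Q' i z = Q' i' z' → i = i' ∧ z = z' := by
    intro i z i' z' hf hf' h1 h2 h1' h2' hq
    rw [star i z _ _ _ hf h1 h2 (P1 i z) (P2 i z) (P3 i z),
      star i' z' _ _ _ hf' h1' h2' (P1 i' z') (P2 i' z') (P3 i' z')] at hq
    have hx := D.A_inj _ _
      (notK _ _ _ _ (hvne z h1 h2 _) (hvlt z hf _)) (notK _ _ _ _ (hvne z' h1' h2' _) (hvlt z' hf' _))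
      hq
    have hii := h'.disj _ _ _ _ _ _ _ _ (hvlt z hf _) (hvlt z' hf' _) hx
    subst hii
    obtain ⟨hv, ⟨c, hc⟩, ⟨a, ha⟩⟩ := (h'.thick i).inj _ _ _ _ _ _ (hvlt z hf _) (hvlt z' hf' _) hx
    refine ⟨rfl, ?_⟩
    rw [hGeq i z hf h1 h2, hGeq i z' hf' h1' h2', ha, hc, ← hv, RSG.Gc_per]
  have hNZQ : ∀ i z i' z', fh z ≠ 0 → fh z' ≠ 0 → (c1 z = 0 ∨ c2 z = 0) → c1 z' ≠ 0 → c2 z' ≠ 0 →
      Q' i z ≠ Q' i' z' := by
    intro i z i' z' hf hf' hz h1' h2' hq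
    have hr : r z < η := by
      by_contra hcon
      have := hrNZ z (lt_of_lt_of_le hη (not_lt.1 hcon))
      rcases hz with hz | hz
      · exact this.1 hz
      · exact this.2 hz
    rw [hQlt i z hr, star i' z' _ _ _ hf' h1' h2' (P1 i' z') (P2 i' z') (P3 i' z')] at hq
    exact D.disj i z _ hf hz (notK _ _ _ _ (hvne z' h1' h2' _) (hvlt z' hf' _)) hq
  refine ⟨{ A := D.A, Q := Q', A_loc := ?_, A_inj := ?_, Q_loc := ?_,
            Q_inj := ?_, glue := ?_, disj := ?_, cover := ?_ }⟩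
  · intro x hx
    exact D.A_loc x (fun hk => hx ((hK x).2 hk))
  · intro x x' hx hx' heq
    exact D.A_inj x x' (fun hk => hx ((hK x).2 hk)) (fun hk => hx' ((hK x').2 hk)) heq
  · intro i z hf
    by_cases hz : r z < η
    · refine Pool.Agent.CSG.ld_congr (D.Q_loc i z hf) ?_
      have : ∀ᶠ y in 𝓝 z, r y < η := hrc.continuousAt.eventually_lt continuousAt_const hz
      filter_upwards [this] with y hy using hQlt i y hy
    · have hrz : 0 < r z := lt_of_lt_of_le hη (not_lt.1 hz)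
      obtain ⟨h1, h2⟩ := hrNZ z hrz
      have hzG := hGeq i z hf h1 h2
      set v : ℂ := ((r z : ℝ) : ℂ) * ex (M i z) with hvdef
      have hv0 : v ≠ 0 := hvne z h1 h2 _
      have hv1 : ‖v‖ < 1 := hvlt z hf _
      have hG := RSG.Gc_ld (n i) (j i) (l := L i z) (t := T i z) hv0 hv1
      have hcomp : IsLocalDiffeomorphAt 𝓘(ℝ, ℝ × ℂ × ℝ) (𝓡 4) ∞ (Q' i ∘ RSG.Gc (n i) (j i))
          (L i z, v, T i z) := by
        have hq : IsLocalDiffeomorphAt 𝓘(ℝ, ℝ × ℂ × ℝ) (𝓡 4) ∞ (D.A ∘ κ' i) (L i z, v, T i z) :=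
          IsLocalDiffeomorphAt.comp (hf := (h'.thick i).loc (L i z) v (T i z) hv1)
            (hg := D.A_loc _ (notK _ _ _ _ hv0 hv1))
        refine Pool.Agent.CSG.ld_congr hq ?_
        have A1 : ∀ᶠ a : ℝ × ℂ × ℝ in 𝓝 (L i z, v, T i z), a.2.1 ≠ 0 :=
          (continuous_snd.fst).continuousAt.eventually_ne hv0
        have A2 : ∀ᶠ a : ℝ × ℂ × ℝ in 𝓝 (L i z, v, T i z), ‖a.2.1‖ < 1 :=
          (continuous_snd.fst.norm).continuousAt.eventually_lt continuousAt_const hv1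
        filter_upwards [A1, A2] with a ha1 ha2
        exact star2 i a.1 a.2.2 a.2.1 ha1 ha2
      have := Pool.Agent.CSG.ld_of_comp_left hcomp hG
      rw [← hzG] at this
      exact this
  · intro i z i' z' hf hf' hq
    by_cases hz : c1 z ≠ 0 ∧ c2 z ≠ 0
    · by_cases hz' : c1 z' ≠ 0 ∧ c2 z' ≠ 0
      · exact hNZinj i z i' z' hf hf' hz.1 hz.2 hz'.1 hz'.2 hq
      · exact absurd hq.symm (hNZQ i' z' i z hf' hf (by tauto) hz.1 hz.2)
    · by_cases hz' : c1 z' ≠ 0 ∧ c2 z' ≠ 0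
      · exact absurd hq (hNZQ i z i' z' hf hf' (by tauto) hz'.1 hz'.2)
      · have hr : r z < η := by
          by_contra hcon
          exact hz (hrNZ z (lt_of_lt_of_le hη (not_lt.1 hcon)))
        have hr' : r z' < η := by
          by_contra hcon
          exact hz' (hrNZ z' (lt_of_lt_of_le hη (not_lt.1 hcon)))
        rw [hQlt i z hr, hQlt i' z' hr'] at hq
        exact D.Q_inj i z i' z' hf hf' hq
  · intro i z l m t hf h1 h2 e1 e2 e3
    refine star i z l m t hf h1 h2 ?_ ?_ e3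
    · have : ((1 : ℤ) : ℝ) * m + ((1 - j i : ℤ) : ℝ) * t = m + (1 - (j i : ℝ)) * t := by
        push_cast; ring
      rw [this]; exact e1
    · have : ((1 : ℤ) : ℝ) * m + ((-j i : ℤ) : ℝ) * t = m - (j i : ℝ) * t := by
        push_cast; ring
      rw [this]; exact e2
  · intro i z x hf hz hx
    have hr : r z < η := by
      by_contra hcon
      have := hrNZ z (lt_of_lt_of_le hη (not_lt.1 hcon))
      rcases hz with hz | hz
      · exact this.1 hz
      · exact this.2 hz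
    show Q' i z ≠ _
    rw [hQlt i z hr]
    exact D.disj i z x hf hz (fun hk => hx ((hK x).2 hk))
  · intro q
    rcases D.cover q with ⟨x, hx, hq⟩ | ⟨i, z, hf, hq⟩
    · exact Or.inl ⟨x, fun hk => hx ((hK x).1 hk), hq⟩
    · by_cases hz : r z < η
      · exact Or.inr ⟨i, z, hf, by rw [hQlt i z hz]; exact hq⟩
      · obtain ⟨h1, h2⟩ := hrNZ z (lt_of_lt_of_le hη (not_lt.1 hz))
        left
        refine ⟨κ i (L i z, ((r z : ℝ) : ℂ) * ex (M i z), T i z), ?_, ?_⟩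
        · intro hk
          exact notK' _ _ _ _ (hvne z h1 h2 _) (hvlt z hf _) ((hK _).1 hk)
        · rw [hq]
          exact glueD i z _ _ _ hf h1 h2 (P1 i z) (P2 i z) (P3 i z)

theorem diffF (F : Equiv.Perm P) (hF : ∀ p, IsLocalDiffeomorphAt J J ∞ F p) (D : TwinF J κ n j X) :
    Nonempty (TwinF J (fun i q => F (κ i q)) n j X) := by
  have hF' : ∀ p, IsLocalDiffeomorphAt J J ∞ F.symm p := by
    intro p
    have h1 : IsLocalDiffeomorphAt J J ∞ (F.symm ∘ F) (F.symm p) := by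
      refine Pool.Agent.CSG.ld_congr (Pool.Agent.CSG.ld_id _) ?_
      exact Filter.Eventually.of_forall fun x => by simp
    have := Pool.Agent.CSG.ld_of_comp_left h1 (hF (F.symm p))
    rwa [Equiv.apply_symm_apply] at this
  have hT : ∀ p, OnF (fun i q => F (κ i q)) p ↔ OnF κ (F.symm p) := by
    intro p
    constructor
    · rintro ⟨i, l, t, h⟩
      exact ⟨i, l, t, by rw [h, Equiv.symm_apply_apply]⟩
    · rintro ⟨i, l, t, h⟩
      exact ⟨i, l, t, by show p = F (κ i (l, 0, t)); rw [← h, Equiv.apply_symm_apply]⟩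
  refine ⟨{ A := fun p => D.A (F.symm p), Q := D.Q, A_loc := ?_, A_inj := ?_, Q_loc := D.Q_loc,
            Q_inj := D.Q_inj, glue := ?_, disj := ?_, cover := ?_ }⟩
  · intro p hp
    rw [hT] at hp
    exact IsLocalDiffeomorphAt.comp (hf := hF' p) (hg := D.A_loc _ hp)
  · intro p p' hp hp' he
    rw [hT] at hp hp'
    exact F.symm.injective (D.A_inj _ _ hp hp' he)
  · intro i z l m t hf h1 h2 e1 e2 e3
    rw [Equiv.symm_apply_apply]
    exact D.glue i z l m t hf h1 h2 e1 e2 e3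
  · intro i z p hf hz hp
    rw [hT] at hp
    exact D.disj i z _ hf hz hp
  · intro q
    rcases D.cover q with ⟨p, h1, h2⟩ | h
    · refine Or.inl ⟨F p, ?_, ?_⟩
      · rw [hT, Equiv.symm_apply_apply]; exact h1
      · rw [Equiv.symm_apply_apply]; exact h2
    · exact Or.inr h

theorem link_diff (F : Equiv.Perm P) (hF : ∀ p, IsLocalDiffeomorphAt J J ∞ F p) (h : LinkT J κ) :
    LinkT J (fun i q => F (κ i q)) where
  thick := fun i => COR.ThickT_diffeo F hF (h.thick i)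
  disj := fun i i' l v t l' v' t' hv hv' he => h.disj i i' l v t l' v' t' hv hv' (F.injective he)

end Pool.Agent.LKF
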