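import Pool.Agent.LKF.Def2
import Pool.Agent.LKF.GerF

/-!
# LKF/Dif: diffeomorphisms of `S3` act on the links which carry `Q`
-/

open scoped Manifold ContDiff Topology
open Set Filter
open Complex (I)
open Pool.Agent.CSG (stp)
open Pool.Agent.RSG (E4 S3 S4 ex cj c1 c2 ht fh pS3)
open Pool.Agent.RBM (ThickT OnT Box frc)
open Pool.Agent.PTH (SP ISP Act)
open Pool.Agent.COR (Equi EquiB)
open Pool.Agent.KNH (rot Hat circ pb)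
open Pool.Agent.CLG (io pol)

namespace Pool.Agent.LKF

universe u

/-- `Φ × id` -/
noncomputable def Dif_F (Φ : S3 ≃ₘ^∞⟮𝓡 3, 𝓡 3⟯ S3) : Equiv.Perm SP where
  toFun p := (Φ p.1, p.2)
  invFun p := (Φ.symm p.1, p.2)
  left_inv p := by simp
  right_inv p := by simp

/-- `Φ × id` is a diffeomorphism -/
noncomputable def Dif_D (Φ : S3 ≃ₘ^∞⟮𝓡 3, 𝓡 3⟯ S3) : SP ≃ₘ^∞⟮ISP, ISP⟯ SP where
  toEquiv := Dif_F Φ
  contMDiff_toFun := (Φ.contMDiff.comp contMDiff_fst).prodMk contMDiff_snd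
  contMDiff_invFun := (Φ.symm.contMDiff.comp contMDiff_fst).prodMk contMDiff_snd

theorem Dif_ld (Φ : S3 ≃ₘ^∞⟮𝓡 3, 𝓡 3⟯ S3) (p : SP) : IsLocalDiffeomorphAt ISP ISP ∞ (Dif_F Φ) p :=
  (Dif_D Φ).isLocalDiffeomorph p

theorem LS_diffeo {ι : Type*} {Q : (ι → ℝ × ℂ × ℝ → SP) → Prop} (hQ : MonoF.{u} ISP Q) {S : ι → Set S3}
    (h : LS Q S) (Φ : S3 ≃ₘ^∞⟮𝓡 3, 𝓡 3⟯ S3) : LS Q (fun i => Φ '' S i) := by
  obtain ⟨c, κ, hκ, he, hc, hr, hq⟩ := h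
  refine ⟨fun i l => Φ (c i l), fun i q => Dif_F Φ (κ i q), link_diff (Dif_F Φ) (Dif_ld Φ) hκ, ?_, ?_, ?_, ?_⟩
  · intro i l v t
    show Dif_F Φ (κ i (l, v, t)) = rot t (Dif_F Φ (κ i (l, v, 0)))
    rw [he i l v t]
    rfl
  · intro i l
    show Dif_F Φ (κ i (l, 0, 0)) = (Φ (c i l), 1)
    rw [hc i l]
    rfl
  · intro i
    show range (fun l => Φ (c i l)) = Φ '' S i
    rw [← hr i, ← range_comp]
    rfl
  · exact hQ κ _ hκ (link_diff (Dif_F Φ) (Dif_ld Φ) hκ) ⟨id, Function.surjective_id, fun X _ _ _ n j ⟨D⟩ =>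
      diffF (Dif_F Φ) (Dif_ld Φ) D⟩ hq

end Pool.Agent.LKF
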