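import Pool.Agent.LKF.GerF
import Pool.Agent.KNH.ThnQ
import Pool.Agent.KNH.DifQ
import Pool.Agent.KNH.ExtM

/-!
# LKF/DifF: links in `S3`: diffeomorphisms   (difficulty 3)

* `LS_disj`: the cores are in disjoint tubes (`LinkT.disj` with `v = 0`).  `LS_compact`: `S m = range (c m)`, `c m` continuous (`KNH.StrM_csmooth`) and periodic.
* `LS_conn`: a preconnected set contained in a finite disjoint union of closed sets is in one of them (`IsPreconnected.subset_left_of_subset_union`-like, or `IsPreconnected.subset_or_subset_of_closed`; or: the sets `S m` (`m ≠ i₀`) and induction;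
  or use a locally constant function on `C`).
* `LS_CD`: `CLG.LC_move` as in KNH/DifQ.lean gives `Φ : S3 ≃ₘ S3`, `Γ (x, z) = (Φ x, z)`; `diffF`, `link_diff`; `Q` by `hQ` (`MonoF`, `φ = id`).
* `LS_chart`: `KNH.exists_CD hβ hΨ` gives `F`; `F` maps `β '' L m` to `β '' (Ψ '' L m)`; `Φ` is the identity on `Y m`: a point of `Y m` is `pol` or `io x` with `x ∉ range β` (`hY`), `F x = x`.  Backwards: `F.symm` (`KNH.CD_symm`).
* `LS_thin`: `LS_chart` with `Ψ` of `KNH.ThnM_move` (`Ψ q = thn w₀ q` on `Ss ⊇ Ln i k m`).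
-/

open scoped Manifold ContDiff Topology
open Set Filter
open Complex (I)
open Pool.Agent.CSG (stp)
open Pool.Agent.RSG (E4 S3 S4 ex cj c1 c2 ht fh pS3)
open Pool.Agent.RBM (ThickT OnT Box frc)
open Pool.Agent.RBH (Tube BoxS)
open Pool.Agent.PTH (SP ISP Act)
open Pool.Agent.COR (Equi EquiB BBox OutW PosAt half dv dt PerS)
open Pool.Agent.KNT (Dom BalC Tubes Str Str2 CD)
open Pool.Agent.KNH (rot Hat circ pb Emb Fam ThinOK thn bx)
open Pool.Agent.CLG (io pol)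

namespace Pool.Agent.LKF

universe u

theorem DifF_cont {κ : ℝ × ℂ × ℝ → SP} (hκ : ThickT ISP κ) {c : ℝ → S3}
    (hc : ∀ l, κ (l, 0, 0) = (c l, 1)) : Continuous c := by
  rw [continuous_iff_continuousAt]
  intro l
  have h1 : ContinuousAt κ (l, 0, 0) := (hκ.loc l 0 0 (by simp)).contMDiffAt.continuousAt
  have h2 : ContinuousAt (fun l : ℝ => ((l, 0, 0) : ℝ × ℂ × ℝ)) l := by fun_prop
  have h3 : ContinuousAt (fun l : ℝ => κ (l, 0, 0)) l :=
    ContinuousAt.comp (f := fun l : ℝ => ((l, 0, 0) : ℝ × ℂ × ℝ)) h1 h2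
  have h4 : ContinuousAt (fun l : ℝ => (κ (l, 0, 0)).1) l := continuousAt_fst.comp h3
  have h5 : (fun l : ℝ => (κ (l, 0, 0)).1) = c := by
    funext l
    rw [hc]
  rw [h5] at h4
  exact h4

theorem DifF_move {F : Equiv.Perm (ℂ × ℝ)} (hF : CD univ F) : ISO.Move ⊥ univ F := by
  refine ⟨hF.smooth, hF.smooth_symm, ?_, ?_⟩
  · intro m hm x
    rw [AddSubgroup.mem_bot] at hm
    subst hm
    simp
  · obtain ⟨C, hC, hCO, hs⟩ := hF.supp
    refine ⟨C, hC, hCO, fun x hx => hs x ?_⟩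
    have := hx 0 (AddSubgroup.zero_mem _)
    simpa using this

theorem DifF_image {Φ : Equiv.Perm S3} {F : Equiv.Perm (ℂ × ℝ)} (hio : ∀ q, Φ (io q) = io (F q)) (hp : Φ pol = pol)
    {Y : Set S3} (hY : ∀ q, io q ∈ Y → F q = q) (A : Set (ℂ × ℝ)) :
    Φ '' (Y ∪ io '' A) = Y ∪ io '' (F '' A) := by
  rw [image_union]
  congr 1
  · have : EqOn Φ id Y := by
      intro y hy
      by_cases h : y = pol
      · rw [h]; exact hp
      · obtain ⟨q, rfl⟩ : ∃ q, io q = y := ⟨_, CLG.io_oi h⟩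
        rw [hio, hY q hy]
        rfl
    rw [this.image_eq, image_id]
  · rw [image_image, image_image]
    exact image_congr fun q _ => hio q

section
variable {ι : Type*} {Q : (ι → ℝ × ℂ × ℝ → SP) → Prop} {S : ι → Set S3}

theorem LS_disj (h : LS Q S) {m m' : ι} (hm : m ≠ m') : Disjoint (S m) (S m') := by
  obtain ⟨c, κ, hL, -, hc, hr, -⟩ := h
  rw [disjoint_left]
  rintro x hx hx'
  rw [← hr m] at hx
  rw [← hr m'] at hx'
  obtain ⟨l, hl⟩ := hx
  obtain ⟨l', hl'⟩ := hx'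
  exact hm (hL.disj m m' l 0 0 l' 0 0 (by simp) (by simp) (by rw [hc, hc, hl, hl']))

theorem LS_compact (h : LS Q S) (m : ι) : IsCompact (S m) := by
  obtain ⟨c, κ, hL, -, hc, hr, -⟩ := h
  rw [← hr m]
  have hp : Function.Periodic (c m) 1 := by
    intro l
    have h1 := (hL.thick m).perl l 0 0
    rw [hc, hc] at h1
    exact congrArg Prod.fst h1
  exact hp.compact_of_continuous one_ne_zero (DifF_cont (hL.thick m) (hc m))

theorem LS_conn [Finite ι] (h : LS Q S) {C : Set S3} (hC : IsPreconnected C) (hn : C.Nonempty) {T : Set ι}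
    (hs : C ⊆ ⋃ m ∈ T, S m) : ∃ m ∈ T, C ⊆ S m := by
  obtain ⟨x, hx⟩ := hn
  obtain ⟨m, hm, hxm⟩ := mem_iUnion₂.1 (hs hx)
  refine ⟨m, hm, ?_⟩
  have h1 := isPreconnected_iff_subset_of_disjoint_closed.1 hC (S m) (⋃ m' ∈ {m' | m' ≠ m}, S m')
    (LS_compact h m).isClosed
    ((Set.toFinite {m' : ι | m' ≠ m}).isClosed_biUnion fun m' _ => (LS_compact h m').isClosed)
    (by
      intro y hy
      obtain ⟨m', hm', hy'⟩ := mem_iUnion₂.1 (hs hy)
      by_cases h2 : m' = m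
      · left
        rw [← h2]
        exact hy'
      · right
        exact mem_iUnion₂.2 ⟨m', h2, hy'⟩)
    (by
      have h2 : S m ∩ (⋃ m' ∈ {m' | m' ≠ m}, S m') = ∅ := by
        rw [← disjoint_iff_inter_eq_empty, disjoint_iUnion₂_right]
        intro m' hm'
        exact LS_disj h (Ne.symm hm')
      rw [h2, inter_empty])
  rcases h1 with h1 | h1
  · exact h1
  · exfalso
    obtain ⟨m', hm', hy'⟩ := mem_iUnion₂.1 (h1 hx)
    exact disjoint_left.1 (LS_disj h (m := m) (m' := m') (Ne.symm hm')) hxm hy'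

theorem LS_CD (hQ : MonoF.{u} ISP Q) {F : Equiv.Perm (ℂ × ℝ)} (hF : CD univ F) :
    ∃ Φ : Equiv.Perm S3, (∀ q, Φ (io q) = io (F q)) ∧ Φ pol = pol ∧ ∀ S : ι → Set S3, LS Q S → LS Q (fun m => Φ '' S m) := by
  obtain ⟨Φ, hp, hio, -⟩ := CLG.LC_move (DifF_move hF)
  refine ⟨Φ.toEquiv, hio, hp, ?_⟩
  rintro S ⟨c, κ, hL, he, hc, hr, hq⟩
  let Γ : SP ≃ₘ⟮ISP, ISP⟯ SP := Diffeomorph.prodCongr Φ (Diffeomorph.refl (𝓡 1) Circle ∞)
  have hΓ : ∀ p, IsLocalDiffeomorphAt ISP ISP ∞ Γ.toEquiv p := fun p => Γ.isLocalDiffeomorph p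
  have hL' := link_diff Γ.toEquiv hΓ hL
  refine ⟨fun i l => Φ (c i l), fun i q => Γ.toEquiv (κ i q), hL', ?_, ?_, ?_, ?_⟩
  · intro i l v t
    show Γ.toEquiv (κ i (l, v, t)) = rot t (Γ.toEquiv (κ i (l, v, 0)))
    rw [he i l v t]
    rfl
  · intro i l
    show Γ.toEquiv (κ i (l, 0, 0)) = (Φ (c i l), 1)
    rw [hc]
    rfl
  · intro i
    have h2 : range (fun l => Φ (c i l)) = Φ '' range (c i) := by
      rw [← range_comp]; rfl
    rw [h2, hr]
    rfl
  · exact hQ κ _ hL hL' ⟨id, Function.surjective_id, fun X _ _ _ n j ⟨D⟩ => diffF Γ.toEquiv hΓ D⟩ hq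

theorem LS_chart (hQ : MonoF.{u} ISP Q) {β : ℂ × ℝ → ℂ × ℝ} (hβ : Emb β) {Ψ : Equiv.Perm (ℂ × ℝ)}
    (hΨ : ISO.Move ⊥ univ Ψ) {Y : ι → Set S3} (hY : ∀ m q, io (β q) ∉ Y m) (L : ι → Set (ℂ × ℝ)) :
    LS Q (fun m => Y m ∪ io '' (β '' L m)) ↔ LS Q (fun m => Y m ∪ io '' (β '' (Ψ '' L m))) := by
  obtain ⟨F, hF, hFβ, hFx⟩ := KNH.exists_CD hβ hΨ
  have hid : ∀ m q, io q ∈ Y m → F q = q := by
    intro m q hq
    apply hFx
    rintro ⟨x, rfl⟩
    exact hY m x hq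
  have hid' : ∀ m q, io q ∈ Y m → F.symm q = q := by
    intro m q hq
    rw [Equiv.symm_apply_eq]
    exact (hid m q hq).symm
  have e1 : ∀ L : Set (ℂ × ℝ), F '' (β '' L) = β '' (Ψ '' L) := by
    intro L
    rw [image_image, image_image]
    exact image_congr fun q _ => hFβ q
  have e2 : ∀ L : Set (ℂ × ℝ), F.symm '' (β '' (Ψ '' L)) = β '' L := by
    intro L
    rw [← e1, ← image_comp]
    have : (F.symm ∘ F : ℂ × ℝ → ℂ × ℝ) = id := by
      funext x
      simp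
    rw [this, image_id]
  constructor
  · intro h
    obtain ⟨Φ, hio, hp, hΦ⟩ := LS_CD hQ hF
    have h1 := hΦ _ h
    have e : (fun m => Φ '' (Y m ∪ io '' (β '' L m))) = fun m => Y m ∪ io '' (β '' (Ψ '' L m)) := by
      funext m
      rw [DifF_image hio hp (hid m), e1]
    rw [e] at h1
    exact h1
  · intro h
    obtain ⟨Φ, hio, hp, hΦ⟩ := LS_CD hQ (KNH.CD_symm hF)
    have h1 := hΦ _ h
    have e : (fun m => Φ '' (Y m ∪ io '' (β '' (Ψ '' L m)))) = fun m => Y m ∪ io '' (β '' L m) := by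
      funext m
      rw [DifF_image hio hp (hid' m), e2]
    rw [e] at h1
    exact h1

theorem LS_thin (hQ : MonoF.{u} ISP Q) {β : ℂ × ℝ → ℂ × ℝ} (hβ : Emb β) {Y : ι → Set S3} (hY : ∀ m q, io (β q) ∉ Y m)
    (i k : ι) {w₀ : ℝ} (h0 : 0 < w₀) (h1 : w₀ ≤ 1) :
    LS Q (fun m => Y m ∪ io '' (β '' Ln i k m)) ↔
      LS Q (fun m => Y m ∪ io '' ((fun q => β (thn w₀ q)) '' Ln i k m)) := by
  obtain ⟨Ψ, hΨ, hΨS⟩ := KNH.ThnM_move h0 h1
  have h2 := LS_chart (Q := Q) hQ hβ hΨ hY (Ln i k)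
  have e : ∀ m, io '' (β '' (Ψ '' Ln i k m)) = io '' ((fun q => β (thn w₀ q)) '' Ln i k m) := by
    intro m
    congr 1
    rw [image_image]
    apply image_congr
    intro q hq
    have hq' : q ∈ KNH.Ss := by
      rcases hq with hq | hq
      · exact Or.inl hq.1
      · exact Or.inr hq.1
    rw [hΨS q hq']
  simp only [e] at h2
  exact h2

theorem LQ_diff (hQ : MonoF.{u} ISP Q) {A B : Set (ℂ × ℝ)} {F : Equiv.Perm (ℂ × ℝ)} (hF : CD univ F)
    (h : LQ Q A B) : LQ Q (F '' A) (F '' B) := by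
  obtain ⟨i₀, S, h1, h2, h3⟩ := h
  obtain ⟨Φ, hio, hp, hΦ⟩ := LS_CD hQ hF
  refine ⟨i₀, fun m => Φ '' S m, ?_, ?_, hΦ S h3⟩
  · show Φ '' S i₀ = Hat (F '' A)
    rw [h1]
    unfold Hat
    rw [image_insert_eq, hp, image_image, image_image]
    congr 1
    exact image_congr fun q _ => hio q
  · rw [← image_iUnion₂, h2, image_image, image_image]
    exact image_congr fun q _ => hio q
end

end Pool.Agent.LKF
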