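import Pool.Agent.LKF.DcbF
import Pool.Agent.RBM.Dok

/-!
# LKF/DokF: the size of the thick discs   (difficulty 3)

Family version of `RBM.exists_disc` (RBM/Dok.lean) and `RBH.exists_disc2` (RBH/DkM.lean).  For every `a` there is `δ_a > 0` with all the properties for the box `a` (same compactness arguments, `RBM.Dok_tube`).  For `a ≠ a'`
the compact sets `DC a '' (closedBall 10 × {0})` and `DC a' '' (..)` are disjoint (`DC_inj0F`), so they have disjoint open neighbourhoods (`X` is `T2`: `SeparatedNhds.of_isCompact_isCompact`), and there is `δ_{a, a'} > 0` such that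
`DC a`, `DC a'` map `{‖p‖ ≤ 10, ‖ν‖ < δ_{a, a'}}` into them (continuity at the points `(p, 0)`: `DC_locF`, `Dok_tube` for the preimages: use `mem_nhdsSet_iff_forall`).  `α` is finite: take the minimum (a positive lower bound of finitely
many positive numbers, `Finite.exists_min` or `Set.Finite`, and `1/8`), `σ` half of it.
-/

open scoped Manifold ContDiff Topology
open Set Filter
open Complex (I)
open Pool.Agent.RSG (E4 S4 ex cj c1 c2 ht fh Vx XW BBi)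
open Pool.Agent.RBM (ThickT OnT Box frc lamJ muJ DomJ BBs gD)
open Pool.Agent.RBH (Tube BoxS)

namespace Pool.Agent.LKF

variable {E : Type*} [NormedAddCommGroup E] [NormedSpace ℝ E] {H : Type*} [TopologicalSpace H]
  {J : ModelWithCorners ℝ E H}
  {P : Type*} [TopologicalSpace P] [ChartedSpace H P] {ι α : Type*} {κ κ' : ι → ℝ × ℂ × ℝ → P}
  {b b' : α → ℂ × ℝ × ℝ → P} {c : Cmb ι α} {σ δ : ℝ} {G : Equiv.Perm P}
  {X : Type*} [TopologicalSpace X] [ChartedSpace E4 X] {n j : ι → ℤ}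

theorem DokF_ev {δ₁ : ℝ} (h : 0 < δ₁) {Q : ℝ → Prop} (hQ : ∀ δ, 0 < δ → δ ≤ δ₁ → Q δ) :
    ∀ᶠ δ in 𝓝[>] (0 : ℝ), Q δ := by
  filter_upwards [Ioc_mem_nhdsGT h] with δ hδ
  exact hQ δ hδ.1 hδ.2

/-- the properties of one box -/
theorem DokF_one [T2Space X] (D : TwinF J κ n j X) (h : BunF J κ b c) (a : α) :
    ∃ δ > 0, (∀ p ν : ℂ, ‖p‖ ≤ 10 → ‖ν‖ < δ → IsLocalDiffeomorphAt 𝓘(ℝ, ℂ × ℂ) (𝓡 4) ∞ (DC D b c a) (p, ν)) ∧
      (∀ p ν p' ν' : ℂ, ‖p‖ ≤ 10 → ‖ν‖ < δ → ‖p'‖ ≤ 10 → ‖ν'‖ < δ →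
        DC D b c a (p, ν) = DC D b c a (p', ν') → (p, ν) = (p', ν')) ∧
      ∀ p ν : ℂ, ‖p‖ ≤ 9 → ‖ν‖ < δ → DC D b c a (p, ν) ∈ Inn2 D b a := by
  have hloc : {q : ℂ × ℂ | IsLocalDiffeomorphAt 𝓘(ℝ, ℂ × ℂ) (𝓡 4) ∞ (DC D b c a) q} ∈
      𝓝ˢ (Metric.closedBall (0 : ℂ) 10 ×ˢ {(0 : ℂ)}) := by
    rw [mem_nhdsSet_iff_forall]
    rintro ⟨p, ν⟩ ⟨hp, hν⟩
    obtain rfl : ν = 0 := hν
    have hp' : ‖p‖ ≤ 10 := by simpa using hp
    exact Pool.Agent.CSG.ld_eventually (DC_locF D h a (by linarith))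
  have hinj : ∃ t ∈ 𝓝ˢ (Metric.closedBall (0 : ℂ) 10 ×ˢ {(0 : ℂ)}), InjOn (DC D b c a) t := by
    refine Set.InjOn.exists_mem_nhdsSet ?_ ?_ ?_ ?_
    · rintro ⟨p, ν⟩ ⟨hp, hν⟩ ⟨p', ν'⟩ ⟨hp', hν'⟩ he
      obtain rfl : ν = 0 := hν
      obtain rfl : ν' = 0 := hν'
      have h1 : ‖p‖ ≤ 10 := by simpa using hp
      have h2 : ‖p'‖ ≤ 10 := by simpa using hp'
      rw [(DC_inj0F D h (by linarith) (by linarith) he).2]
    · exact (isCompact_closedBall (0 : ℂ) 10).prod isCompact_singleton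
    · rintro ⟨p, ν⟩ ⟨hp, hν⟩
      obtain rfl : ν = 0 := hν
      have h1 : ‖p‖ ≤ 10 := by simpa using hp
      exact Pool.Agent.CSG.ld_continuousAt (DC_locF D h a (by linarith))
    · rintro ⟨p, ν⟩ ⟨hp, hν⟩
      obtain rfl : ν = 0 := hν
      have h1 : ‖p‖ ≤ 10 := by simpa using hp
      exact Pool.Agent.CSG.ld_injOn (DC_locF D h a (by linarith))
  obtain ⟨u, hu, hui⟩ := hinj
  have hinn : {q : ℂ × ℂ | DC D b c a q ∈ Inn2 D b a} ∈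
      𝓝ˢ (Metric.closedBall (0 : ℂ) 9 ×ˢ {(0 : ℂ)}) := by
    rw [mem_nhdsSet_iff_forall]
    rintro ⟨p, ν⟩ ⟨hp, hν⟩
    obtain rfl : ν = 0 := hν
    exact DC_innF D h a (by simpa using hp)
  obtain ⟨δ₁, hδ₁, h₁⟩ := Pool.Agent.RBM.Dok_tube hloc
  obtain ⟨δ₂, hδ₂, h₂⟩ := Pool.Agent.RBM.Dok_tube hu
  obtain ⟨δ₃, hδ₃, h₃⟩ := Pool.Agent.RBM.Dok_tube hinn
  refine ⟨min δ₁ (min δ₂ δ₃), lt_min hδ₁ (lt_min hδ₂ hδ₃), ?_, ?_, ?_⟩
  · intro p ν hp hν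
    exact h₁ p ν hp (hν.trans_le (min_le_left _ _))
  · intro p ν p' ν' hp hν hp' hν' he
    exact hui (h₂ p ν hp (hν.trans_le ((min_le_right _ _).trans (min_le_left _ _))))
      (h₂ p' ν' hp' (hν'.trans_le ((min_le_right _ _).trans (min_le_left _ _)))) he
  · intro p ν hp hν
    exact h₃ p ν hp (hν.trans_le ((min_le_right _ _).trans (min_le_right _ _)))

/-- two boxes -/
theorem DokF_two [T2Space X] (D : TwinF J κ n j X) (h : BunF J κ b c) {a a' : α} (haa : a ≠ a') :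
    ∃ δ > 0, ∀ p ν p' ν' : ℂ, ‖p‖ ≤ 10 → ‖ν‖ < δ → ‖p'‖ ≤ 10 → ‖ν'‖ < δ →
        DC D b c a (p, ν) ≠ DC D b c a' (p', ν') := by
  have hK : ∀ a : α, IsCompact (DC D b c a '' (Metric.closedBall (0 : ℂ) 10 ×ˢ {(0 : ℂ)})) := by
    intro a
    refine ((isCompact_closedBall (0 : ℂ) 10).prod isCompact_singleton).image_of_continuousOn ?_
    rintro ⟨p, ν⟩ ⟨hp, hν⟩
    obtain rfl : ν = 0 := hν
    have h1 : ‖p‖ ≤ 10 := by simpa using hp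
    exact (Pool.Agent.CSG.ld_continuousAt (DC_locF D h a (by linarith))).continuousWithinAt
  have hd : Disjoint (DC D b c a '' (Metric.closedBall (0 : ℂ) 10 ×ˢ {(0 : ℂ)}))
      (DC D b c a' '' (Metric.closedBall (0 : ℂ) 10 ×ˢ {(0 : ℂ)})) := by
    rw [Set.disjoint_left]
    rintro x ⟨⟨p, ν⟩, ⟨hp, hν⟩, rfl⟩ ⟨⟨p', ν'⟩, ⟨hp', hν'⟩, he⟩
    obtain rfl : ν = 0 := hν
    obtain rfl : ν' = 0 := hν'
    have h1 : ‖p‖ ≤ 10 := by simpa using hp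
    have h2 : ‖p'‖ ≤ 10 := by simpa using hp'
    exact haa (DC_inj0F D h (by linarith) (by linarith) he.symm).1
  obtain ⟨U, V, hU, hV, hKU, hKV, hUV⟩ := SeparatedNhds.of_isCompact_isCompact (hK a) (hK a') hd
  have key : ∀ (a : α) (U : Set X), IsOpen U → DC D b c a '' (Metric.closedBall (0 : ℂ) 10 ×ˢ {(0 : ℂ)}) ⊆ U →
      DC D b c a ⁻¹' U ∈ 𝓝ˢ (Metric.closedBall (0 : ℂ) 10 ×ˢ {(0 : ℂ)}) := by
    intro a U hU hKU
    rw [mem_nhdsSet_iff_forall]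
    rintro ⟨p, ν⟩ ⟨hp, hν⟩
    obtain rfl : ν = 0 := hν
    have h1 : ‖p‖ ≤ 10 := by simpa using hp
    exact (Pool.Agent.CSG.ld_continuousAt (DC_locF D h a (by linarith))).preimage_mem_nhds
      (hU.mem_nhds (hKU ⟨(p, 0), ⟨hp, rfl⟩, rfl⟩))
  obtain ⟨δ₁, hδ₁, h₁⟩ := Pool.Agent.RBM.Dok_tube (key a U hU hKU)
  obtain ⟨δ₂, hδ₂, h₂⟩ := Pool.Agent.RBM.Dok_tube (key a' V hV hKV)
  refine ⟨min δ₁ δ₂, lt_min hδ₁ hδ₂, ?_⟩
  intro p ν p' ν' hp hν hp' hν' he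
  have k1 : DC D b c a (p, ν) ∈ U := h₁ p ν hp (hν.trans_le (min_le_left _ _))
  have k2 : DC D b c a' (p', ν') ∈ V := h₂ p' ν' hp' (hν'.trans_le (min_le_right _ _))
  rw [he] at k1
  exact Set.disjoint_left.1 hUV k1 k2

theorem exists_discF [T2Space X] [Finite α] (D : TwinF J κ n j X) (h : BunF J κ b c) :
    ∃ σ : ℝ, DiscOK D b c σ := by
  have e1 : ∀ a : α, ∀ᶠ δ in 𝓝[>] (0 : ℝ),
      (∀ p ν : ℂ, ‖p‖ ≤ 10 → ‖ν‖ < δ → IsLocalDiffeomorphAt 𝓘(ℝ, ℂ × ℂ) (𝓡 4) ∞ (DC D b c a) (p, ν)) ∧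
      (∀ p ν p' ν' : ℂ, ‖p‖ ≤ 10 → ‖ν‖ < δ → ‖p'‖ ≤ 10 → ‖ν'‖ < δ →
        DC D b c a (p, ν) = DC D b c a (p', ν') → (p, ν) = (p', ν')) ∧
      ∀ p ν : ℂ, ‖p‖ ≤ 9 → ‖ν‖ < δ → DC D b c a (p, ν) ∈ Inn2 D b a := by
    intro a
    obtain ⟨δ₁, hδ₁, h1, h2, h3⟩ := DokF_one D h a
    refine DokF_ev hδ₁ ?_
    intro δ h0 hle
    exact ⟨fun p ν hp hν => h1 p ν hp (hν.trans_le hle),
      fun p ν p' ν' hp hν hp' hν' he => h2 p ν p' ν' hp (hν.trans_le hle) hp' (hν'.trans_le hle) he,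
      fun p ν hp hν => h3 p ν hp (hν.trans_le hle)⟩
  have e2 : ∀ a a' : α, ∀ᶠ δ in 𝓝[>] (0 : ℝ), a ≠ a' → ∀ p ν p' ν' : ℂ, ‖p‖ ≤ 10 → ‖ν‖ < δ → ‖p'‖ ≤ 10 →
      ‖ν'‖ < δ → DC D b c a (p, ν) ≠ DC D b c a' (p', ν') := by
    intro a a'
    by_cases haa : a = a'
    · exact Filter.Eventually.of_forall fun δ hne => absurd haa hne
    · obtain ⟨δ₁, hδ₁, h1⟩ := DokF_two D h haa
      refine DokF_ev hδ₁ ?_
      intro δ h0 hle _ p ν p' ν' hp hν hp' hν'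
      exact h1 p ν p' ν' hp (hν.trans_le hle) hp' (hν'.trans_le hle)
  have e3 := Filter.eventually_all.2 e1
  have e4 := Filter.eventually_all.2 fun a => Filter.eventually_all.2 (e2 a)
  have e5 : ∀ᶠ δ in 𝓝[>] (0 : ℝ), 0 < δ ∧ δ ≤ 1 / 4 :=
    DokF_ev (show (0 : ℝ) < 1 / 4 by norm_num) fun δ h0 h1 => ⟨h0, h1⟩
  obtain ⟨δ, ⟨h1, h2⟩, h0, h4⟩ := ((e3.and e4).and e5).exists
  have hn : ∀ s t : ℝ, |s| < δ / 2 → |t| < δ / 2 → ‖(⟨s, t⟩ : ℂ)‖ < δ := by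
    intro s t h1 h2
    have := Complex.norm_le_abs_re_add_abs_im (⟨s, t⟩ : ℂ)
    simp only at this
    linarith
  have h4n : ∀ z : ℂ, ‖4 * z‖ = 4 * ‖z‖ := by
    intro z
    rw [norm_mul]
    simp
  refine ⟨δ / 2, by linarith, by linarith, ?_, ?_, ?_, ?_⟩
  · intro a z s t hz
    unfold hD
    rw [DC_farF D b c a (by rw [h4n]; linarith)]
    have e : (4 * z / 4 : ℂ) = z := by ring
    simp only [e]
  · intro a z s t hz hs ht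
    have k1 := (h1 a).1 (4 * z) ⟨s, t⟩ (by rw [h4n]; linarith) (hn s t hs ht)
    have k2 : IsLocalDiffeomorphAt 𝓘(ℝ, ℂ × ℂ) (𝓡 4) ∞ (DC D b c a) (Pool.Agent.RBM.Dok_e (z, s, t)) := k1
    exact IsLocalDiffeomorphAt.comp (hf := Pool.Agent.RBM.Dok_ld (z, s, t)) (hg := k2) ..
  · intro a z s t a' z' s' t' hz hs ht hz' hs' ht' he
    by_cases haa : a = a'
    · subst haa
      refine ⟨rfl, ?_⟩
      have k3 : Pool.Agent.RBM.Dok_e (z, s, t) = Pool.Agent.RBM.Dok_e (z', s', t') :=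
        (h1 a).2.1 (4 * z) ⟨s, t⟩ (4 * z') ⟨s', t'⟩ (by rw [h4n]; linarith) (hn s t hs ht)
          (by rw [h4n]; linarith) (hn s' t' hs' ht') he
      exact Pool.Agent.RBM.Dok_e.injective k3
    · exact absurd he (h2 a a' haa (4 * z) ⟨s, t⟩ (4 * z') ⟨s', t'⟩ (by rw [h4n]; linarith) (hn s t hs ht)
          (by rw [h4n]; linarith) (hn s' t' hs' ht'))
  · intro a z s t hz hs ht
    exact (h1 a).2.2 (4 * z) ⟨s, t⟩ (by rw [h4n]; linarith) (hn s t hs ht)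

end Pool.Agent.LKF
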