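import Pool.Agent.LKF.Def2
import Pool.Agent.KNH.ExtM
import Pool.Agent.RBM.LaDM
import Pool.Agent.RBM.MsDM

/-!
# LKF/TwG: the diffeomorphism of the 4-move   (difficulty 3)

`F₀ = (MsD × id) ∘ LaD⁻¹` on `V = ℂ × ℝ × ℝ`, `(MsD × id) (y, s, t) = (MsD (y, s), s, t)`; `LaD⁻¹ = LaDM_g Dt'` (RBM/LaDM.lean: `LaDM_left`, `LaDM_right`, `LaDM_smooth`).  Both are smooth with smooth inverses (`MsDM_smooth`, `MsDM_smooth'`), commute with
`t ↦ t + 1`, preserve `s`; `LaD_isLam`, `MsD_isMs`: both are the identity for `s ≤ -1/8` and for `‖y‖ ≥ 39/10`, both are `(RD y, s, t)` for `s ≥ 1/16`.  So `F₀ (y, s, t) = (y, s, t)` unless `‖y‖ < 39/10`, `-1/8 < s < 1/16`.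
`ISO.Move Λ O F₀` (see ISO/Defs, KNH/ExtM) with `Λ = zmultiples (0, 0, 1)`, `O = {‖y‖ < 4, |s| < 1/4}`, compact set `{‖y‖ ≤ 39/10, |s| ≤ 1/8, 0 ≤ t ≤ 1}`.  `KNH.ext_perm` with `β = b`: `G`.
Hole (`IsLam.hole`): `hh 1 0 = 1/8`, `dl 1 = 1/128`, `LaD (z, s, t) = (z, s, t)` for `‖z‖ ≤ 17/5`, so `LaD⁻¹ (z, s, t) = (z, s, t)` and `F₀ (z, s, t) = (MsD (z, s), s, t) = (ex (2 gs s) z, s, t)` (`MsD_low`).  For `|s| ≥ 1/4`: `ex (2 gs s) = 1`.
-/

open scoped Manifold ContDiff Topology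
open Set Filter
open Complex (I)
open Pool.Agent.CSG (stp)
open Pool.Agent.RSG (E4 S3 S4 ex cj c1 c2 ht fh pS3)
open Pool.Agent.RBM (ThickT OnT Box frc)
open Pool.Agent.RBH (Tube BoxS)
open Pool.Agent.PTH (SP ISP Act)
open Pool.Agent.COR (Equi EquiB BBox OutW PosAt half dv dt PerS)
open Pool.Agent.KNT (Dom BalC Tubes Str Str2 CD)
open Pool.Agent.KNH (rot Hat circ pb Emb Fam ThinOK thn bx)
open Pool.Agent.CLG (io pol)

namespace Pool.Agent.LKF

universe u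

/-- the inverse of the isotopy of the 4-move -/
noncomputable def TwG_La : (ℂ × ℝ × ℝ) ≃ (ℂ × ℝ × ℝ) :=
  ⟨RBM.LaDM_g RBM.Dt', RBM.LaDM_g RBM.Dt, RBM.LaDM_right, RBM.LaDM_left⟩

/-- the 4-move at all times -/
noncomputable def TwG_Ms : (ℂ × ℝ × ℝ) ≃ (ℂ × ℝ × ℝ) where
  toFun a := (RBM.MsDM_g a.2.1 a.1, a.2)
  invFun a := ((RBM.MsDM_g a.2.1).symm a.1, a.2)
  left_inv a := by simp
  right_inv a := by simp

/-- `F₀` -/
noncomputable def TwG_F : (ℂ × ℝ × ℝ) ≃ (ℂ × ℝ × ℝ) := TwG_La.trans TwG_Ms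

theorem TwG_F_apply (x : ℂ × ℝ × ℝ) :
    TwG_F x = (RBM.MsD ((TwG_La x).1, (TwG_La x).2.1), (TwG_La x).2) := rfl

theorem TwG_La_of {x y : ℂ × ℝ × ℝ} (h : RBM.LaD x = y) : TwG_La y = x := by
  rw [RBM.LaDM_eq] at h
  rw [← h]
  exact RBM.LaDM_left x

theorem TwG_La_smooth : ContDiff ℝ ∞ TwG_La :=
  RBM.LaDM_smooth RBM.Dt' (-1) RBM.Dt'_smooth (fun ψ _ h => RBM.LaDM_high' ψ h) RBM.LaDM_cyl'

theorem TwG_La_smooth' : ContDiff ℝ ∞ TwG_La.symm :=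
  RBM.LaDM_smooth RBM.Dt 1 RBM.Dt_smooth (fun ψ _ h => RBM.Dt_high ψ h)
    (fun a x => by rw [one_mul]; exact RBM.Dt_cyl a x)

theorem TwG_Ms_smooth : ContDiff ℝ ∞ TwG_Ms := by
  have h0 : ContDiff ℝ ∞ (fun a : ℂ × ℝ × ℝ => (a.1, a.2.1)) := by fun_prop
  have h : ContDiff ℝ ∞ (fun a : ℂ × ℝ × ℝ => RBM.MsDM_g a.2.1 a.1) :=
    ContDiff.comp (g := fun q : ℂ × ℝ => RBM.MsDM_g q.2 q.1) (f := fun a : ℂ × ℝ × ℝ => (a.1, a.2.1))
      RBM.MsDM_smooth h0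
  exact h.prodMk contDiff_snd

theorem TwG_Ms_smooth' : ContDiff ℝ ∞ TwG_Ms.symm := by
  have h0 : ContDiff ℝ ∞ (fun a : ℂ × ℝ × ℝ => (a.1, a.2.1)) := by fun_prop
  have h : ContDiff ℝ ∞ (fun a : ℂ × ℝ × ℝ => (RBM.MsDM_g a.2.1).symm a.1) :=
    ContDiff.comp (g := fun q : ℂ × ℝ => (RBM.MsDM_g q.2).symm q.1) (f := fun a : ℂ × ℝ × ℝ => (a.1, a.2.1))
      RBM.MsDM_smooth' h0
  exact h.prodMk contDiff_snd

theorem TwG_LF (t : ℝ) (k : ℤ) : RBM.LaDM_F (t + k) = RBM.LaDM_F t := by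
  unfold RBM.LaDM_F
  have h2 := RBM.frc_add_int (t - 1 / 2 - RBM.hh 1 0) k
  rw [← h2]
  congr 1
  ring

theorem TwG_La_per (x : ℂ × ℝ × ℝ) (k : ℤ) :
    TwG_La (x + (0, 0, (k : ℝ))) = TwG_La x + (0, 0, (k : ℝ)) := by
  obtain ⟨y, s, t⟩ := x
  show RBM.LaDM_g RBM.Dt' ((y, s, t) + (0, 0, (k : ℝ))) = RBM.LaDM_g RBM.Dt' (y, s, t) + (0, 0, (k : ℝ))
  simp only [Prod.mk_add_mk, add_zero]
  unfold RBM.LaDM_g
  simp only [TwG_LF, Prod.mk_add_mk, add_zero]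
  refine Prod.ext rfl (Prod.ext rfl ?_)
  simp only
  ring

theorem TwG_F_per (x : ℂ × ℝ × ℝ) (k : ℤ) :
    TwG_F (x + (0, 0, (k : ℝ))) = TwG_F x + (0, 0, (k : ℝ)) := by
  rw [TwG_F_apply, TwG_F_apply, TwG_La_per]
  simp only [Prod.fst_add, Prod.snd_add, add_zero]
  refine Prod.ext (by simp) (Prod.ext (by simp) (by simp))

theorem TwG_F_fix {y : ℂ} {s t : ℝ} (h : 39 / 10 ≤ ‖y‖ ∨ 1 / 8 ≤ |s|) : TwG_F (y, s, t) = (y, s, t) := by
  have hL := RBM.LaD_isLam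
  rcases h with h | h
  · have h1 := TwG_La_of (hL.out y s t h)
    rw [TwG_F_apply, h1]
    simp only [RBM.MsDM_out y s h]
  · rcases le_abs.1 h with h | h
    · obtain ⟨y', hy'⟩ := RBM.MsDM_bijR.2 y
      have h1 := TwG_La_of (hL.high y' s t (by linarith))
      rw [hy'] at h1
      rw [TwG_F_apply, h1]
      simp only [RBM.MsDM_high y' s (by linarith), hy']
    · have h1 := TwG_La_of (hL.low y s t (by linarith))
      rw [TwG_F_apply, h1]
      simp only [RBM.MsDM_low y s (by linarith)]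

theorem TwG_mem {m : ℂ × ℝ × ℝ} (hm : m ∈ AddSubgroup.zmultiples ((0, 0, 1) : ℂ × ℝ × ℝ)) :
    ∃ k : ℤ, m = (0, 0, (k : ℝ)) := by
  obtain ⟨k, rfl⟩ := AddSubgroup.mem_zmultiples_iff.1 hm
  exact ⟨k, by simp⟩

theorem TwG_mem' (k : ℤ) : ((0, 0, (k : ℝ)) : ℂ × ℝ × ℝ) ∈ AddSubgroup.zmultiples ((0, 0, 1) : ℂ × ℝ × ℝ) :=
  AddSubgroup.mem_zmultiples_iff.2 ⟨k, by simp⟩

/-- the open set -/
def TwG_O : Set (ℂ × ℝ × ℝ) := {x | ‖x.1‖ < 4 ∧ |x.2.1| < 1 / 4}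

theorem TwG_move : ISO.Move (AddSubgroup.zmultiples ((0, 0, 1) : ℂ × ℝ × ℝ)) TwG_O TwG_F := by
  refine ⟨TwG_Ms_smooth.comp TwG_La_smooth, TwG_La_smooth'.comp TwG_Ms_smooth', ?_, ?_⟩
  · intro m hm x
    obtain ⟨k, rfl⟩ := TwG_mem hm
    exact TwG_F_per x k
  · refine ⟨Metric.closedBall 0 (39 / 10) ×ˢ (Icc (-(1 / 8)) (1 / 8) ×ˢ Icc 0 1),
      (isCompact_closedBall _ _).prod (isCompact_Icc.prod isCompact_Icc), ?_, ?_⟩
    · rintro ⟨y, s, t⟩ ⟨h1, h2, h3⟩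
      simp only [Metric.mem_closedBall, dist_zero_right, mem_Icc] at h1 h2 h3
      refine ⟨?_, ?_⟩
      · show ‖y‖ < 4
        linarith
      · show |s| < 1 / 4
        rw [abs_lt]
        constructor <;> linarith
    · rintro ⟨y, s, t⟩ hx
      apply TwG_F_fix
      by_contra hno
      push Not at hno
      obtain ⟨h1, h2⟩ := hno
      apply hx (0, 0, ((-⌊t⌋ : ℤ) : ℝ)) (TwG_mem' _)
      rw [abs_lt] at h2
      refine ⟨?_, ?_, ?_⟩
      · simp only [Prod.fst_add, add_zero, Metric.mem_closedBall, dist_zero_right]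
        exact h1.le
      · simp only [Prod.snd_add, Prod.fst_add, add_zero, mem_Icc]
        exact ⟨h2.1.le, h2.2.le⟩
      · simp only [Prod.snd_add, mem_Icc]
        push_cast
        constructor
        · linarith [Int.floor_le t]
        · linarith [Int.lt_floor_add_one t]

variable {E : Type*} [NormedAddCommGroup E] [NormedSpace ℝ E] {H : Type*} [TopologicalSpace H]
  {J : ModelWithCorners ℝ E H} {P : Type*} [TopologicalSpace P] [ChartedSpace H P]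

theorem exists_G4 [T2Space P] {b : ℂ × ℝ × ℝ → P} (hb : Box J b 4) :
    ∃ G : Equiv.Perm P, (∀ p, IsLocalDiffeomorphAt J J ∞ G p) ∧
      (∀ p, (∀ (z : ℂ) (s t : ℝ), ‖z‖ < 4 → |s| < 1 / 4 → p ≠ b (z, s, t)) → G p = p) ∧
      ∀ (z : ℂ) (s t : ℝ), ‖z‖ ≤ 13 / 4 → |s| < 1 → 1 / 2 - 2 * (1 / 128) ≤ |frc (t - 1 / 8)| →
        G (b (z, s, t)) = b (ex (2 * RBM.gs s) * z, s, t) := by
  have hOo : IsOpen TwG_O := by
    have h1 : Continuous fun x : ℂ × ℝ × ℝ => ‖x.1‖ := by fun_prop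
    have h2 : Continuous fun x : ℂ × ℝ × ℝ => |x.2.1| := by fun_prop
    exact (isOpen_lt h1 continuous_const).inter (isOpen_lt h2 continuous_const)
  have hper : ∀ (z : ℂ) (s t : ℝ) (k : ℤ), b (z, s, t + k) = b (z, s, t) := by
    intro z s t k
    have h1 : Function.Periodic (fun t : ℝ => b (z, s, t)) 1 := fun t => hb.per z s t
    have h2 := (h1.int_mul k) t
    simpa using h2
  obtain ⟨G, g1, g2, g3⟩ := KNH.ext_perm (IP := J) (Λ := AddSubgroup.zmultiples ((0, 0, 1) : ℂ × ℝ × ℝ))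
    (β := b) (O := TwG_O) hOo
    (fun x hx m hm => by
      obtain ⟨k, rfl⟩ := TwG_mem hm
      refine ⟨?_, ?_⟩
      · simpa using hx.1
      · simpa using hx.2)
    (fun x hx m hm => by
      obtain ⟨k, rfl⟩ := TwG_mem hm
      obtain ⟨z, s, t⟩ := x
      simp only [Prod.mk_add_mk, add_zero]
      exact hper z s t k)
    (fun x hx => by
      obtain ⟨z, s, t⟩ := x
      exact hb.loc z s t hx.1 (lt_trans hx.2 (by norm_num)))
    (fun x hx x' hx' he => by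
      obtain ⟨z, s, t⟩ := x
      obtain ⟨z', s', t'⟩ := x'
      obtain ⟨rfl, rfl, k, rfl⟩ := hb.inj z s t z' s' t' hx.1 (lt_trans hx.2 (by norm_num)) hx'.1
        (lt_trans hx'.2 (by norm_num)) he
      exact ⟨_, TwG_mem' k, by simp⟩)
    TwG_move
  refine ⟨G, g1, ?_, ?_⟩
  · intro p hp
    apply g3
    rintro ⟨⟨z, s, t⟩, hx, rfl⟩
    exact hp z s t hx.1 hx.2 rfl
  · intro z s t hz hs ht
    by_cases h4 : |s| < 1 / 4
    · rw [g2 (z, s, t) ⟨by show ‖z‖ < 4; linarith, h4⟩]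
      have hh1 : RBM.hh 1 (0 : Fin 1) = 1 / 8 := by
        unfold RBM.hh
        norm_num
      have hdl : RBM.dl 1 = 1 / 128 := by
        unfold RBM.dl
        norm_num
      have h1 := TwG_La_of (RBM.LaD_isLam.hole (0 : Fin 1) z s t
        (by
          rw [sub_zero]
          linarith)
        (by
          rw [hh1, hdl]
          exact ht))
      rw [TwG_F_apply, h1]
      simp only [RBM.MsD_low (show ‖z‖ ≤ 17 / 5 by linarith) s]
    · have h5 : G (b (z, s, t)) = b (z, s, t) := by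
        apply g3
        rintro ⟨⟨z', s', t'⟩, hx, he⟩
        obtain ⟨-, rfl, -⟩ := hb.inj z' s' t' z s t hx.1 (lt_trans hx.2 (by norm_num)) (by linarith) hs he
        exact h4 hx.2
      rw [h5]
      have h6 : ex (2 * RBM.gs s) = 1 := by
        rcases le_abs.1 (not_lt.1 h4) with h | h
        · have : RBM.gs s = 1 := by
            unfold RBM.gs
            exact CSG.stp_one (by norm_num) (by linarith)
          rw [this]
          have h7 := RSG.ex_int 2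
          rw [Int.cast_ofNat] at h7
          rw [mul_one]
          exact h7
        · have : RBM.gs s = 0 := by
            unfold RBM.gs
            exact CSG.stp_zero (by norm_num) (by linarith)
          rw [this, mul_zero, RSG.ex_zero]
      rw [h6, one_mul]

end Pool.Agent.LKF
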