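import Pool.Agent.LKF.BunEx
import Pool.Agent.LKF.CorF
import Pool.Agent.LKF.ConF
import Pool.Agent.LKF.TwG
import Pool.Agent.LKF.DifF

/-!
# LKF/FouF: the 4-move   (difficulty 3)

`four_gen`: `exists_bunF` with `α = Unit`, chart `β`, `Fc m = {p | p.1 ∈ io '' (β '' {‖z‖ ≤ 4, |u| ≤ 1/8})}` (closed; or `∅`: the rest condition is not needed: `BunF.rest`), `swap_bunF` for `b' = half 1 (pb β')` (`hrest`: the set of the points of the box `b'` is
contained in the box `b`: `hrg`), `RibF` with `τ = fun _ => 1/8`, `δ = 1/128`, `G`: `G_rest`: the rest is not in the box `b`, `G` fixes it; `G_ends`: `1/2 ≤ |s|`: `G` fixes the point (injectivity of `b`), `β' = β` for `|u| ≥ 1/8`; `G_hole`: `hG3`.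
`core_swapF`, `rib_family` (`MonoF` with `φ = id`).
`four_LS`: for positive `β`: forwards `four_gen` with `β' = tw2 β` and `G` of `exists_G4` for `b = half 1 (pb β)` (`half 1 (pb β) (ex (2 gs s) z, s, t) = half 1 (pb (tw2 β)) (z, s, t)`), backwards `four_gen` with `β := tw2 β`, `β' := β`, `G.symm` (the box of `tw2 β` is the box of
`β`: rotation; `tw2_pos`).  For negative `β` (`cjc_pos`): `tw2 β` is negative (`tw2_pos`), so `γ = cjc (tw2 β)` is positive (`cjc_pos` for `tw2 β`), `tw2 γ = cjc β` (`tw2_cjc`); the iff for the positive chart `γ`: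
`LS (γ '' Ln) ↔ LS (tw2 γ '' Ln)`, `γ '' Ln = tw2 β '' Ln = β '' Ln2`, `tw2 γ '' Ln = cjc β '' Ln = β '' Ln` (`cjc_ln`, `tw2_ln`).
-/

open scoped Manifold ContDiff Topology
open Set Filter
open Complex (I)
open Pool.Agent.CSG (stp)
open Pool.Agent.RSG (E4 S3 S4 ex cj c1 c2 ht fh pS3)
open Pool.Agent.RBM (ThickT OnT Box frc)
open Pool.Agent.RBH (Tube BoxS)
open Pool.Agent.PTH (SP ISP Act)
open Pool.Agent.COR (Equi EquiB BBox OutW PosAt half dv dt PerS)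
open Pool.Agent.KNT (Dom BalC Tubes Str Str2 CD)
open Pool.Agent.KNH (rot Hat circ pb Emb Fam ThinOK thn bx)
open Pool.Agent.CLG (io pol)

namespace Pool.Agent.LKF

universe u

theorem FouF_half (β : ℂ × ℝ → ℂ × ℝ) (y : ℂ) (s t : ℝ) :
    half 1 (pb β) (y, s, t) = (io (β (y, s / 2)), KNH.circ t) := by
  show (io (β (cj 1 y, s / 2)), KNH.circ t) = _
  have h : cj 1 y = y := by
    unfold cj
    apply Complex.ext
    · rfl
    · show 1 * y.im = y.im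
      ring
  rw [h]

theorem FouF_box {β : ℂ × ℝ → ℂ × ℝ} (hβ : Emb β) : Box ISP (half 1 (pb β)) 4 :=
  KNH.CorM_box (Or.inl rfl) (KNH.pb_box hβ 4)

theorem four_gen {ι : Type*} [Finite ι] {Q : (ι → ℝ × ℂ × ℝ → SP) → Prop} (hQ : MonoF.{u} ISP Q)
    {β β' : ℂ × ℝ → ℂ × ℝ} (hβ : Emb β) (hβ' : Emb β') (hp : PosB (pb β)) (hends : ∀ q, 1 / 8 ≤ |q.2| → β' q = β q)
    (hrg : ∀ (z : ℂ) (u : ℝ), ∃ z' : ℂ, ‖z'‖ = ‖z‖ ∧ β' (z, u) = β (z', u)) {G : Equiv.Perm SP}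
    (hG1 : ∀ p, IsLocalDiffeomorphAt ISP ISP ∞ G p)
    (hG2 : ∀ p, (∀ (z : ℂ) (s t : ℝ), ‖z‖ < 4 → |s| < 1 / 4 → p ≠ half 1 (pb β) (z, s, t)) → G p = p)
    (hG3 : ∀ (z : ℂ) (s t : ℝ), ‖z‖ ≤ 13 / 4 → |s| < 1 → 1 / 2 - 2 * (1 / 128) ≤ |frc (t - 1 / 8)| →
        G (half 1 (pb β) (z, s, t)) = half 1 (pb β') (z, s, t))
    {Y : ι → Set S3} (hY : ∀ m q, io (β q) ∉ Y m) {i k : ι}
    (h : LS Q (fun m => Y m ∪ io '' (β '' Ln i k m))) : LS Q (fun m => Y m ∪ io '' (β' '' Ln i k m)) := by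
  obtain ⟨cc, κ₀, h₀, he, hc, hr, hq⟩ := h
  have hS : ∀ (m : ι) (_ : Unit) (q : ℂ × ℝ), (∃ l, cc m l = io (β q)) ↔ q ∈ Ln i k m := by
    intro m _ q
    have h1 : (∃ l, cc m l = io (β q)) ↔ io (β q) ∈ range (cc m) := Iff.rfl
    rw [h1, hr]
    constructor
    · rintro (h2 | ⟨x, ⟨q', hq', rfl⟩, h2⟩)
      · exact absurd h2 (hY m q)
      · rw [← hβ.inj (KNH.io_inj h2)]
        exact hq'
    · intro hq'
      exact Or.inr ⟨β q, ⟨q, hq', rfl⟩, rfl⟩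
  obtain ⟨κ, φ, e₁, e₂, hB, hEq, hφ, hφ1, hcore, -, hQκ⟩ :=
    exists_bunF (α := Unit) hQ h₀ he hc hq (β := fun _ => β) (fun _ => hβ) (fun _ => hp)
      (fun _ _ _ _ _ => rfl) (i := fun _ => i) (k := fun _ => k)
      (fun _ _ _ => rfl) (fun _ _ _ => rfl) hS (Fc := fun _ => ∅) (fun _ => isClosed_empty)
      (fun _ _ _ _ h => h)
  have hB1 := hB (fun _ _ => 1 / 8)
  have hendb : ∀ (z : ℂ) (s t : ℝ), 1 / 4 ≤ |s| → half 1 (pb β') (z, s, t) = half 1 (pb β) (z, s, t) := by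
    intro z s t hs
    rw [FouF_half, FouF_half, hends]
    show 1 / 8 ≤ |s / 2|
    rw [abs_div, abs_of_pos (by norm_num : (0 : ℝ) < 2)]
    linarith
  obtain ⟨hB2, hsw⟩ := swap_bunF (b' := fun _ => half 1 (pb β')) hB1 (fun _ => FouF_box hβ')
    (fun _ _ _ _ _ _ _ _ _ _ _ _ _ => rfl)
    (fun _ z s t _ hs _ => hendb z s t hs)
    (fun m l v t hv hR a z s t' hz hs heq => by
      obtain ⟨z', hz', he'⟩ := hrg z (s / 2)
      refine hB1.rest m l v t hv hR a z' s t' (by rw [hz']; exact hz) hs ?_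
      rw [heq]
      show half 1 (pb β') (z, s, t') = half 1 (pb β) (z', s, t')
      rw [FouF_half, FouF_half, he'])
  have hbx := FouF_box hβ
  have hRib : RibF ISP κ (swpF (fun _ : Unit => half 1 (pb β)) (fun _ : Unit => half 1 (pb β')) κ)
      (fun _ : Unit => half 1 (pb β)) (fun _ : Unit => half 1 (pb β')) ⟨fun _ : Unit => i, fun _ => k, e₁, e₂, fun _ _ => 1 / 8⟩
      (1 / 128) G := by
    refine ⟨hB1, hB2, fun _ => contDiff_const, by norm_num, hG1, ?_, ?_, ?_⟩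
    · intro m l v t hv hR
      rw [hsw m l v t hv hR]
      apply hG2
      intro z s t' hz hs
      exact hB1.rest m l v t hv hR () z s t' hz (lt_trans hs (by norm_num))
    · intro _ z s t hz hs hs1
      have h1 : G (half 1 (pb β) (z, s, t)) = half 1 (pb β) (z, s, t) := by
        apply hG2
        intro z' s' t' hz' hs' heq
        obtain ⟨-, h2, -⟩ := hbx.inj z s t z' s' t' hz hs1 hz' (lt_trans hs' (by norm_num)) heq
        rw [← h2] at hs'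
        linarith
      show G (half 1 (pb β) (z, s, t)) = half 1 (pb β') (z, s, t)
      rw [h1, hendb z s t (by linarith)]
    · intro _ z s t hz hs ht
      exact hG3 z s t hz hs ht
  obtain ⟨hEq', c', hc', hcore'⟩ := core_swapF (α := Unit) (β := fun _ => β) (β' := fun _ => β')
    (fun _ => hβ) (fun _ => hβ') (fun _ _ _ _ _ => rfl) (fun _ q hq => hends q hq) hB1 hEq hφ hφ1 hcore
    (fun m _ q => hY m q) (fun m => (hr m).trans (congrArg (Y m ∪ ·) (iUnion_const _).symm))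
  refine ⟨c', _, hB2.link, hEq', fun m l => hcore' m l, fun m =>
    (hc' m).trans (congrArg (Y m ∪ ·) (iUnion_const (ι := Unit) (io '' (β' '' Ln i k m)))), ?_⟩
  refine hQ κ _ hB1.link hB2.link ⟨id, Function.surjective_id, ?_⟩ hQκ
  intro X _ _ _ n j hX
  exact rib_family hRib n j hX

theorem FouF_pos {ι : Type*} [Finite ι] {Q : (ι → ℝ × ℂ × ℝ → SP) → Prop} (hQ : MonoF.{u} ISP Q)
    {β : ℂ × ℝ → ℂ × ℝ} (hβ : Emb β) (hp : PosB (pb β)) {Y : ι → Set S3} (hY : ∀ m q, io (β q) ∉ Y m) (i k : ι) :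
    LS Q (fun m => Y m ∪ io '' (β '' Ln i k m)) ↔ LS Q (fun m => Y m ∪ io '' (β '' Ln2 i k m)) := by
  obtain ⟨G, hG1, hG2, hG3⟩ := exists_G4 (FouF_box hβ)
  have hG3' : ∀ (z : ℂ) (s t : ℝ), ‖z‖ ≤ 13 / 4 → |s| < 1 → 1 / 2 - 2 * (1 / 128) ≤ |frc (t - 1 / 8)| →
        G (half 1 (pb β) (z, s, t)) = half 1 (pb (tw2 β)) (z, s, t) := by
    intro z s t hz hs ht
    rw [hG3 z s t hz hs ht, FouF_half, FouF_half]
    show (io (β (ex (2 * RBM.gs s) * z, s / 2)), KNH.circ t) =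
      (io (β (ex (2 * RBM.gs (2 * (s / 2))) * z, s / 2)), KNH.circ t)
    rw [mul_div_cancel₀ s (by norm_num : (2 : ℝ) ≠ 0)]
  have e : ∀ m, β '' Ln2 i k m = tw2 β '' Ln i k m := fun m => (tw2_ln β i k m).symm
  simp only [e]
  have hr1 : ∀ (z : ℂ) (u : ℝ), ∃ z' : ℂ, ‖z'‖ = ‖z‖ ∧ tw2 β (z, u) = β (z', u) := by
    intro z u
    refine ⟨ex (2 * RBM.gs (2 * u)) * z, ?_, rfl⟩
    rw [norm_mul, RSG.ex_norm, one_mul]
  have hr2 : ∀ (z : ℂ) (u : ℝ), ∃ z' : ℂ, ‖z'‖ = ‖z‖ ∧ β (z, u) = tw2 β (z', u) := by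
    intro z u
    refine ⟨ex (-(2 * RBM.gs (2 * u))) * z, ?_, ?_⟩
    · rw [norm_mul, RSG.ex_norm, one_mul]
    · show β (z, u) = β (ex (2 * RBM.gs (2 * u)) * (ex (-(2 * RBM.gs (2 * u))) * z), u)
      rw [← mul_assoc, ← RSG.ex_add, add_neg_cancel, RSG.ex_zero, one_mul]
  constructor
  · intro h
    exact four_gen hQ hβ (tw2_emb hβ) hp (fun q hq => tw2_ends β hq) hr1 hG1 hG2 hG3' hY h
  · intro h
    refine four_gen hQ (tw2_emb hβ) hβ ((tw2_pos hβ).2 hp) (fun q hq => (tw2_ends β hq).symm) hr2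
      (G := G.symm) (fun p => KNH.ExtM_symm hG1 p) ?_ ?_ (fun m q => hY m _) h
    · intro p hpp
      have h1 : G p = p := by
        apply hG2
        intro z s t hz hs he
        obtain ⟨z', hz', he'⟩ := hr2 z (s / 2)
        refine hpp z' s t (by rw [hz']; exact hz) hs ?_
        rw [he, FouF_half, FouF_half, he']
      rw [Equiv.symm_apply_eq, h1]
    · intro z s t hz hs ht
      rw [Equiv.symm_apply_eq, hG3' z s t hz hs ht]

theorem four_LS {ι : Type*} [Finite ι] {Q : (ι → ℝ × ℂ × ℝ → SP) → Prop} (hQ : MonoF.{u} ISP Q)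
    {β : ℂ × ℝ → ℂ × ℝ} (hβ : Emb β) {Y : ι → Set S3} (hY : ∀ m q, io (β q) ∉ Y m) (i k : ι) :
    LS Q (fun m => Y m ∪ io '' (β '' Ln i k m)) ↔ LS Q (fun m => Y m ∪ io '' (β '' Ln2 i k m)) := by
  by_cases hp : PosB (pb β)
  · exact FouF_pos hQ hβ hp hY i k
  · have hp1 : ¬ PosB (pb (tw2 β)) := fun h => hp ((tw2_pos hβ).1 h)
    have hp2 : PosB (pb (cjc (tw2 β))) := (cjc_pos (tw2_emb hβ)).resolve_left hp1
    have h1 := FouF_pos hQ (cjc_emb (tw2_emb hβ)) hp2 (Y := Y) (fun m q => hY m _) i k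
    have e1 : ∀ m, cjc (tw2 β) '' Ln i k m = β '' Ln2 i k m := fun m => by rw [cjc_ln, tw2_ln]
    have e2 : ∀ m, cjc (tw2 β) '' Ln2 i k m = β '' Ln i k m := fun m => by
      rw [← tw2_ln, tw2_cjc, cjc_ln]
    simp only [e1, e2] at h1
    exact h1.symm

end Pool.Agent.LKF
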