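import Pool.Agent.LKF.Def2
import Pool.Agent.COR.Glu

/-!
# LKF/GluO: making the thick torus equal to the given thickenings on the whole unit disc, in `O`   (difficulty 2)

Copy the proof of `COR.adapt_glue` (file COR/Glu.lean; `Glu_tub` and all the lemmas before it can be used).  New: the tube of `κ'` is contained in the tube of `κ` (over `l ∉ U`) and in the set of the points `b (l, v, t)`, `l ∈ U`, `‖v‖ < 1`
(over `l ∈ U`), so in `O` (`hbO`); at the end `hQ.germ` instead of `germ`.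
-/

open scoped Manifold ContDiff Topology
open Set Filter
open Complex (I)
open Pool.Agent.CSG (stp)
open Pool.Agent.RSG (E4 S3 S4 ex cj c1 c2 ht fh pS3)
open Pool.Agent.RBM (ThickT OnT Box frc)
open Pool.Agent.RBH (Tube BoxS)
open Pool.Agent.PTH (SP ISP Act)
open Pool.Agent.COR (Equi EquiB BBox OutW PosAt half dv dt PerS)
open Pool.Agent.KNT (Dom BalC Tubes Str Str2 CD)
open Pool.Agent.KNH (rot Hat circ pb Emb Fam ThinOK thn bx)
open Pool.Agent.CLG (io pol)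

namespace Pool.Agent.LKF

universe u

variable {E : Type*} [NormedAddCommGroup E] [NormedSpace ℝ E] {H : Type*} [TopologicalSpace H]
  {J : ModelWithCorners ℝ E H} {P : Type*} [TopologicalSpace P] [ChartedSpace H P]

section GluOAux

open Pool.Agent.COR

theorem GluO_all [T2Space P] {a : ℝ → P → P} (ha : Act J a) {κ b : ℝ × ℂ × ℝ → P} {O : Set P}
    (hκ : ThickT J κ) (hO : Tube κ ⊆ O) (heq : Equi a κ) (heqb : Equi a b) (hperb : ∀ l v t, b (l + 1, v, t) = b (l, v, t))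
    {U : Set ℝ} (hU : IsOpen U) (hUp : PerS U) {ς : ℝ → ℝ} (hς : ContDiff ℝ ∞ ς)
    (hςp : ∀ l, ς (l + 1) = ς l) (hς01 : ∀ l, 0 ≤ ς l ∧ ς l ≤ 1) (hςU : tsupport ς ⊆ U) {r : ℝ}
    (hr : 1 < r)
    (hloc : ∀ l ∈ U, ∀ v t, ‖v‖ < r → IsLocalDiffeomorphAt 𝓘(ℝ, ℝ × ℂ × ℝ) J ∞ b (l, v, t))
    (hinj : ∀ l ∈ U, ∀ l' ∈ U, ∀ v v' t t', ‖v‖ < r → ‖v'‖ < r → b (l, v, t) = b (l', v', t') →
      v = v' ∧ (∃ m : ℤ, l' = l + m) ∧ ∃ m : ℤ, t' = t + m) {ε : ℝ} (hε : 0 < ε)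
    (hgerm : ∀ l ∈ U, ∀ v t, ‖v‖ ≤ ε → κ (l, v, t) = b (l, v, t))
    (hoff : ∀ l ∈ U, ∀ v t, v ≠ 0 → ‖v‖ < r → ∀ l' t', b (l, v, t) ≠ κ (l', 0, t'))
    (hbO : ∀ l ∈ U, ∀ v t, ‖v‖ < 1 → b (l, v, t) ∈ O) {Fc : Set P}
    (hFc : IsClosed Fc) (hK : ∀ l, l ∉ U → ∀ t, κ (l, 0, t) ∉ Fc) :
    ∃ κ' : ℝ × ℂ × ℝ → P, ThickT J κ' ∧ Equi a κ' ∧ Tube κ' ⊆ O ∧ (∀ l t, κ' (l, 0, t) = κ (l, 0, t)) ∧
      (∀ l v t, ς l = 1 → ‖v‖ < 1 → κ' (l, v, t) = b (l, v, t)) ∧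
      (∀ l ∈ U, ∀ v t, ‖v‖ < 1 → ∃ v', ‖v'‖ < 1 ∧ κ' (l, v, t) = b (l, v', t)) ∧
      (∀ l, l ∉ U → ∀ v t, ‖v‖ < 1 → κ' (l, v, t) ∉ Fc) ∧
      ∃ η : ℝ, 0 < η ∧ ∀ (l : ℝ) (v : ℂ) (t : ℝ), ‖v‖ < η → κ' (l, v, t) = κ (l, v, t) := by
  classical
  have hTper : ∀ l, l + 1 ∈ tsupport ς ↔ l ∈ tsupport ς := by
    intro l
    have h1 : (fun x : ℝ => ς (x + 1)) = ς := funext hςp
    have h2 := tsupport_comp_eq_preimage ς (Homeomorph.addRight (1 : ℝ))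
    have h3 : ς ∘ (Homeomorph.addRight (1 : ℝ)) = ς := h1
    rw [h3] at h2
    constructor
    · intro h
      rw [h2]
      exact h
    · intro h
      rw [h2] at h
      exact h
  obtain ⟨ε', hε', hε'1, hε'2, htub⟩ := Glu_tub ha hκ heqb hperb hU hUp (isClosed_tsupport ς) hTper hςU
    hr hloc hε hgerm hoff hFc hK
  obtain ⟨g, g1, ⟨δ, hδ, g2⟩, g3, g4, g5⟩ := exists_compress hε'
  have hg : GluC g δ ε' := ⟨g1, hδ, g2, g3, g4, g5⟩
  have hς0 : ∀ l, l ∉ tsupport ς → ς l = 0 := fun l hl => image_eq_zero_of_notMem_tsupport hl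
  have hpb : ∀ l v t, b (l, v, t + 1) = b (l, v, t) := by
    intro l v t
    rw [heqb l v (t + 1), heqb l v t, ha.add, ha.per]
  obtain ⟨κ', hκ'⟩ : ∃ κ' : ℝ × ℂ × ℝ → P, κ' = fun q =>
    if q.1 ∈ U then b (Glu_P g ς q) else κ (Glu_P g ς q) := ⟨_, rfl⟩
  have kU : ∀ l ∈ U, ∀ v t, κ' (l, v, t) = b (l, Glu_G g (ς l) v, t) := by
    intro l hl v t
    rw [hκ']
    exact if_pos hl
  have kT : ∀ l, l ∉ tsupport ς → ∀ v t, ‖v‖ < 1 → κ' (l, v, t) = κ (l, Glu_G g (ς l) v, t) := by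
    intro l hl v t hv
    by_cases h : l ∈ U
    · rw [kU l h, hgerm l h]
      rw [hς0 l hl]
      exact (Glu_G_small hg hε' hv).le.trans hε'1
    · rw [hκ']
      exact if_neg h
  have hnT : ∀ l, l ∉ U → l ∉ tsupport ς := fun l hl h => hl (hςU h)
  have hthick : ThickT J κ' := by
    refine ⟨fun l v t => ?_, fun l v t => ?_, fun l v t hv => ?_, ?_⟩
    · by_cases h : l ∈ U
      · rw [kU _ ((hUp l).2 h), kU _ h, hperb, hςp]
      · have h' : l + 1 ∉ U := fun hh => h ((hUp l).1 hh)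
        rw [hκ']
        simp only [h, h', if_false, Glu_P]
        rw [hςp, hκ.perl]
    · by_cases h : l ∈ U
      · rw [kU _ h, kU _ h, hpb]
      · rw [hκ']
        simp only [h, if_false, Glu_P]
        rw [hκ.pert]
    · by_cases h : l ∈ U
      · have h1 : IsLocalDiffeomorphAt 𝓘(ℝ, ℝ × ℂ × ℝ) J ∞ (b ∘ Glu_P g ς) (l, v, t) :=
          IsLocalDiffeomorphAt.comp (hf := Glu_P_ld hg hς hς01 (l, v, t))
            (hg := hloc l h _ t (lt_of_le_of_lt (Glu_G_le hg (hς01 l) v) (by linarith)))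
        refine CSG.ld_congr h1 ?_
        have h2 : ∀ᶠ q : ℝ × ℂ × ℝ in 𝓝 (l, v, t), q.1 ∈ U :=
          continuousAt_fst.eventually_mem (hU.mem_nhds h)
        filter_upwards [h2] with q hq
        exact kU q.1 hq q.2.1 q.2.2
      · have h1 : IsLocalDiffeomorphAt 𝓘(ℝ, ℝ × ℂ × ℝ) J ∞ (κ ∘ Glu_P g ς) (l, v, t) :=
          IsLocalDiffeomorphAt.comp (hf := Glu_P_ld hg hς hς01 (l, v, t))
            (hg := hκ.loc l _ t (lt_of_le_of_lt (Glu_G_le hg (hς01 l) v) hv))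
        refine CSG.ld_congr h1 ?_
        have h2' : (tsupport ς)ᶜ ∈ 𝓝 l := (isClosed_tsupport ς).isOpen_compl.mem_nhds (hnT l h)
        have h2 : ∀ᶠ q : ℝ × ℂ × ℝ in 𝓝 (l, v, t), q.1 ∈ (tsupport ς)ᶜ :=
          (continuousAt_fst (p := ((l, v, t) : ℝ × ℂ × ℝ))).eventually_mem h2'
        have h3 : ∀ᶠ q : ℝ × ℂ × ℝ in 𝓝 (l, v, t), ‖q.2.1‖ < 1 :=
          (continuous_snd.fst.norm).continuousAt.eventually_lt continuousAt_const hv
        filter_upwards [h2, h3] with q hq hq'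
        exact kT q.1 hq q.2.1 q.2.2 hq'
    · intro l v t l' v' t' hv hv' he
      have hn := Glu_G_le hg (hς01 l) v
      have hn' := Glu_G_le hg (hς01 l') v'
      have hfin : ∀ m : ℤ, l' = l + m → Glu_G g (ς l) v = Glu_G g (ς l') v' → v = v' := by
        intro m hm hG
        rw [hm, Glu_int hςp] at hG
        exact Glu_G_inj hg (hς01 l) hG
      by_cases h : l ∈ U <;> by_cases h' : l' ∈ U
      · rw [kU l h, kU l' h'] at he
        obtain ⟨e1, ⟨m, e2⟩, e3⟩ := hinj l h l' h' _ _ _ _ (by linarith) (by linarith) he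
        exact ⟨hfin m e2 e1, ⟨m, e2⟩, e3⟩
      · by_cases hT : l ∈ tsupport ς
        · exfalso
          rw [kU l h, kT l' (hnT l' h') v' t' hv', hς0 l' (hnT l' h')] at he
          exact (htub l' h' _ t' (Glu_G_small hg hε' hv')).2 l hT _ t (by linarith) he.symm
        · exfalso
          rw [kT l hT v t hv, kT l' (hnT l' h') v' t' hv'] at he
          obtain ⟨-, ⟨m, e2⟩, -⟩ := hκ.inj _ _ _ _ _ _ (by linarith) (by linarith) he
          apply h'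
          rw [e2]
          exact (Glu_U hUp l m).2 h
      · by_cases hT : l' ∈ tsupport ς
        · exfalso
          rw [kU l' h', kT l (hnT l h) v t hv, hς0 l (hnT l h)] at he
          exact (htub l h _ t (Glu_G_small hg hε' hv)).2 l' hT _ t' (by linarith) he
        · exfalso
          rw [kT l' hT v' t' hv', kT l (hnT l h) v t hv] at he
          obtain ⟨-, ⟨m, e2⟩, -⟩ := hκ.inj _ _ _ _ _ _ (by linarith) (by linarith) he
          apply h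
          rw [← Glu_U hUp l m, ← e2]
          exact h'
      · rw [kT l (hnT l h) v t hv, kT l' (hnT l' h') v' t' hv'] at he
        obtain ⟨e1, ⟨m, e2⟩, e3⟩ := hκ.inj _ _ _ _ _ _ (by linarith) (by linarith) he
        exact ⟨hfin m e2 e1, ⟨m, e2⟩, e3⟩
  have htube : Tube κ' ⊆ O := by
    rintro p ⟨l, v, t, hv, rfl⟩
    have hn := Glu_G_le hg (hς01 l) v
    by_cases h : l ∈ U
    · rw [kU l h]
      exact hbO l h _ t (lt_of_le_of_lt hn hv)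
    · rw [kT l (hnT l h) v t hv]
      exact hO ⟨l, _, t, lt_of_le_of_lt hn hv, rfl⟩
  refine ⟨κ', hthick, ?_, htube, ?_, ?_, ?_, ?_, ?_⟩
  · intro l v t
    by_cases h : l ∈ U
    · rw [kU l h, kU l h, heqb]
    · rw [hκ']
      simp only [h, if_false, Glu_P]
      rw [heq]
  · intro l t
    by_cases h : l ∈ U
    · rw [kU l h, Glu_G_zero, hgerm l h 0 t (by rw [norm_zero]; exact hε.le)]
    · rw [kT l (hnT l h) 0 t (by rw [norm_zero]; exact one_pos), Glu_G_zero]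
  · intro l v t h1 hv
    have hl : l ∈ U := by
      apply hςU
      apply subset_tsupport
      rw [Function.mem_support, h1]
      exact one_ne_zero
    rw [kU l hl, h1, Glu_G_top]
  · intro l hl v t hv
    exact ⟨Glu_G g (ς l) v, lt_of_le_of_lt (Glu_G_le hg (hς01 l) v) hv, kU l hl v t⟩
  · intro l hl v t hv
    rw [kT l (hnT l hl) v t hv, hς0 l (hnT l hl)]
    exact (htub l hl _ t (Glu_G_small hg hε' hv)).1
  · have hη : 0 < min (min (Real.sqrt δ) ε) 1 :=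
      lt_min (lt_min (Real.sqrt_pos.2 hδ) hε) one_pos
    refine ⟨_, hη, ?_⟩
    intro l v t hv
    have e1 : ‖v‖ < Real.sqrt δ := lt_of_lt_of_le hv ((min_le_left _ _).trans (min_le_left _ _))
    have e2 : ‖v‖ < ε := lt_of_lt_of_le hv ((min_le_left _ _).trans (min_le_right _ _))
    have e3 : ‖v‖ < 1 := lt_of_lt_of_le hv (min_le_right _ _)
    have e4 : ‖v‖ ^ 2 ≤ δ := by
      have := Real.lt_sqrt (norm_nonneg v) |>.1 e1
      exact this.le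
    by_cases h : l ∈ U
    · rw [kU l h, Glu_G_one hg _ e4, hgerm l h v t e2.le]
    · rw [kT l (hnT l h) v t e3, Glu_G_one hg _ e4]

end GluOAux

theorem adapt_glueO [T2Space P] {a : ℝ → P → P} (ha : Act J a) {κ b : ℝ × ℂ × ℝ → P} {O : Set P}
    (hκ : ThickT J κ) (hO : Tube κ ⊆ O) (heq : Equi a κ) (heqb : Equi a b) (hperb : ∀ l v t, b (l + 1, v, t) = b (l, v, t))
    {U : Set ℝ} (hU : IsOpen U) (hUp : PerS U) {ς : ℝ → ℝ} (hς : ContDiff ℝ ∞ ς)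
    (hςp : ∀ l, ς (l + 1) = ς l) (hς01 : ∀ l, 0 ≤ ς l ∧ ς l ≤ 1) (hςU : tsupport ς ⊆ U) {r : ℝ}
    (hr : 1 < r)
    (hloc : ∀ l ∈ U, ∀ v t, ‖v‖ < r → IsLocalDiffeomorphAt 𝓘(ℝ, ℝ × ℂ × ℝ) J ∞ b (l, v, t))
    (hinj : ∀ l ∈ U, ∀ l' ∈ U, ∀ v v' t t', ‖v‖ < r → ‖v'‖ < r → b (l, v, t) = b (l', v', t') →
      v = v' ∧ (∃ m : ℤ, l' = l + m) ∧ ∃ m : ℤ, t' = t + m) {ε : ℝ} (hε : 0 < ε)
    (hgerm : ∀ l ∈ U, ∀ v t, ‖v‖ ≤ ε → κ (l, v, t) = b (l, v, t))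
    (hoff : ∀ l ∈ U, ∀ v t, v ≠ 0 → ‖v‖ < r → ∀ l' t', b (l, v, t) ≠ κ (l', 0, t'))
    (hbO : ∀ l ∈ U, ∀ v t, ‖v‖ < 1 → b (l, v, t) ∈ O) {Fc : Set P}
    (hFc : IsClosed Fc) (hK : ∀ l, l ∉ U → ∀ t, κ (l, 0, t) ∉ Fc) :
    ∃ κ' : ℝ × ℂ × ℝ → P, ThickT J κ' ∧ Equi a κ' ∧ Tube κ' ⊆ O ∧ (∀ l t, κ' (l, 0, t) = κ (l, 0, t)) ∧
      (∀ l v t, ς l = 1 → ‖v‖ < 1 → κ' (l, v, t) = b (l, v, t)) ∧
      (∀ l ∈ U, ∀ v t, ‖v‖ < 1 → ∃ v', ‖v'‖ < 1 ∧ κ' (l, v, t) = b (l, v', t)) ∧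
      (∀ l, l ∉ U → ∀ v t, ‖v‖ < 1 → κ' (l, v, t) ∉ Fc) ∧
      ∀ Q : (ℝ × ℂ × ℝ → P) → Prop, Inv0 J O Q → Q κ → Q κ' := by
  obtain ⟨κ', h1, h2, h3, h4, h5, h6, h7, η, h8, h9⟩ := GluO_all ha hκ hO heq heqb hperb hU hUp hς hςp
    hς01 hςU hr hloc hinj hε hgerm hoff hbO hFc hK
  exact ⟨κ', h1, h2, h3, h4, h5, h6, h7, fun Q hQ h => hQ.germ κ κ' η h8 hκ h1 hO h3 h9 h⟩

end Pool.Agent.LKF
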