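import Pool.Agent.LKF.JtF
import Pool.Agent.RBH.GmM

/-!
# LKF/GmF: the map `Γ = Gm`   (difficulty 3)

Family version of `RBH/GmM.lean`: copy the proofs (`RBH.GmM_dom` can be used as it is).  Whenever `b' a x = b' a' x'` use `bun'.bdisj` to get `a = a'` first.
-/

open scoped Manifold ContDiff Topology
open Set Filter
open Complex (I)
open Pool.Agent.RSG (E4 S4 ex cj c1 c2 ht fh Vx XW BBi)
open Pool.Agent.RBM (ThickT OnT Box frc lamJ muJ DomJ BBs gD)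
open Pool.Agent.RBH (Tube BoxS)

namespace Pool.Agent.LKF

variable {E : Type*} [NormedAddCommGroup E] [NormedSpace ℝ E] {H : Type*} [TopologicalSpace H]
  {J : ModelWithCorners ℝ E H}
  {P : Type*} [TopologicalSpace P] [ChartedSpace H P] {ι α : Type*} {κ κ' : ι → ℝ × ℂ × ℝ → P}
  {b b' : α → ℂ × ℝ × ℝ → P} {c : Cmb ι α} {σ δ : ℝ} {G : Equiv.Perm P}
  {X : Type*} [TopologicalSpace X] [ChartedSpace E4 X] {n j : ι → ℤ}

theorem GmF_box (h : RibF J κ κ' b b' c δ G) {q : P} (hq : q ∈ BoxF b) :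
    (∃ a, ∃ x ∈ DomJ (c.τ a) δ, |x.2.1| < 3 / 4 ∧ q = b a x) ∨
      ∃ (a : α) (z : ℂ) (s t : ℝ), ‖z‖ < 4 ∧ |s| < 1 ∧ G q = b' a (z, s, t) ∧
        (1 / 2 ≤ |s| ∨ (z, s, t) ∉ DomJ (c.τ a) δ) := by
  obtain ⟨a, z, s, t, hz, hs, rfl⟩ := hq
  rcases le_or_gt (1 / 2) |s| with h2 | h2
  · exact Or.inr ⟨a, z, s, t, hz, hs, h.G_ends a z s t hz h2 hs, Or.inl h2⟩
  · by_cases hd : (z, s, t) ∈ DomJ (c.τ a) δ
    · exact Or.inl ⟨a, (z, s, t), hd, by simp only; linarith, rfl⟩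
    · right
      refine ⟨a, z, s, t, hz, hs, ?_, Or.inr hd⟩
      have h3 : ¬ (‖z‖ ≤ 3 → |frc (t - c.τ a s)| < 1 / 2 - δ) := fun hc => hd ⟨hz, hs, hc⟩
      push Not at h3
      have hδ := h.pos
      exact h.G_hole a z s t (by linarith [h3.1]) hs (by linarith [h3.2])

theorem GmF_tube (h : RibF J κ κ' b b' c δ G) {q : P} (hq : q ∈ TubF κ) (hb : q ∉ BoxF b) :
    G q ∈ TubF κ' ∧ G q ∉ BoxF b' := by
  rcases tubF_cases h.bun hq with ⟨a, z, s, t, hz, hs, rfl⟩ | ⟨i, l, v, t, hv, hl, rfl⟩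
  · exact absurd ⟨a, z, s, t, by linarith, hs, rfl⟩ hb
  · rw [h.G_rest i l v t hv hl]
    exact ⟨⟨i, l, v, t, hv, rfl⟩, rest_boxF h.bun' hv hl⟩

theorem g_midF (h : RibF J κ κ' b b' c δ G) (a : α) {z : ℂ} {s t : ℝ} (hz : ‖z‖ < 4) (hs : 1 / 2 ≤ |s|)
    (hs1 : |s| < 1) : G.symm (b' a (z, s, t)) = b a (z, s, t) := by
  rw [Equiv.symm_apply_eq, h.G_ends a z s t hz hs hs1]

theorem g_holeF (h : RibF J κ κ' b b' c δ G) (a : α) {z : ℂ} {s t : ℝ} (hz : ‖z‖ ≤ 13 / 4) (hs : |s| < 1)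
    (ht : 1 / 2 - 2 * δ ≤ |frc (t - c.τ a s)|) : G.symm (b' a (z, s, t)) = b a (z, s, t) := by
  rw [Equiv.symm_apply_eq, h.G_hole a z s t hz hs ht]

theorem good_backF (h : RibF J κ κ' b b' c δ G) {a : α} {x : ℂ × ℝ × ℝ} (hx : x ∈ DomJ (c.τ a) δ)
    (hs : |x.2.1| < 3 / 4) : G.symm (b' a x) ∈ Good κ b c δ := by
  obtain ⟨z, s, t⟩ := x
  simp only at hs
  have hx' := hx
  obtain ⟨hz, hs1, -⟩ := hx'
  simp only at hz hs1
  rcases le_or_gt (1 / 2) |s| with h2 | h2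
  · rw [g_midF h a hz h2 hs1]
    exact Or.inl ⟨a, (z, s, t), hx, hs, rfl⟩
  · by_cases hb : G.symm (b' a (z, s, t)) ∈ BoxF b
    · rcases GmF_box h hb with h3 | ⟨a', z', s', t', hz', hs', he, h3⟩
      · exact Or.inl h3
      · exfalso
        rw [Equiv.apply_symm_apply] at he
        have ea := h.bun'.bdisj _ _ _ _ _ _ _ _ hz hs1 hz' hs' he
        subst ea
        obtain ⟨e1, e2, m, e3⟩ := (h.bun'.box a).inj _ _ _ _ _ _ hz hs1 hz' hs' he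
        subst e1 e2
        rcases h3 with h3 | h3
        · linarith
        · apply h3
          rw [e3]
          have : t = (t + m) + ((-m : ℤ) : ℝ) := by push_cast; ring
          rw [this] at hx
          exact RBH.GmM_dom _ hx
    · right
      refine ⟨fun ht => ?_, hb⟩
      have h3 := (GmF_tube h ht hb).2
      rw [Equiv.apply_symm_apply] at h3
      exact h3 ⟨a, z, s, t, hz, hs1, rfl⟩

theorem good_newF (h : RibF J κ κ' b b' c δ G) {p : P} (h1 : p ∉ BoxF b') (h2 : p ∉ TubF κ') :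
    G.symm p ∈ Good κ b c δ := by
  by_cases hb : G.symm p ∈ BoxF b
  · rcases GmF_box h hb with h3 | ⟨a', z', s', t', hz', hs', he, h3⟩
    · exact Or.inl h3
    · exfalso
      rw [Equiv.apply_symm_apply] at he
      exact h1 ⟨a', z', s', t', hz', hs', he⟩
  · right
    refine ⟨fun ht => ?_, hb⟩
    have h3 := (GmF_tube h ht hb).1
    rw [Equiv.apply_symm_apply] at h3
    exact h2 h3

theorem Gm_imgF (D : TwinF J κ n j X) (h : RibF J κ κ' b b' c δ G) (hσ : DiscOK D b c σ)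
    {a : α} {x : ℂ × ℝ × ℝ} (hx : x ∈ DomJ (c.τ a) δ) (hs : |x.2.1| < 3 / 4) :
    Gm D b b' c σ δ G (Jm D b c σ a x) = Jt D b c σ (G.symm (b' a x)) := by
  have hJ : IsJ D b c σ δ (Jm D b c σ a x) := ⟨(a, x), hx, hs, rfl⟩
  unfold Gm
  rw [dif_pos hJ]
  obtain ⟨h1, h2, h3⟩ := hJ.choose_spec
  generalize hJ.choose = w at h1 h2 h3
  obtain ⟨z, s, t⟩ := x
  obtain ⟨a', z', s', t'⟩ := w
  obtain ⟨ea, e1, e2, m, e3⟩ := Jm_injF D h.bun hσ h.pos hx h1 h3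
  subst ea e1 e2
  show Jt D b c σ (G.symm (b' a (z, s, t'))) = Jt D b c σ (G.symm (b' a (z, s, t)))
  rw [e3, RBM.box_int (h.bun'.box a)]

theorem Gm_outF (D : TwinF J κ n j X) (b b' : α → ℂ × ℝ × ℝ → P) (c : Cmb ι α) (σ δ : ℝ)
    (G : Equiv.Perm P) {x : X} (hx : ¬ IsJ D b c σ δ x) : Gm D b b' c σ δ G x = x := by
  unfold Gm
  rw [dif_neg hx]

theorem Gm_endsF (D : TwinF J κ n j X) (h : RibF J κ κ' b b' c δ G) (hσ : DiscOK D b c σ)
    {a : α} {x : ℂ × ℝ × ℝ} (hx : x ∈ DomJ (c.τ a) δ) (hs : |x.2.1| < 3 / 4) (hs2 : 1 / 2 ≤ |x.2.1|) :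
    Gm D b b' c σ δ G (Jm D b c σ a x) = Jm D b c σ a x := by
  rw [Gm_imgF D h hσ hx hs]
  obtain ⟨z, s, t⟩ := x
  rw [g_midF h a hx.1 hs2 hx.2.1, JtF_box D h.bun σ a t hx.1 hs]

theorem Gm_holeF (D : TwinF J κ n j X) (h : RibF J κ κ' b b' c δ G) (hσ : DiscOK D b c σ)
    {a : α} {x : ℂ × ℝ × ℝ} (hx : x ∈ DomJ (c.τ a) δ) (hs : |x.2.1| < 3 / 4) (hz : ‖x.1‖ ≤ 13 / 4)
    (ht : 1 / 2 - 2 * δ ≤ |frc (x.2.2 - c.τ a x.2.1)|) :
    Gm D b b' c σ δ G (Jm D b c σ a x) = Jm D b c σ a x := by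
  rw [Gm_imgF D h hσ hx hs]
  obtain ⟨z, s, t⟩ := x
  rw [g_holeF h a hz hx.2.1 ht, JtF_box D h.bun σ a t hx.1 hs]

/-- a point of `Old` which is not an image of `Jm` is not a value of `Jt` on `Good` -/
theorem GmF_old (D : TwinF J κ n j X) (h : RibF J κ κ' b b' c δ G)
    {x : X} (hx : x ∈ Old D b) (hJ : ¬ IsJ D b c σ δ x) {q : P} (hq : q ∈ Good κ b c δ) :
    x ≠ Jt D b c σ q := by
  intro he
  rcases hq with ⟨a, ⟨z, s, t⟩, ha, hs, rfl⟩ | ⟨h1, h2⟩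
  · rw [JtF_box D h.bun σ a t ha.1 hs] at he
    exact hJ ⟨(a, z, s, t), ha, hs, he⟩
  · have h3 : Jt D b c σ q = D.A q := by
      apply JtF_out
      intro a z s t hz hs hc
      exact h2 ⟨a, z, s, t, hz, by linarith, hc⟩
    have h4 : ¬ OnF κ q := fun hc => h1 (torus_tubF hc)
    rw [h3] at he
    rcases hx with ⟨p, hp1, hp2, hp3⟩ | ⟨i, z, hz, hz2⟩
    · rw [hp3] at he
      have h5 := D.A_inj _ _ hp1 h4 he
      rw [h5] at hp2
      rcases hp2 with hp2 | hp2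
      · exact h2 hp2
      · exact h1 hp2
    · rw [hz2] at he
      exact A_Q_tubF D h.bun.link hz h1 he.symm

theorem Gm_JtF (D : TwinF J κ n j X) (h : RibF J κ κ' b b' c δ G) (hσ : DiscOK D b c σ)
    {x : X} (hx : x ∈ Old D b) {q : P} (hq : q ∈ Good κ b c δ)
    (hne : ∀ (a : α) (y : ℂ × ℝ × ℝ), y ∈ DomJ (c.τ a) δ → |y.2.1| < 3 / 4 → q ≠ G.symm (b' a y)) :
    Gm D b b' c σ δ G x ≠ Jt D b c σ q := by
  by_cases hJ : IsJ D b c σ δ x
  · obtain ⟨⟨a, y⟩, ha, hs, rfl⟩ := hJ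
    rw [Gm_imgF D h hσ ha hs]
    intro he
    exact hne a y ha hs (Jt_injF D h.bun hσ h.pos (good_backF h ha hs) hq he).symm
  · rw [Gm_outF D b b' c σ δ G hJ]
    exact GmF_old D h hx hJ hq

theorem Gm_injF (D : TwinF J κ n j X) (h : RibF J κ κ' b b' c δ G) (hσ : DiscOK D b c σ)
    {x x' : X} (hx : x ∈ Old D b) (hx' : x' ∈ Old D b)
    (he : Gm D b b' c σ δ G x = Gm D b b' c σ δ G x') : x = x' := by
  by_cases hJ : IsJ D b c σ δ x
  · obtain ⟨⟨a, y⟩, ha, hs, rfl⟩ := hJ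
    by_cases hJ' : IsJ D b c σ δ x'
    · obtain ⟨⟨a', y'⟩, ha', hs', rfl⟩ := hJ'
      rw [Gm_imgF D h hσ ha hs, Gm_imgF D h hσ ha' hs'] at he
      have h1 := Jt_injF D h.bun hσ h.pos (good_backF h ha hs) (good_backF h ha' hs') he
      have h2 : b' a y = b' a' y' := G.symm.injective h1
      obtain ⟨z, s, t⟩ := y
      obtain ⟨z', s', t'⟩ := y'
      have ea := h.bun'.bdisj _ _ _ _ _ _ _ _ ha.1 ha.2.1 ha'.1 ha'.2.1 h2
      subst ea
      obtain ⟨e1, e2, m, e3⟩ := (h.bun'.box a).inj _ _ _ _ _ _ ha.1 ha.2.1 ha'.1 ha'.2.1 h2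
      simp only at e1 e2 e3
      subst e1 e2
      rw [e3]
      exact (Jm_intF D h.bun σ a z s t m).symm
    · rw [Gm_outF D b b' c σ δ G hJ', Gm_imgF D h hσ ha hs] at he
      exact absurd he.symm (GmF_old D h hx' hJ' (good_backF h ha hs))
  · rw [Gm_outF D b b' c σ δ G hJ] at he
    by_cases hJ' : IsJ D b c σ δ x'
    · obtain ⟨⟨a', y'⟩, ha', hs', rfl⟩ := hJ'
      rw [Gm_imgF D h hσ ha' hs'] at he
      exact absurd he (GmF_old D h hx hJ (good_backF h ha' hs'))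
    · rw [Gm_outF D b b' c σ δ G hJ'] at he
      exact he

end Pool.Agent.LKF
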