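import Pool.Agent.LKF.GmF
import Pool.Agent.RBH.GmL

/-!
# LKF/GmlF: `Γ` is a local diffeomorphism at the points of `Old`   (difficulty 3)

Family version of `RBH/GmL.lean`: copy the proofs.  The compact set of the parameters is `RBH.GmL_K (c.τ a) δ` for every `a` (`RBH.GmL_K_compact`, `RBH.GmL_K_dom`), and the closed set is the finite union over `a`
of the images `Jm D b c σ a '' GmL_K (c.τ a) δ`.  The neighbourhood which does not meet the points `D.A (b a (z, s, t))`, `7/2 ≤ ‖z‖`, `|s| ≤ 1/2`, for ALL `a`: `x = D.Q i w`: image of `D.Q i` (`Q_boxF`).  `x = D.A p₀`, `p₀ = b a₀ x₀` in a box: the image of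
`V` under `D.A ∘ b a₀` (`Ab_injF` also gives `a = a₀`).  `x = D.A p₀`, `p₀ ∈ TubF κ`: the image of `TubF κ` minus the tori (`tubF_open`, `torF_closed`), `kap_box_normF`.
-/

open scoped Manifold ContDiff Topology
open Set Filter
open Complex (I)
open Pool.Agent.RSG (E4 S4 ex cj c1 c2 ht fh Vx XW BBi)
open Pool.Agent.RBM (ThickT OnT Box frc lamJ muJ DomJ BBs gD)
open Pool.Agent.RBH (Tube BoxS)

namespace Pool.Agent.LKF

variable {E : Type*} [NormedAddCommGroup E] [NormedSpace ℝ E] {H : Type*} [TopologicalSpace H]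
  {J : ModelWithCorners ℝ E H}
  {P : Type*} [TopologicalSpace P] [ChartedSpace H P] {ι α : Type*} {κ κ' : ι → ℝ × ℂ × ℝ → P}
  {b b' : α → ℂ × ℝ × ℝ → P} {c : Cmb ι α} {σ δ : ℝ} {G : Equiv.Perm P}
  {X : Type*} [TopologicalSpace X] [ChartedSpace E4 X] {n j : ι → ℤ}

/-- a neighbourhood of `x` which does not meet the images of the points with `7/2 ≤ ‖z‖`, `|s| ≤ 1/2` -/
theorem GmlF_nhd [T2Space P] [Finite ι] (D : TwinF J κ n j X) (h : RibF J κ κ' b b' c δ G)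
    {x : X} (hx : x ∈ Old D b) (hJ : ¬ IsJ D b c σ δ x) :
    ∃ U ∈ 𝓝 x, ∀ (a : α) (z : ℂ) (s t : ℝ), 7 / 2 ≤ ‖z‖ → ‖z‖ < 4 → |s| ≤ 1 / 2 → D.A (b a (z, s, t)) ∉ U := by
  rcases hx with ⟨p, hp, hpb | hpt, rfl⟩ | ⟨i, w, hw, rfl⟩
  · obtain ⟨a₀, z₀, s₀, t₀, hz₀, hs₀, rfl⟩ := hpb
    have hne : z₀ ≠ 1 ∧ z₀ ≠ -1 := by
      constructor
      · intro hc
        exact hp ((box_torusF h.bun hz₀ hs₀).2 (Or.inl hc))
      · intro hc
        exact hp ((box_torusF h.bun hz₀ hs₀).2 (Or.inr hc))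
    have hV : IsOpen {a : ℂ × ℝ × ℝ | ‖a.1‖ < 4 ∧ |a.2.1| < 1 ∧ a.1 ≠ 1 ∧ a.1 ≠ -1 ∧
        (‖a.1‖ < 7 / 2 ∨ 1 / 2 < |a.2.1|)} := by
      have hc1 : Continuous fun a : ℂ × ℝ × ℝ => ‖a.1‖ := by fun_prop
      have hc2 : Continuous fun a : ℂ × ℝ × ℝ => |a.2.1| := by fun_prop
      have hc3 : Continuous fun a : ℂ × ℝ × ℝ => a.1 := by fun_prop
      refine (isOpen_lt hc1 continuous_const).inter ((isOpen_lt hc2 continuous_const).inter
        ((isOpen_ne_fun hc3 continuous_const).inter ((isOpen_ne_fun hc3 continuous_const).inter ?_)))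
      exact (isOpen_lt hc1 continuous_const).union (isOpen_lt continuous_const hc2)
    have hmem : (z₀, s₀, t₀) ∈ {a : ℂ × ℝ × ℝ | ‖a.1‖ < 4 ∧ |a.2.1| < 1 ∧ a.1 ≠ 1 ∧ a.1 ≠ -1 ∧
        (‖a.1‖ < 7 / 2 ∨ 1 / 2 < |a.2.1|)} := by
      refine ⟨hz₀, hs₀, hne.1, hne.2, ?_⟩
      by_contra hcon
      push Not at hcon
      obtain ⟨h1, h2⟩ := hcon
      simp only at h1 h2
      apply hJ
      refine ⟨(a₀, z₀, s₀, t₀), ⟨hz₀, hs₀, fun h3 => ?_⟩, ?_, ?_⟩
      · simp only at h3; linarith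
      · simp only; linarith
      · simp only
        unfold Jm
        rw [if_neg (by simp only; linarith), if_neg (by simp only; linarith)]
    refine ⟨(fun x => D.A (b a₀ x)) '' _, CSG.ld_image_nhds (Ab_ldF D h.bun a₀ hz₀ hs₀ hne.1 hne.2)
      (hV.mem_nhds hmem), ?_⟩
    rintro a z s t h1 h2 h3 ⟨⟨z', s', t'⟩, ⟨g1, g2, g3, g4, g5⟩, he⟩
    simp only at g1 g2 g3 g4 g5 he
    have hne2 := RBM.JmB_ne (z := z) (by linarith)
    obtain ⟨-, e1, e2, -⟩ := Ab_injF D h.bun g1 g2 g3 g4 h2 (by linarith) hne2.1 hne2.2 he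
    subst e1 e2
    rcases g5 with g5 | g5 <;> linarith
  · have hV : IsOpen (TubF κ ∩ {q : P | ¬ OnF κ q}) :=
      (tubF_open h.bun.link.thick).inter (torF_closed h.bun.link.thick).isOpen_compl
    refine ⟨D.A '' (TubF κ ∩ {q : P | ¬ OnF κ q}), CSG.ld_image_nhds (D.A_loc p hp)
      (hV.mem_nhds ⟨hpt, hp⟩), ?_⟩
    rintro a z s t h1 h2 h3 ⟨q, ⟨hq1, hq2⟩, he⟩
    have hne2 := RBM.JmB_ne (z := z) (by linarith)
    have h4 := D.A_inj _ _ hq2 (DCaF_not h.bun h2 (by linarith) hne2.1 hne2.2) he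
    obtain ⟨i, l, v, t', hv, hq3⟩ := hq1
    rw [hq3] at h4
    have h5 := kap_box_normF h.bun hv h2 (by linarith) h4
    linarith
  · have hV : IsOpen {z : S4 | fh z ≠ 0} :=
      isOpen_ne_fun Pool.Agent.RSG.fh_smooth.continuous continuous_const
    refine ⟨D.Q i '' {z : S4 | fh z ≠ 0}, CSG.ld_image_nhds (D.Q_loc i w hw) (hV.mem_nhds hw), ?_⟩
    rintro a z s t h1 h2 h3 ⟨w', hw', he⟩
    have hne2 := RBM.JmB_ne (z := z) (by linarith)
    have h5 := Q_boxF D h.bun hw' h2 (by linarith) (DCaF_not h.bun h2 (by linarith) hne2.1 hne2.2) he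
    linarith

theorem Gm_id_evF [T2Space P] [T2Space X] [Finite ι] [Finite α] (D : TwinF J κ n j X) (h : RibF J κ κ' b b' c δ G)
    (hσ : DiscOK D b c σ) {x : X} (hx : x ∈ Old D b) (hJ : ¬ IsJ D b c σ δ x) :
    ∀ᶠ y in 𝓝 x, Gm D b b' c σ δ G y = y := by
  obtain ⟨U, hU, hU2⟩ := GmlF_nhd (σ := σ) D h hx hJ
  have hK0 : ∀ a, IsCompact (Jm D b c σ a '' RBH.GmL_K (c.τ a) δ) := by
    intro a
    refine (RBH.GmL_K_compact (h.tau a).continuous δ).image_of_continuousOn ?_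
    intro y hy
    exact (CSG.ld_continuousAt (Jm_locF D h.bun hσ a (h.tau a) h.pos
      (RBH.GmL_K_dom h.pos hy).1)).continuousWithinAt
  have hK1 : IsClosed (⋃ a, Jm D b c σ a '' RBH.GmL_K (c.τ a) δ) :=
    isClosed_iUnion_of_finite fun a => (hK0 a).isClosed
  have hxK : x ∉ ⋃ a, Jm D b c σ a '' RBH.GmL_K (c.τ a) δ := by
    intro hc
    obtain ⟨a, y, hy, rfl⟩ := mem_iUnion.1 hc
    exact hJ ⟨(a, y), (RBH.GmL_K_dom h.pos hy).1, (RBH.GmL_K_dom h.pos hy).2, rfl⟩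
  filter_upwards [hK1.isOpen_compl.mem_nhds hxK, hU] with y hy1 hy2
  by_cases hJy : IsJ D b c σ δ y
  · obtain ⟨⟨a, z, s, t⟩, ha, hs, rfl⟩ := hJy
    simp only at hs ha hy1 hy2 ⊢
    rcases le_or_gt (1 / 2) |s| with h2 | h2
    · exact Gm_endsF D h hσ ha hs h2
    · by_cases h3 : ‖z‖ ≤ 13 / 4 ∧ 1 / 2 - 2 * δ ≤ |frc (t - c.τ a s)|
      · exact Gm_holeF D h hσ ha hs h3.1 h3.2
      · exfalso
        rcases le_or_gt (7 / 2) ‖z‖ with h4 | h4
        · have h5 : Jm D b c σ a (z, s, t) = D.A (b a (z, s, t)) := by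
            unfold Jm
            rw [if_neg (by simp only; linarith), if_neg (by simp only; linarith)]
          rw [h5] at hy2
          exact hU2 a z s t h4 ha.1 h2.le hy2
        · apply hy1
          refine mem_iUnion.2 ⟨a, (z, s, Int.fract t), ⟨h4.le, h2.le, Int.fract_nonneg t, (Int.fract_lt_one t).le, ?_⟩, ?_⟩
          · simp only
            by_cases h5 : ‖z‖ ≤ 13 / 4
            · right
              have h6 : |frc (t - c.τ a s)| < 1 / 2 - 2 * δ := by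
                by_contra hc
                push Not at hc
                exact h3 ⟨h5, hc⟩
              have h7 : t - c.τ a s = (Int.fract t - c.τ a s) + (⌊t⌋ : ℤ) := by
                have := Int.floor_add_fract t
                linarith
              rw [h7, RBM.frc_add_int] at h6
              exact h6.le
            · left
              push Not at h5
              exact h5.le
          · have h7 : t = Int.fract t + (⌊t⌋ : ℤ) := (Int.fract_add_floor t).symm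
            conv_rhs => rw [h7]
            rw [Jm_intF D h.bun]
  · exact Gm_outF D b b' c σ δ G hJy

theorem Gm_ldF [T2Space P] [T2Space X] [Finite ι] [Finite α] (D : TwinF J κ n j X) (h : RibF J κ κ' b b' c δ G)
    (hσ : DiscOK D b c σ) {x : X} (hx : x ∈ Old D b) :
    IsLocalDiffeomorphAt (𝓡 4) (𝓡 4) ∞ (Gm D b b' c σ δ G) x := by
  by_cases hJ : IsJ D b c σ δ x
  · obtain ⟨⟨a, z, s, t⟩, ha, hs, rfl⟩ := hJ
    simp only at ha hs ⊢
    refine CSG.ld_of_comp_left (f := Jm D b c σ a) (g := Gm D b b' c σ δ G)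
      (x := (z, s, t)) ?_ (Jm_locF D h.bun hσ a (h.tau a) h.pos ha)
    have h1 := (h.bun'.box a).loc z s t ha.1 ha.2.1
    have h2 : IsLocalDiffeomorphAt J J ∞ G.symm (b' a (z, s, t)) := by
      have := RBM.ld_symm (h.G_ld (G.symm (b' a (z, s, t))))
      rw [Equiv.apply_symm_apply] at this
      exact this
    have h3 := Jt_ldF D h.bun hσ h.tau h.pos (good_backF h ha hs)
    have h12 : IsLocalDiffeomorphAt 𝓘(ℝ, ℂ × ℝ × ℝ) J ∞ (G.symm ∘ b' a) (z, s, t) :=
      IsLocalDiffeomorphAt.comp (hf := h1) (hg := h2) ..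
    have h123 : IsLocalDiffeomorphAt 𝓘(ℝ, ℂ × ℝ × ℝ) (𝓡 4) ∞ (Jt D b c σ ∘ (G.symm ∘ b' a))
        (z, s, t) := IsLocalDiffeomorphAt.comp (hf := h12) (hg := h3) ..
    refine CSG.ld_congr h123 ?_
    have hc2 : Continuous fun a : ℂ × ℝ × ℝ => |a.2.1| := by fun_prop
    filter_upwards [(RBH.DomJ_open (h.tau a).continuous δ).mem_nhds ha,
      (isOpen_lt hc2 continuous_const).mem_nhds hs] with y ha1 ha2
    simp only [Function.comp]
    exact Gm_imgF D h hσ ha1 ha2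
  · exact CSG.ld_congr (CSG.ld_id x) (Gm_id_evF D h hσ hx hJ)

end Pool.Agent.LKF
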