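import Pool.Agent.LKF.Def2
import Pool.Agent.KNH.HolM

/-!
# LKF/HolN: the diffeomorphism `G`, supported in the time interval `(1/8, 7/8)`   (difficulty 2)

Copy the proofs of `HolM_move` and `exists_hole` (file KNH/HolM.lean; all other lemmas can be used) with the open set `O = interior Mp × {t | ∃ k : ℤ, 1/8 < t - k ∧ t - k < 7/8}` instead of `interior Mp × ℝ`: `HolM_e β w₀ σ l ((z, s), t') = (.., s / 4 + 1 / 2 + t')` and on
`C` (`|s| ≤ 1/4`, `|t'| ≤ 2 δ ≤ 1/32`) the last coordinate is in `[1/2 - 3/32, 1/2 + 3/32]`.  `O` is open and invariant under `Λ`.  If `|t| ≤ 1/8` then `(x, t) + m ∉ O` for all `m`, so `F (x, t) = (x, t)`.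
-/

open scoped Manifold ContDiff Topology
open Set Filter
open Complex (I)
open Pool.Agent.CSG (stp)
open Pool.Agent.RSG (E4 S3 S4 ex cj c1 c2 ht fh pS3)
open Pool.Agent.RBM (ThickT OnT Box frc)
open Pool.Agent.RBH (Tube BoxS)
open Pool.Agent.PTH (SP ISP Act)
open Pool.Agent.COR (Equi EquiB BBox OutW PosAt half dv dt PerS)
open Pool.Agent.KNT (Dom BalC Tubes Str Str2 CD)
open Pool.Agent.KNH (rot Hat circ pb Emb Fam ThinOK thn bx)
open Pool.Agent.CLG (io pol)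

namespace Pool.Agent.LKF

universe u

/-- the times in the middle of the period -/
def HolN_T : Set ℝ := {t | ∃ k : ℤ, 1 / 8 < t - k ∧ t - k < 7 / 8}

theorem HolN_open : IsOpen HolN_T := by
  have h : HolN_T = ⋃ k : ℤ, {t : ℝ | 1 / 8 < t - k ∧ t - k < 7 / 8} := by
    ext t
    simp only [HolN_T, mem_setOf_eq, mem_iUnion]
  rw [h]
  refine isOpen_iUnion fun k => ?_
  have h1 : IsOpen {t : ℝ | 1 / 8 < t - k} := isOpen_lt continuous_const (by fun_prop)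
  have h2 : IsOpen {t : ℝ | t - k < 7 / 8} := isOpen_lt (by fun_prop) continuous_const
  exact h1.inter h2

theorem HolN_mem {δ : ℝ} (hd : δ ≤ 1 / 64) {x : (ℂ × ℝ) × ℝ} (h1 : |x.1.2| ≤ 1 / 4) (h2 : |x.2| ≤ 2 * δ) :
    KNH.HolM_T x + 1 / 2 ∈ HolN_T := by
  rw [KNH.HolM_T_apply]
  rw [abs_le] at h1 h2
  refine ⟨0, ?_, ?_⟩ <;> push_cast <;> linarith

theorem HolN_not {t : ℝ} (ht : |t| ≤ 1 / 8) (n : ℤ) (h : t + (n : ℝ) ∈ HolN_T) : False := by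
  obtain ⟨k, h1, h2⟩ := h
  rw [abs_le] at ht
  have h3 : ((n - k : ℤ) : ℝ) = (n : ℝ) - k := by push_cast; ring
  rcases le_or_gt (n - k) 0 with h4 | h4
  · have h5 : ((n - k : ℤ) : ℝ) ≤ 0 := by exact_mod_cast h4
    rw [h3] at h5
    linarith
  · have h5 : (1 : ℝ) ≤ ((n - k : ℤ) : ℝ) := by exact_mod_cast h4
    rw [h3] at h5
    linarith

/-- the isotopy in `(ℂ × ℝ) × ℝ` -/
theorem HolN_move {β : ℝ → ℂ × ℝ → ℂ × ℝ} {Y : Set (ℂ × ℝ)} (h : Fam β Y) {w₀ δ : ℝ} (hw : ThinOK β w₀ δ)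
    {Mp : Set (ℂ × ℝ)} (hM : ∀ l ∈ Icc (0 : ℝ) 1, ∀ q : ℂ × ℝ, ‖q.1‖ ≤ 4 → |q.2| ≤ 1 / 8 →
      β l (thn w₀ q) ∈ interior Mp) {σ : ℝ} (hσ : σ = 1 ∨ σ = -1) :
    ∃ F : Equiv.Perm ((ℂ × ℝ) × ℝ), ISO.Move KNH.HolM_Lam (interior Mp ×ˢ HolN_T) F ∧
      ∀ x : (ℂ × ℝ) × ℝ, ‖x.1.1‖ ≤ 13 / 4 → |x.1.2| < 1 → |x.2| ≤ 2 * δ →
        F (KNH.HolM_e β w₀ σ 0 x) = KNH.HolM_e β w₀ σ 1 x := by
  have hd0 := hw.d_pos
  set W : Set ((ℂ × ℝ) × ℝ) := {x | ‖x.1.1‖ < 4 ∧ |x.1.2| < 1 ∧ |x.2| < 3 * δ} with hWd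
  set C : Set ((ℂ × ℝ) × ℝ) := (Metric.closedBall (0 : ℂ) (13 / 4) ×ˢ Icc (-(1 / 4) : ℝ) (1 / 4)) ×ˢ
    Icc (-(2 * δ)) (2 * δ) with hCd
  have hC : IsCompact C := ((isCompact_closedBall _ _).prod isCompact_Icc).prod isCompact_Icc
  have hmC : ∀ x : (ℂ × ℝ) × ℝ, x ∈ C ↔ ‖x.1.1‖ ≤ 13 / 4 ∧ |x.1.2| ≤ 1 / 4 ∧ |x.2| ≤ 2 * δ := by
    intro x
    rw [hCd, mem_prod, mem_prod, mem_closedBall_zero_iff, mem_Icc, mem_Icc, ← abs_le, ← abs_le,
      and_assoc]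
  have hCW : C ⊆ W := by
    intro x hx
    obtain ⟨h1, h2, h3⟩ := (hmC x).1 hx
    exact ⟨by linarith, by linarith, by linarith⟩
  have hW : IsOpen W := by
    have h1 : IsOpen {x : (ℂ × ℝ) × ℝ | ‖x.1.1‖ < 4} := isOpen_lt (by fun_prop) continuous_const
    have h2 : IsOpen {x : (ℂ × ℝ) × ℝ | |x.1.2| < 1} := isOpen_lt (by fun_prop) continuous_const
    have h3 : IsOpen {x : (ℂ × ℝ) × ℝ | |x.2| < 3 * δ} := isOpen_lt (by fun_prop) continuous_const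
    exact h1.inter (h2.inter h3)
  have hfixend : ∀ l ∈ Icc (0 : ℝ) 1, ∀ x : (ℂ × ℝ) × ℝ, 1 / 4 ≤ |x.1.2| →
      KNH.HolM_e β w₀ σ l x = KNH.HolM_e β w₀ σ 0 x := by
    intro l hl x hx
    unfold KNH.HolM_e
    rw [h.ends l hl (thn w₀ (KNH.HolM_L σ x)) (by
      show 1 / 8 ≤ |x.1.2 / 2|
      rw [abs_div]
      norm_num
      linarith)]
  obtain ⟨F, Uo, hF, -, hCU, hFU, hst⟩ := ISO.cod0 KNH.HolM_lat (Λ' := ⊥) (O := interior Mp ×ˢ HolN_T)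
    (isOpen_interior.prod HolN_open) hW (by
      intro x hx m hm
      rw [AddSubgroup.mem_bot] at hm
      rw [hm, add_zero]
      exact hx) (e := KNH.HolM_e β w₀ σ) (by
      intro l hl x _
      have h2 := h.smooth l hl (thn w₀ (KNH.HolM_L σ x))
      have h3 : ContDiffAt ℝ ∞ (fun q : ℝ × ((ℂ × ℝ) × ℝ) =>
          ((q.1, thn w₀ (KNH.HolM_L σ q.2)) : ℝ × (ℂ × ℝ))) (l, x) := by
        have h4 : ContDiff ℝ ∞ (fun q : ℝ × ((ℂ × ℝ) × ℝ) => thn w₀ (KNH.HolM_L σ q.2)) :=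
          (KNH.thn_smooth w₀).comp ((KNH.HolM_L σ).contDiff.comp contDiff_snd)
        exact (contDiff_fst.prodMk h4).contDiffAt
      have h5 : ContDiff ℝ ∞ (fun q : ℝ × ((ℂ × ℝ) × ℝ) => KNH.HolM_T q.2 + 1 / 2) :=
        (KNH.HolM_T.contDiff.comp contDiff_snd).add contDiff_const
      exact (ContDiffAt.comp (l, x) h2 h3).prodMk h5.contDiffAt) (by
      intro m' hm'
      rw [AddSubgroup.mem_bot] at hm'
      refine ⟨0, zero_mem _, fun s _ x _ => ?_⟩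
      rw [hm', add_zero, add_zero]) hC hCW (by
      intro l hl x _
      exact KNH.HolM_bij h hw.w_pos hw.w_le hσ hl x) (by
      intro l hl x hx x' hx' m hm he
      refine ⟨0, zero_mem _, ?_⟩
      rw [add_zero]
      exact KNH.HolM_inj hw hσ hl hm (hCW hx) (hCW hx') he) (by
      intro l hl x hx
      obtain ⟨h1, h2, h2'⟩ := (hmC x).1 hx
      refine mem_prod.2 ⟨hM l hl (KNH.HolM_L σ x) ?_ ?_, HolN_mem hw.d_le h2 h2'⟩
      · show ‖cj σ x.1.1‖ ≤ 4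
        rw [RSG.cj_norm hσ]
        linarith
      · show |x.1.2 / 2| ≤ 1 / 8
        rw [abs_div]
        norm_num
        linarith)
  refine ⟨F, hF, ?_⟩
  intro x h1 h2 h3
  rcases le_or_gt |x.1.2| (1 / 4) with h4 | h4
  · exact hFU x (hCU ((hmC x).2 ⟨h1, h4, h3⟩))
  · have hxW : x ∈ W := ⟨by linarith, h2, by linarith⟩
    rw [hfixend 1 ⟨zero_le_one, le_rfl⟩ x h4.le]
    apply hst
    intro l hl x' hx' m hm he l' hl'
    rw [← hfixend l hl x h4.le] at he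
    have e1 : x' = x := KNH.HolM_inj hw hσ hl hm hx' hxW he
    rw [e1] at he
    have e2 : m = 0 := by
      have := he
      rw [left_eq_add] at this
      exact this
    rw [e1, e2, add_zero, hfixend l' hl' x h4.le]

theorem exists_holeN {β : ℝ → ℂ × ℝ → ℂ × ℝ} {Y : Set (ℂ × ℝ)} (h : Fam β Y) {w₀ δ : ℝ} (hw : ThinOK β w₀ δ)
    {Mp : Set (ℂ × ℝ)} (hM : ∀ l ∈ Icc (0 : ℝ) 1, ∀ q : ℂ × ℝ, ‖q.1‖ ≤ 4 → |q.2| ≤ 1 / 8 →
      β l (thn w₀ q) ∈ interior Mp) {σ : ℝ} (hσ : σ = 1 ∨ σ = -1) :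
    ∃ G : Equiv.Perm SP, (∀ p, IsLocalDiffeomorphAt ISP ISP ∞ G p) ∧ (∀ p : SP, p.1 ∉ io '' Mp → G p = p) ∧
      (∀ (x : S3) (t : ℝ), |t| ≤ 1 / 8 → G (x, circ t) = (x, circ t)) ∧
      ∀ (z : ℂ) (s t : ℝ), ‖z‖ ≤ 13 / 4 → |s| < 1 → 1 / 2 - 2 * δ ≤ |frc (t - s / 4)| →
        G (half σ (pb fun q => β 0 (thn w₀ q)) (z, s, t)) = half σ (pb fun q => β 1 (thn w₀ q)) (z, s, t) := by
  obtain ⟨F, hF, hFe⟩ := HolN_move h hw hM hσ
  have hcp : ∀ (t : ℝ) (n : ℤ), circ (t + n) = circ t := by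
    intro t n
    rw [KNH.circ_add, KNH.circ_int, mul_one]
  obtain ⟨G, hG1, hG2, hG3⟩ := KNH.ext_perm (P := SP) (IP := ISP) (Λ := KNH.HolM_Lam)
    (β := fun q : (ℂ × ℝ) × ℝ => ((io q.1, circ q.2) : SP)) (O := univ) isOpen_univ
    (fun _ _ _ _ => mem_univ _) (by
      intro x _ m hm
      obtain ⟨n, rfl⟩ := KNH.HolM_mem.1 hm
      refine Prod.ext ?_ ?_
      · show io (x.1 + 0) = io x.1
        rw [add_zero]
      · show circ (x.2 + n) = circ x.2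
        exact hcp x.2 n) (fun x _ => KNH.iot_ld x) (by
      intro x _ x' _ he
      obtain ⟨e1, n, e2⟩ := KNH.iot_inj he
      refine ⟨((0 : ℂ × ℝ), (n : ℝ)), KNH.HolM_mem.2 ⟨n, rfl⟩, ?_⟩
      refine Prod.ext ?_ ?_
      · show x'.1 = x.1 + 0
        rw [add_zero]
        exact e1
      · exact e2) (hF.mono (subset_univ _))
  refine ⟨G, hG1, ?_, ?_, ?_⟩
  · intro p hp
    by_cases hpol : p.1 = pol
    · apply hG3
      rintro ⟨q, -, hq⟩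
      apply KNH.io_ne_pol q.1
      rw [← hpol, ← hq]
    · obtain ⟨q, hq⟩ := KNH.io_surj hpol
      obtain ⟨t, ht⟩ := KNH.circ_surj p.2
      have e : p = (fun q : (ℂ × ℝ) × ℝ => ((io q.1, circ q.2) : SP)) (q, t) :=
        Prod.ext hq.symm ht.symm
      have hfix : F (q, t) = (q, t) := by
        obtain ⟨C, -, hCO, hCf⟩ := hF.supp
        apply hCf
        intro m hm hc
        obtain ⟨n, rfl⟩ := KNH.HolM_mem.1 hm
        have h1 := (mem_prod.1 (hCO hc)).1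
        have h2 : q + 0 ∈ Mp := interior_subset h1
        rw [add_zero] at h2
        exact hp ⟨q, h2, hq⟩
      rw [e, hG2 _ (mem_univ _), hfix]
  · intro x t hx
    by_cases hpol : x = pol
    · apply hG3
      rintro ⟨q, -, hq⟩
      apply KNH.io_ne_pol q.1
      rw [← hpol]
      exact congrArg Prod.fst hq
    · obtain ⟨q, hq⟩ := KNH.io_surj hpol
      have e : ((x, circ t) : SP) = (fun q : (ℂ × ℝ) × ℝ => ((io q.1, circ q.2) : SP)) (q, t) :=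
        Prod.ext hq.symm rfl
      have hfix : F (q, t) = (q, t) := by
        obtain ⟨C, -, hCO, hCf⟩ := hF.supp
        apply hCf
        intro m hm hc
        obtain ⟨n, rfl⟩ := KNH.HolM_mem.1 hm
        have h1 := (mem_prod.1 (hCO hc)).2
        exact HolN_not hx n h1
      rw [e, hG2 _ (mem_univ _), hfix]
  · intro z s t hz hs ht
    obtain ⟨t', k, h1, h2⟩ := KNH.HolM_frc ht
    have e0 : ∀ l : ℝ, half σ (pb fun q => β l (thn w₀ q)) (z, s, t) =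
        (fun q : (ℂ × ℝ) × ℝ => ((io q.1, circ q.2) : SP)) (KNH.HolM_e β w₀ σ l ((z, s), t')) := by
      intro l
      refine Prod.ext rfl ?_
      show circ t = circ (s / 4 + t' + 1 / 2)
      rw [← hcp (s / 4 + t' + 1 / 2) k]
      congr 1
      linarith
    rw [e0, e0, hG2 _ (mem_univ _), hFe _ hz hs h1]

end Pool.Agent.LKF
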