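import Pool.Agent.LKF.SwF
import Pool.Agent.KNH.HomM

/-!
# LKF/HomF: the hypotheses of the ribbon theorem for families   (difficulty 3)

Family version of KNH/HomM.lean (copy the proof of `rib_hom`).  `B i q = β i (thn w₀ q)` (`i = 0, 1`), charts `opt (B 0) γ`, `opt (B 1) γ` (index `Option α`; `none`: the moving box, `some a`: fixed boxes `γ a`).
New: the boxes `γ a`: `G` fixes their ends (`hMγ`: `1/2 ≤ |s| < 1` means `1/4 ≤ |s/2|`), and their holes: `τ = 1/2`: `1/2 - 2δ ≤ |frc (t - 1/2)|` implies that `t = m + t'` with `|t'| ≤ 2 δ ≤ 1/32` (`KNH.HolM_frc`), so `circ t = circ t'` and `hG4`.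
`hrest` of `swap_bunF` for the boxes `some a`: from `hb.rest` (`b' = b`).  `hd'`: `h1`, `hγd`.
`G_rest`: case (b) of `hr`: the point `pb (opt (B 0) γ a) (z₂, s₂, t₂)`, `1/2 ≤ |s₂| < 1`, is not in `io '' Mp` by `hMp`, `hMγ`.
-/

open scoped Manifold ContDiff Topology
open Set Filter
open Complex (I)
open Pool.Agent.CSG (stp)
open Pool.Agent.RSG (E4 S3 S4 ex cj c1 c2 ht fh pS3)
open Pool.Agent.RBM (ThickT OnT Box frc)
open Pool.Agent.RBH (Tube BoxS)
open Pool.Agent.PTH (SP ISP Act)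
open Pool.Agent.COR (Equi EquiB BBox OutW PosAt half dv dt PerS)
open Pool.Agent.KNT (Dom BalC Tubes Str Str2 CD)
open Pool.Agent.KNH (rot Hat circ pb Emb Fam ThinOK thn bx)
open Pool.Agent.CLG (io pol)

namespace Pool.Agent.LKF

universe u

theorem HomF_frc {x δ : ℝ} (h : 1 / 2 - 2 * δ ≤ |frc x|) :
    ∃ (t' : ℝ) (k : ℤ), |t'| ≤ 2 * δ ∧ x = 1 / 2 + t' + k := by
  have h1 : |frc x| ≤ 1 / 2 := abs_sub_round x
  have h2 : x = frc x + round x := by
    unfold RBM.frc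
    ring
  rcases le_or_gt 0 (frc x) with h3 | h3
  · rw [abs_of_nonneg h3] at h h1
    refine ⟨frc x - 1 / 2, round x, ?_, ?_⟩
    · rw [abs_le]
      constructor <;> linarith
    · linarith
  · rw [abs_of_neg h3] at h h1
    refine ⟨frc x + 1 / 2, round x - 1, ?_, ?_⟩
    · rw [abs_le]
      constructor <;> linarith
    · push_cast
      linarith

theorem rib_homF {ι α : Type*} {β : ℝ → ℂ × ℝ → ℂ × ℝ} {Y : Set (ℂ × ℝ)} (h : Fam β Y) {w₀ δ : ℝ} (hw : ThinOK β w₀ δ)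
    {γ : α → ℂ × ℝ → ℂ × ℝ} (hγ : ∀ a, Emb (γ a)) (hγd : ∀ a a' q q', γ a q = γ a' q' → a = a')
    (h0 : ∀ q a q', β 0 q ≠ γ a q') (h1 : ∀ q a q', β 1 q ≠ γ a q') {Mp : Set (ℂ × ℝ)}
    (hMp : ∀ q : ℂ × ℝ, ‖q.1‖ ≤ 5 → 1 / 4 ≤ |q.2| → |q.2| ≤ 1 → β 0 (thn w₀ q) ∉ Mp)
    (hMγ : ∀ (a : α) (q : ℂ × ℝ), ‖q.1‖ ≤ 5 → 1 / 4 ≤ |q.2| → |q.2| ≤ 1 → γ a q ∉ Mp)
    {κ : ι → ℝ × ℂ × ℝ → SP} {i k : Option α → ι} {e₁ e₂ : Option α → ℝ}
    (hb : BunF ISP κ (fun a => half 1 (pb (opt (fun q => β 0 (thn w₀ q)) γ a)))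
      ⟨i, k, e₁, e₂, opt (fun s => s / 4) (fun _ _ => 1 / 2)⟩)
    (hr : ∀ (m : ι) (l : ℝ) (v : ℂ) (t : ℝ), ‖v‖ < 1 → RestF ⟨i, k, e₁, e₂, opt (fun s => s / 4) (fun _ _ => 1 / 2)⟩ m l →
      (κ m (l, v, t)).1 ∉ io '' (Mp ∪ (fun q => β 1 (thn w₀ q)) '' {q | ‖q.1‖ ≤ 5 ∧ |q.2| ≤ 1 / 4}) ∨
      ∃ (a : Option α) (z : ℂ) (s t' : ℝ), ‖z‖ < 4 ∧ 1 / 2 ≤ |s| ∧ |s| < 1 ∧
        κ m (l, v, t) = pb (opt (fun q => β 0 (thn w₀ q)) γ a) (z, s, t'))
    {G : Equiv.Perm SP} (hG1 : ∀ p, IsLocalDiffeomorphAt ISP ISP ∞ G p)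
    (hG2 : ∀ p : SP, p.1 ∉ io '' Mp → G p = p)
    (hG3 : ∀ (z : ℂ) (s t : ℝ), ‖z‖ ≤ 13 / 4 → |s| < 1 → 1 / 2 - 2 * δ ≤ |frc (t - s / 4)| →
        G (half 1 (pb fun q => β 0 (thn w₀ q)) (z, s, t)) = half 1 (pb fun q => β 1 (thn w₀ q)) (z, s, t))
    (hG4 : ∀ (x : S3) (t : ℝ), |t| ≤ 1 / 8 → G (x, circ t) = (x, circ t)) :
    RibF ISP κ
      (swpF (fun a => half 1 (pb (opt (fun q => β 0 (thn w₀ q)) γ a)))
        (fun a => half 1 (pb (opt (fun q => β 1 (thn w₀ q)) γ a))) κ)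
      (fun a => half 1 (pb (opt (fun q => β 0 (thn w₀ q)) γ a)))
      (fun a => half 1 (pb (opt (fun q => β 1 (thn w₀ q)) γ a)))
      ⟨i, k, e₁, e₂, opt (fun s => s / 4) (fun _ _ => 1 / 2)⟩ δ G := by
  have hσ : (1 : ℝ) = 1 ∨ (1 : ℝ) = -1 := Or.inl rfl
  have hE1 : Emb fun q => β 1 (thn w₀ q) := KNH.thn_emb (KNH.fam_emb1 h) hw.w_pos hw.w_le
  have hEa : ∀ a, Emb (opt (fun q => β 1 (thn w₀ q)) γ a) := by
    intro a
    cases a with
    | none => exact hE1
    | some a => exact hγ a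
  have hB' : ∀ a, Box ISP (half 1 (pb (opt (fun q => β 1 (thn w₀ q)) γ a))) 4 :=
    fun a => KNH.HomM_half (KNH.pb_box (hEa a) 4) hσ
  -- the two charts agree for `1/8 ≤ |u|`
  have hag : ∀ q : ℂ × ℝ, 1 / 8 ≤ |q.2| → β 1 (thn w₀ q) = β 0 (thn w₀ q) := by
    intro q hq
    exact h.ends 1 ⟨zero_le_one, le_rfl⟩ (thn w₀ q) hq
  have hagp : ∀ (a : Option α) (z : ℂ) (s t : ℝ), 1 / 8 ≤ |s| →
      pb (opt (fun q => β 1 (thn w₀ q)) γ a) (z, s, t) = pb (opt (fun q => β 0 (thn w₀ q)) γ a) (z, s, t) := by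
    intro a z s t hs
    cases a with
    | none =>
      show ((io (β 1 (thn w₀ (z, s))), circ t) : SP) = (io (β 0 (thn w₀ (z, s))), circ t)
      rw [hag (z, s) hs]
    | some a => rfl
  have habs : ∀ s : ℝ, |s / 2| = |s| / 2 := by
    intro s
    rw [abs_div]
    norm_num
  -- disjointness of the charts
  have hdj : ∀ (a a' : Option α) (q q' : ℂ × ℝ), opt (fun q => β 1 (thn w₀ q)) γ a q =
      opt (fun q => β 1 (thn w₀ q)) γ a' q' → a = a' := by
    intro a a' q q' he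
    cases a with
    | none =>
      cases a' with
      | none => rfl
      | some a' => exact absurd he (h1 _ _ _)
    | some a =>
      cases a' with
      | none => exact absurd he.symm (h1 _ _ _)
      | some a' => rw [hγd a a' q q' he]
  have hd' : ∀ (a a' : Option α) (z : ℂ) (s t : ℝ) (z' : ℂ) (s' t' : ℝ), ‖z‖ < 4 → |s| < 1 → ‖z'‖ < 4 → |s'| < 1 →
      half 1 (pb (opt (fun q => β 1 (thn w₀ q)) γ a)) (z, s, t) =
        half 1 (pb (opt (fun q => β 1 (thn w₀ q)) γ a')) (z', s', t') → a = a' := by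
    intro a a' z s t z' s' t' _ _ _ _ he
    exact hdj a a' _ _ (CLG.io_inj (congrArg Prod.fst he))
  have hends : ∀ (a : Option α) (z : ℂ) (s t : ℝ), ‖z‖ < 4 → 1 / 4 ≤ |s| → |s| < 1 →
      half 1 (pb (opt (fun q => β 1 (thn w₀ q)) γ a)) (z, s, t) =
        half 1 (pb (opt (fun q => β 0 (thn w₀ q)) γ a)) (z, s, t) := by
    intro a z s t _ hs _
    refine hagp a _ _ _ ?_
    rw [habs]
    linarith
  have hrest : ∀ (m : ι) (l : ℝ) (v : ℂ) (t : ℝ), ‖v‖ < 1 →
      RestF ⟨i, k, e₁, e₂, opt (fun s => s / 4) (fun _ _ => 1 / 2)⟩ m l →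
      ∀ (a : Option α) (z : ℂ) (s t' : ℝ), ‖z‖ < 4 → |s| < 1 →
      κ m (l, v, t) ≠ half 1 (pb (opt (fun q => β 1 (thn w₀ q)) γ a)) (z, s, t') := by
    intro m l v t hv hl a z s t' hz hs he
    cases a with
    | some a => exact hb.rest m l v t hv hl (some a) z s t' hz hs he
    | none =>
      have he' : κ m (l, v, t) = pb (fun q => β 1 (thn w₀ q)) (cj 1 z, s / 2, t') := he
      rcases hr m l v t hv hl with h1' | ⟨a₂, z₂, s₂, t₂, h2, h3, h4, h5⟩
      · have h6 : 1 / 4 < |s / 2| := by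
          by_contra hc
          apply h1'
          refine ⟨β 1 (thn w₀ (cj 1 z, s / 2)), Or.inr ⟨(cj 1 z, s / 2), ⟨?_, not_lt.1 hc⟩, rfl⟩, ?_⟩
          · show ‖cj 1 z‖ ≤ 5
            rw [RSG.cj_norm hσ]
            linarith
          · rw [he']
            rfl
        refine hb.rest m l v t hv hl none z s t' hz hs ?_
        rw [he']
        exact hagp none _ _ _ (by linarith)
      · rw [h5, ← hagp a₂ _ _ _ (by linarith)] at he'
        have h6 : opt (fun q => β 1 (thn w₀ q)) γ a₂ (z₂, s₂) = β 1 (thn w₀ (cj 1 z, s / 2)) :=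
          CLG.io_inj (congrArg Prod.fst he')
        cases a₂ with
        | some a₂ => exact h1 _ _ _ h6.symm
        | none =>
          have h7 : ((z₂, s₂) : ℂ × ℝ) = (cj 1 z, s / 2) := hE1.inj h6
          have h8 : s₂ = s / 2 := congrArg Prod.snd h7
          rw [h8, habs] at h3
          linarith
  obtain ⟨hbun', hRest⟩ := swap_bunF (b' := fun a => half 1 (pb (opt (fun q => β 1 (thn w₀ q)) γ a)))
    hb hB' hd' hends hrest
  have hfix : ∀ (a : Option α) (z : ℂ) (s t : ℝ), ‖z‖ ≤ 5 → 1 / 4 ≤ |s| → |s| ≤ 1 →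
      G (pb (opt (fun q => β 0 (thn w₀ q)) γ a) (z, s, t)) = pb (opt (fun q => β 0 (thn w₀ q)) γ a) (z, s, t) := by
    intro a z s t hz hs hs1
    apply hG2
    rintro ⟨m, hm, hm'⟩
    have h2 : m = opt (fun q => β 0 (thn w₀ q)) γ a (z, s) := CLG.io_inj hm'
    rw [h2] at hm
    cases a with
    | none => exact hMp (z, s) hz hs hs1 hm
    | some a => exact hMγ a (z, s) hz hs hs1 hm
  exact
    { bun := hb
      bun' := hbun'
      tau := by
        intro a
        cases a with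
        | none => exact contDiff_id.div_const 4
        | some a => exact contDiff_const
      pos := hw.d_pos
      G_ld := hG1
      G_rest := by
        intro m l v t hv hl
        rw [hRest m l v t hv hl]
        rcases hr m l v t hv hl with h1' | ⟨a₂, z₂, s₂, t₂, h2, h3, h4, h5⟩
        · apply hG2
          rintro ⟨m, hm, hm'⟩
          exact h1' ⟨m, Or.inl hm, hm'⟩
        · rw [h5]
          exact hfix a₂ z₂ s₂ t₂ (by linarith) (by linarith) h4.le
      G_ends := by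
        intro a z s t hz hs hs1
        rw [hends a z s t hz (by linarith) hs1]
        refine hfix a _ _ _ ?_ ?_ ?_
        · rw [RSG.cj_norm hσ]
          linarith
        · rw [habs]
          linarith
        · rw [habs]
          linarith
      G_hole := by
        intro a z s t hz hs ht
        cases a with
        | none => exact hG3 z s t hz hs ht
        | some a =>
          have ht' : 1 / 2 - 2 * δ ≤ |frc (t - 1 / 2)| := ht
          obtain ⟨t', k, h2, h3⟩ := HomF_frc ht'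
          have h4 : circ t = circ t' := by
            rw [KNH.circ_eq]
            exact ⟨k + 1, by push_cast; linarith⟩
          show G (io (γ a (cj 1 z, s / 2)), circ t) = (io (γ a (cj 1 z, s / 2)), circ t)
          rw [h4]
          refine hG4 _ _ (h2.trans ?_)
          linarith [hw.d_le] }

end Pool.Agent.LKF
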