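import Pool.Agent.LKF.Def2
import Pool.Agent.COR.Rep

/-!
# LKF/RepO: reparametrisation of a thick torus, in `O`   (difficulty 2)

Copy `COR.rep` (file COR/Rep.lean; `COR.thick_rep` can be used).  The diffeomorphism `F` given by `kap_move` is the identity off the tube of `κ`, which is contained in `O`: `hQ.diff`; then `hQ.germ` (the tube of `F ∘ κ` is the tube of `κ`
(`F (κ q) = κ (H q)`, `H` preserves `‖v‖ < 1`), and the tube of `κ (φ l, v, t)` is the tube of `κ`).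
`Tube κ = {p | ∃ l v t, ‖v‖ < 1 ∧ p = κ (l, v, t)}`.
-/

open scoped Manifold ContDiff Topology
open Set Filter
open Complex (I)
open Pool.Agent.CSG (stp)
open Pool.Agent.RSG (E4 S3 S4 ex cj c1 c2 ht fh pS3)
open Pool.Agent.RBM (ThickT OnT Box frc)
open Pool.Agent.RBH (Tube BoxS)
open Pool.Agent.PTH (SP ISP Act)
open Pool.Agent.COR (Equi EquiB BBox OutW PosAt half dv dt PerS)
open Pool.Agent.KNT (Dom BalC Tubes Str Str2 CD)
open Pool.Agent.KNH (rot Hat circ pb Emb Fam ThinOK thn bx)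
open Pool.Agent.CLG (io pol)

namespace Pool.Agent.LKF

universe u

variable {E : Type*} [NormedAddCommGroup E] [NormedSpace ℝ E] {H : Type*} [TopologicalSpace H]
  {J : ModelWithCorners ℝ E H} {P : Type*} [TopologicalSpace P] [ChartedSpace H P]

theorem tube_rep {κ : ℝ × ℂ × ℝ → P} (φ : ℝ → ℝ) : Tube (fun q => κ (φ q.1, q.2)) ⊆ Tube κ := by
  rintro p ⟨l, v, t, hv, rfl⟩
  exact ⟨φ l, v, t, hv, rfl⟩

theorem tube_mir {κ : ℝ × ℂ × ℝ → P} : Tube (fun q => κ (q.1, (starRingEnd ℂ) q.2.1, q.2.2)) ⊆ Tube κ := by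
  rintro p ⟨l, v, t, hv, rfl⟩
  exact ⟨l, (starRingEnd ℂ) v, t, by rw [RCLike.norm_conj]; exact hv, rfl⟩

theorem tube_twi {κ : ℝ × ℂ × ℝ → P} (g : ℝ → ℝ) : Tube (fun q => κ (q.1, q.2.1 * ex (g q.1), q.2.2)) ⊆ Tube κ := by
  rintro p ⟨l, v, t, hv, rfl⟩
  exact ⟨l, v * ex (g l), t, by rw [norm_mul, RSG.ex_norm, mul_one]; exact hv, rfl⟩

theorem repO [T2Space P] {O : Set P} {Q : (ℝ × ℂ × ℝ → P) → Prop} (hQ : Inv0 J O Q) {κ : ℝ × ℂ × ℝ → P} (hκ : ThickT J κ)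
    (hO : Tube κ ⊆ O) {φ : ℝ → ℝ} (hφ : ContDiff ℝ ∞ φ) (hφ1 : ∀ l, φ (l + 1) = φ l + 1) (hφ' : ∀ l, 0 < deriv φ l)
    (h : Q κ) : Q (fun q => κ (φ q.1, q.2)) := by
  obtain ⟨χ, hχ⟩ : ∃ χ : ℂ → ℝ, χ = SPI.cutb (1 / 8) := ⟨_, rfl⟩
  have hχs : ContDiff ℝ ∞ χ := by
    rw [hχ]
    exact SPI.cutb_smooth (1 / 8)
  have hχ0 : ∀ v, 0 ≤ χ v := fun v => by rw [hχ]; exact SPI.cutb_nonneg _ _
  have hχ1 : ∀ v, χ v ≤ 1 := fun v => by rw [hχ]; exact SPI.cutb_le_one _ _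
  have hχin : ∀ v, ‖v‖ < 1 / 8 → χ v = 1 := fun v hv => by
    rw [hχ]
    exact SPI.cutb_one (by norm_num) hv.le
  have hχout : ∀ v, 1 / 4 ≤ ‖v‖ → χ v = 0 := fun v hv => by
    rw [hχ]
    exact SPI.cutb_zero (by norm_num) (by linarith)
  obtain ⟨g, hg⟩ : ∃ g : ℂ → ℝ → ℝ, g = fun v l => l + χ v * (φ l - l) := ⟨_, rfl⟩
  have hdφ : ∀ l, HasDerivAt φ (deriv φ l) l := fun l =>
    (hφ.differentiable (by simp) l).hasDerivAt
  have hgd : ∀ v l, HasDerivAt (g v) (1 + χ v * (deriv φ l - 1)) l := by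
    intro v l
    rw [hg]
    exact (hasDerivAt_id l).add (((hdφ l).sub (hasDerivAt_id l)).const_mul (χ v))
  have hgpos : ∀ v l, 0 < deriv (g v) l := by
    intro v l
    rw [(hgd v l).deriv]
    have h0 := hχ0 v
    have h1 := hχ1 v
    have h2 := hφ' l
    rcases h0.eq_or_lt with h3 | h3
    · rw [← h3]
      norm_num
    · have h4 := mul_pos h3 h2
      have : 1 + χ v * (deriv φ l - 1) = (1 - χ v) + χ v * deriv φ l := by ring
      rw [this]
      linarith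
  have hgm : ∀ v, StrictMono (g v) := fun v => strictMono_of_deriv_pos (hgpos v)
  have hgc : ∀ v, Continuous (g v) := fun v =>
    continuous_iff_continuousAt.2 fun l => (hgd v l).continuousAt
  have hg1 : ∀ v l, g v (l + 1) = g v l + 1 := by
    intro v l
    rw [hg]
    simp only [hφ1]
    ring
  have hgs : ∀ v y, ∃ l, g v l = y := by
    intro v y
    obtain ⟨N, hN⟩ := exists_nat_ge (|y - g v 0|)
    have hN2 := abs_le.mp hN
    have e1 := COR.Rep_int (hg1 v) 0 (N : ℤ)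
    have e2 := COR.Rep_int (hg1 v) 0 (-(N : ℤ))
    push_cast at e1 e2
    have := mem_range_of_exists_le_of_exists_ge (hgc v) (c := y)
      ⟨0 + -(N : ℝ), by rw [e2]; linarith [hN2.1]⟩ ⟨0 + (N : ℝ), by rw [e1]; linarith [hN2.2]⟩
    exact this
  have hbij : Function.Bijective (fun q : ℝ × ℂ × ℝ => (g q.2.1 q.1, q.2)) := by
    constructor
    · rintro ⟨l, v, t⟩ ⟨l', v', t'⟩ h
      simp only [Prod.mk.injEq] at h
      obtain ⟨h1, rfl, rfl⟩ := h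
      rw [(hgm v).injective h1]
    · rintro ⟨y, v, t⟩
      obtain ⟨l, hl⟩ := hgs v y
      exact ⟨(l, v, t), by simp only [hl]⟩
  obtain ⟨H, hH⟩ : ∃ H : Equiv.Perm (ℝ × ℂ × ℝ), ∀ q, H q = (g q.2.1 q.1, q.2) :=
    ⟨Equiv.ofBijective _ hbij, fun q => rfl⟩
  have hHf : (H : ℝ × ℂ × ℝ → ℝ × ℂ × ℝ) = fun q => (g q.2.1 q.1, q.2) := funext hH
  have hfs : ContDiff ℝ ∞ fun q : ℝ × ℂ × ℝ => g q.2.1 q.1 := by
    rw [hg]
    have a1 : ContDiff ℝ ∞ fun q : ℝ × ℂ × ℝ => χ q.2.1 := hχs.comp (contDiff_fst.comp contDiff_snd)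
    have a2 : ContDiff ℝ ∞ fun q : ℝ × ℂ × ℝ => φ q.1 := hφ.comp contDiff_fst
    exact contDiff_fst.add (a1.mul (a2.sub contDiff_fst))
  have hHs : ContDiff ℝ ∞ H := by
    rw [hHf]
    exact hfs.prodMk contDiff_snd
  have hHld : ∀ q, IsLocalDiffeomorphAt 𝓘(ℝ, ℝ × ℂ × ℝ) 𝓘(ℝ, ℝ × ℂ × ℝ) ∞ H q := by
    intro q
    rw [hHf]
    exact COR.Rep_ld hfs (fun l v t => hgpos v l) q
  have hHs' : ContDiff ℝ ∞ H.symm := by
    rw [contDiff_iff_contDiffAt]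
    intro y
    have h1 := Pool.Agent.RBM.ld_symm (hHld (H.symm y))
    rw [Equiv.apply_symm_apply] at h1
    exact h1.contMDiffAt.contDiffAt
  obtain ⟨F, hF, hFκ, hFo, -⟩ := COR.kap_move hκ hHs hHs'
    (by
      intro l v t
      rw [hH, hH]
      show (g v (l + 1), v, t) = _
      rw [hg1]
      simp)
    (by
      intro l v t u
      rw [hH, hH]
      simp) (R := 1 / 4) (by norm_num)
    (by
      intro l v t hv
      rw [hH]
      show (g v l, v, t) = _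
      rw [hg]
      simp only [hχout v hv]
      simp)
  have hoff : ∀ p, p ∉ O → F p = p := by
    intro p hp
    refine hFo p fun l v t hv e => hp (hO ⟨l, v, t, hv, e.symm⟩)
  have h1 := hQ.diff κ F hF hoff hκ hO h
  refine hQ.germ _ _ (1 / 8) (by norm_num) (COR.ThickT_diffeo F hF hκ) (COR.thick_rep hκ hφ hφ1 hφ') ?_
    ((tube_rep φ).trans hO) ?_ h1
  · rintro p ⟨l, v, t, hv, rfl⟩
    show F (κ (l, v, t)) ∈ O
    rw [hFκ l v t hv, hH]
    exact hO ⟨g v l, v, t, hv, rfl⟩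
  · intro l v t hv
    show κ (φ l, v, t) = F (κ (l, v, t))
    rw [hFκ l v t (by linarith), hH]
    show _ = κ (g v l, v, t)
    rw [hg]
    simp only [hχin v hv, one_mul, add_sub_cancel]

end Pool.Agent.LKF
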