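import Pool.Agent.LKF.DokF
import Pool.Agent.LKF.AplF
import Pool.Agent.LKF.ApiF

/-!
# LKF/RibT: the ribbon homotopy theorem for a family of boxes (assembly, complete)
-/

open scoped Manifold ContDiff Topology
open Set Filter
open Complex (I)
open Pool.Agent.RSG (E4 S4 ex cj c1 c2 ht fh Vx XW BBi)
open Pool.Agent.RBM (ThickT OnT Box frc lamJ muJ DomJ BBs gD)
open Pool.Agent.RBH (Tube BoxS)

namespace Pool.Agent.LKF

variable {E : Type*} [NormedAddCommGroup E] [NormedSpace ℝ E] {H : Type*} [TopologicalSpace H]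
  {J : ModelWithCorners ℝ E H}
  {P : Type*} [TopologicalSpace P] [ChartedSpace H P] {ι α : Type*} {κ κ' : ι → ℝ × ℂ × ℝ → P}
  {b b' : α → ℂ × ℝ × ℝ → P} {c : Cmb ι α} {σ δ : ℝ} {G : Equiv.Perm P}
  {X : Type*} [TopologicalSpace X] [ChartedSpace E4 X] {n j : ι → ℤ}

/-- **Ribbon homotopy**, several boxes and several tori. -/
theorem rib_family [T2Space P] [T2Space X] [Finite ι] [Finite α] (h : RibF J κ κ' b b' c δ G) (n j : ι → ℤ)
    (hX : Nonempty (TwinF J κ n j X)) : Nonempty (TwinF J κ' n j X) := by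
  obtain ⟨D⟩ := hX
  obtain ⟨σ, hσ⟩ := exists_discF D h.bun
  exact ⟨{
    A := Ap D κ' b b' c σ δ G
    Q := fun i z => Gm D b b' c σ δ G (D.Q i z)
    A_loc := fun p hp => Ap_ldF D h hσ hp
    A_inj := fun p p' hp hp' he => Ap_injF D h hσ hp hp' he
    Q_loc := fun i z hz => Qp_ldF D h hσ hz
    Q_inj := fun i z i' z' hz hz' he => D.Q_inj i z i' z' hz hz'
      (Gm_injF D h hσ (Or.inr ⟨i, z, hz, rfl⟩) (Or.inr ⟨i', z', hz', rfl⟩) he)
    glue := by
      intro i z l m t h1 h2 h3 h4 h5 h6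
      rw [D.glue i z l m t h1 h2 h3 h4 h5 h6, ApF_tube D h σ t (RSG.glue_norm h1 m)]
    disj := fun i z p hz hc hp => Ap_disjF D h hσ hz hc hp
    cover := fun x => Ap_coverF D h hσ x }⟩

end Pool.Agent.LKF
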