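import Pool.Agent.LKF.Def2
import Pool.Agent.COR.Frm
import Pool.Agent.KNH.RevQ

/-!
# LKF/SymF: framing, mirror image and reversal of one of the tori   (difficulty 3)

Copy `COR.frame`, `COR.mirror` (file COR/Frm.lean), `KNH.rev_twin` (file KNH/RevQ.lean) with an index: `A' = A`, `Q' i z = Q i z` for `i ≠ i₀`, `Q' i₀ z = Q i₀ (Ψ z)`, with the same `Ψ` (`Frm_sw`, `RevQ_sw`, ..: the lemmas
about `Ψ` can be used directly; the ones inside the proof of `frame` have to be copied).  `OnF` is the same for the two families.  Write one auxiliary theorem for a general `Ψ : S4 → S4` (bijective on `{fh ≠ 0}`,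
local diffeomorphism there, preserving `{fh ≠ 0}` and `{c1 = 0 ∨ c2 = 0}`) and apply it three times: hypotheses `glue` at `i₀` only.
-/

open scoped Manifold ContDiff Topology
open Set Filter
open Complex (I)
open Pool.Agent.CSG (stp)
open Pool.Agent.RSG (E4 S3 S4 ex cj c1 c2 ht fh pS3)
open Pool.Agent.RBM (ThickT OnT Box frc)
open Pool.Agent.RBH (Tube BoxS)
open Pool.Agent.PTH (SP ISP Act)
open Pool.Agent.COR (Equi EquiB BBox OutW PosAt half dv dt PerS)
open Pool.Agent.KNT (Dom BalC Tubes Str Str2 CD)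
open Pool.Agent.KNH (rot Hat circ pb Emb Fam ThinOK thn bx)
open Pool.Agent.CLG (io pol)

namespace Pool.Agent.LKF

universe u

variable {E : Type*} [NormedAddCommGroup E] [NormedSpace ℝ E] {H : Type*} [TopologicalSpace H]
  {J : ModelWithCorners ℝ E H} {P : Type*} [TopologicalSpace P] [ChartedSpace H P]

variable {ι : Type*} {κ : ι → ℝ × ℂ × ℝ → P} {n j : ι → ℤ} {X : Type u} [TopologicalSpace X] [ChartedSpace E4 X]

open Classical in
/-- change of the twin number `i₀` by `Ψ` -/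
theorem SymF_aux {κ κ' : ι → ℝ × ℂ × ℝ → P} {n n' j j' : ι → ℤ} (i₀ : ι)
    (hκ : ∀ i, i ≠ i₀ → κ' i = κ i) (hn : ∀ i, i ≠ i₀ → n' i = n i) (hj : ∀ i, i ≠ i₀ → j' i = j i)
    (hon : ∀ p, OnT (κ' i₀) p ↔ OnT (κ i₀) p) (D : TwinF J κ n j X) (Ψ Ψ' : S4 → S4)
    (hf : ∀ z, fh z ≠ 0 → fh (Ψ z) ≠ 0) (hf' : ∀ z, fh z ≠ 0 → fh (Ψ' z) ≠ 0)
    (hΨ : ∀ z, fh z ≠ 0 → Ψ (Ψ' z) = z) (hΨ' : ∀ z, fh z ≠ 0 → Ψ' (Ψ z) = z)
    (hld : ∀ z, fh z ≠ 0 → IsLocalDiffeomorphAt (𝓡 4) (𝓡 4) ∞ Ψ z)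
    (hc : ∀ z, fh z ≠ 0 → c1 z = 0 ∨ c2 z = 0 → c1 (Ψ z) = 0 ∨ c2 (Ψ z) = 0)
    (hglue : ∀ (z : S4) (l m t : ℝ), fh z ≠ 0 → c1 z ≠ 0 → c2 z ≠ 0 →
      c1 z = ‖c1 z‖ * ex (m + (1 - j' i₀) * t) → c2 z = ‖c2 z‖ * ex (m - j' i₀ * t) →
      fh z = ‖fh z‖ * ex (l - n' i₀ * t) →
      D.Q i₀ (Ψ z) = D.A (κ' i₀ (l, (2 * ‖c1 z‖ * ‖c2 z‖ : ℝ) * ex m, t))) :
    Nonempty (TwinF J κ' n' j' X) := by
  have hOn : ∀ p, OnF κ' p ↔ OnF κ p := by
    intro p
    unfold OnF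
    refine exists_congr fun i => ?_
    by_cases hi : i = i₀
    · subst hi; exact hon p
    · rw [hκ i hi]
  obtain ⟨Φ, hΦ⟩ : ∃ Φ : ι → S4 → S4, Φ = fun i z => if i = i₀ then Ψ z else z := ⟨_, rfl⟩
  have hΦ0 : ∀ z, Φ i₀ z = Ψ z := fun z => by rw [hΦ]; exact if_pos rfl
  have hΦ1 : ∀ i, i ≠ i₀ → ∀ z, Φ i z = z := fun i hi z => by rw [hΦ]; exact if_neg hi
  have hΦf : ∀ i z, fh z ≠ 0 → fh (Φ i z) ≠ 0 := by
    intro i z hz
    by_cases hi : i = i₀
    · subst hi; rw [hΦ0]; exact hf z hz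
    · rw [hΦ1 i hi]; exact hz
  have hΦi : ∀ i z z', fh z ≠ 0 → fh z' ≠ 0 → Φ i z = Φ i z' → z = z' := by
    intro i z z' hz hz' e
    by_cases hi : i = i₀
    · subst hi
      rw [hΦ0, hΦ0] at e
      rw [← hΨ' z hz, e, hΨ' z' hz']
    · rw [hΦ1 i hi, hΦ1 i hi] at e; exact e
  have hΦs : ∀ i z, fh z ≠ 0 → ∃ z', fh z' ≠ 0 ∧ Φ i z' = z := by
    intro i z hz
    by_cases hi : i = i₀
    · subst hi; exact ⟨Ψ' z, hf' z hz, by rw [hΦ0, hΨ z hz]⟩
    · exact ⟨z, hz, hΦ1 i hi z⟩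
  refine ⟨{ A := D.A
            Q := fun i z => D.Q i (Φ i z)
            A_loc := fun p hp => D.A_loc p (fun h => hp ((hOn p).2 h))
            A_inj := fun p p' hp hp' he => D.A_inj p p' (fun h => hp ((hOn p).2 h))
              (fun h => hp' ((hOn p').2 h)) he
            Q_loc := ?_
            Q_inj := ?_
            glue := ?_
            disj := ?_
            cover := ?_ }⟩
  · intro i z hz
    by_cases hi : i = i₀
    · subst hi
      have e : (fun z => D.Q i (Φ i z)) = fun z => D.Q i (Ψ z) := by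
        funext z; rw [hΦ0]
      rw [e]
      exact IsLocalDiffeomorphAt.comp (hf := hld z hz) (g := D.Q i) (hg := D.Q_loc i _ (hf z hz))
    · have e : (fun z => D.Q i (Φ i z)) = D.Q i := by
        funext z; rw [hΦ1 i hi]
      rw [e]
      exact D.Q_loc i z hz
  · intro i z i' z' hz hz' he
    obtain ⟨rfl, h1⟩ := D.Q_inj i _ i' _ (hΦf i z hz) (hΦf i' z' hz') he
    exact ⟨rfl, hΦi i z z' hz hz' h1⟩
  · intro i z l m t hz h1 h2 e1 e2 e3
    by_cases hi : i = i₀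
    · subst hi
      show D.Q i (Φ i z) = _
      rw [hΦ0]
      exact hglue z l m t hz h1 h2 e1 e2 e3
    · show D.Q i (Φ i z) = _
      rw [hΦ1 i hi, hκ i hi]
      rw [hj i hi] at e1 e2
      rw [hn i hi] at e3
      exact D.glue i z l m t hz h1 h2 e1 e2 e3
  · intro i z p hz hz0 hp
    by_cases hi : i = i₀
    · subst hi
      show D.Q i (Φ i z) ≠ _
      rw [hΦ0]
      exact D.disj i (Ψ z) p (hf z hz) (hc z hz hz0) (fun h => hp ((hOn p).2 h))
    · show D.Q i (Φ i z) ≠ _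
      rw [hΦ1 i hi]
      exact D.disj i z p hz hz0 (fun h => hp ((hOn p).2 h))
  · intro q
    rcases D.cover q with ⟨p, h1, h2⟩ | ⟨i, z, h1, h2⟩
    · exact Or.inl ⟨p, fun h => h1 ((hOn p).1 h), h2⟩
    · obtain ⟨z', hz', e⟩ := hΦs i z h1
      exact Or.inr ⟨i, z', hz', by rw [e]; exact h2⟩

open Classical in
theorem frameF (h : LinkT J κ) (i₀ : ι) (k : ℤ)
    (D : TwinF J (Function.update κ i₀ fun q => κ i₀ (q.1, q.2.1 * ex (k * q.1), q.2.2)) n j X) :
    Nonempty (TwinF J κ n (Function.update j i₀ (j i₀ + k * n i₀)) X) := by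
  have _ := h
  have hf6 : ∀ (i : ℤ) {z : S4}, fh z ≠ 0 → fh (Pool.Agent.RSG.bQ i z) ≠ 0 := by
    intro i z hz
    rw [(Pool.Agent.RSG.bQ_spec i hz).2.2.2.2.2]
    exact hz
  refine SymF_aux i₀ (fun i hi => (Function.update_of_ne hi _ _).symm) (fun i _ => rfl)
    (fun i hi => Function.update_of_ne hi _ _) ?_ D (Pool.Agent.RSG.bQ (-k)) (Pool.Agent.RSG.bQ k)
    (fun z hz => hf6 _ hz) (fun z hz => hf6 _ hz) (fun z hz => ?_) (fun z hz => ?_)
    (fun z hz => Pool.Agent.RSG.bQ_ld (-k) hz) ?_ ?_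
  · intro p
    rw [Function.update_self]
    exact (COR.Frm_on (κ i₀) k p).symm
  · exact Pool.Agent.RSG.bQ_comp k hz
  · have := Pool.Agent.RSG.bQ_comp (-k) hz
    rwa [neg_neg] at this
  · intro z hz hz0
    obtain ⟨b1, b2, b3, b4, b5, b6⟩ := Pool.Agent.RSG.bQ_spec (-k) hz
    rw [b1, b2]
    exact hz0.imp (fun h => by rw [h, zero_mul]) (fun h => by rw [h, zero_mul])
  · intro z l m t hf h1 h2 e1 e2 e3
    rw [Function.update_self] at e1 e2
    obtain ⟨b1, b2, b3, b4, b5, b6⟩ := Pool.Agent.RSG.bQ_spec (-k) hf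
    have p3 : 0 < ‖fh z‖ := norm_pos_iff.2 hf
    have hω : fh z / ‖fh z‖ = ex (l - n i₀ * t) := by
      have h3 : (‖fh z‖ : ℂ) ≠ 0 := by exact_mod_cast p3.ne'
      rw [div_eq_iff h3]
      exact e3.trans (mul_comm _ _)
    have g1 : c1 (Pool.Agent.RSG.bQ (-k) z) ≠ 0 := by
      rw [← norm_pos_iff, b4]; exact norm_pos_iff.2 h1
    have g2 : c2 (Pool.Agent.RSG.bQ (-k) z) ≠ 0 := by
      rw [← norm_pos_iff, b5]; exact norm_pos_iff.2 h2
    have key := D.glue i₀ (Pool.Agent.RSG.bQ (-k) z) l (m - k * l) t (hf6 _ hf) g1 g2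
      (by
        rw [b4, b1, hω, Pool.Agent.RSG.Base_zpow]
        conv_lhs => rw [e1]
        rw [mul_assoc, ← Pool.Agent.RSG.ex_add]
        congr 2
        push_cast
        ring)
      (by
        rw [b5, b2, hω, Pool.Agent.RSG.Base_zpow]
        conv_lhs => rw [e2]
        rw [mul_assoc, ← Pool.Agent.RSG.ex_add]
        congr 2
        push_cast
        ring)
      (by rw [b6]; exact e3)
    rw [key, b4, b5, Function.update_self]
    show D.A (κ i₀ (l, ((2 * ‖c1 z‖ * ‖c2 z‖ : ℝ) : ℂ) * ex (m - k * l) * ex (k * l), t)) = _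
    rw [mul_assoc, ← Pool.Agent.RSG.ex_add, sub_add_cancel]

open Classical in
theorem mirhF (h : LinkT J κ) (i₀ : ι) (D : TwinF J κ n j X) :
    Nonempty (TwinF J (Function.update κ i₀ fun q => κ i₀ (q.1 + 1 / 2, (starRingEnd ℂ) q.2.1, q.2.2)) n
      (Function.update j i₀ (1 - j i₀)) X) := by
  have _ := h
  have hf6 : ∀ {z : S4}, fh z ≠ 0 → fh (COR.Frm_sw z) ≠ 0 := by
    intro z hz
    rw [COR.Frm_fh]
    exact neg_ne_zero.2 hz
  refine SymF_aux i₀ (fun i hi => Function.update_of_ne hi _ _) (fun i _ => rfl)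
    (fun i hi => Function.update_of_ne hi _ _) ?_ D COR.Frm_sw COR.Frm_sw
    (fun z hz => hf6 hz) (fun z hz => hf6 hz) (fun z _ => COR.Frm_inv z) (fun z _ => COR.Frm_inv z)
    (fun z _ => COR.Frm_ld z) ?_ ?_
  · intro p
    rw [Function.update_self]
    exact COR.Frm_on' (κ i₀) p
  · intro z hf hz
    obtain ⟨b1, b2, b3⟩ := COR.Frm_coord z
    rw [b1, b2]
    rcases hz with h | h
    · exact Or.inr (by rw [h, map_zero])
    · exact Or.inl (by rw [h, map_zero])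
  · intro z l m t hf h1 h2 e1 e2 e3
    rw [Function.update_self] at e1 e2
    obtain ⟨b1, b2, b3⟩ := COR.Frm_coord z
    have n1 : ‖c1 (COR.Frm_sw z)‖ = ‖c2 z‖ := by rw [b1, RCLike.norm_conj]
    have n2 : ‖c2 (COR.Frm_sw z)‖ = ‖c1 z‖ := by rw [b2, RCLike.norm_conj]
    have key := D.glue i₀ (COR.Frm_sw z) (l + 1 / 2) (-m) t (hf6 hf)
      (by rw [b1]; exact (map_ne_zero _).2 h2) (by rw [b2]; exact (map_ne_zero _).2 h1)
      (by
        rw [n1, b1, Pool.Agent.RSG.MirM_conj_ex e2]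
        congr 2
        push_cast
        ring)
      (by
        rw [n2, b2, Pool.Agent.RSG.MirM_conj_ex e1]
        congr 2
        push_cast
        ring)
      (by
        rw [COR.Frm_fh, norm_neg]
        conv_lhs => rw [e3]
        rw [show l + 1 / 2 - n i₀ * t = (l - n i₀ * t) + 1 / 2 by ring, Pool.Agent.RSG.ex_add _ (1 / 2),
          Pool.Agent.RSG.ex_half]
        ring)
    rw [key, n1, n2, Function.update_self]
    show _ = D.A (κ i₀ (l + 1 / 2, (starRingEnd ℂ) (((2 * ‖c1 z‖ * ‖c2 z‖ : ℝ) : ℂ) * ex m), t))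
    rw [map_mul, Complex.conj_ofReal, Pool.Agent.RSG.ex_neg,
      show 2 * ‖c2 z‖ * ‖c1 z‖ = 2 * ‖c1 z‖ * ‖c2 z‖ by ring]

open Classical in
theorem revF (h : LinkT J κ) (i₀ : ι) (D : TwinF J κ n j X) :
    Nonempty (TwinF J (Function.update κ i₀ fun q => κ i₀ (-q.1, q.2)) (Function.update n i₀ (-n i₀)) j X) := by
  have _ := h
  have hf6 : ∀ {z : S4}, fh z ≠ 0 → fh (KNH.RevQ_sw z) ≠ 0 := by
    intro z hz
    rw [KNH.RevQ_fh]
    exact (map_ne_zero _).2 hz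
  refine SymF_aux i₀ (fun i hi => Function.update_of_ne hi _ _) (fun i hi => Function.update_of_ne hi _ _)
    (fun i _ => rfl) ?_ D KNH.RevQ_sw KNH.RevQ_sw
    (fun z hz => hf6 hz) (fun z hz => hf6 hz) (fun z _ => KNH.RevQ_inv z) (fun z _ => KNH.RevQ_inv z)
    (fun z _ => KNH.RevQ_ld z) ?_ ?_
  · intro p
    rw [Function.update_self]
    exact KNH.RevQ_on (κ i₀) p
  · intro z hf hz
    obtain ⟨b1, b2, b3⟩ := KNH.RevQ_coord z
    rw [b1, b2]
    exact hz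
  · intro z l m t hf h1 h2 e1 e2 e3
    rw [Function.update_self] at e3
    obtain ⟨b1, b2, b3⟩ := KNH.RevQ_coord z
    have key := D.glue i₀ (KNH.RevQ_sw z) (-l) m t (hf6 hf)
      (by rw [b1]; exact h1) (by rw [b2]; exact h2)
      (by rw [b1]; exact e1)
      (by rw [b2]; exact e2)
      (by
        rw [KNH.RevQ_fh, RCLike.norm_conj, Pool.Agent.RSG.MirM_conj_ex e3]
        congr 2
        push_cast
        ring)
    rw [key, b1, b2, Function.update_self]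

end Pool.Agent.LKF
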