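import Pool.Agent.LKF.GerF
import Pool.Agent.LKF.SymF
import Pool.Agent.LKF.RepO
import Pool.Agent.LKF.RibT

/-!
# LKF/InvF: a monotone property of families is invariant in each variable   (difficulty 3)

`O = Oth κ i₀` is open (finite union of closed sets).  `link_update`: `disj`: a point of the tube `κ₀` is in `O`, so in no tube `κ i`, `i ≠ i₀`.  `tube_oth`: the tubes are open (`RBH.tube_open`) and disjoint, so the tube `i₀` does not meet the closure of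
the tube `i`.  `inv_of_mono`: all fields by `hQ` for the families `update κ i₀ (..)` (`Function.update_self`, `Function.update_of_ne`, `Function.update_idem`; `MonoF` needs a surjective `φ`: `id`, or
`(n, j) ↦ (n, update j i₀ (j i₀ + k n i₀))` (onto: take `j i₀ - k n i₀`), `(n, update j i₀ (1 - j i₀))`, `(update n i₀ (-n i₀), j)`).
* `germ`: `germF` (`min η 1` or `η`; for `i ≠ i₀` the maps are equal).  `diff`: `diffF` for `F`, then `germF` with `η = 1`: for `i ≠ i₀`, `F (κ i q) = κ i q` for `‖v‖ < 1` (the point is in the tube `i`, not in `O`).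
  The new torus: tube `F '' Tube κ ⊆ F '' O = O` (`F` is a bijection and the identity off `O`).
* `frame`: `frameF` for the family `update κ i₀ κ₁`, `κ₁` the torus (its value at `i₀` is `κ₁`; simplify with `Function.update_idem`).  `rev`: `revF`.
* `mirror`: `mirhF`, then `repO` with `φ l = l - 1/2` (the `Inv0` part has been proved before; prove it as a separate theorem).
* `rib`: `rib_family` with `α = Unit`, `b = fun _ => b`, `c = ⟨fun _ => i₀, fun _ => i₀, fun _ => ε₁, fun _ => ε₂, fun _ => τ⟩`: `RibF` from `RibHom` (`RBH/Defs.lean`): `BunF`: `link` by `link_update`; `rest` for `i ≠ i₀`: the box is in `O`;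
  `RestF` for `i₀` is `RBH.Rest`; `G_rest` for `i ≠ i₀`: `G = id` off `O`.
-/

open scoped Manifold ContDiff Topology
open Set Filter
open Complex (I)
open Pool.Agent.CSG (stp)
open Pool.Agent.RSG (E4 S3 S4 ex cj c1 c2 ht fh pS3)
open Pool.Agent.RBM (ThickT OnT Box frc)
open Pool.Agent.RBH (Tube BoxS)
open Pool.Agent.PTH (SP ISP Act)
open Pool.Agent.COR (Equi EquiB BBox OutW PosAt half dv dt PerS)
open Pool.Agent.KNT (Dom BalC Tubes Str Str2 CD)
open Pool.Agent.KNH (rot Hat circ pb Emb Fam ThinOK thn bx)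
open Pool.Agent.CLG (io pol)

namespace Pool.Agent.LKF

universe u

variable {E : Type*} [NormedAddCommGroup E] [NormedSpace ℝ E] {H : Type*} [TopologicalSpace H]
  {J : ModelWithCorners ℝ E H} {P : Type*} [TopologicalSpace P] [ChartedSpace H P]

variable {ι : Type*} {κ : ι → ℝ × ℂ × ℝ → P}

theorem oth_open [Finite ι] (κ : ι → ℝ × ℂ × ℝ → P) (i₀ : ι) : IsOpen (Oth κ i₀) := by
  have e : Oth κ i₀ = ⋂ m, ⋂ (_ : m ≠ i₀), (closure (Tube (κ m)))ᶜ := by
    ext p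
    simp only [Oth, mem_setOf_eq, mem_iInter, mem_compl_iff]
  rw [e]
  refine isOpen_iInter_of_finite fun m => ?_
  refine isOpen_iInter_of_finite fun _ => ?_
  exact isClosed_closure.isOpen_compl

theorem tube_oth (h : LinkT J κ) (i₀ : ι) : Tube (κ i₀) ⊆ Oth κ i₀ := by
  intro p hp m hm hc
  obtain ⟨x, hx1, hx2⟩ := mem_closure_iff.1 hc _ (RBH.tube_open (h.thick i₀)) hp
  obtain ⟨l, v, t, hv, rfl⟩ := hx1
  obtain ⟨l', v', t', hv', he⟩ := hx2
  exact hm (h.disj _ _ _ _ _ _ _ _ hv hv' he).symm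

theorem InvF_not {i₀ i : ι} (hi : i ≠ i₀) {l : ℝ} {v : ℂ} {t : ℝ} (hv : ‖v‖ < 1) : κ i (l, v, t) ∉ Oth κ i₀ :=
  fun h => h i hi (subset_closure ⟨l, v, t, hv, rfl⟩)

open Classical in
theorem link_update (h : LinkT J κ) (i₀ : ι) {κ₀ : ℝ × ℂ × ℝ → P} (h₀ : ThickT J κ₀) (hO : Tube κ₀ ⊆ Oth κ i₀) :
    LinkT J (Function.update κ i₀ κ₀) := by
  constructor
  · intro i
    by_cases hi : i = i₀
    · subst hi
      rw [Function.update_self]
      exact h₀
    · rw [Function.update_of_ne hi]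
      exact h.thick i
  · intro i i' l v t l' v' t' hv hv' he
    by_cases hi : i = i₀
    · by_cases hi' : i' = i₀
      · rw [hi, hi']
      · exfalso
        rw [hi, Function.update_self, Function.update_of_ne hi'] at he
        exact InvF_not (κ := κ) hi' hv' (he ▸ hO ⟨l, v, t, hv, rfl⟩)
    · by_cases hi' : i' = i₀
      · exfalso
        rw [hi', Function.update_self, Function.update_of_ne hi] at he
        exact InvF_not (κ := κ) hi hv (he ▸ hO ⟨l', v', t', hv', rfl⟩)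
      · rw [Function.update_of_ne hi', Function.update_of_ne hi] at he
        exact h.disj _ _ _ _ _ _ _ _ hv hv' he

open Classical in
theorem InvF_germ {Q : (ι → ℝ × ℂ × ℝ → P) → Prop} (hQ : MonoF.{u} J Q) (h : LinkT J κ)
    (i₀ : ι) {κ₁ κ₂ : ℝ × ℂ × ℝ → P} {η : ℝ} (hη : 0 < η) (h₁ : ThickT J κ₁) (h₂ : ThickT J κ₂)
    (hO₁ : Tube κ₁ ⊆ Oth κ i₀) (hO₂ : Tube κ₂ ⊆ Oth κ i₀)
    (he : ∀ (l : ℝ) (v : ℂ) (t : ℝ), ‖v‖ < η → κ₂ (l, v, t) = κ₁ (l, v, t))
    (hq : Q (Function.update κ i₀ κ₁)) : Q (Function.update κ i₀ κ₂) := by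
  have L1 := link_update h i₀ h₁ hO₁
  have L2 := link_update h i₀ h₂ hO₂
  refine hQ _ _ L1 L2 ⟨id, Function.surjective_id, ?_⟩ hq
  intro X _ _ _ n j hX
  obtain ⟨D⟩ := hX
  refine germF hη L1 L2 ?_ D
  intro i l v t hv
  by_cases hi : i = i₀
  · subst hi
    rw [Function.update_self, Function.update_self]
    exact he l v t hv
  · rw [Function.update_of_ne hi, Function.update_of_ne hi]

theorem InvF_img {O : Set P} {F : Equiv.Perm P} (hF : ∀ p, p ∉ O → F p = p) {p : P} (hp : p ∈ O) : F p ∈ O := by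
  by_contra hc
  have h1 := hF (F p) hc
  have h2 : F p = p := F.injective h1
  rw [h2] at hc
  exact hc hp

open Classical in
theorem InvF_diff {Q : (ι → ℝ × ℂ × ℝ → P) → Prop} (hQ : MonoF.{u} J Q) (h : LinkT J κ)
    (i₀ : ι) {κ₁ : ℝ × ℂ × ℝ → P} (F : Equiv.Perm P) (hF : ∀ p, IsLocalDiffeomorphAt J J ∞ F p)
    (hO : ∀ p, p ∉ Oth κ i₀ → F p = p) (h₁ : ThickT J κ₁) (hO₁ : Tube κ₁ ⊆ Oth κ i₀)
    (hq : Q (Function.update κ i₀ κ₁)) : Q (Function.update κ i₀ fun q => F (κ₁ q)) := by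
  have L1 := link_update h i₀ h₁ hO₁
  have L3 := link_diff F hF L1
  have T2 : ThickT J (fun q => F (κ₁ q)) := by
    have := L3.thick i₀
    simp only [Function.update_self] at this
    exact this
  have L2 : LinkT J (Function.update κ i₀ fun q => F (κ₁ q)) := by
    refine link_update h i₀ T2 ?_
    rintro _ ⟨l, v, t, hv, rfl⟩
    exact InvF_img hO (hO₁ ⟨l, v, t, hv, rfl⟩)
  refine hQ _ _ L1 L2 ⟨id, Function.surjective_id, ?_⟩ hq
  intro X _ _ _ n j hX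
  obtain ⟨D⟩ := hX
  obtain ⟨D'⟩ := diffF F hF D
  refine germF one_pos L3 L2 ?_ D'
  intro i l v t hv
  by_cases hi : i = i₀
  · subst hi
    simp only [Function.update_self]
  · simp only [Function.update_of_ne hi]
    exact (hO _ (InvF_not hi hv)).symm

open Classical in
theorem InvF_inv0 {Q : (ι → ℝ × ℂ × ℝ → P) → Prop} (hQ : MonoF.{u} J Q) (h : LinkT J κ)
    (i₀ : ι) : Inv0 J (Oth κ i₀) (fun κ₀ => Q (Function.update κ i₀ κ₀)) where
  germ := fun κ₁ κ₂ η hη h₁ h₂ hO₁ hO₂ he hq => InvF_germ hQ h i₀ hη h₁ h₂ hO₁ hO₂ he hq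
  diff := fun κ₁ F hF hO h₁ hO₁ hq => InvF_diff hQ h i₀ F hF hO h₁ hO₁ hq

theorem InvF_twist {κ₁ : ℝ × ℂ × ℝ → P} (h : ThickT J κ₁) (k : ℤ) :
    ThickT J (fun q => κ₁ (q.1, q.2.1 * ex (k * q.1), q.2.2)) := by
  have hs : ∀ a : ℝ, ContDiff ℝ ∞ (fun q : ℝ × ℂ => q.2 * ex (a * q.1)) := fun a =>
    contDiff_snd.mul (RSG.ex_smooth.comp (contDiff_const.mul contDiff_fst))
  refine COR.CorA_thick h (g := fun q : ℝ × ℂ => q.2 * ex (k * q.1))
    (g' := fun q : ℝ × ℂ => q.2 * ex (-k * q.1)) (hs k) (hs (-k)) ?_ ?_ ?_ ?_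
  · intro l v
    show v * ex (k * l) * ex (-k * l) = v
    rw [mul_assoc, ← RSG.ex_add]
    have : (k : ℝ) * l + -k * l = 0 := by ring
    rw [this, RSG.ex_zero, mul_one]
  · intro l v
    show v * ex (-k * l) * ex (k * l) = v
    rw [mul_assoc, ← RSG.ex_add]
    have : -(k : ℝ) * l + k * l = 0 := by ring
    rw [this, RSG.ex_zero, mul_one]
  · intro l v
    show ‖v * ex (k * l)‖ = ‖v‖
    rw [norm_mul, RSG.ex_norm, mul_one]
  · intro l v m
    show v * ex (k * (l + m)) = v * ex (k * l)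
    have : (k : ℝ) * (l + m) = k * l + ((k * m : ℤ) : ℝ) := by push_cast; ring
    rw [this, RSG.ex_add_int]

open Classical in
theorem InvF_frame {Q : (ι → ℝ × ℂ × ℝ → P) → Prop} (hQ : MonoF.{u} J Q) (h : LinkT J κ)
    (i₀ : ι) {κ₁ : ℝ × ℂ × ℝ → P} (k : ℤ) (h₁ : ThickT J κ₁) (hO₁ : Tube κ₁ ⊆ Oth κ i₀)
    (hq : Q (Function.update κ i₀ fun q => κ₁ (q.1, q.2.1 * ex (k * q.1), q.2.2))) :
    Q (Function.update κ i₀ κ₁) := by
  have L1 := link_update h i₀ h₁ hO₁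
  have L2 := link_update h i₀ (InvF_twist h₁ k) ((tube_twi fun l => k * l).trans hO₁)
  refine hQ _ _ L2 L1 ⟨fun p => (p.1, Function.update p.2 i₀ (p.2 i₀ + k * p.1 i₀)), ?_, ?_⟩ hq
  · rintro ⟨n, j⟩
    refine ⟨(n, Function.update j i₀ (j i₀ - k * n i₀)), ?_⟩
    simp
  · intro X _ _ _ n j hX
    obtain ⟨D⟩ := hX
    refine frameF L1 i₀ k ?_
    have e : (Function.update (Function.update κ i₀ κ₁) i₀ fun q =>
        Function.update κ i₀ κ₁ i₀ (q.1, q.2.1 * ex (k * q.1), q.2.2)) =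
        Function.update κ i₀ fun q => κ₁ (q.1, q.2.1 * ex (k * q.1), q.2.2) := by
      rw [Function.update_idem, Function.update_self]
    rw [e]
    exact D

open Classical in
theorem InvF_rev {Q : (ι → ℝ × ℂ × ℝ → P) → Prop} (hQ : MonoF.{u} J Q) (h : LinkT J κ)
    (i₀ : ι) {κ₁ : ℝ × ℂ × ℝ → P} (h₁ : ThickT J κ₁) (hO₁ : Tube κ₁ ⊆ Oth κ i₀)
    (hq : Q (Function.update κ i₀ κ₁)) :
    Q (Function.update κ i₀ fun q => κ₁ (-q.1, q.2)) := by
  have L1 := link_update h i₀ h₁ hO₁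
  have L2 : LinkT J (Function.update κ i₀ fun q => κ₁ (-q.1, q.2)) :=
    link_update h i₀ (KNH.rev_thick h₁) ((tube_rep fun l => -l).trans hO₁)
  refine hQ _ _ L1 L2 ⟨fun p => (Function.update p.1 i₀ (-p.1 i₀), p.2), ?_, ?_⟩ hq
  · rintro ⟨n, j⟩
    refine ⟨(Function.update n i₀ (-n i₀), j), ?_⟩
    simp
  · intro X _ _ _ n j hX
    obtain ⟨D⟩ := hX
    have h3 := revF L1 i₀ D
    have e : (Function.update (Function.update κ i₀ κ₁) i₀ fun q =>
        Function.update κ i₀ κ₁ i₀ (-q.1, q.2)) =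
        Function.update κ i₀ fun q => κ₁ (-q.1, q.2) := by
      rw [Function.update_idem, Function.update_self]
    rw [e] at h3
    exact h3

open Classical in
theorem InvF_mirh {Q : (ι → ℝ × ℂ × ℝ → P) → Prop} (hQ : MonoF.{u} J Q) (h : LinkT J κ)
    (i₀ : ι) {κ₁ : ℝ × ℂ × ℝ → P} (h₁ : ThickT J κ₁) (hO₁ : Tube κ₁ ⊆ Oth κ i₀)
    (hq : Q (Function.update κ i₀ κ₁)) :
    Tube (fun q => κ₁ (q.1 + 1 / 2, (starRingEnd ℂ) q.2.1, q.2.2)) ⊆ Oth κ i₀ ∧
    Q (Function.update κ i₀ fun q => κ₁ (q.1 + 1 / 2, (starRingEnd ℂ) q.2.1, q.2.2)) := by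
  have hT : Tube (fun q => κ₁ (q.1 + 1 / 2, (starRingEnd ℂ) q.2.1, q.2.2)) ⊆ Oth κ i₀ := by
    rintro _ ⟨l, v, t, hv, rfl⟩
    exact hO₁ ⟨l + 1 / 2, (starRingEnd ℂ) v, t, by rwa [RCLike.norm_conj], rfl⟩
  refine ⟨hT, ?_⟩
  have L1 := link_update h i₀ h₁ hO₁
  have L2 := link_update h i₀ (COR.Frm_thick h₁) hT
  refine hQ _ _ L1 L2 ⟨fun p => (p.1, Function.update p.2 i₀ (1 - p.2 i₀)), ?_, ?_⟩ hq
  · rintro ⟨n, j⟩
    refine ⟨(n, Function.update j i₀ (1 - j i₀)), ?_⟩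
    simp
  · intro X _ _ _ n j hX
    obtain ⟨D⟩ := hX
    have h3 := mirhF L1 i₀ D
    have e : (Function.update (Function.update κ i₀ κ₁) i₀ fun q =>
        Function.update κ i₀ κ₁ i₀ (q.1 + 1 / 2, (starRingEnd ℂ) q.2.1, q.2.2)) =
        Function.update κ i₀ fun q => κ₁ (q.1 + 1 / 2, (starRingEnd ℂ) q.2.1, q.2.2) := by
      rw [Function.update_idem, Function.update_self]
    rw [e] at h3
    exact h3

open Classical in
theorem InvF_mirror [T2Space P] {Q : (ι → ℝ × ℂ × ℝ → P) → Prop} (hQ : MonoF.{u} J Q) (h : LinkT J κ)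
    (i₀ : ι) {κ₁ : ℝ × ℂ × ℝ → P} (h₁ : ThickT J κ₁) (hO₁ : Tube κ₁ ⊆ Oth κ i₀)
    (hq : Q (Function.update κ i₀ κ₁)) :
    Q (Function.update κ i₀ fun q => κ₁ (q.1, (starRingEnd ℂ) q.2.1, q.2.2)) := by
  obtain ⟨hT, hq2⟩ := InvF_mirh hQ h i₀ h₁ hO₁ hq
  have hd : ∀ l : ℝ, HasDerivAt (fun l : ℝ => l - 1 / 2) 1 l := fun l => (hasDerivAt_id l).sub_const _
  have h3 := repO (InvF_inv0 hQ h i₀) (COR.Frm_thick h₁) hT (φ := fun l => l - 1 / 2)
    (contDiff_id.sub contDiff_const) (fun l => by ring) (fun l => by rw [(hd l).deriv]; exact one_pos) hq2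
  have e : (fun q : ℝ × ℂ × ℝ => (fun q : ℝ × ℂ × ℝ =>
      κ₁ (q.1 + 1 / 2, (starRingEnd ℂ) q.2.1, q.2.2)) ((fun l : ℝ => l - 1 / 2) q.1, q.2)) =
      fun q => κ₁ (q.1, (starRingEnd ℂ) q.2.1, q.2.2) := by
    funext q
    show κ₁ (q.1 - 1 / 2 + 1 / 2, (starRingEnd ℂ) q.2.1, q.2.2) = _
    rw [sub_add_cancel]
  rw [e] at h3
  exact h3

open Classical in
theorem InvF_bun (h : LinkT J κ) (i₀ : ι) {κ₁ : ℝ × ℂ × ℝ → P} {b : ℂ × ℝ × ℝ → P} {ε₁ ε₂ : ℝ} {τ : ℝ → ℝ}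
    (hb : RBM.Bundle J κ₁ b ε₁ ε₂) (hO₁ : Tube κ₁ ⊆ Oth κ i₀) (hOb : BoxS b ⊆ Oth κ i₀) :
    BunF J (Function.update κ i₀ κ₁) (fun _ : Unit => b)
      ⟨fun _ => i₀, fun _ => i₀, fun _ => ε₁, fun _ => ε₂, fun _ => τ⟩ where
  link := link_update h i₀ hb.thick hO₁
  box := fun _ => hb.box
  bdisj := fun _ _ _ _ _ _ _ _ _ _ _ _ _ => rfl
  sign₁ := fun _ => hb.sign₁
  sign₂ := fun _ => hb.sign₂
  strand₁ := fun _ l v t hl hv => by
    show Function.update κ i₀ κ₁ i₀ (1 / 4 + l, v, t) = b (1 + cj ε₁ v / 2, 16 * ε₁ * l, t)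
    rw [Function.update_self]
    exact hb.strand₁ l v t hl hv
  strand₂ := fun _ l v t hl hv => by
    show Function.update κ i₀ κ₁ i₀ (3 / 4 + l, v, t) = b (-1 + cj ε₂ v / 2, 16 * ε₂ * l, t)
    rw [Function.update_self]
    exact hb.strand₂ l v t hl hv
  rest := fun i l v t hv hR _ z s t' hz hs => by
    by_cases hi : i = i₀
    · subst hi
      rw [Function.update_self]
      exact hb.rest l v t hv (fun k => ⟨hR.1 () rfl k, hR.2 () rfl k⟩) z s t' hz hs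
    · rw [Function.update_of_ne hi]
      intro he
      exact InvF_not (κ := κ) hi hv (he ▸ hOb ⟨z, s, t', hz, hs, rfl⟩)

open Classical in
theorem inv_of_mono [T2Space P] [Finite ι] {Q : (ι → ℝ × ℂ × ℝ → P) → Prop} (hQ : MonoF.{u} J Q) (h : LinkT J κ)
    (i₀ : ι) : Inv J (Oth κ i₀) (fun κ₀ => Q (Function.update κ i₀ κ₀)) := by
  refine ⟨InvF_inv0 hQ h i₀, ?_, ?_, ?_, ?_⟩
  · intro κ₁ k h₁ hO₁ hq
    exact InvF_frame hQ h i₀ k h₁ hO₁ hq
  · intro κ₁ h₁ hO₁ hq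
    exact InvF_mirror hQ h i₀ h₁ hO₁ hq
  · intro κ₁ h₁ hO₁ hq
    exact InvF_rev hQ h i₀ h₁ hO₁ hq
  · intro κ₁ κ₂ b b' ε₁ ε₂ τ δ G hR hO₁ hO₂ hOb hOb' hG hq
    have B1 : BunF J (Function.update κ i₀ κ₁) (fun _ : Unit => b)
        ⟨fun _ => i₀, fun _ => i₀, fun _ => ε₁, fun _ => ε₂, fun _ => τ⟩ := InvF_bun h i₀ hR.bun hO₁ hOb
    have B2 : BunF J (Function.update κ i₀ κ₂) (fun _ : Unit => b')
        ⟨fun _ => i₀, fun _ => i₀, fun _ => ε₁, fun _ => ε₂, fun _ => τ⟩ := InvF_bun h i₀ hR.bun' hO₂ hOb'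
    refine hQ _ _ B1.link B2.link ⟨id, Function.surjective_id, ?_⟩ hq
    intro X _ _ _ n j hX
    refine rib_family (δ := δ) (G := G) ⟨B1, B2, fun _ => hR.tau, hR.pos, hR.G_ld, ?_, fun _ => hR.G_ends,
      fun _ => hR.G_hole⟩ n j hX
    intro i l v t hv hRest
    by_cases hi : i = i₀
    · subst hi
      rw [Function.update_self, Function.update_self]
      exact hR.G_rest l v t hv (fun k => ⟨hRest.1 () rfl k, hRest.2 () rfl k⟩)
    · rw [Function.update_of_ne hi, Function.update_of_ne hi]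
      exact hG _ (InvF_not hi hv)

end Pool.Agent.LKF
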