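import Pool.Agent.LKF.CorO
import Pool.Agent.LKF.InvF
import Pool.Agent.LKF.ShrM
import Pool.Agent.KNH.RepC
import Pool.Agent.COR.Rmc

/-!
# LKF/ImgF: `Q` depends only on the images of the cores   (difficulty 4)

`LS Q S`: `c', κ'`.  (1) For each `m`: `KNH.same_image` for `κ' m`, `κ m`: `c m l = c' m (ε g l)`.  Reparametrise and reverse `κ' m` (`Inv.rev`, `repO`; one index after the other, tubes do not change): WLOG `κ' m (l, 0, 0) = κ m (l, 0, 0)`.
(2) `shrink` for all `κ' m` with `F = ∅`: `κ₂`, closures of the tubes contained in the tubes of `κ'`; they do not meet the cores of the `κ m'`, `m' ≠ m` (which are the cores of the `κ' m'`).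
(3) `shrink` for all `κ m` with `F m = ⋃ m' ≠ m, closure (Tube (κ₂ m'))`: `κ₃`.
(4) Induction on a finite set `T`: `Q` for the family with `κ₃ m` for `m ∈ T`, `κ₂ m` for `m ∉ T` (all tubes disjoint: `LinkT`); step: `inv_of_mono`, `core_O` (`a = rot`, `KNH.rot_act`), `O = Oth`.
(5) `germF` from `κ₃` to `κ` (minimum of the finitely many radii; or one index after the other).
-/

open scoped Manifold ContDiff Topology
open Set Filter
open Complex (I)
open Pool.Agent.CSG (stp)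
open Pool.Agent.RSG (E4 S3 S4 ex cj c1 c2 ht fh pS3)
open Pool.Agent.RBM (ThickT OnT Box frc)
open Pool.Agent.RBH (Tube BoxS)
open Pool.Agent.PTH (SP ISP Act)
open Pool.Agent.COR (Equi EquiB BBox OutW PosAt half dv dt PerS)
open Pool.Agent.KNT (Dom BalC Tubes Str Str2 CD)
open Pool.Agent.KNH (rot Hat circ pb Emb Fam ThinOK thn bx)
open Pool.Agent.CLG (io pol)

namespace Pool.Agent.LKF

universe u

open Classical in
/-- the mixed family -/
noncomputable def ImgF_mix {ι A : Type*} (κ₁ κ₂ : ι → A) (T : Finset ι) (m : ι) : A :=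
  if m ∈ T then κ₂ m else κ₁ m

theorem ImgF_mix_in {ι A : Type*} {κ₁ κ₂ : ι → A} {T : Finset ι} {m : ι} (h : m ∈ T) :
    ImgF_mix κ₁ κ₂ T m = κ₂ m := by
  unfold ImgF_mix
  rw [if_pos h]

theorem ImgF_mix_out {ι A : Type*} {κ₁ κ₂ : ι → A} {T : Finset ι} {m : ι} (h : m ∉ T) :
    ImgF_mix κ₁ κ₂ T m = κ₁ m := by
  unfold ImgF_mix
  rw [if_neg h]

open Classical in
theorem ImgF_chain {ι A : Type*} [Finite ι] {Q : (ι → A) → Prop} {κ₁ κ₂ : ι → A}
    (step : ∀ (T : Finset ι) (i : ι), i ∉ T → Q (ImgF_mix κ₁ κ₂ T) →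
      Q (Function.update (ImgF_mix κ₁ κ₂ T) i (κ₂ i))) (h : Q κ₁) : Q κ₂ := by
  have key : ∀ T : Finset ι, Q (ImgF_mix κ₁ κ₂ T) := by
    intro T
    induction T using Finset.induction_on with
    | empty =>
      have e : ImgF_mix κ₁ κ₂ ∅ = κ₁ := funext fun m => ImgF_mix_out (by simp)
      rw [e]
      exact h
    | insert i T hi ih =>
      have e : ImgF_mix κ₁ κ₂ (insert i T) = Function.update (ImgF_mix κ₁ κ₂ T) i (κ₂ i) := by
        funext m
        by_cases hm : m = i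
        · subst hm
          rw [ImgF_mix_in (by simp), Function.update_self]
        · rw [Function.update_of_ne hm]
          by_cases hmT : m ∈ T
          · rw [ImgF_mix_in hmT, ImgF_mix_in (by simp [hmT])]
          · rw [ImgF_mix_out hmT, ImgF_mix_out (by simp [hm, hmT])]
      rw [e]
      exact step T i hi ih
  haveI := Fintype.ofFinite ι
  have e : ImgF_mix κ₁ κ₂ Finset.univ = κ₂ := funext fun m => ImgF_mix_in (by simp)
  rw [← e]
  exact key _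

section
variable {E : Type*} [NormedAddCommGroup E] [NormedSpace ℝ E] {H : Type*} [TopologicalSpace H]
  {J : ModelWithCorners ℝ E H} {P : Type*} [TopologicalSpace P] [ChartedSpace H P]

/-- disjoint tubes -/
theorem ImgF_link {ι : Type*} {μ : ι → ℝ × ℂ × ℝ → P} (ht : ∀ m, ThickT J (μ m))
    (hd : ∀ m m', m ≠ m' → Disjoint (Tube (μ m)) (Tube (μ m'))) : LinkT J μ := by
  refine ⟨ht, ?_⟩
  intro i i' l v t l' v' t' hv hv' he
  by_contra hne
  exact Set.disjoint_left.1 (hd i i' hne) ⟨l, v, t, hv, rfl⟩ ⟨l', v', t', hv', he⟩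

theorem ImgF_disj {ι : Type*} {κ : ι → ℝ × ℂ × ℝ → P} (h : LinkT J κ) {m m' : ι} (hm : m ≠ m') :
    Disjoint (Tube (κ m)) (Tube (κ m')) := by
  rw [Set.disjoint_left]
  rintro p ⟨l, v, t, hv, rfl⟩ ⟨l', v', t', hv', he⟩
  exact hm (h.disj m m' l v t l' v' t' hv hv' he)

/-- going to smaller thick tori -/
theorem ImgF_sub [T2Space P] {ι : Type*} [Finite ι] {Q : (ι → ℝ × ℂ × ℝ → P) → Prop} (hQ : MonoF.{u} J Q)
    {κ₁ κ₂ : ι → ℝ × ℂ × ℝ → P} (h₁ : LinkT J κ₁) (ht : ∀ m, ThickT J (κ₂ m))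
    (hs : ∀ m, Tube (κ₂ m) ⊆ Tube (κ₁ m))
    (hstep : ∀ (m : ι) (O : Set P) (R : (ℝ × ℂ × ℝ → P) → Prop), Inv J O R → Tube (κ₁ m) ⊆ O → R (κ₁ m) → R (κ₂ m))
    (h : Q κ₁) : Q κ₂ := by
  classical
  refine ImgF_chain (κ₁ := κ₁) (κ₂ := κ₂) ?_ h
  intro T i hi hq
  have hsub : ∀ m, Tube (ImgF_mix κ₁ κ₂ T m) ⊆ Tube (κ₁ m) := by
    intro m
    by_cases hm : m ∈ T
    · rw [ImgF_mix_in hm]
      exact hs m
    · rw [ImgF_mix_out hm]
  have hth : ∀ m, ThickT J (ImgF_mix κ₁ κ₂ T m) := by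
    intro m
    by_cases hm : m ∈ T
    · rw [ImgF_mix_in hm]
      exact ht m
    · rw [ImgF_mix_out hm]
      exact h₁.thick m
  have hl : LinkT J (ImgF_mix κ₁ κ₂ T) :=
    ImgF_link hth fun m m' hm => (ImgF_disj h₁ hm).mono (hsub m) (hsub m')
  have hinv := inv_of_mono hQ hl i
  have ho := tube_oth hl i
  have e : ImgF_mix κ₁ κ₂ T i = κ₁ i := ImgF_mix_out hi
  rw [e] at ho
  refine hstep i _ _ hinv ho ?_
  show Q (Function.update (ImgF_mix κ₁ κ₂ T) i (κ₁ i))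
  rw [← e, Function.update_eq_self]
  exact hq

end

theorem ImgF_tube_rev {P : Type*} {κ : ℝ × ℂ × ℝ → P} : Tube (fun q => κ (-q.1, q.2)) ⊆ Tube κ := by
  rintro p ⟨l, v, t, hv, rfl⟩
  exact ⟨-l, v, t, hv, rfl⟩

theorem ImgF_t0 {P : Type*} {κ : ℝ × ℂ × ℝ → P} (l t : ℝ) : κ (l, 0, t) ∈ Tube κ :=
  ⟨l, 0, t, by simp, rfl⟩

/-- the core at all times -/
theorem ImgF_core {κ : ℝ × ℂ × ℝ → SP} (he : Equi rot κ) {c : ℝ → S3} (hc : ∀ l, κ (l, 0, 0) = (c l, 1)) (l t : ℝ) :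
    κ (l, 0, t) = rot t (c l, 1) := by
  rw [he, hc]

/-- the same cores -/
theorem ImgF_same {ι : Type*} [Finite ι] {Q : (ι → ℝ × ℂ × ℝ → SP) → Prop} (hQ : MonoF.{u} ISP Q)
    {κ κ₁ : ι → ℝ × ℂ × ℝ → SP} (hκ : LinkT ISP κ) (he : ∀ m, Equi rot (κ m)) {c : ι → ℝ → S3}
    (hc : ∀ m l, κ m (l, 0, 0) = (c m l, 1)) (hκ₁ : LinkT ISP κ₁) (he₁ : ∀ m, Equi rot (κ₁ m))
    (hc₁ : ∀ m l, κ₁ m (l, 0, 0) = (c m l, 1)) (h : Q κ₁) : Q κ := by
  classical
  choose κ₂ t₂ e₂ η₂ s₂ cl₂ _ using fun m => shrink (hκ₁.thick m) isClosed_empty (fun _ _ => notMem_empty _)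
  choose r₂ hr₂ g₂ using η₂
  -- from `κ₁` to `κ₂`
  have hq₂ : Q κ₂ := ImgF_sub hQ hκ₁ t₂ s₂
    (fun m O R hR hO hq => hR.germ (κ₁ m) (κ₂ m) (r₂ m) (hr₂ m) (hκ₁.thick m) (t₂ m) hO ((s₂ m).trans hO)
      (fun l v t hv => g₂ m l v t hv) hq) h
  -- `κ₃`
  have hFc : ∀ m, IsClosed (⋃ m' ∈ {m' : ι | m' ≠ m}, closure (Tube (κ₂ m'))) := by
    intro m
    exact (Set.toFinite _).isClosed_biUnion fun _ _ => isClosed_closure
  have hF : ∀ m l t, κ m (l, 0, t) ∉ ⋃ m' ∈ {m' : ι | m' ≠ m}, closure (Tube (κ₂ m')) := by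
    intro m l t hp
    rw [mem_iUnion₂] at hp
    obtain ⟨m', hm', hp⟩ := hp
    have h1 : κ m (l, 0, t) = κ₁ m (l, 0, t) := by
      rw [ImgF_core (he m) (hc m), ImgF_core (he₁ m) (hc₁ m)]
    have h2 := cl₂ m' hp
    rw [h1] at h2
    exact Set.disjoint_left.1 (ImgF_disj hκ₁ (show m ≠ m' from fun e => hm' e.symm)) (ImgF_t0 l t) h2
  choose κ₃ t₃ e₃ η₃ s₃ cl₃ d₃ using fun m => shrink (hκ.thick m) (hFc m) (hF m)
  choose r₃ hr₃ g₃ using η₃
  have hd₃₂ : ∀ m m', m' ≠ m → Disjoint (closure (Tube (κ₃ m))) (closure (Tube (κ₂ m'))) := by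
    intro m m' hm
    refine (d₃ m).mono_right ?_
    intro p hp
    exact mem_iUnion₂.2 ⟨m', hm, hp⟩
  have hd₃₃ : ∀ m m', m' ≠ m → Disjoint (Tube (κ₃ m)) (closure (Tube (κ₃ m'))) := by
    intro m m' hm
    exact (ImgF_disj hκ (fun e => hm e.symm)).mono (s₃ m) (cl₃ m')
  have hd₂₂ : ∀ m m', m' ≠ m → Disjoint (Tube (κ₂ m)) (Tube (κ₂ m')) := by
    intro m m' hm
    exact (ImgF_disj hκ₁ (fun e => hm e.symm)).mono (s₂ m) (s₂ m')
  -- from `κ₂` to `κ₃`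
  have hq₃ : Q κ₃ := by
    refine ImgF_chain (κ₁ := κ₂) (κ₂ := κ₃) ?_ hq₂
    intro T i hi hq
    have hth : ∀ m, ThickT ISP (ImgF_mix κ₂ κ₃ T m) := by
      intro m
      by_cases hm : m ∈ T
      · rw [ImgF_mix_in hm]
        exact t₃ m
      · rw [ImgF_mix_out hm]
        exact t₂ m
    have hl : LinkT ISP (ImgF_mix κ₂ κ₃ T) := by
      refine ImgF_link hth fun m m' hm => ?_
      by_cases hm1 : m ∈ T
      · by_cases hm2 : m' ∈ T
        · rw [ImgF_mix_in hm1, ImgF_mix_in hm2]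
          exact (hd₃₃ m m' (fun e => hm e.symm)).mono_right subset_closure
        · rw [ImgF_mix_in hm1, ImgF_mix_out hm2]
          exact (hd₃₂ m m' (fun e => hm e.symm)).mono subset_closure subset_closure
      · by_cases hm2 : m' ∈ T
        · rw [ImgF_mix_out hm1, ImgF_mix_in hm2]
          exact ((hd₃₂ m' m hm).mono subset_closure subset_closure).symm
        · rw [ImgF_mix_out hm1, ImgF_mix_out hm2]
          exact hd₂₂ m m' (fun e => hm e.symm)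
    have hinv := inv_of_mono hQ hl i
    have ho := tube_oth hl i
    have e : ImgF_mix κ₂ κ₃ T i = κ₂ i := ImgF_mix_out hi
    rw [e] at ho
    have ho' : Tube (κ₃ i) ⊆ Oth (ImgF_mix κ₂ κ₃ T) i := by
      intro p hp m hm hpm
      by_cases hmT : m ∈ T
      · rw [ImgF_mix_in hmT] at hpm
        exact Set.disjoint_left.1 (hd₃₃ i m hm) hp hpm
      · rw [ImgF_mix_out hmT] at hpm
        exact Set.disjoint_left.1 (hd₃₂ i m hm) (subset_closure hp) hpm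
    refine core_O (a := rot) KNH.rot_act hinv (t₂ i) ho (e₂ i rot (he₁ i)) (t₃ i) ho' (e₃ i rot (he i)) ?_ ?_
    · intro l
      rw [g₃ i l 0 0 (by rw [norm_zero]; exact hr₃ i), g₂ i l 0 0 (by rw [norm_zero]; exact hr₂ i), hc, hc₁]
    · show Q (Function.update (ImgF_mix κ₂ κ₃ T) i (κ₂ i))
      rw [← e, Function.update_eq_self]
      exact hq
  -- from `κ₃` to `κ`
  have hl₃ : LinkT ISP κ₃ := ImgF_link t₃ fun m m' hm =>
    (hd₃₃ m m' (fun e => hm e.symm)).mono_right subset_closure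
  have hη : ∃ η : ℝ, 0 < η ∧ ∀ m, η ≤ r₃ m := by
    rcases isEmpty_or_nonempty ι with hι | hι
    · exact ⟨1, one_pos, fun m => (hι.false m).elim⟩
    · obtain ⟨m, hm⟩ := Finite.exists_min r₃
      exact ⟨r₃ m, hr₃ m, hm⟩
  obtain ⟨η, hη0, hη⟩ := hη
  refine hQ κ₃ κ hl₃ hκ ⟨id, Function.surjective_id, ?_⟩ hq₃
  rintro X _ _ _ n j ⟨D⟩
  exact germF hη0 hl₃ hκ (fun m l v t hv => (g₃ m l v t (lt_of_lt_of_le hv (hη m))).symm) D

theorem LS_image {ι : Type*} [Finite ι] {Q : (ι → ℝ × ℂ × ℝ → SP) → Prop} (hQ : MonoF.{u} ISP Q) {S : ι → Set S3}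
    (h : LS Q S) {κ : ι → ℝ × ℂ × ℝ → SP} (hκ : LinkT ISP κ) (he : ∀ m, Equi rot (κ m)) {c : ι → ℝ → S3}
    (hc : ∀ m l, κ m (l, 0, 0) = (c m l, 1)) (hr : ∀ m, range (c m) = S m) : Q κ := by
  obtain ⟨c', κ', hκ', he', hc', hr', hq⟩ := h
  have hsame := fun m => KNH.same_image (hκ'.thick m) (hκ.thick m) (hc' m) (hc m) ((hr' m).trans (hr m).symm)
  choose g ε hε hg hg1 hg' hcg using hsame
  -- the reparametrised thick tori
  have hrev : ∀ m, ThickT ISP (fun q : ℝ × ℂ × ℝ => κ' m (-q.1, q.2)) := fun m => KNH.rev_thick (hκ'.thick m)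
  have hth : ∀ m, ThickT ISP (fun q : ℝ × ℂ × ℝ => κ' m (ε m * g m q.1, q.2)) := by
    intro m
    rcases hε m with h1 | h1
    · simp only [h1, one_mul]
      exact COR.thick_rep (hκ'.thick m) (hg m) (hg1 m) (hg' m)
    · simp only [h1, neg_one_mul]
      exact COR.thick_rep (hrev m) (hg m) (hg1 m) (hg' m)
  have hsub : ∀ m, Tube (fun q : ℝ × ℂ × ℝ => κ' m (ε m * g m q.1, q.2)) ⊆ Tube (κ' m) := by
    rintro m p ⟨l, v, t, hv, rfl⟩
    exact ⟨ε m * g m l, v, t, hv, rfl⟩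
  have hl : LinkT ISP (fun m => fun q : ℝ × ℂ × ℝ => κ' m (ε m * g m q.1, q.2)) :=
    ImgF_link hth fun m m' hm => (ImgF_disj hκ' hm).mono (hsub m) (hsub m')
  refine ImgF_same hQ hκ he hc hl (fun m l v t => he' m (ε m * g m l) v t) (fun m l => ?_) ?_
  · show κ' m (ε m * g m l, 0, 0) = (c m l, 1)
    rw [hc', hcg]
  · refine ImgF_sub hQ hκ' hth hsub ?_ hq
    intro m O R hR hO hq
    rcases hε m with h1 | h1
    · simp only [h1, one_mul]
      exact repO hR.toInv0 (hκ'.thick m) hO (hg m) (hg1 m) (hg' m) hq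
    · simp only [h1, neg_one_mul]
      exact repO hR.toInv0 (hrev m) (ImgF_tube_rev.trans hO) (hg m) (hg1 m) (hg' m)
        (hR.rev (κ' m) (hκ'.thick m) hO hq)

end Pool.Agent.LKF
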