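import Pool.Agent.LKF.DcaF
import Pool.Agent.RBM.JmA

/-!
# LKF/JmaF: the maps `Jm` are local diffeomorphisms   (difficulty 2)

Copy of `RBM.Jm_loc` (RBM/JmA.lean) with `Ab_ldF`, `hσ.loc a`, `hσ.out a`; `lamJ`, `muJ`, `JmA_perm` are in RBM/JmA.
-/

open scoped Manifold ContDiff Topology
open Set Filter
open Complex (I)
open Pool.Agent.RSG (E4 S4 ex cj c1 c2 ht fh Vx XW BBi)
open Pool.Agent.RBM (ThickT OnT Box frc lamJ muJ DomJ BBs gD)
open Pool.Agent.RBH (Tube BoxS)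

namespace Pool.Agent.LKF

variable {E : Type*} [NormedAddCommGroup E] [NormedSpace ℝ E] {H : Type*} [TopologicalSpace H]
  {J : ModelWithCorners ℝ E H}
  {P : Type*} [TopologicalSpace P] [ChartedSpace H P] {ι α : Type*} {κ κ' : ι → ℝ × ℂ × ℝ → P}
  {b b' : α → ℂ × ℝ × ℝ → P} {c : Cmb ι α} {σ δ : ℝ} {G : Equiv.Perm P}
  {X : Type*} [TopologicalSpace X] [ChartedSpace E4 X] {n j : ι → ℤ}

theorem Jm_locF (D : TwinF J κ n j X) (h : BunF J κ b c) (hσ : DiscOK D b c σ) (a : α)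
    (hτ : ContDiff ℝ ∞ (c.τ a)) (hδ : 0 < δ) {x : ℂ × ℝ × ℝ} (hx : x ∈ DomJ (c.τ a) δ) :
    IsLocalDiffeomorphAt 𝓘(ℝ, ℂ × ℝ × ℝ) (𝓡 4) ∞ (Jm D b c σ a) x := by
  classical
  obtain ⟨z, s, t⟩ := x
  obtain ⟨hz, hs, hf⟩ := hx
  simp only at hz hs hf
  have hσ0 := hσ.pos
  have hσ1 : σ ≤ 1 := hσ.le.trans (by norm_num)
  have hc1 : Continuous fun y : ℂ × ℝ × ℝ => ‖y.1‖ := by fun_prop
  have hτc : Continuous (c.τ a) := hτ.continuous
  have hc2 : Continuous fun y : ℂ × ℝ × ℝ => y.2.2 - c.τ a y.2.1 := by fun_prop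
  rcases lt_or_ge 3 ‖z‖ with h3 | h3
  · -- outside
    have hne : z ≠ 1 ∧ z ≠ -1 := by
      constructor
      · rintro rfl
        rw [norm_one] at h3
        linarith
      · rintro rfl
        rw [norm_neg, norm_one] at h3
        linarith
    refine Pool.Agent.CSG.ld_congr (Ab_ldF D h a hz hs hne.1 hne.2) ?_
    have hev : ∀ᶠ y : ℂ × ℝ × ℝ in 𝓝 (z, s, t), 3 < ‖y.1‖ :=
      hc1.continuousAt.eventually_const_lt h3
    filter_upwards [hev] with y ha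
    unfold Jm
    rw [if_neg (by linarith), if_neg (by linarith)]
  · have hfr := hf h3
    have hfr2 : |frc (t - c.τ a s)| < 1 / 2 := by linarith
    have hev := (hc2.tendsto (z, s, t)).eventually (Pool.Agent.RBM.frc_ev hfr2)
    simp only at hev
    rcases lt_or_ge ‖z‖ (5 / 2) with h5 | h5
    · -- the disc
      obtain ⟨G, hGd⟩ : ∃ G : ℂ × ℝ × ℝ → ℂ × ℝ × ℝ, G = fun y : ℂ × ℝ × ℝ =>
          (y.1, (fun _ : ℝ => σ) (‖y.1‖ ^ 2) * y.2.1,
          (fun _ : ℝ => σ) (‖y.1‖ ^ 2) * (y.2.2 - c.τ a y.2.1 - (round (t - c.τ a s) : ℝ)) +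
            (fun _ : ℝ => (0 : ℝ)) (‖y.1‖ ^ 2) * c.τ a y.2.1) := ⟨_, rfl⟩
      have hG : IsLocalDiffeomorphAt 𝓘(ℝ, ℂ × ℝ × ℝ) 𝓘(ℝ, ℂ × ℝ × ℝ) ∞ G (z, s, t) := by
        rw [hGd]
        exact Pool.Agent.RBM.JmA_perm (Λ := fun _ => σ) (M := fun _ => 0) contDiff_const contDiff_const hτ
          (fun _ => hσ0) (round (t - c.τ a s)) (z, s, t)
      have hval : G (z, s, t) = (z, σ * s, σ * frc (t - c.τ a s)) := by
        rw [hGd]
        simp [frc]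
      have hD := hσ.loc a z (σ * s) (σ * frc (t - c.τ a s)) h5.le
        (by rw [abs_mul, abs_of_pos hσ0]; nlinarith)
        (by rw [abs_mul, abs_of_pos hσ0]; nlinarith [Pool.Agent.RBM.frc_abs (t - c.τ a s)])
      have hcomp := IsLocalDiffeomorphAt.comp (hf := hG) (hg := by rw [hval]; exact hD) ..
      refine Pool.Agent.CSG.ld_congr hcomp ?_
      have hev2 : ∀ᶠ y : ℂ × ℝ × ℝ in 𝓝 (z, s, t), ‖y.1‖ < 5 / 2 :=
        hc1.continuousAt.eventually_lt_const h5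
      filter_upwards [hev, hev2] with y ha ha2
      simp only [Function.comp, hGd, zero_mul, add_zero]
      unfold Jm
      rw [if_pos ha2, ha]
    · -- the collar
      obtain ⟨G, hGd⟩ : ∃ G : ℂ × ℝ × ℝ → ℂ × ℝ × ℝ, G = fun y : ℂ × ℝ × ℝ =>
          (y.1, lamJ σ (‖y.1‖ ^ 2) * y.2.1,
          lamJ σ (‖y.1‖ ^ 2) * (y.2.2 - c.τ a y.2.1 - (round (t - c.τ a s) : ℝ)) +
            muJ (‖y.1‖ ^ 2) * c.τ a y.2.1) := ⟨_, rfl⟩
      have hG : IsLocalDiffeomorphAt 𝓘(ℝ, ℂ × ℝ × ℝ) 𝓘(ℝ, ℂ × ℝ × ℝ) ∞ G (z, s, t) := by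
        rw [hGd]
        exact Pool.Agent.RBM.JmA_perm (Pool.Agent.RBM.lamJ_smooth σ) Pool.Agent.RBM.muJ_smooth hτ
          (fun q => hσ0.trans_le (Pool.Agent.RBM.lamJ_bd hσ0 hσ1 q).1) (round (t - c.τ a s)) (z, s, t)
      have hval : G (z, s, t) =
          (z, lamJ σ (‖z‖ ^ 2) * s, lamJ σ (‖z‖ ^ 2) * frc (t - c.τ a s) + muJ (‖z‖ ^ 2) * c.τ a s) := by
        rw [hGd]
        simp [frc]
      have hne : z ≠ 1 ∧ z ≠ -1 := by
        constructor
        · rintro rfl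
          rw [norm_one] at h5
          linarith
        · rintro rfl
          rw [norm_neg, norm_one] at h5
          linarith
      have hA := Ab_ldF D h a (z := z) (s := lamJ σ (‖z‖ ^ 2) * s)
        (t := lamJ σ (‖z‖ ^ 2) * frc (t - c.τ a s) + muJ (‖z‖ ^ 2) * c.τ a s) hz
        (by
          have h6 := Pool.Agent.RBM.lamJ_bd hσ0 hσ1 (‖z‖ ^ 2)
          rw [abs_mul, abs_of_pos (hσ0.trans_le h6.1)]
          nlinarith [abs_nonneg s]) hne.1 hne.2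
      have hcomp := IsLocalDiffeomorphAt.comp (hf := hG) (hg := by rw [hval]; exact hA) ..
      refine Pool.Agent.CSG.ld_congr hcomp ?_
      have hev2 : ∀ᶠ y : ℂ × ℝ × ℝ in 𝓝 (z, s, t), 9 / 4 < ‖y.1‖ :=
        hc1.continuousAt.eventually_const_lt (by linarith : (9 / 4 : ℝ) < ‖z‖)
      filter_upwards [hev, hev2] with y ha ha2
      simp only [Function.comp, hGd]
      unfold Jm
      by_cases h7 : ‖y.1‖ < 5 / 2
      · rw [if_pos h7, hσ.out a _ _ _ ha2.le, ha]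
        obtain ⟨e1, e2⟩ := Pool.Agent.RBM.lamJ_in σ (q := ‖y.1‖ ^ 2) (by nlinarith [norm_nonneg y.1])
        rw [e1, e2, zero_mul, add_zero]
      · rw [if_neg h7]
        by_cases h8 : ‖y.1‖ < 3
        · rw [if_pos h8, ha]
        · rw [if_neg h8]
          obtain ⟨e1, e2⟩ := Pool.Agent.RBM.lamJ_out σ (q := ‖y.1‖ ^ 2) (by nlinarith [norm_nonneg y.1])
          rw [e1, e2]
          have e3 := Pool.Agent.RBM.box_int (h.box a) y.1 y.2.1 y.2.2 (-round (t - c.τ a s))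
          have e4 : ((1 : ℝ) * (y.2.2 - c.τ a y.2.1 - (round (t - c.τ a s) : ℝ)) + 1 * c.τ a y.2.1) =
              y.2.2 + ((-round (t - c.τ a s) : ℤ) : ℝ) := by
            push_cast
            ring
          rw [e4, one_mul, e3]

end Pool.Agent.LKF
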