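import Pool.Agent.LKF.TopF
import Pool.Agent.RBH.QpM

/-!
# LKF/QpF: points of the twins   (difficulty 1)

Family version of `RBH/QpM.lean` and of `RBM.Q_box` (RBM/JmB.lean): copy the proofs.
-/

open scoped Manifold ContDiff Topology
open Set Filter
open Complex (I)
open Pool.Agent.RSG (E4 S4 ex cj c1 c2 ht fh Vx XW BBi)
open Pool.Agent.RBM (ThickT OnT Box frc lamJ muJ DomJ BBs gD)
open Pool.Agent.RBH (Tube BoxS)

namespace Pool.Agent.LKF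

variable {E : Type*} [NormedAddCommGroup E] [NormedSpace ℝ E] {H : Type*} [TopologicalSpace H]
  {J : ModelWithCorners ℝ E H}
  {P : Type*} [TopologicalSpace P] [ChartedSpace H P] {ι α : Type*} {κ κ' : ι → ℝ × ℂ × ℝ → P}
  {b b' : α → ℂ × ℝ × ℝ → P} {c : Cmb ι α} {σ δ : ℝ} {G : Equiv.Perm P}
  {X : Type*} [TopologicalSpace X] [ChartedSpace E4 X] {n j : ι → ℤ}

theorem Q_phaseF (D : TwinF J κ n j X) (h : LinkT J κ) {i : ι} {z : S4} (hz : fh z ≠ 0) :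
    (c1 z = 0 ∨ c2 z = 0) ∨ ∃ (l : ℝ) (v : ℂ) (t : ℝ), v ≠ 0 ∧ ‖v‖ < 1 ∧ ‖v‖ = 2 * ‖c1 z‖ * ‖c2 z‖ ∧
      D.Q i z = D.A (κ i (l, v, t)) ∧ ¬ OnF κ (κ i (l, v, t)) := by
  by_cases hc : c1 z = 0 ∨ c2 z = 0
  · exact Or.inl hc
  · right
    push Not at hc
    obtain ⟨l, m, t, e1, e2, e3⟩ := Pool.Agent.RSG.exists_phase (n i) (j i) z
    have e1' : c1 z = ‖c1 z‖ * ex (m + (1 - j i) * t) := by
      rw [← sub_eq_zero]
      have := sub_eq_zero.mpr e1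
      convert this using 3
      push_cast
      ring_nf
    have e2' : c2 z = ‖c2 z‖ * ex (m - j i * t) := by
      rw [← sub_eq_zero]
      have := sub_eq_zero.mpr e2
      convert this using 3
      push_cast
      ring_nf
    have hg := D.glue i z l m t hz hc.1 hc.2 e1' e2' e3
    have hv1 := Pool.Agent.RSG.glue_norm hz m
    have hv0 : ((2 * ‖c1 z‖ * ‖c2 z‖ : ℝ) : ℂ) * ex m ≠ 0 := by
      apply mul_ne_zero _ (Pool.Agent.RSG.ex_ne m)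
      have := norm_pos_iff.2 hc.1
      have := norm_pos_iff.2 hc.2
      exact_mod_cast (by positivity : (2 * ‖c1 z‖ * ‖c2 z‖ : ℝ) ≠ 0)
    have hv2 : ‖((2 * ‖c1 z‖ * ‖c2 z‖ : ℝ) : ℂ) * ex m‖ = 2 * ‖c1 z‖ * ‖c2 z‖ := by
      rw [norm_mul, Pool.Agent.RSG.ex_norm, mul_one, Complex.norm_real, Real.norm_eq_abs,
        abs_of_nonneg (by positivity)]
    exact ⟨l, _, t, hv0, hv1, hv2, hg, kap_notF h t hv0 hv1⟩

theorem A_QF (D : TwinF J κ n j X) (h : LinkT J κ) {i : ι} {z : S4} (hz : fh z ≠ 0) {p : P} (hp : ¬ OnF κ p)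
    (he : D.A p = D.Q i z) : ∃ (l : ℝ) (v : ℂ) (t : ℝ), v ≠ 0 ∧ ‖v‖ < 1 ∧ ‖v‖ = 2 * ‖c1 z‖ * ‖c2 z‖ ∧
      p = κ i (l, v, t) := by
  rcases Q_phaseF D h hz with hc | ⟨l, v, t, h0, h1, h2, hQ, hn⟩
  · exact absurd he.symm (D.disj i z _ hz hc hp)
  · rw [hQ] at he
    exact ⟨l, v, t, h0, h1, h2, D.A_inj _ _ hp hn he⟩

theorem A_Q_tubF (D : TwinF J κ n j X) (h : LinkT J κ) {i : ι} {z : S4} (hz : fh z ≠ 0) {p : P} (hp : p ∉ TubF κ) :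
    D.A p ≠ D.Q i z := by
  intro he
  have hp' : ¬ OnF κ p := fun h' => hp (torus_tubF h')
  obtain ⟨l, v, t, -, h1, -, rfl⟩ := A_QF D h hz hp' he
  exact hp ⟨i, l, v, t, h1, rfl⟩

theorem Q_boxF (D : TwinF J κ n j X) (h : BunF J κ b c) {i : ι} {a : α} {z : S4} (hz : fh z ≠ 0) {z' : ℂ}
    {s t : ℝ} (hz' : ‖z'‖ < 4) (hs : |s| < 1) (ht : ¬ OnF κ (b a (z', s, t)))
    (he : D.Q i z = D.A (b a (z', s, t))) : ‖z'‖ < 3 / 2 := by
  rcases Q_phaseF D h.link hz with hc | ⟨l, v, t'', _, hv1, _, hQ, hn⟩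
  · exact absurd he (D.disj i z _ hz hc ht)
  · rw [hQ] at he
    exact kap_box_normF h hv1 hz' hs (D.A_inj _ _ hn ht he)

end Pool.Agent.LKF
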