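import Pool.Agent.LKF.DcaF
import Pool.Agent.LKF.QpF
import Pool.Agent.RBM.JmB
import Pool.Agent.RBH.JtM

/-!
# LKF/JmbF: the maps `Jm`, values and injectivity   (difficulty 3)

Family version of `RBM/JmB.lean` (copy the proofs; `hσ.inn` gives `Inn2`, which is contained in `Inn`).
`Jm_injF`: as `RBM.Jm_inj`; `a = a'` in the three cases: both `‖z‖, ‖z'‖ ≥ 9/4`: `Ab_injF` gives `a = a'`; both `< 5/2`: `hσ.inj`; mixed case: contradiction, as in `RBM.JmB_mixed`: `x = hD ..` is in `Inn2 D b a`: either `D.A (b a (w, ..))` with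
`‖w‖ < 5/2`: then `b a (w, ..) = b a' (z', ..)` with `‖z'‖ ≥ 5/2`, so `a = a'` (`bdisj`) and `w = z'`: contradiction; or `D.Q i w`: `Q_boxF`: contradiction.
-/

open scoped Manifold ContDiff Topology
open Set Filter
open Complex (I)
open Pool.Agent.RSG (E4 S4 ex cj c1 c2 ht fh Vx XW BBi)
open Pool.Agent.RBM (ThickT OnT Box frc lamJ muJ DomJ BBs gD)
open Pool.Agent.RBH (Tube BoxS)

namespace Pool.Agent.LKF

variable {E : Type*} [NormedAddCommGroup E] [NormedSpace ℝ E] {H : Type*} [TopologicalSpace H]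
  {J : ModelWithCorners ℝ E H}
  {P : Type*} [TopologicalSpace P] [ChartedSpace H P] {ι α : Type*} {κ κ' : ι → ℝ × ℂ × ℝ → P}
  {b b' : α → ℂ × ℝ × ℝ → P} {c : Cmb ι α} {σ δ : ℝ} {G : Equiv.Perm P}
  {X : Type*} [TopologicalSpace X] [ChartedSpace E4 X] {n j : ι → ℤ}

theorem JmF_out (D : TwinF J κ n j X) (b : α → ℂ × ℝ × ℝ → P) (c : Cmb ι α) (σ : ℝ) (a : α) {x : ℂ × ℝ × ℝ}
    (h : 3 ≤ ‖x.1‖) : Jm D b c σ a x = D.A (b a x) := by
  unfold Jm
  rw [if_neg (by linarith), if_neg (by linarith)]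

theorem JmF_mid (D : TwinF J κ n j X) (h : BunF J κ b c) (hσ : DiscOK D b c σ) (a : α) {z : ℂ} (s t : ℝ)
    (hz : 9 / 4 ≤ ‖z‖) :
    Jm D b c σ a (z, s, t) = D.A (b a (z, lamJ σ (‖z‖ ^ 2) * s,
      lamJ σ (‖z‖ ^ 2) * frc (t - c.τ a s) + muJ (‖z‖ ^ 2) * c.τ a s)) := by
  unfold Jm
  by_cases h7 : ‖z‖ < 5 / 2
  · simp only [h7, if_true]
    rw [hσ.out _ _ _ _ hz]
    obtain ⟨e1, e2⟩ := RBM.lamJ_in σ (q := ‖z‖ ^ 2) (by nlinarith [norm_nonneg z])
    rw [e1, e2, zero_mul, add_zero]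
  · by_cases h8 : ‖z‖ < 3
    · simp only [h7, h8, if_true, if_false]
    · simp only [h7, h8, if_false]
      obtain ⟨e1, e2⟩ := RBM.lamJ_out σ (q := ‖z‖ ^ 2) (by nlinarith [norm_nonneg z])
      rw [e1, e2]
      have e3 := RBM.box_int (h.box a) z s t (-round (t - c.τ a s))
      have e4 : ((1 : ℝ) * frc (t - c.τ a s) + 1 * c.τ a s) = t + ((-round (t - c.τ a s) : ℤ) : ℝ) := by
        unfold frc
        push_cast
        ring
      rw [e4, one_mul, e3]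

theorem JmF_small (D : TwinF J κ n j X) (b : α → ℂ × ℝ × ℝ → P) (c : Cmb ι α) (σ : ℝ) (a : α) {z : ℂ} (s t : ℝ)
    (hz : ‖z‖ < 5 / 2) : Jm D b c σ a (z, s, t) = hD D b c a (z, σ * s, σ * frc (t - c.τ a s)) := by
  unfold Jm
  simp only [hz, if_true]

theorem JmF_bds {D : TwinF J κ n j X} (hσ : DiscOK D b c σ) {s : ℝ} (x : ℝ) (hs : |s| < 1) :
    |σ * s| < σ ∧ |σ * frc x| < σ := by
  have h0 := hσ.pos
  constructor
  · rw [abs_mul, abs_of_pos h0]
    nlinarith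
  · rw [abs_mul, abs_of_pos h0]
    nlinarith [RBM.frc_abs x]

theorem Jm_innF (D : TwinF J κ n j X) (h : BunF J κ b c) (hσ : DiscOK D b c σ) (a : α) {z : ℂ} {s : ℝ} (t : ℝ)
    (hz : ‖z‖ < 3) (hs : |s| < 1) : Jm D b c σ a (z, s, t) ∈ Inn D b a 3 := by
  rcases lt_or_ge ‖z‖ (9 / 4) with h9 | h9
  · rw [JmF_small D b c σ a s t (by linarith)]
    have hb := JmF_bds hσ (t - c.τ a s) hs
    rcases hσ.inn a z (σ * s) (σ * frc (t - c.τ a s)) h9 hb.1 hb.2 with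
      ⟨z', s', t', h1, h2, h3, h4⟩ | ⟨i, w, h1, _, h2⟩
    · exact Or.inl ⟨z', s', t', by linarith, by linarith, h3, h4⟩
    · exact Or.inr ⟨i, w, h1, h2⟩
  · rw [JmF_mid D h hσ a s t h9]
    have hσ1 : σ ≤ 1 := hσ.le.trans (by norm_num)
    have h6 := RBM.JmB_lam hσ.pos hσ1 (‖z‖ ^ 2) hs
    have hne := RBM.JmB_ne (z := z) (by linarith)
    exact Or.inl ⟨z, _, _, hz, h6, DCaF_not h (by linarith) h6 hne.1 hne.2, rfl⟩

theorem Jm_perF (D : TwinF J κ n j X) (h : BunF J κ b c) (σ : ℝ) (a : α) (z : ℂ) (s t : ℝ) :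
    Jm D b c σ a (z, s, t + 1) = Jm D b c σ a (z, s, t) := by
  have e : frc (t + 1 - c.τ a s) = frc (t - c.τ a s) := by
    have := RBM.frc_add_int (t - c.τ a s) 1
    rw [← this]
    congr 1
    push_cast
    ring
  unfold Jm
  simp only [e, (h.box a).per]

theorem Jm_intF (D : TwinF J κ n j X) (h : BunF J κ b c) (σ : ℝ) (a : α) (z : ℂ) (s t : ℝ) (m : ℤ) :
    Jm D b c σ a (z, s, t + m) = Jm D b c σ a (z, s, t) :=
  RBM.TorP_per (f := fun x => Jm D b c σ a (z, s, x)) (fun x => Jm_perF D h σ a z s x) t m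

theorem JmbF_mixed (D : TwinF J κ n j X) (h : BunF J κ b c) (hσ : DiscOK D b c σ) {a a' : α} {z z' : ℂ}
    {s s' t t' : ℝ} (hs : |s| < 1) (hs' : |s'| < 1) (h1 : ‖z‖ < 9 / 4) (h2 : 5 / 2 ≤ ‖z'‖) (h4 : ‖z'‖ < 4)
    (he : Jm D b c σ a (z, s, t) = Jm D b c σ a' (z', s', t')) : False := by
  have hσ1 : σ ≤ 1 := hσ.le.trans (by norm_num)
  have h6 := RBM.JmB_lam hσ.pos hσ1 (‖z'‖ ^ 2) hs'
  have hne := RBM.JmB_ne (z := z') (by linarith)
  have hnt : ¬ OnF κ (b a' (z', lamJ σ (‖z'‖ ^ 2) * s',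
      lamJ σ (‖z'‖ ^ 2) * frc (t' - c.τ a' s') + muJ (‖z'‖ ^ 2) * c.τ a' s')) :=
    DCaF_not h h4 h6 hne.1 hne.2
  rw [JmF_small D b c σ a s t (by linarith), JmF_mid D h hσ a' s' t' (by linarith)] at he
  have hb := JmF_bds hσ (t - c.τ a s) hs
  rcases hσ.inn a z (σ * s) (σ * frc (t - c.τ a s)) h1 hb.1 hb.2 with
    ⟨w, u, x, hw, hu, hn, hx⟩ | ⟨i, w, hw, _, hx⟩
  · rw [hx] at he
    have e := D.A_inj _ _ hn hnt he
    have ea := h.bdisj _ _ _ _ _ _ _ _ (by linarith : ‖w‖ < 4) (by linarith) h4 h6 e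
    subst ea
    have e2 := ((h.box a).inj _ _ _ _ _ _ (by linarith : ‖w‖ < 4) (by linarith) h4 h6 e).1
    rw [e2] at hw
    linarith
  · rw [hx] at he
    have := Q_boxF D h hw h4 h6 hnt he
    linarith

theorem Jm_injF (D : TwinF J κ n j X) (h : BunF J κ b c) (hσ : DiscOK D b c σ) (hδ : 0 < δ) {a a' : α} {z z' : ℂ}
    {s s' t t' : ℝ} (hx : (z, s, t) ∈ DomJ (c.τ a) δ) (hx' : (z', s', t') ∈ DomJ (c.τ a') δ)
    (he : Jm D b c σ a (z, s, t) = Jm D b c σ a' (z', s', t')) :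
    a = a' ∧ z = z' ∧ s = s' ∧ ∃ m : ℤ, t' = t + m := by
  obtain ⟨hz, hs, hf⟩ := hx
  obtain ⟨hz', hs', hf'⟩ := hx'
  simp only at hz hs hf hz' hs' hf'
  have hσ0 := hσ.pos
  have hσ1 : σ ≤ 1 := hσ.le.trans (by norm_num)
  by_cases h1 : 9 / 4 ≤ ‖z‖ ∧ 9 / 4 ≤ ‖z'‖
  · rw [JmF_mid D h hσ a s t h1.1, JmF_mid D h hσ a' s' t' h1.2] at he
    have hne := RBM.JmB_ne (z := z) (by linarith [h1.1])
    have hne' := RBM.JmB_ne (z := z') (by linarith [h1.2])
    obtain ⟨e0, e1, e2, m, e3⟩ := Ab_injF D h hz (RBM.JmB_lam hσ0 hσ1 _ hs) hne.1 hne.2 hz'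
      (RBM.JmB_lam hσ0 hσ1 _ hs') hne'.1 hne'.2 he
    subst e0
    subst e1
    have key : ∀ x y : ℝ, frc (x - c.τ a s) = frc (y - c.τ a s) → ∃ m : ℤ, y = x + m := by
      intro x y hxy
      obtain ⟨m, hm⟩ := RBM.frc_inj hxy
      exact ⟨m, by linarith⟩
    have hb := RBM.lamJ_bd hσ0 hσ1 (‖z‖ ^ 2)
    have hl0 : 0 < lamJ σ (‖z‖ ^ 2) := hσ0.trans_le hb.1
    have e4 : s = s' := mul_left_cancel₀ hl0.ne' e2
    subst e4
    refine ⟨rfl, rfl, rfl, ?_⟩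
    rcases le_or_gt ‖z‖ 3 with h3 | h3
    · have f1 := hf h3
      have f2 := hf' h3
      set f := frc (t - c.τ a s) with hfd
      set f' := frc (t' - c.τ a s) with hfd'
      have e5 : lamJ σ (‖z‖ ^ 2) * (f' - f) = m := by linarith
      have hm : m = 0 := by
        have h8 : |(m : ℝ)| < 1 := by
          rw [← e5, abs_mul, abs_of_pos hl0]
          have h9 : |f' - f| < 1 := by
            calc |f' - f| ≤ |f'| + |f| := abs_sub _ _
              _ < 1 := by linarith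
          nlinarith [abs_nonneg (f' - f)]
        have h9 : |m| < 1 := by exact_mod_cast h8
        exact Int.abs_lt_one_iff.mp h9
      rw [hm] at e5
      have e6 : f' - f = 0 := by
        have e7 : lamJ σ (‖z‖ ^ 2) * (f' - f) = 0 := by
          rw [e5, Int.cast_zero]
        rcases mul_eq_zero.mp e7 with h9 | h9
        · exact absurd h9 hl0.ne'
        · exact h9
      exact key t t' (by rw [← hfd, ← hfd']; linarith)
    · obtain ⟨g1, g2⟩ := RBM.lamJ_out σ (q := ‖z‖ ^ 2) (by nlinarith [norm_nonneg z])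
      rw [g1, g2] at e3
      refine ⟨m + (round (t' - c.τ a s) - round (t - c.τ a s)), ?_⟩
      unfold frc at e3
      push_cast
      linarith
  · by_cases h2 : ‖z‖ < 5 / 2 ∧ ‖z'‖ < 5 / 2
    · rw [JmF_small D b c σ a s t h2.1, JmF_small D b c σ a' s' t' h2.2] at he
      have hb := JmF_bds hσ (t - c.τ a s) hs
      have hb' := JmF_bds hσ (t' - c.τ a' s') hs'
      obtain ⟨e0, e⟩ := hσ.inj _ _ _ _ _ _ _ _ h2.1.le hb.1 hb.2 h2.2.le hb'.1 hb'.2 he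
      subst e0
      simp only [Prod.mk.injEq] at e
      obtain ⟨e1, e2, e3⟩ := e
      have e4 : s = s' := mul_left_cancel₀ hσ0.ne' e2
      subst e4
      obtain ⟨m, hm⟩ := RBM.frc_inj (mul_left_cancel₀ hσ0.ne' e3)
      exact ⟨rfl, e1, rfl, m, by linarith⟩
    · exfalso
      rcases lt_or_ge ‖z‖ (9 / 4) with h3 | h3
      · have h4 : 5 / 2 ≤ ‖z'‖ := by
          by_contra hc
          push Not at hc
          exact h2 ⟨by linarith, hc⟩
        exact JmbF_mixed D h hσ hs hs' h3 h4 hz' he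
      · have h4 : ‖z'‖ < 9 / 4 := by
          by_contra hc
          push Not at hc
          exact h1 ⟨h3, hc⟩
        have h5 : 5 / 2 ≤ ‖z‖ := by
          by_contra hc
          push Not at hc
          exact h2 ⟨hc, by linarith⟩
        exact JmbF_mixed D h hσ hs' hs h4 h5 hz he.symm

end Pool.Agent.LKF
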