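import Pool.Agent.LKF.JmaF
import Pool.Agent.LKF.JmbF
import Pool.Agent.RBH.JtM

/-!
# LKF/JtF: the map `Jt`   (difficulty 3)

Family version of `RBH/JtM.lean`: copy the proofs (`RBH.DomJ_open` is there).  In `JtF_box` the chosen pair `w = (a', x')` has `a' = a` by `h.bdisj`, then `box.inj`, `Jm_intF`.
`Jt_ldF`, second case: the closed set is `{p | ∃ a z s t, ‖z‖ ≤ 3 ∧ |s| ≤ 3/4 ∧ p = b a (z, s, t)}` (`boxF_closed`).
-/

open scoped Manifold ContDiff Topology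
open Set Filter
open Complex (I)
open Pool.Agent.RSG (E4 S4 ex cj c1 c2 ht fh Vx XW BBi)
open Pool.Agent.RBM (ThickT OnT Box frc lamJ muJ DomJ BBs gD)
open Pool.Agent.RBH (Tube BoxS)

namespace Pool.Agent.LKF

variable {E : Type*} [NormedAddCommGroup E] [NormedSpace ℝ E] {H : Type*} [TopologicalSpace H]
  {J : ModelWithCorners ℝ E H}
  {P : Type*} [TopologicalSpace P] [ChartedSpace H P] {ι α : Type*} {κ κ' : ι → ℝ × ℂ × ℝ → P}
  {b b' : α → ℂ × ℝ × ℝ → P} {c : Cmb ι α} {σ δ : ℝ} {G : Equiv.Perm P}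
  {X : Type*} [TopologicalSpace X] [ChartedSpace E4 X] {n j : ι → ℤ}

theorem JtF_box (D : TwinF J κ n j X) (h : BunF J κ b c) (σ : ℝ) (a : α) {z : ℂ} {s : ℝ} (t : ℝ)
    (hz : ‖z‖ < 4) (hs : |s| < 3 / 4) : Jt D b c σ (b a (z, s, t)) = Jm D b c σ a (z, s, t) := by

  have hex : ∃ w : α × (ℂ × ℝ × ℝ), ‖w.2.1‖ < 4 ∧ |w.2.2.1| < 3 / 4 ∧ b a (z, s, t) = b w.1 w.2 :=
    ⟨(a, (z, s, t)), hz, hs, rfl⟩
  unfold Jt
  rw [dif_pos hex]
  obtain ⟨h1, h2, h3⟩ := hex.choose_spec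
  obtain ⟨w, hw⟩ : ∃ w, w = hex.choose := ⟨_, rfl⟩
  rw [← hw] at h1 h2 h3 ⊢
  obtain ⟨a', z', s', t'⟩ := w
  simp only at h1 h2 h3 ⊢
  have e0 : a = a' := h.bdisj a a' z s t z' s' t' hz (by linarith) h1 (by linarith) h3
  subst e0
  obtain ⟨e1, e2, m, e3⟩ := (h.box a).inj _ _ _ _ _ _ hz (by linarith) h1 (by linarith) h3
  subst e1 e2 e3
  exact Jm_intF D h σ a z s t m

theorem JtF_out (D : TwinF J κ n j X) (b : α → ℂ × ℝ × ℝ → P) (c : Cmb ι α) (σ : ℝ) {p : P}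
    (hp : ∀ (a : α) (z : ℂ) (s t : ℝ), ‖z‖ < 4 → |s| < 3 / 4 → p ≠ b a (z, s, t)) :
    Jt D b c σ p = D.A p := by

  unfold Jt
  rw [dif_neg]
  rintro ⟨⟨a, z, s, t⟩, h1, h2, h3⟩
  exact hp a z s t h1 h2 h3

/-- the part `3/4 ≤ |s|` of the box -/
theorem JtF_end (D : TwinF J κ n j X) (h : BunF J κ b c) (σ : ℝ) (a : α) {z : ℂ} {s : ℝ} (t : ℝ)
    (hz : ‖z‖ < 4) (hs : 3 / 4 ≤ |s|) (hs1 : |s| < 1) :
    Jt D b c σ (b a (z, s, t)) = D.A (b a (z, s, t)) := by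

  apply JtF_out
  intro a' z' s' t' hz' hs' he
  have e0 : a = a' := h.bdisj a a' z s t z' s' t' hz hs1 hz' (by linarith) he
  subst e0
  obtain ⟨-, e2, -⟩ := (h.box a).inj _ _ _ _ _ _ hz hs1 hz' (by linarith) he
  subst e2
  linarith

theorem JtF_far (D : TwinF J κ n j X) (h : BunF J κ b c) (σ : ℝ) (a : α) {z : ℂ} {s : ℝ} (t : ℝ)
    (h3 : 3 ≤ ‖z‖) (hz : ‖z‖ < 4) (hs : |s| < 1) :
    Jt D b c σ (b a (z, s, t)) = D.A (b a (z, s, t)) := by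

  rcases lt_or_ge |s| (3 / 4) with h1 | h1
  · rw [JtF_box D h σ a t hz h1, JmF_out D b c σ a (x := (z, s, t)) h3]
  · exact JtF_end D h σ a t hz h1 hs

theorem JtF_not (h : BunF J κ b c) {a : α} {z : ℂ} {s t : ℝ} (h3 : 3 ≤ ‖z‖) (hz : ‖z‖ < 4) (hs : |s| < 1) :
    ¬ OnF κ (b a (z, s, t)) := by
  rw [box_torusF h hz hs]
  have hne := Pool.Agent.RBM.JmB_ne (z := z) (by linarith)
  exact not_or.mpr hne

/-- the mixed case of `Jt_injF` -/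
theorem JtF_mixed (D : TwinF J κ n j X) (h : BunF J κ b c) (hσ : DiscOK D b c σ) {a : α}
    {x : ℂ × ℝ × ℝ} (hx : x ∈ DomJ (c.τ a) δ) {p : P} (hp : p ∉ TubF κ)
    (hp' : p ∉ BoxF b) (he : Jm D b c σ a x = D.A p) : False := by
  obtain ⟨z, s, t⟩ := x
  obtain ⟨hz, hs, hf⟩ := hx
  simp only at hz hs hf
  have hpT : ¬ OnF κ p := fun hh => hp (torus_tubF hh)
  rcases le_or_gt 3 ‖z‖ with h3 | h3
  · rw [JmF_out D b c σ a (x := (z, s, t)) h3] at he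
    have := D.A_inj _ _ (JtF_not h h3 hz hs) hpT he
    exact hp' ⟨a, z, s, t, hz, hs, this.symm⟩
  · have h4 := Jm_innF D h hσ a t h3 hs
    rw [he] at h4
    rcases h4 with ⟨z', s', t', h5, h6, h7, h8⟩ | ⟨i, w, h5, h6⟩
    · have := D.A_inj _ _ hpT h7 h8
      exact hp' ⟨a, z', s', t', by linarith, h6, this⟩
    · exact A_Q_tubF D h.link h5 hp h6

theorem JtF_val_box (D : TwinF J κ n j X) (h : BunF J κ b c) (σ : ℝ) (a : α) {x : ℂ × ℝ × ℝ}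
    (hz : ‖x.1‖ < 4) (hs : |x.2.1| < 3 / 4) :
    Jt D b c σ (b a x) = Jm D b c σ a x := by
  obtain ⟨z, s, t⟩ := x
  exact JtF_box D h σ a t hz hs

theorem JtF_val_out (D : TwinF J κ n j X) (b : α → ℂ × ℝ × ℝ → P) (c : Cmb ι α) (σ : ℝ) {p : P}
    (hp : p ∉ BoxF b) : Jt D b c σ p = D.A p := by
  apply JtF_out
  intro a z s t hz hs he
  exact hp ⟨a, z, s, t, hz, by linarith, he⟩

theorem Jt_injF (D : TwinF J κ n j X) (h : BunF J κ b c) (hσ : DiscOK D b c σ) (hδ : 0 < δ) {p p' : P}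
    (hp : p ∈ Good κ b c δ) (hp' : p' ∈ Good κ b c δ) (he : Jt D b c σ p = Jt D b c σ p') : p = p' := by

  rcases hp with ⟨a, x, hx, hs, rfl⟩ | ⟨h1, h2⟩
  · rcases hp' with ⟨a', x', hx', hs', rfl⟩ | ⟨h1', h2'⟩
    · rw [JtF_val_box D h σ a hx.1 hs, JtF_val_box D h σ a' hx'.1 hs'] at he
      obtain ⟨z, s, t⟩ := x
      obtain ⟨z', s', t'⟩ := x'
      obtain ⟨e0, e1, e2, m, e3⟩ := Jm_injF D h hσ hδ hx hx' he
      subst e0 e1 e2 e3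
      exact (Pool.Agent.RBM.box_int (h.box a) z s t m).symm
    · rw [JtF_val_box D h σ a hx.1 hs, JtF_val_out D b c σ h2'] at he
      exact (JtF_mixed D h hσ hx h1' h2' he).elim
  · rcases hp' with ⟨a', x', hx', hs', rfl⟩ | ⟨h1', h2'⟩
    · rw [JtF_val_box D h σ a' hx'.1 hs', JtF_val_out D b c σ h2] at he
      exact (JtF_mixed D h hσ hx' h1 h2 he.symm).elim
    · rw [JtF_val_out D b c σ h2, JtF_val_out D b c σ h2'] at he
      exact D.A_inj _ _ (fun hh => h1 (torus_tubF hh)) (fun hh => h1' (torus_tubF hh)) he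

theorem Jt_ldF [T2Space P] [Finite α] (D : TwinF J κ n j X) (h : BunF J κ b c) (hσ : DiscOK D b c σ)
    (hτ : ∀ a, ContDiff ℝ ∞ (c.τ a)) (hδ : 0 < δ) {p : P} (hp : p ∈ Good κ b c δ) :
    IsLocalDiffeomorphAt J (𝓡 4) ∞ (Jt D b c σ) p := by

  rcases hp with ⟨a, x, hx, hs, rfl⟩ | ⟨h1, h2⟩
  · have h3 : IsLocalDiffeomorphAt 𝓘(ℝ, ℂ × ℝ × ℝ) J ∞ (b a) x := by
      obtain ⟨z, s, t⟩ := x
      exact (h.box a).loc z s t hx.1 hx.2.1
    refine Pool.Agent.CSG.ld_of_comp_left ?_ h3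
    refine Pool.Agent.CSG.ld_congr (Jm_locF D h hσ a (hτ a) hδ hx) ?_
    have e1 : ∀ᶠ x' in 𝓝 x, x' ∈ DomJ (c.τ a) δ :=
      (Pool.Agent.RBH.DomJ_open (hτ a).continuous δ).mem_nhds hx
    have c1 : Continuous fun y : ℂ × ℝ × ℝ => |y.2.1| := by fun_prop
    have e2 : ∀ᶠ x' : ℂ × ℝ × ℝ in 𝓝 x, |x'.2.1| < 3 / 4 := c1.continuousAt.eventually_lt_const hs
    filter_upwards [e1, e2] with x' h5 h6
    exact JtF_val_box D h σ a h5.1 h6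
  · refine Pool.Agent.CSG.ld_congr (D.A_loc p (fun hh => h1 (torus_tubF hh))) ?_
    have hC := boxF_closed h.box (r₀ := 3) (s₀ := 3 / 4) (by norm_num) (by norm_num)
    have hpC : p ∈ {p : P | ∃ (a : α) (z : ℂ) (s t : ℝ), ‖z‖ ≤ 3 ∧ |s| ≤ 3 / 4 ∧ p = b a (z, s, t)}ᶜ := by
      rintro ⟨a, z, s, t, h3, h4, h5⟩
      exact h2 ⟨a, z, s, t, by linarith, by linarith, h5⟩
    filter_upwards [hC.isOpen_compl.mem_nhds hpC] with p' hp'
    by_cases hex : ∃ (a : α) (z : ℂ) (s t : ℝ), ‖z‖ < 4 ∧ |s| < 3 / 4 ∧ p' = b a (z, s, t)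
    · obtain ⟨a, z, s, t, h3, h4, rfl⟩ := hex
      have h5 : 3 ≤ ‖z‖ := by
        by_contra hc
        push Not at hc
        exact hp' ⟨a, z, s, t, hc.le, h4.le, rfl⟩
      exact JtF_far D h σ a t h5 h3 (by linarith)
    · apply JtF_out
      intro a z s t h3 h4 h5
      exact hex ⟨a, z, s, t, h3, h4, h5⟩

end Pool.Agent.LKF
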