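import Pool.Agent.LKF.InvF
import Pool.Agent.LKF.ShrM
import Pool.Agent.LKF.OriF

/-!
# LKF/PreF: preparation: positive and thin tori   (difficulty 3)

(1) Positive: by induction on a finite set `T` of indices: a family with the same cores, tubes contained in the old ones, `PosT` for the indices in `T`: at `m ∉ T`, if `PosT (κ m)` is false, replace `κ m` by its mirror image (`posT_or`, `inv_of_mono` (field `mirror`),
`RepO.tube_mir`: the tube is the same; `Function.update_eq_self`, `Function.update_idem`; thick: `COR.CorB_thick` / `CorA_mir`).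
(2) Thin: `shrink` for every `m` (choose), `germF` with the minimum `η` of the finitely many germ radii (`ι` finite; if `ι` is empty everything is trivial; or induction as in (1) with `Inv0.germ`).
`PosT` is preserved by `posT_germ`.
-/

open scoped Manifold ContDiff Topology
open Set Filter
open Complex (I)
open Pool.Agent.CSG (stp)
open Pool.Agent.RSG (E4 S3 S4 ex cj c1 c2 ht fh pS3)
open Pool.Agent.RBM (ThickT OnT Box frc)
open Pool.Agent.RBH (Tube BoxS)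
open Pool.Agent.PTH (SP ISP Act)
open Pool.Agent.COR (Equi EquiB BBox OutW PosAt half dv dt PerS)
open Pool.Agent.KNT (Dom BalC Tubes Str Str2 CD)
open Pool.Agent.KNH (rot Hat circ pb Emb Fam ThinOK thn bx)
open Pool.Agent.CLG (io pol)

namespace Pool.Agent.LKF

universe u

open Classical in
theorem PreF_one {ι : Type*} [Finite ι] {Q : (ι → ℝ × ℂ × ℝ → SP) → Prop} (hQ : MonoF.{u} ISP Q) {a : ℝ → SP → SP}
    {κ : ι → ℝ × ℂ × ℝ → SP} (h : LinkT ISP κ) (i₀ : ι) (he : Equi a (κ i₀)) (hq : Q κ) {F : Set SP}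
    (hF : IsClosed F) (hd : ∀ l t, κ i₀ (l, 0, t) ∉ F) :
    ∃ κ₂ : ℝ × ℂ × ℝ → SP, ThickT ISP κ₂ ∧ Equi a κ₂ ∧ PosT κ₂ ∧ (∀ l t, κ₂ (l, 0, t) = κ i₀ (l, 0, t)) ∧
      Tube κ₂ ⊆ Tube (κ i₀) ∧ Disjoint (Tube κ₂) F ∧ Q (Function.update κ i₀ κ₂) := by
  have hI := inv_of_mono hQ h i₀
  have hO := tube_oth h i₀
  have hq0 : Q (Function.update κ i₀ (κ i₀)) := by rw [Function.update_eq_self]; exact hq
  -- a positive torus
  obtain ⟨κ₁, h1, h2, h3, h4, h5, h6⟩ : ∃ κ₁ : ℝ × ℂ × ℝ → SP, ThickT ISP κ₁ ∧ Equi a κ₁ ∧ PosT κ₁ ∧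
      (∀ l t, κ₁ (l, 0, t) = κ i₀ (l, 0, t)) ∧ Tube κ₁ ⊆ Tube (κ i₀) ∧ Q (Function.update κ i₀ κ₁) := by
    rcases posT_or (h.thick i₀) with hp | hp
    · exact ⟨κ i₀, h.thick i₀, he, hp, fun _ _ => rfl, Subset.rfl, hq0⟩
    · refine ⟨_, COR.CorB_thick (h.thick i₀), ?_, hp, ?_, tube_mir, hI.mirror _ (h.thick i₀) hO hq0⟩
      · intro l v t
        exact he _ _ _
      · intro l t
        show κ i₀ (l, (starRingEnd ℂ) 0, t) = κ i₀ (l, 0, t)
        rw [map_zero]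
  obtain ⟨κ₂, k1, k2, ⟨η, hη, k3⟩, k4, k5, k6⟩ := shrink h1 hF (fun l t => by rw [h4]; exact hd l t)
  refine ⟨κ₂, k1, k2 a h2, posT_germ h1 h3 hη k3, ?_, k4.trans h5, ?_, ?_⟩
  · intro l t
    rw [k3 l 0 t (by simpa using hη), h4]
  · exact k6.mono_left subset_closure
  · exact hI.germ κ₁ κ₂ η hη h1 k1 (h5.trans hO) ((k4.trans h5).trans hO) k3 h6

open Classical in
theorem PreF_ind {ι : Type*} [Finite ι] {Q : (ι → ℝ × ℂ × ℝ → SP) → Prop} (hQ : MonoF.{u} ISP Q) {a : ℝ → SP → SP}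
    {κ : ι → ℝ × ℂ × ℝ → SP} (h : LinkT ISP κ) (he : ∀ m, Equi a (κ m)) (hq : Q κ) {F : ι → Set SP}
    (hF : ∀ m, IsClosed (F m)) (hd : ∀ m l t, κ m (l, 0, t) ∉ F m) (T : Finset ι) :
    ∃ κ' : ι → ℝ × ℂ × ℝ → SP, LinkT ISP κ' ∧ (∀ m, Equi a (κ' m)) ∧ (∀ m l t, κ' m (l, 0, t) = κ m (l, 0, t)) ∧
      (∀ m ∈ T, PosT (κ' m) ∧ Disjoint (Tube (κ' m)) (F m)) ∧ Q κ' := by
  induction T using Finset.induction_on with
  | empty => exact ⟨κ, h, he, fun _ _ _ => rfl, fun m hm => absurd hm (Finset.notMem_empty m), hq⟩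
  | insert i₀ T hi ih =>
    obtain ⟨κ', h1, h2, h3, h4, h5⟩ := ih
    obtain ⟨κ₂, k1, k2, k3, k4, k5, k6, k7⟩ := PreF_one hQ h1 i₀ (h2 i₀) h5 (hF i₀)
      (fun l t => by rw [h3]; exact hd i₀ l t)
    refine ⟨Function.update κ' i₀ κ₂, link_update h1 i₀ k1 (k5.trans (tube_oth h1 i₀)), ?_, ?_, ?_, k7⟩
    · intro m
      by_cases hm : m = i₀
      · subst hm
        rw [Function.update_self]
        exact k2
      · rw [Function.update_of_ne hm]
        exact h2 m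
    · intro m l t
      by_cases hm : m = i₀
      · subst hm
        rw [Function.update_self, k4, h3]
      · rw [Function.update_of_ne hm, h3]
    · intro m hmT
      by_cases hm : m = i₀
      · subst hm
        rw [Function.update_self]
        exact ⟨k3, k6⟩
      · rw [Function.update_of_ne hm]
        exact h4 m (Finset.mem_of_mem_insert_of_ne hmT hm)

theorem prepF {ι : Type*} [Finite ι] {Q : (ι → ℝ × ℂ × ℝ → SP) → Prop} (hQ : MonoF.{u} ISP Q) {a : ℝ → SP → SP}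
    {κ : ι → ℝ × ℂ × ℝ → SP} (h : LinkT ISP κ) (he : ∀ m, Equi a (κ m)) (hq : Q κ) {F : ι → Set SP}
    (hF : ∀ m, IsClosed (F m)) (hd : ∀ m l t, κ m (l, 0, t) ∉ F m) :
    ∃ κ' : ι → ℝ × ℂ × ℝ → SP, LinkT ISP κ' ∧ (∀ m, Equi a (κ' m)) ∧ (∀ m, PosT (κ' m)) ∧
      (∀ m l, κ' m (l, 0, 0) = κ m (l, 0, 0)) ∧ (∀ m, Disjoint (Tube (κ' m)) (F m)) ∧ Q κ' := by
  classical
  cases nonempty_fintype ι
  obtain ⟨κ', h1, h2, h3, h4, h5⟩ := PreF_ind hQ h he hq hF hd Finset.univ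
  exact ⟨κ', h1, h2, fun m => (h4 m (Finset.mem_univ m)).1, fun m l => h3 m l 0, fun m => (h4 m (Finset.mem_univ m)).2, h5⟩

end Pool.Agent.LKF
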