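import Pool.Agent.LKF.DifF
import Pool.Agent.LKF.Def3
import Pool.Agent.KNH.FamM
import Pool.Agent.KNH.RibMQ
import Pool.Agent.KNH.ThnQ

/-!
# LKF/SouA: decomposition of the link at a chart   (difficulty 3)

* `mono_set`: elementary: a chart `β` (`Emb`) which meets the component `m` exactly in the lines `Ln i k m` (in coordinates): `S m = (S m \ io '' range β) ∪ io '' (β '' Ln i k m)`.
* `pick`: the strand `b '' StM` (resp. `StP`) is connected and contained in the union of the components `≠ i₀`, so in one of them (`LS_conn`; `StM = {-1} × (-1, 1)` is convex, `b` is continuous on `Dom`).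
* `bx_ln`: `β = bx b`: `bx b (z, u) = b (Rr z, hr u)`: `q ∈ StP` etc. : `bx b '' {q | q.1 = 1} = b '' {q ∈ StP | q.2 ∈ range hr}`; `Rem` (KNH/FamM): the part of the strands which is not in the range of `bx`.
-/

open scoped Manifold ContDiff Topology
open Set Filter
open Complex (I)
open Pool.Agent.CSG (stp)
open Pool.Agent.RSG (E4 S3 S4 ex cj c1 c2 ht fh pS3)
open Pool.Agent.RBM (ThickT OnT Box frc)
open Pool.Agent.RBH (Tube BoxS)
open Pool.Agent.PTH (SP ISP Act)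
open Pool.Agent.COR (Equi EquiB BBox OutW PosAt half dv dt PerS)
open Pool.Agent.KNT (Dom BalC Tubes Str Str2 CD)
open Pool.Agent.KNH (rot Hat circ pb Emb Fam ThinOK thn bx)
open Pool.Agent.CLG (io pol)

namespace Pool.Agent.LKF

universe u

/-- the parts of the strands which are not in the range of `bx` -/
def RemP : Set (ℂ × ℝ) := {q | q ∈ StP ∧ ∀ u, KNH.hr u ≠ q.2}

def RemM : Set (ℂ × ℝ) := {q | q ∈ StM ∧ ∀ u, KNH.hr u ≠ q.2}

theorem SouA_rem (b : ℂ × ℝ → ℂ × ℝ) : b '' RemP ⊆ b '' KNH.Rem ∧ b '' RemM ⊆ b '' KNH.Rem := by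
  constructor
  · apply Set.image_mono
    intro q hq
    exact ⟨⟨Or.inl hq.1.1, hq.1.2⟩, hq.2⟩
  · apply Set.image_mono
    intro q hq
    exact ⟨⟨Or.inr hq.1.1, hq.1.2⟩, hq.2⟩

theorem SouA_abs {q : ℂ × ℝ} (h : ∀ u, KNH.hr u ≠ q.2) : 3 / 4 ≤ |q.2| := by
  by_contra hc
  push Not at hc
  obtain ⟨u, -, hu⟩ := KNH.hr_surj hc.le
  exact h u hu

theorem SouA_dom {q : ℂ × ℝ} (h : q.1 = 1 ∨ q.1 = -1) (h1 : |q.2| < 1) : q ∈ Dom := by
  refine ⟨?_, h1⟩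
  rcases h with h | h <;> rw [h] <;> norm_num

theorem remP_abs {q : ℂ × ℝ} (h : q ∈ RemP) : q ∈ Dom ∧ 3 / 4 ≤ |q.2| :=
  ⟨SouA_dom (Or.inl h.1.1) h.1.2, SouA_abs h.2⟩

theorem remM_abs {q : ℂ × ℝ} (h : q ∈ RemM) : q ∈ Dom ∧ 3 / 4 ≤ |q.2| :=
  ⟨SouA_dom (Or.inr h.1.1) h.1.2, SouA_abs h.2⟩

theorem SouA_eq (b : ℂ × ℝ → ℂ × ℝ) {c : ℂ} (hc : ‖c‖ = 1) :
    b '' {q | q.1 = c ∧ |q.2| < 1} =
      b '' {q | q ∈ {q : ℂ × ℝ | q.1 = c ∧ |q.2| < 1} ∧ ∀ u, KNH.hr u ≠ q.2} ∪ bx b '' {q | q.1 = c} := by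
  ext x
  constructor
  · rintro ⟨q, hq, rfl⟩
    by_cases h : ∀ u, KNH.hr u ≠ q.2
    · exact Or.inl ⟨q, ⟨hq, h⟩, rfl⟩
    · push Not at h
      obtain ⟨u, hu⟩ := h
      refine Or.inr ⟨(q.1, u), hq.1, ?_⟩
      show b (KNH.Rr q.1, KNH.hr u) = b q
      rw [KNH.Rr_of_norm (by rw [hq.1]; exact hc), hu]
  · rintro (⟨q, hq, rfl⟩ | ⟨q, hq, rfl⟩)
    · exact ⟨q, hq.1, rfl⟩
    · have hq1 : q.1 = c := hq
      refine ⟨(KNH.Rr q.1, KNH.hr q.2), ⟨?_, ?_⟩, rfl⟩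
      · show KNH.Rr q.1 = c
        rw [KNH.Rr_of_norm (by rw [hq1]; exact hc), hq1]
      · have := KNH.hr_lt q.2
        show |KNH.hr q.2| < 1
        linarith

theorem stP_eq (b : ℂ × ℝ → ℂ × ℝ) : b '' StP = b '' RemP ∪ bx b '' {q | q.1 = 1} :=
  SouA_eq b (by norm_num)

theorem stM_eq (b : ℂ × ℝ → ℂ × ℝ) : b '' StM = b '' RemM ∪ bx b '' {q | q.1 = -1} :=
  SouA_eq b (by norm_num)

theorem ends_P {b : ℝ → ℂ × ℝ → ℂ × ℝ} (h : Tubes b) : b 1 '' RemP = b 0 '' RemP := by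
  apply Set.image_congr
  intro q hq
  have h1 := remP_abs hq
  exact h.ends 1 (by norm_num) q h1.1 (by linarith [h1.2])

theorem ends_M {b : ℝ → ℂ × ℝ → ℂ × ℝ} (h : Tubes b) : b 1 '' RemM = b 0 '' RemM := by
  apply Set.image_congr
  intro q hq
  have h1 := remM_abs hq
  exact h.ends 1 (by norm_num) q h1.1 (by linarith [h1.2])

/-- the moving chart does not meet the rest of the strands -/
theorem bx_off {b : ℝ → ℂ × ℝ → ℂ × ℝ} (h : Tubes b) {l : ℝ} (hl : l ∈ Icc (0 : ℝ) 1) (q : ℂ × ℝ) :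
    bx (b l) q ∉ b 0 '' RemP ∧ bx (b l) q ∉ b 0 '' RemM := by
  have h1 := (KNH.fam_bx h h.sep (Z := ∅) (fun _ _ => Set.empty_disjoint _)).dis l hl q
  have h2 : bx (b l) q ∉ b 0 '' KNH.Rem := fun hh => h1 (Or.inr hh)
  exact ⟨fun hh => h2 ((SouA_rem (b 0)).1 hh), fun hh => h2 ((SouA_rem (b 0)).2 hh)⟩

theorem bx_mem (b : ℂ × ℝ → ℂ × ℝ) (q : ℂ × ℝ) : bx b q ∈ b '' Dom := ⟨_, KNH.bx_dom q, rfl⟩

theorem SouA_conn {b : ℂ × ℝ → ℂ × ℝ} (hb : BalC b) {c : ℂ} (hc : c = 1 ∨ c = -1) {C : Set (ℂ × ℝ)}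
    (hC : C = {q : ℂ × ℝ | q.1 = c ∧ |q.2| < 1}) :
    IsPreconnected (io '' (b '' C)) ∧ (io '' (b '' C)).Nonempty := by
  subst hC
  have h0 : {q : ℂ × ℝ | q.1 = c ∧ |q.2| < 1} ⊆ Dom := by
    rintro q ⟨h1, h2⟩
    refine SouA_dom ?_ h2
    rw [h1]
    exact hc
  constructor
  · have h1 : IsPreconnected {q : ℂ × ℝ | q.1 = c ∧ |q.2| < 1} := by
      have h2 : {q : ℂ × ℝ | q.1 = c ∧ |q.2| < 1} = {c} ×ˢ Ioo (-1 : ℝ) 1 := by
        ext q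
        rw [mem_prod, mem_singleton_iff, mem_Ioo, ← abs_lt]
        exact Iff.rfl
      rw [h2]
      exact isPreconnected_singleton.prod isPreconnected_Ioo
    refine (h1.image b ?_).image io CLG.io_smooth.continuous.continuousOn
    intro q hq
    exact (hb.smooth q (h0 hq)).continuousAt.continuousWithinAt
  · exact ⟨_, _, ⟨(c, 0), ⟨rfl, by norm_num⟩, rfl⟩, rfl⟩

/-- a strand lies in one component -/
theorem pick {ι : Type*} [Finite ι] {Q : (ι → ℝ × ℂ × ℝ → SP) → Prop} {S : ι → Set S3} (h : LS Q S) {b : ℂ × ℝ → ℂ × ℝ}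
    (hb : BalC b) {T : Set ι} {C : Set (ℂ × ℝ)} (hC : C = StP ∨ C = StM) (hs : io '' (b '' C) ⊆ ⋃ m ∈ T, S m) :
    ∃ m ∈ T, io '' (b '' C) ⊆ S m := by
  have h1 : IsPreconnected (io '' (b '' C)) ∧ (io '' (b '' C)).Nonempty := by
    rcases hC with hC | hC
    · exact SouA_conn hb (Or.inl rfl) hC
    · exact SouA_conn hb (Or.inr rfl) hC
  exact LS_conn h h1.1 h1.2 hs

end Pool.Agent.LKF
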