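import Pool.Agent.LKF.FouF
import Pool.Agent.LKF.SouA
import Pool.Agent.KNH.FouRQ

/-!
# LKF/SouF: the 4-move for one component   (difficulty 3)

As `KNH.isQ_four` (KNH/FouRQ.lean): `FouR_fwd` with `LQ`: `β = bx b`, `Y i₀ = Hat (Z ∪ b '' Rem)`, `Y m = S m` for `m ≠ i₀` (`S m ⊆ io '' B`, `B` is disjoint from `b '' Dom`), `four_LS` (`i = k = i₀`), then `LS_chart` with `FouR_P` (`FouR_move`), to pass from
`β '' Ln2 i₀ i₀ m` to `b '' Str2`.  Backwards: the chart `b ∘ FouR_J` (`FouR_balC`, `FouR_J_str`, `FouR_J_image`).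
-/

open scoped Manifold ContDiff Topology
open Set Filter
open Complex (I)
open Pool.Agent.CSG (stp)
open Pool.Agent.RSG (E4 S3 S4 ex cj c1 c2 ht fh pS3)
open Pool.Agent.RBM (ThickT OnT Box frc)
open Pool.Agent.RBH (Tube BoxS)
open Pool.Agent.PTH (SP ISP Act)
open Pool.Agent.COR (Equi EquiB BBox OutW PosAt half dv dt PerS)
open Pool.Agent.KNT (Dom BalC Tubes Str Str2 CD)
open Pool.Agent.KNH (rot Hat circ pb Emb Fam ThinOK thn bx)
open Pool.Agent.CLG (io pol)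

namespace Pool.Agent.LKF

universe u

theorem SouF_unit {ζ : ℂ} {x : ℝ} (h : ζ = ex x ∨ ζ = -ex x) : ‖ζ‖ = 1 := KNH.FouR_unit h

/-- the strands after two full turns in the chart `bx b` -/
theorem SouF_set (Z : Set (ℂ × ℝ)) (b : ℂ × ℝ → ℂ × ℝ) :
    (Z ∪ b '' KNH.Rem) ∪ bx b '' (KNH.FouR_P '' KNH.Ss2) = Z ∪ b '' Str2 := by
  ext x
  constructor
  · rintro ((hx | ⟨⟨ζ, s⟩, ⟨⟨hq1, hq2⟩, hq3⟩, rfl⟩) | ⟨_, ⟨⟨ζ, u⟩, hq, rfl⟩, rfl⟩)
    · exact Or.inl hx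
    · refine Or.inr ⟨(ζ, s), ⟨?_, hq2⟩, rfl⟩
      have h3 : 3 / 4 < |s| := by
        by_contra h4
        obtain ⟨u, -, hu⟩ := KNH.hr_surj (not_lt.1 h4)
        exact hq3 u hu
      have h5 : ex (2 * KNT.gs s) = 1 := KNH.FouR_gs (s := s) (by linarith)
      show ζ = ex (2 * KNT.gs s) ∨ ζ = -ex (2 * KNT.gs s)
      rw [h5]
      exact hq1
    · have hq' : ζ = ex (2 * RBM.gs (2 * u)) ∨ ζ = -ex (2 * RBM.gs (2 * u)) := hq
      have hn := SouF_unit hq'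
      rw [KNH.FouR_val hn]
      have hn2 : ‖ex (KNH.FouR_th u) * ζ‖ = 1 := by rw [norm_mul, RSG.ex_norm, hn, one_mul]
      refine Or.inr ⟨(ex (KNH.FouR_th u) * ζ, KNH.hr u), ⟨?_, ?_⟩, ?_⟩
      · show ex (KNH.FouR_th u) * ζ = ex (2 * RBM.gs (KNH.hr u)) ∨
          ex (KNH.FouR_th u) * ζ = -ex (2 * RBM.gs (KNH.hr u))
        rcases hq' with hq' | hq'
        · left
          rw [hq', KNH.FouR_mul]
        · right
          rw [hq', mul_neg, KNH.FouR_mul]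
      · have := KNH.hr_lt u
        show |KNH.hr u| < 1
        linarith
      · show b (ex (KNH.FouR_th u) * ζ, KNH.hr u) = b (KNH.Rr (ex (KNH.FouR_th u) * ζ), KNH.hr u)
        rw [KNH.Rr_of_norm hn2]
  · rintro (hx | ⟨⟨ζ, s⟩, ⟨hq1, hq2⟩, rfl⟩)
    · exact Or.inl (Or.inl hx)
    · have hq' : ζ = ex (2 * RBM.gs s) ∨ ζ = -ex (2 * RBM.gs s) := hq1
      by_cases hu : ∃ u, KNH.hr u = s
      · obtain ⟨u, rfl⟩ := hu
        have hn := SouF_unit hq'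
        have hpre : ∃ ξ : ℂ, (ξ = ex (2 * RBM.gs (2 * u)) ∨ ξ = -ex (2 * RBM.gs (2 * u))) ∧
            ex (KNH.FouR_th u) * ξ = ζ := by
          rcases hq' with hq' | hq'
          · exact ⟨_, Or.inl rfl, by rw [KNH.FouR_mul, hq']⟩
          · exact ⟨_, Or.inr rfl, by rw [mul_neg, KNH.FouR_mul, hq']⟩
        obtain ⟨ξ, hξ, hξζ⟩ := hpre
        refine Or.inr ⟨KNH.FouR_P (ξ, u), ⟨(ξ, u), hξ, rfl⟩, ?_⟩
        rw [KNH.FouR_val (SouF_unit hξ), hξζ]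
        show b (KNH.Rr ζ, KNH.hr u) = b (ζ, KNH.hr u)
        rw [KNH.Rr_of_norm hn]
      · have h3 : 3 / 4 < |s| := by
          by_contra h4
          obtain ⟨u, -, hu'⟩ := KNH.hr_surj (not_lt.1 h4)
          exact hu ⟨u, hu'⟩
        rw [KNH.FouR_gs (by linarith)] at hq'
        exact Or.inl (Or.inr ⟨(ζ, s), ⟨⟨hq', hq2⟩, fun u hu' => hu ⟨u, hu'⟩⟩, rfl⟩)

theorem SouF_hat (A L : Set (ℂ × ℝ)) : Hat A ∪ io '' L = Hat (A ∪ L) := by
  unfold KNH.Hat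
  rw [image_union, insert_union]

theorem SouF_fwd {ι : Type*} [Finite ι] {Q : (ι → ℝ × ℂ × ℝ → SP) → Prop} (hQ : MonoF.{u} ISP Q) {Z B : Set (ℂ × ℝ)}
    {b : ℂ × ℝ → ℂ × ℝ} (hb : BalC b) (hZ : Disjoint Z (b '' Dom)) (hB : Disjoint B (b '' Dom))
    (h : LQ Q (Z ∪ b '' Str) B) : LQ Q (Z ∪ b '' Str2) B := by
  classical
  obtain ⟨i₀, S, hS0, hSU, hLS⟩ := h
  have hE := KNH.bx_emb hb
  have hSB : ∀ m, m ≠ i₀ → S m ⊆ io '' B := by
    intro m hm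
    rw [← hSU]
    exact subset_biUnion_of_mem (show m ∈ {i | i ≠ i₀} from hm)
  obtain ⟨Y, hYd⟩ : ∃ Y : ι → Set S3, Y = fun m => if m = i₀ then Hat (Z ∪ b '' KNH.Rem) else S m := ⟨_, rfl⟩
  have hY0 : Y i₀ = Hat (Z ∪ b '' KNH.Rem) := by rw [hYd]; exact if_pos rfl
  have hYm : ∀ m, m ≠ i₀ → Y m = S m := by
    intro m hm
    rw [hYd]
    exact if_neg hm
  have hY : ∀ m q, io (bx b q) ∉ Y m := by
    intro m q hq
    by_cases hm : m = i₀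
    · subst hm
      rw [hY0] at hq
      rcases hq with hq | ⟨x, hx, hxe⟩
      · exact CLG.io_ne _ hq
      · rw [CLG.io_inj hxe] at hx
        exact KNH.bx_dis hb hZ q hx
    · rw [hYm m hm] at hq
      obtain ⟨x, hx, hxe⟩ := hSB m hm hq
      rw [CLG.io_inj hxe] at hx
      exact disjoint_left.1 hB hx (bx_mem b q)
  have hLn0 : Ln i₀ i₀ i₀ = KNH.Ss := by
    ext q
    simp [Ln, KNH.Ss]
  have hLnm : ∀ m, m ≠ i₀ → Ln i₀ i₀ m = ∅ := by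
    intro m hm
    ext q
    simp [Ln, Ne.symm hm]
  have hL20 : Ln2 i₀ i₀ i₀ = KNH.Ss2 := by
    ext q
    simp [Ln2, KNH.Ss2]
  have hL2m : ∀ m, m ≠ i₀ → Ln2 i₀ i₀ m = ∅ := by
    intro m hm
    ext q
    simp [Ln2, Ne.symm hm]
  have hS : S = fun m => Y m ∪ io '' (bx b '' Ln i₀ i₀ m) := by
    funext m
    by_cases hm : m = i₀
    · subst hm
      rw [hY0, hLn0, hS0, KNH.str_eq, SouF_hat]
    · rw [hYm m hm, hLnm m hm, image_empty, image_empty, union_empty]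
  rw [hS] at hLS
  have h1 := (four_LS hQ hE hY i₀ i₀).1 hLS
  have h2 := (LS_chart hQ hE KNH.FouR_move hY (Ln2 i₀ i₀)).1 h1
  refine ⟨i₀, _, ?_, ?_, h2⟩
  · show Y i₀ ∪ io '' (bx b '' (KNH.FouR_P '' Ln2 i₀ i₀ i₀)) = _
    rw [hY0, hL20, SouF_hat, SouF_set]
  · rw [← hSU]
    refine iUnion_congr fun m => iUnion_congr fun hm => ?_
    show Y m ∪ io '' (bx b '' (KNH.FouR_P '' Ln2 i₀ i₀ m)) = S m
    rw [hYm m hm, hL2m m hm, image_empty, image_empty, image_empty, union_empty]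

theorem LQ_four {ι : Type*} [Finite ι] {Q : (ι → ℝ × ℂ × ℝ → SP) → Prop} (hQ : MonoF.{u} ISP Q) {Z B : Set (ℂ × ℝ)}
    {b : ℂ × ℝ → ℂ × ℝ} (hb : BalC b) (hZ : Disjoint Z (b '' Dom)) (hB : Disjoint B (b '' Dom)) :
    LQ Q (Z ∪ b '' Str) B ↔ LQ Q (Z ∪ b '' Str2) B := by
  constructor
  · exact SouF_fwd hQ hb hZ hB
  · intro h
    have h1 : (b ∘ KNH.FouR_J) '' Str = b '' Str2 := by rw [image_comp, KNH.FouR_J_str]
    have h2 : (b ∘ KNH.FouR_J) '' Str2 = b '' Str := by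
      rw [image_comp, ← KNH.FouR_J_str, KNH.FouR_J_image]
    have h3 : (b ∘ KNH.FouR_J) '' Dom ⊆ b '' Dom := by
      rintro _ ⟨q, hq, rfl⟩
      exact ⟨KNH.FouR_J q, KNH.FouR_J_dom hq, rfl⟩
    have h4 := SouF_fwd hQ (Z := Z) (B := B) (KNH.FouR_balC hb) (hZ.mono_right h3) (hB.mono_right h3)
    rw [h1, h2] at h4
    exact h4 h

end Pool.Agent.LKF
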