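import Pool.Agent.LKF.StpF
import Pool.Agent.LKF.SouA
import Pool.Agent.LKF.Def3

/-!
# LKF/SouM: the mutual move   (difficulty 4)

`A₁ = A ∪ b 0 '' StP ∪ c '' StM`, `B₁ = B ∪ b 0 '' StM ∪ c '' StP`.  `LQ Q A₁ B₁`: `i₀, S`, `S i₀ = Hat A₁`, `⋃ m ≠ i₀, S m = io '' B₁`.  `pick` (`T = {m | m ≠ i₀}`): `k₁ ≠ i₀` with `io '' (b 0 '' StM) ⊆ S k₁`, `k₂ ≠ i₀` with `io '' (c '' StP) ⊆ S k₂`.
`β l = bx (b l)`, `γ = bx c` (`KNH.bx_emb`), `α = Unit`, `i none = i₀`, `k none = k₁`, `i (some ()) = k₂`, `k (some ()) = i₀`: injective.  `Fam β ∅` (`KNH.fam_bx` with `Z = ∅`, up to the `Y₀`), `KNH.exists_thin`: `w₀, δ`.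
`Y m = S m \ (io '' range (β 0) ∪ io '' range γ)`.  The component `m` meets `io '' range (β 0)` exactly in `io '' (β 0 '' Ln i₀ k₁ m)` (`stP_eq`, `stM_eq`, `Mut.dsb`, `bx_off`, `ds0`, `LS_disj`) and `io '' range γ` in `io '' (γ '' Ln k₂ i₀ m)`, so
`S m = Y m ∪ io '' (β 0 '' Ln i₀ k₁ m) ∪ io '' (γ '' Ln k₂ i₀ m)`.  `io (β l q) ∉ Y m` for all `l`: a point of `Y m` is in `Hat A₁` or in `io '' B₁` and not on the strands in the charts, so it is `pol` or `io` of a point of `A ∪ B` (`dsb`), of `b 0 '' RemP`, `b 0 '' RemM`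
(`bx_off`), of `c '' RemP`, `c '' RemM` (`Mut.ends`: there `3/4 ≤ |q'.2|`).  `hends` of `stepF`: `γ q' = c (Rr q'.1, hr q'.2)`, `1/8 ≤ |q'.2|` implies `1/2 ≤ |hr q'.2|` (`KNH.hr_eighth`), `Mut.ends`.  `h0`, `h1`: `ds0`, `ds1`.
`LS_thin` for `β 0` (`Y` with the fixed strands of `γ` added), `stepF`, `LS_thin` for `β 1` backwards.  Then `S' m = Y m ∪ io '' (β 1 '' Ln i₀ k₁ m) ∪ io '' (γ '' Ln k₂ i₀ m)`, `S' i₀ = Hat (A ∪ b 1 '' StP ∪ c '' StM)`, `⋃ m ≠ i₀, S' m = io '' (B ∪ b 1 '' StM ∪ c '' StP)`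
(`ends_P`, `ends_M`).
-/

open scoped Manifold ContDiff Topology
open Set Filter
open Complex (I)
open Pool.Agent.CSG (stp)
open Pool.Agent.RSG (E4 S3 S4 ex cj c1 c2 ht fh pS3)
open Pool.Agent.RBM (ThickT OnT Box frc)
open Pool.Agent.RBH (Tube BoxS)
open Pool.Agent.PTH (SP ISP Act)
open Pool.Agent.COR (Equi EquiB BBox OutW PosAt half dv dt PerS)
open Pool.Agent.KNT (Dom BalC Tubes Str Str2 CD)
open Pool.Agent.KNH (rot Hat circ pb Emb Fam ThinOK thn bx)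
open Pool.Agent.CLG (io pol)

namespace Pool.Agent.LKF

universe u

theorem SouM_hat (A C : Set (ℂ × ℝ)) : Hat (A ∪ C) = Hat A ∪ io '' C := by
  unfold Hat
  rw [image_union, insert_union]

theorem SouM_bal0 {b : ℝ → ℂ × ℝ → ℂ × ℝ} (hb : Tubes b) : BalC (b 0) := by
  refine ⟨fun q hq => ?_, hb.imm 0 ⟨le_rfl, zero_le_one⟩, hb.inj0⟩
  have h1 : ContDiffAt ℝ ∞ (fun q : ℂ × ℝ => ((0 : ℝ), q)) q := by fun_prop
  exact ContDiffAt.comp q (f := fun q : ℂ × ℝ => ((0 : ℝ), q)) (hb.smooth 0 ⟨le_rfl, zero_le_one⟩ q hq) h1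

theorem SouM_lnP {ι : Type*} {i k : ι} (h : k ≠ i) : Ln i k i = {q | q.1 = 1} := by
  ext q
  simp [Ln, h]

theorem SouM_lnM {ι : Type*} {i k : ι} (h : k ≠ i) : Ln i k k = {q | q.1 = -1} := by
  ext q
  simp [Ln, Ne.symm h]

/-- a point in one of three sets -/
theorem SouM_cases {x : ℂ × ℝ} {A B C : Set (ℂ × ℝ)} (h : io x ∈ Hat (A ∪ B ∪ C)) : x ∈ A ∨ x ∈ B ∨ x ∈ C := by
  rcases h with h | ⟨y, hy, hyx⟩
  · exact absurd h (CLG.io_ne _)
  · rw [CLG.io_inj hyx] at hy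
    rcases hy with (h | h) | h
    · exact Or.inl h
    · exact Or.inr (Or.inl h)
    · exact Or.inr (Or.inr h)

theorem SouM_io {x : ℂ × ℝ} {A : Set (ℂ × ℝ)} (h : io x ∈ io '' A) : x ∈ A := by
  obtain ⟨y, hy, hyx⟩ := h
  rwa [CLG.io_inj hyx] at hy

theorem LQ_mut {ι : Type*} [Finite ι] {Q : (ι → ℝ × ℂ × ℝ → SP) → Prop} (hQ : MonoF.{u} ISP Q) {A B : Set (ℂ × ℝ)}
    {b : ℝ → ℂ × ℝ → ℂ × ℝ} {c : ℂ × ℝ → ℂ × ℝ} (hm : Mut (A ∪ B) b c)
    (h : LQ Q (A ∪ b 0 '' StP ∪ c '' StM) (B ∪ b 0 '' StM ∪ c '' StP)) :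
    LQ Q (A ∪ b 1 '' StP ∪ c '' StM) (B ∪ b 1 '' StM ∪ c '' StP) := by
  classical
  obtain ⟨i₀, S, hS, hB', hL⟩ := h
  have hb0 := SouM_bal0 hm.tub
  have hf := KNH.fam_bx hm.tub hm.tub.sep hm.dsb
  obtain ⟨w₀, δ, hw⟩ := KNH.exists_thin hf
  have i0 : (0 : ℝ) ∈ Icc (0 : ℝ) 1 := ⟨le_rfl, zero_le_one⟩
  have i1 : (1 : ℝ) ∈ Icc (0 : ℝ) 1 := ⟨zero_le_one, le_rfl⟩
  have hcE := KNH.bx_emb hm.bal
  have hbE := KNH.bx_emb hb0
  -- the components
  obtain ⟨k₁, hk1, hs1⟩ := pick hL hb0 (T := {i | i ≠ i₀}) (Or.inr rfl) (by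
    rw [hB']
    exact image_mono fun x hx => Or.inl (Or.inr hx))
  obtain ⟨k₂, hk2, hs2⟩ := pick hL hm.bal (T := {i | i ≠ i₀}) (Or.inl rfl) (by
    rw [hB']
    exact image_mono fun x hx => Or.inr hx)
  have hk1' : k₁ ≠ i₀ := hk1
  have hk2' : k₂ ≠ i₀ := hk2
  -- facts about the charts
  have fb : ∀ l ∈ Icc (0 : ℝ) 1, ∀ q, bx (b l) q ∉ A ∪ B := fun l hl q hq =>
    disjoint_left.1 (hm.dsb l hl) hq (bx_mem _ q)
  have fc : ∀ q, bx c q ∉ A ∪ B := fun q hq => disjoint_left.1 hm.dsc hq (bx_mem _ q)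
  have hbc0 : ∀ q q', bx (b 0) q ≠ bx c q' := fun q q' he =>
    disjoint_left.1 hm.ds0 (bx_mem _ q) (by rw [he]; exact bx_mem _ q')
  have hbc1 : ∀ q q', bx (b 1) q ≠ bx c q' := fun q q' he =>
    disjoint_left.1 hm.ds1 (bx_mem _ q) (by rw [he]; exact bx_mem _ q')
  have domP : ∀ q ∈ StP, q ∈ Dom := fun q hq => SouA_dom (Or.inl hq.1) hq.2
  have domM : ∀ q ∈ StM, q ∈ Dom := fun q hq => SouA_dom (Or.inr hq.1) hq.2
  have fcP : ∀ l ∈ Icc (0 : ℝ) 1, ∀ q, bx (b l) q ∈ c '' StP → ∃ q', bx (b l) q = bx c q' ∧ q'.1 = 1 := by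
    intro l hl q hq
    rw [stP_eq] at hq
    rcases hq with ⟨q', hq', he⟩ | ⟨q', hq', he⟩
    · exact absurd he.symm (hm.ends l hl _ (KNH.bx_dom q) _ (remP_abs hq').1 (by linarith [(remP_abs hq').2]))
    · exact ⟨q', he.symm, hq'⟩
  have fcM : ∀ l ∈ Icc (0 : ℝ) 1, ∀ q, bx (b l) q ∈ c '' StM → ∃ q', bx (b l) q = bx c q' ∧ q'.1 = -1 := by
    intro l hl q hq
    rw [stM_eq] at hq
    rcases hq with ⟨q', hq', he⟩ | ⟨q', hq', he⟩
    · exact absurd he.symm (hm.ends l hl _ (KNH.bx_dom q) _ (remM_abs hq').1 (by linarith [(remM_abs hq').2]))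
    · exact ⟨q', he.symm, hq'⟩
  have fbP : ∀ l ∈ Icc (0 : ℝ) 1, ∀ q, bx (b l) q ∈ b 0 '' StP → ∃ q', bx (b l) q = bx (b 0) q' ∧ q'.1 = 1 := by
    intro l hl q hq
    rw [stP_eq] at hq
    rcases hq with hq | ⟨q', hq', he⟩
    · exact absurd hq (bx_off hm.tub hl q).1
    · exact ⟨q', he.symm, hq'⟩
  have fbM : ∀ l ∈ Icc (0 : ℝ) 1, ∀ q, bx (b l) q ∈ b 0 '' StM → ∃ q', bx (b l) q = bx (b 0) q' ∧ q'.1 = -1 := by
    intro l hl q hq
    rw [stM_eq] at hq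
    rcases hq with hq | ⟨q', hq', he⟩
    · exact absurd hq (bx_off hm.tub hl q).2
    · exact ⟨q', he.symm, hq'⟩
  have ccP : ∀ q, bx c q ∈ c '' StP → q.1 = 1 := by
    intro q hq
    rw [stP_eq] at hq
    rcases hq with hq | ⟨q', hq', he⟩
    · exact absurd (Or.inr ((SouA_rem c).1 hq)) (KNH.bx_dis hm.bal hm.dsc q)
    · rw [← hcE.inj he]; exact hq'
  have ccM : ∀ q, bx c q ∈ c '' StM → q.1 = -1 := by
    intro q hq
    rw [stM_eq] at hq
    rcases hq with hq | ⟨q', hq', he⟩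
    · exact absurd (Or.inr ((SouA_rem c).2 hq)) (KNH.bx_dis hm.bal hm.dsc q)
    · rw [← hcE.inj he]; exact hq'
  have cb : ∀ q, bx c q ∉ b 0 '' Dom := fun q hq => disjoint_left.1 hm.ds0 hq (bx_mem _ q)
  have hSi : ∀ {m x}, x ∈ S m → m ≠ i₀ → x ∈ io '' (B ∪ b 0 '' StM ∪ c '' StP) := by
    intro m x hx hm'
    rw [← hB']
    exact mem_iUnion₂.2 ⟨m, hm', hx⟩
  have huniq : ∀ {m m' x}, x ∈ S m → x ∈ S m' → m = m' := by
    intro m m' x hx hx'
    by_contra hne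
    exact disjoint_left.1 (LS_disj hL hne) hx hx'
  -- traces on the charts
  have trb : ∀ m q, io (bx (b 0) q) ∈ S m → q ∈ Ln i₀ k₁ m := by
    intro m q hq
    by_cases hmi : m = i₀
    · have hq1 := hq
      rw [hmi, hS] at hq1
      rcases SouM_cases hq1 with h | h | h
      · exact absurd (Or.inl h) (fb 0 i0 q)
      · obtain ⟨q', he, hq'⟩ := fbP 0 i0 q h
        rw [hbE.inj he]
        exact Or.inl ⟨hq', hmi.symm⟩
      · obtain ⟨q', he, -⟩ := fcM 0 i0 q h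
        exact absurd he (hbc0 q q')
    · rcases SouM_io (hSi hq hmi) with (h | h) | h
      · exact absurd (Or.inr h) (fb 0 i0 q)
      · obtain ⟨q', he, hq'⟩ := fbM 0 i0 q h
        have h1 : k₁ = m := huniq (hs1 ⟨_, h, rfl⟩) hq
        rw [hbE.inj he]
        exact Or.inr ⟨hq', h1⟩
      · obtain ⟨q', he, -⟩ := fcP 0 i0 q h
        exact absurd he (hbc0 q q')
  have trc : ∀ m q, io (bx c q) ∈ S m → q ∈ Ln k₂ i₀ m := by
    intro m q hq
    by_cases hmi : m = i₀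
    · have hq1 := hq
      rw [hmi, hS] at hq1
      rcases SouM_cases hq1 with h | ⟨y, hy, he⟩ | h
      · exact absurd (Or.inl h) (fc q)
      · exact absurd ⟨y, domP y hy, he⟩ (cb q)
      · exact Or.inr ⟨ccM q h, hmi.symm⟩
    · rcases SouM_io (hSi hq hmi) with (h | ⟨y, hy, he⟩) | h
      · exact absurd (Or.inr h) (fc q)
      · exact absurd ⟨y, domM y hy, he⟩ (cb q)
      · have h1 : k₂ = m := huniq (hs2 ⟨_, h, rfl⟩) hq
        exact Or.inl ⟨ccP q h, h1⟩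
  have inb : ∀ m q, q ∈ Ln i₀ k₁ m → io (bx (b 0) q) ∈ S m := by
    intro m q hq
    rcases hq with ⟨hq, rfl⟩ | ⟨hq, rfl⟩
    · rw [hS]
      refine Or.inr ⟨_, Or.inl (Or.inr ?_), rfl⟩
      rw [stP_eq]
      exact Or.inr ⟨q, hq, rfl⟩
    · refine hs1 ⟨_, ?_, rfl⟩
      rw [stM_eq]
      exact Or.inr ⟨q, hq, rfl⟩
  have inc : ∀ m q, q ∈ Ln k₂ i₀ m → io (bx c q) ∈ S m := by
    intro m q hq
    rcases hq with ⟨hq, rfl⟩ | ⟨hq, rfl⟩
    · refine hs2 ⟨_, ?_, rfl⟩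
      rw [stP_eq]
      exact Or.inr ⟨q, hq, rfl⟩
    · rw [hS]
      refine Or.inr ⟨_, Or.inr ?_, rfl⟩
      rw [stM_eq]
      exact Or.inr ⟨q, hq, rfl⟩
  -- the rest
  obtain ⟨Y, hY⟩ : ∃ Y : ι → Set S3, Y = fun m => {x | x ∈ S m ∧ (∀ q, x ≠ io (bx (b 0) q)) ∧ ∀ q, x ≠ io (bx c q)} :=
    ⟨_, rfl⟩
  have hYm : ∀ m x, x ∈ Y m ↔ x ∈ S m ∧ (∀ q, x ≠ io (bx (b 0) q)) ∧ ∀ q, x ≠ io (bx c q) := by
    intro m x
    rw [hY]
    exact Iff.rfl
  have hYb : ∀ m, ∀ l ∈ Icc (0 : ℝ) 1, ∀ q, io (bx (b l) q) ∉ Y m := by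
    intro m l hl q hq
    obtain ⟨hq1, hq2, hq3⟩ := (hYm m _).1 hq
    by_cases hmi : m = i₀
    · rw [hmi, hS] at hq1
      rcases SouM_cases hq1 with h | h | h
      · exact fb l hl q (Or.inl h)
      · obtain ⟨q', he, -⟩ := fbP l hl q h
        exact hq2 q' (by rw [he])
      · obtain ⟨q', he, -⟩ := fcM l hl q h
        exact hq3 q' (by rw [he])
    · rcases SouM_io (hSi hq1 hmi) with (h | h) | h
      · exact fb l hl q (Or.inr h)
      · obtain ⟨q', he, -⟩ := fbM l hl q h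
        exact hq2 q' (by rw [he])
      · obtain ⟨q', he, -⟩ := fcP l hl q h
        exact hq3 q' (by rw [he])
  have hYc : ∀ m q, io (bx c q) ∉ Y m := fun m q hq => ((hYm m _).1 hq).2.2 q rfl
  have e0 : S = fun m => (Y m ∪ io '' (bx c '' Ln k₂ i₀ m)) ∪ io '' (bx (b 0) '' Ln i₀ k₁ m) := by
    funext m
    ext x
    constructor
    · intro hx
      by_cases h1 : ∃ q, x = io (bx (b 0) q)
      · obtain ⟨q, rfl⟩ := h1
        exact Or.inr ⟨_, ⟨q, trb m q hx, rfl⟩, rfl⟩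
      · by_cases h2 : ∃ q, x = io (bx c q)
        · obtain ⟨q, rfl⟩ := h2
          exact Or.inl (Or.inr ⟨_, ⟨q, trc m q hx, rfl⟩, rfl⟩)
        · exact Or.inl (Or.inl ((hYm m x).2 ⟨hx, fun q he => h1 ⟨q, he⟩, fun q he => h2 ⟨q, he⟩⟩))
    · rintro ((hx | ⟨_, ⟨q, hq, rfl⟩, rfl⟩) | ⟨_, ⟨q, hq, rfl⟩, rfl⟩)
      · exact ((hYm m x).1 hx).1
      · exact inc m q hq
      · exact inb m q hq
  rw [e0] at hL
  have hY'0 : ∀ m q, io (bx (b 0) q) ∉ Y m ∪ io '' (bx c '' Ln k₂ i₀ m) := by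
    rintro m q (hq | ⟨_, ⟨q', -, rfl⟩, he⟩)
    · exact hYb m 0 i0 q hq
    · exact hbc0 q q' (CLG.io_inj he).symm
  have hY'1 : ∀ m q, io (bx (b 1) q) ∉ Y m ∪ io '' (bx c '' Ln k₂ i₀ m) := by
    rintro m q (hq | ⟨_, ⟨q', -, rfl⟩, he⟩)
    · exact hYb m 1 i1 q hq
    · exact hbc1 q q' (CLG.io_inj he).symm
  have h1 := (LS_thin hQ (KNH.fam_emb0 hf) hY'0 i₀ k₁ hw.w_pos hw.w_le).1 hL
  have hE : ∀ β : ℂ × ℝ → ℂ × ℝ, (fun m => Y m ∪ ⋃ a : Option Unit, io '' (opt β (fun _ => bx c) a ''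
      Ln ((fun o => Option.elim o i₀ (fun _ => k₂) : Option Unit → ι) a)
        ((fun o => Option.elim o k₁ (fun _ => i₀) : Option Unit → ι) a) m)) =
      fun m => (Y m ∪ io '' (bx c '' Ln k₂ i₀ m)) ∪ io '' (β '' Ln i₀ k₁ m) := by
    intro β
    funext m
    have hu : ∀ f : Unit → Set S3, (⋃ i, f i) = f () := fun f => by
      ext x
      constructor
      · intro hx
        obtain ⟨⟨⟩, hx⟩ := mem_iUnion.1 hx
        exact hx
      · exact fun hx => mem_iUnion.2 ⟨(), hx⟩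
    rw [iUnion_option, hu, union_assoc]
    congr 1
    exact union_comm _ _
  have hi : Function.Injective (fun o => Option.elim o i₀ (fun _ => k₂) : Option Unit → ι) := by
    rintro (_ | ⟨⟩) (_ | ⟨⟩) he
    · rfl
    · exact absurd he.symm hk2'
    · exact absurd he hk2'
    · rfl
  have hk : Function.Injective (fun o => Option.elim o k₁ (fun _ => i₀) : Option Unit → ι) := by
    rintro (_ | ⟨⟩) (_ | ⟨⟩) he
    · rfl
    · exact absurd he hk1'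
    · exact absurd he.symm hk1'
    · rfl
  have h2 := stepF (α := Unit) hQ hf hw (γ := fun _ => bx c) (fun _ => hcE) (fun _ _ _ _ _ => rfl)
    (fun q _ q' => hbc0 q q') (fun q _ q' => hbc1 q q')
    (fun l hl q _ q' hq' => hm.ends l hl _ (KNH.bx_dom q) _ (KNH.bx_dom q')
      (KNH.hr_eighth (by linarith)))
    hi hk hYb (fun m _ q => hYc m q) (by rw [hE]; exact h1)
  rw [hE] at h2
  have h3 := (LS_thin hQ (KNH.fam_emb1 hf) hY'1 i₀ k₁ hw.w_pos hw.w_le).2 h2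
  refine ⟨i₀, _, ?_, ?_, h3⟩
  · show (Y i₀ ∪ io '' (bx c '' Ln k₂ i₀ i₀)) ∪ io '' (bx (b 1) '' Ln i₀ k₁ i₀) = _
    rw [SouM_lnM hk2'.symm, SouM_lnP hk1']
    ext x
    constructor
    · rintro ((hx | ⟨_, ⟨q, hq, rfl⟩, rfl⟩) | ⟨_, ⟨q, hq, rfl⟩, rfl⟩)
      · obtain ⟨h1, h2, h3⟩ := (hYm _ _).1 hx
        rw [hS] at h1
        rcases h1 with h | ⟨y, (h | h) | h, rfl⟩
        · exact Or.inl h
        · exact Or.inr ⟨y, Or.inl (Or.inl h), rfl⟩
        · rw [stP_eq] at h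
          rcases h with h | ⟨q, -, rfl⟩
          · refine Or.inr ⟨y, Or.inl (Or.inr ?_), rfl⟩
            rw [stP_eq, ends_P hm.tub]
            exact Or.inl h
          · exact absurd rfl (h2 q)
        · rw [stM_eq] at h
          rcases h with h | ⟨q, -, rfl⟩
          · refine Or.inr ⟨y, Or.inr ?_, rfl⟩
            rw [stM_eq]
            exact Or.inl h
          · exact absurd rfl (h3 q)
      · refine Or.inr ⟨_, Or.inr ?_, rfl⟩
        rw [stM_eq]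
        exact Or.inr ⟨q, hq, rfl⟩
      · refine Or.inr ⟨_, Or.inl (Or.inr ?_), rfl⟩
        rw [stP_eq]
        exact Or.inr ⟨q, hq, rfl⟩
    · rintro (h | ⟨y, (h | h) | h, rfl⟩)
      · refine Or.inl (Or.inl ((hYm _ _).2 ⟨?_, fun q he => ?_, fun q he => ?_⟩))
        · rw [hS]; exact Or.inl h
        · exact CLG.io_ne _ (he.symm.trans h)
        · exact CLG.io_ne _ (he.symm.trans h)
      · refine Or.inl (Or.inl ((hYm _ _).2 ⟨?_, fun q he => ?_, fun q he => ?_⟩))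
        · rw [hS]; exact Or.inr ⟨y, Or.inl (Or.inl h), rfl⟩
        · exact fb 0 i0 q (Or.inl (by rw [← CLG.io_inj he]; exact h))
        · exact fc q (Or.inl (by rw [← CLG.io_inj he]; exact h))
      · rw [stP_eq] at h
        rcases h with h | ⟨q, hq, rfl⟩
        · rw [ends_P hm.tub] at h
          refine Or.inl (Or.inl ((hYm _ _).2 ⟨?_, fun q he => ?_, fun q he => ?_⟩))
          · rw [hS]
            refine Or.inr ⟨y, Or.inl (Or.inr ?_), rfl⟩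
            rw [stP_eq]
            exact Or.inl h
          · rw [CLG.io_inj he] at h
            exact (bx_off hm.tub i0 q).1 h
          · rw [CLG.io_inj he] at h
            obtain ⟨q', hq', he'⟩ := h
            exact cb q ⟨q', (remP_abs hq').1, he'⟩
        · exact Or.inr ⟨_, ⟨q, hq, rfl⟩, rfl⟩
      · rw [stM_eq] at h
        rcases h with h | ⟨q, hq, rfl⟩
        · refine Or.inl (Or.inl ((hYm _ _).2 ⟨?_, fun q he => ?_, fun q he => ?_⟩))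
          · rw [hS]
            refine Or.inr ⟨y, Or.inr ?_, rfl⟩
            rw [stM_eq]
            exact Or.inl h
          · rw [CLG.io_inj he] at h
            obtain ⟨q', hq', he'⟩ := h
            exact disjoint_left.1 hm.ds0 (bx_mem (b 0) q) ⟨q', (remM_abs hq').1, he'⟩
          · rw [CLG.io_inj he] at h
            exact KNH.bx_dis hm.bal hm.dsc q (Or.inr ((SouA_rem c).2 h))
        · exact Or.inl (Or.inr ⟨_, ⟨q, hq, rfl⟩, rfl⟩)
  · ext x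
    constructor
    · intro hx
      obtain ⟨m, hmi, hx⟩ := mem_iUnion₂.1 hx
      have hmi' : m ≠ i₀ := hmi
      rcases hx with (hx | ⟨_, ⟨q, hq, rfl⟩, rfl⟩) | ⟨_, ⟨q, hq, rfl⟩, rfl⟩
      · obtain ⟨h1, h2, h3⟩ := (hYm _ _).1 hx
        obtain ⟨y, (h | h) | h, rfl⟩ := hSi h1 hmi'
        · exact ⟨y, Or.inl (Or.inl h), rfl⟩
        · rw [stM_eq] at h
          rcases h with h | ⟨q, -, rfl⟩
          · refine ⟨y, Or.inl (Or.inr ?_), rfl⟩
            rw [stM_eq, ends_M hm.tub]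
            exact Or.inl h
          · exact absurd rfl (h2 q)
        · rw [stP_eq] at h
          rcases h with h | ⟨q, -, rfl⟩
          · refine ⟨y, Or.inr ?_, rfl⟩
            rw [stP_eq]
            exact Or.inl h
          · exact absurd rfl (h3 q)
      · rcases hq with ⟨hq, -⟩ | ⟨-, hq⟩
        · refine ⟨_, Or.inr ?_, rfl⟩
          rw [stP_eq]
          exact Or.inr ⟨q, hq, rfl⟩
        · exact absurd hq.symm hmi'
      · rcases hq with ⟨-, hq⟩ | ⟨hq, -⟩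
        · exact absurd hq.symm hmi'
        · refine ⟨_, Or.inl (Or.inr ?_), rfl⟩
          rw [stM_eq]
          exact Or.inr ⟨q, hq, rfl⟩
    · rintro ⟨y, (h | h) | h, rfl⟩
      · have h1 : io y ∈ io '' (B ∪ b 0 '' StM ∪ c '' StP) := ⟨y, Or.inl (Or.inl h), rfl⟩
        rw [← hB'] at h1
        obtain ⟨m, hmi, hx⟩ := mem_iUnion₂.1 h1
        refine mem_iUnion₂.2 ⟨m, hmi, Or.inl (Or.inl ((hYm _ _).2 ⟨hx, fun q he => ?_, fun q he => ?_⟩))⟩
        · exact fb 0 i0 q (Or.inr (by rw [← CLG.io_inj he]; exact h))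
        · exact fc q (Or.inr (by rw [← CLG.io_inj he]; exact h))
      · rw [stM_eq] at h
        refine mem_iUnion₂.2 ⟨k₁, hk1, ?_⟩
        rcases h with h | ⟨q, hq, rfl⟩
        · rw [ends_M hm.tub] at h
          refine Or.inl (Or.inl ((hYm _ _).2 ⟨?_, fun q he => ?_, fun q he => ?_⟩))
          · refine hs1 ⟨y, ?_, rfl⟩
            rw [stM_eq]
            exact Or.inl h
          · rw [CLG.io_inj he] at h
            exact (bx_off hm.tub i0 q).2 h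
          · rw [CLG.io_inj he] at h
            obtain ⟨q', hq', he'⟩ := h
            exact cb q ⟨q', (remM_abs hq').1, he'⟩
        · exact Or.inr ⟨_, ⟨q, Or.inr ⟨hq, rfl⟩, rfl⟩, rfl⟩
      · rw [stP_eq] at h
        refine mem_iUnion₂.2 ⟨k₂, hk2, ?_⟩
        rcases h with h | ⟨q, hq, rfl⟩
        · refine Or.inl (Or.inl ((hYm _ _).2 ⟨?_, fun q he => ?_, fun q he => ?_⟩))
          · refine hs2 ⟨y, ?_, rfl⟩
            rw [stP_eq]
            exact Or.inl h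
          · rw [CLG.io_inj he] at h
            obtain ⟨q', hq', he'⟩ := h
            exact disjoint_left.1 hm.ds0 (bx_mem (b 0) q) ⟨q', (remP_abs hq').1, he'⟩
          · rw [CLG.io_inj he] at h
            exact KNH.bx_dis hm.bal hm.dsc q (Or.inr ((SouA_rem c).1 h))
        · exact Or.inl (Or.inr ⟨_, ⟨q, Or.inl ⟨hq, rfl⟩, rfl⟩, rfl⟩)

end Pool.Agent.LKF
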