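import Pool.Agent.LKF.SouR
import Pool.Agent.LKF.SouF
import Pool.Agent.LKF.SouM

/-!
# LKF/SndF: soundness of the equivalence relation (assembly)
-/

open scoped Manifold ContDiff Topology
open Set Filter
open Complex (I)
open Pool.Agent.CSG (stp)
open Pool.Agent.RSG (E4 S3 S4 ex cj c1 c2 ht fh pS3)
open Pool.Agent.RBM (ThickT OnT Box frc)
open Pool.Agent.RBH (Tube BoxS)
open Pool.Agent.PTH (SP ISP Act)
open Pool.Agent.COR (Equi EquiB BBox OutW PosAt half dv dt PerS)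
open Pool.Agent.KNT (Dom BalC Tubes Str Str2 CD)
open Pool.Agent.KNH (rot Hat circ pb Emb Fam ThinOK thn bx)
open Pool.Agent.CLG (io pol)

namespace Pool.Agent.LKF

universe u

theorem rev_bdt {b : ℝ → ℂ × ℝ → ℂ × ℝ} (hb : BdT b) : BdT (fun l => b (1 - l)) := by
  obtain ⟨R, hR⟩ := hb
  exact ⟨R, fun l hl q hq => hR _ ⟨by linarith [hl.2], by linarith [hl.1]⟩ q hq⟩

theorem rev_mut {Z : Set (ℂ × ℝ)} {b : ℝ → ℂ × ℝ → ℂ × ℝ} {c : ℂ × ℝ → ℂ × ℝ} (h : Mut Z b c) :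
    Mut Z (fun l => b (1 - l)) c := by
  have hm : ∀ l ∈ Icc (0 : ℝ) 1, 1 - l ∈ Icc (0 : ℝ) 1 := fun l hl => ⟨by linarith [hl.2], by linarith [hl.1]⟩
  refine ⟨KNH.rev_tubes h.tub, h.bal, rev_bdt h.bdb, h.bdc, fun l hl => h.dsb _ (hm l hl), h.dsc,
    fun l hl => h.ends _ (hm l hl), ?_, ?_⟩
  · simpa using h.ds1
  · simpa using h.ds0

/-- **Soundness.** -/
theorem LQ_PEq {ι : Type*} [Finite ι] {Q : (ι → ℝ × ℂ × ℝ → SP) → Prop} (hQ : MonoF.{u} ISP Q)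
    {A B A' B' : Set (ℂ × ℝ)} (h : PEq A B A' B') : LQ Q A B ↔ LQ Q A' B' := by
  induction h with
  | refl A B => exact Iff.rfl
  | symm _ ih => exact ih.symm
  | trans _ _ ih1 ih2 => exact ih1.trans ih2
  | diff A B hF =>
    refine ⟨LQ_diff hQ hF, fun h => ?_⟩
    have h1 := LQ_diff hQ (KNH.CD_symm hF) h
    simpa only [← image_comp, Equiv.symm_comp_self, image_id] using h1
  | four hb _ hZ hB => exact LQ_four hQ hb hZ hB
  | rib hb _ hZ hB =>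
    refine ⟨LQ_rib hQ hb hZ hB, fun h => ?_⟩
    have hm : ∀ l ∈ Icc (0 : ℝ) 1, 1 - l ∈ Icc (0 : ℝ) 1 := fun l hl => ⟨by linarith [hl.2], by linarith [hl.1]⟩
    have h1 := LQ_rib hQ (KNH.rev_tubes hb) (fun l hl => hZ _ (hm l hl)) (fun l hl => hB _ (hm l hl))
    simp only [sub_zero, sub_self] at h1
    exact h1 h
  | _ =>
    rename_i hm
    refine ⟨LQ_mut hQ hm, fun h => ?_⟩
    have h1 := LQ_mut hQ (rev_mut hm)
    simp only [sub_zero, sub_self] at h1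
    exact h1 h

end Pool.Agent.LKF
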