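import Pool.Agent.LKF.StpF
import Pool.Agent.LKF.SouA
import Pool.Agent.KNH.RibMQ

/-!
# LKF/SouR: the ribbon homotopy of one component   (difficulty 3)

`LQ Q (Z ∪ b 0 '' Str) B`: `i₀, S`.  `β l = bx (b l)`, `KNH.fam_bx` (with `Z`), `KNH.exists_thin`, `Y m = S m \ io '' range (β 0)`; for `m = i₀`: `Y i₀ = Hat (Z ∪ b 0 '' Rem)` (`Str = StP ∪ StM`, `st_union`), for `m ≠ i₀`: `Y m = S m ⊆ io '' B`.
`io (β l q) ∉ Y m`.  `LS_thin`, `stepF` with `α = Empty` (or `PEmpty`; `Option Empty`: `i = k = fun _ => i₀` is injective as `Option Empty` is a subsingleton; `⋃ a : Option Empty, ..` is the set for `none`), `LS_thin` backwards (`β 1`; `KNH.fam_emb1`).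
Result: `S' m = Y m ∪ io '' (β 1 '' Ln i₀ i₀ m)`: `S' i₀ = Hat (Z ∪ b 1 '' Str)`, `S' m = S m` for `m ≠ i₀`.
-/

open scoped Manifold ContDiff Topology
open Set Filter
open Complex (I)
open Pool.Agent.CSG (stp)
open Pool.Agent.RSG (E4 S3 S4 ex cj c1 c2 ht fh pS3)
open Pool.Agent.RBM (ThickT OnT Box frc)
open Pool.Agent.RBH (Tube BoxS)
open Pool.Agent.PTH (SP ISP Act)
open Pool.Agent.COR (Equi EquiB BBox OutW PosAt half dv dt PerS)
open Pool.Agent.KNT (Dom BalC Tubes Str Str2 CD)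
open Pool.Agent.KNH (rot Hat circ pb Emb Fam ThinOK thn bx)
open Pool.Agent.CLG (io pol)

namespace Pool.Agent.LKF

universe u

theorem SouR_hat (A C : Set (ℂ × ℝ)) : Hat (A ∪ C) = Hat A ∪ io '' C := by
  unfold Hat
  rw [image_union, insert_union]

theorem SouR_ln {ι : Type*} (i₀ : ι) : Ln i₀ i₀ i₀ = KNH.Ss := by
  ext q
  simp [Ln, KNH.Ss]

theorem SouR_ln' {ι : Type*} {i₀ m : ι} (h : m ≠ i₀) : Ln i₀ i₀ m = ∅ := by
  ext q
  simp [Ln, Ne.symm h]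

theorem LQ_rib {ι : Type*} [Finite ι] {Q : (ι → ℝ × ℂ × ℝ → SP) → Prop} (hQ : MonoF.{u} ISP Q) {Z B : Set (ℂ × ℝ)}
    {b : ℝ → ℂ × ℝ → ℂ × ℝ} (hb : Tubes b) (hZ : ∀ l ∈ Icc (0 : ℝ) 1, Disjoint Z (b l '' Dom))
    (hB : ∀ l ∈ Icc (0 : ℝ) 1, Disjoint B (b l '' Dom)) (h : LQ Q (Z ∪ b 0 '' Str) B) : LQ Q (Z ∪ b 1 '' Str) B := by
  classical
  obtain ⟨i₀, S, hS, hB', hL⟩ := h
  have hf := KNH.fam_bx hb hb.sep hZ
  obtain ⟨w₀, δ, hw⟩ := KNH.exists_thin hf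
  have i0 : (0 : ℝ) ∈ Icc (0 : ℝ) 1 := ⟨le_rfl, zero_le_one⟩
  have i1 : (1 : ℝ) ∈ Icc (0 : ℝ) 1 := ⟨zero_le_one, le_rfl⟩
  obtain ⟨Y, hY0, hY1⟩ : ∃ Y : ι → Set S3, Y i₀ = Hat (Z ∪ b 0 '' KNH.Rem) ∧ ∀ m, m ≠ i₀ → Y m = S m := by
    refine ⟨fun m => if m = i₀ then Hat (Z ∪ b 0 '' KNH.Rem) else S m, if_pos rfl, fun m hm => if_neg hm⟩
  have hY : ∀ m, ∀ l ∈ Icc (0 : ℝ) 1, ∀ q, io (bx (b l) q) ∉ Y m := by
    intro m l hl q hq
    by_cases hm : m = i₀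
    · subst hm
      rw [hY0] at hq
      rcases hq with hq | ⟨x, hx, hxq⟩
      · exact CLG.io_ne _ hq
      · rw [CLG.io_inj hxq] at hx
        exact hf.dis l hl q hx
    · rw [hY1 m hm] at hq
      have h1 : io (bx (b l) q) ∈ io '' B := by
        rw [← hB']
        exact mem_iUnion₂.2 ⟨m, hm, hq⟩
      obtain ⟨x, hx, hxq⟩ := h1
      rw [CLG.io_inj hxq] at hx
      exact disjoint_left.1 (hB l hl) hx ⟨_, KNH.bx_dom q, rfl⟩
  have e0 : S = fun m => Y m ∪ io '' (bx (b 0) '' Ln i₀ i₀ m) := by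
    funext m
    by_cases hm : m = i₀
    · subst hm
      rw [hY0, hS, KNH.str_eq, SouR_hat, SouR_ln]
    · rw [hY1 m hm, SouR_ln' hm, image_empty, image_empty, union_empty]
  rw [e0] at hL
  have h1 := (LS_thin hQ (KNH.fam_emb0 hf) (fun m q => hY m 0 i0 q) i₀ i₀ hw.w_pos hw.w_le).1 hL
  have hE : ∀ (c : ℂ × ℝ → ℂ × ℝ) (γ : Empty → ℂ × ℝ → ℂ × ℝ), (fun m => Y m ∪ ⋃ a : Option Empty, io '' (opt c γ a ''
      Ln ((fun _ => i₀ : Option Empty → ι) a) ((fun _ => i₀ : Option Empty → ι) a) m)) =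
      fun m => Y m ∪ io '' (c '' Ln i₀ i₀ m) := by
    intro c γ
    funext m
    rw [iUnion_option, iUnion_of_empty, union_empty]
    rfl
  have h2 := stepF (α := Empty) hQ hf hw (γ := fun a => a.elim) (fun a => a.elim) (fun a => a.elim)
    (fun _ a => a.elim) (fun _ a => a.elim) (fun _ _ _ a => a.elim) (i := fun _ => i₀) (k := fun _ => i₀)
    (Function.injective_of_subsingleton _) (Function.injective_of_subsingleton _) hY (fun _ a => a.elim)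
    (by rw [hE]; exact h1)
  rw [hE] at h2
  have h3 := (LS_thin hQ (KNH.fam_emb1 hf) (fun m q => hY m 1 i1 q) i₀ i₀ hw.w_pos hw.w_le).2 h2
  refine ⟨i₀, _, ?_, ?_, h3⟩
  · show Y i₀ ∪ io '' (bx (b 1) '' Ln i₀ i₀ i₀) = Hat (Z ∪ b 1 '' Str)
    rw [hY0, KNH.str_eq, KNH.rem_eq hb, SouR_hat (Z ∪ b 0 '' KNH.Rem), SouR_ln]
  · rw [← hB']
    refine iUnion₂_congr fun m hm => ?_
    have hm' : m ≠ i₀ := hm
    rw [hY1 m hm', SouR_ln' hm', image_empty, image_empty, union_empty]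

end Pool.Agent.LKF
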