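import Pool.Agent.LKF.BunEx
import Pool.Agent.LKF.HolN
import Pool.Agent.LKF.CorF
import Pool.Agent.LKF.HomF
import Pool.Agent.LKF.ConF
import Pool.Agent.LKF.DifF
import Pool.Agent.KNH.RibSQ

/-!
# LKF/StpF: the ribbon homotopy in thin boxes   (difficulty 4)

Family version of `KNH.rib_stepQ` (KNH/RibSQ.lean: copy its proof).  First WLOG `PosB` for all charts: replace `β l` by `cjc (β l)` and `γ a` by `cjc (γ a)` where necessary (`cjc_pos` for `fun q => β 0 (thn w₀ q)`, `cjc_thn`, `cjc_ln`: the sets do not change): prove the theorem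
first with the additional hypotheses `PosB (pb fun q => β 0 (thn w₀ q))`, `∀ a, PosB (pb (γ a))`.
`exists_bunF` for the charts `opt (fun q => β 0 (thn w₀ q)) γ`: `hS` from the ranges.  `T = {x | ∃ m l, cc m l = io x ∧ Outc (opt ..) (1/2) (cc m l)}` is closed: its image under `io` is the compact set `⋃ m, range (cc m)` minus the open set of the points
`io (opt .. a q)`, `|q.2| < 1/2`; together with the compact sets `γ a '' {‖q.1‖ ≤ 5, 1/4 ≤ |q.2| ≤ 1}`: `T'`.  `KNH.exists_Mp` with `T'` (`hTd`: as in RibSQ; for the ends of `γ a`: `hends`).  `Fc m = {p | p.1 ∈ io '' (Mp ∪ B₁ '' {‖q.1‖ ≤ 5, |q.2| ≤ 1/4})}` (the same for all `m`).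
`exists_holeN` (`σ = 1`), `rib_homF`, `core_swapF` (`β = opt B₀ γ`, `β' = opt B₁ γ`), `rib_family` (`MonoF` with `φ = id`).
-/

open scoped Manifold ContDiff Topology
open Set Filter
open Complex (I)
open Pool.Agent.CSG (stp)
open Pool.Agent.RSG (E4 S3 S4 ex cj c1 c2 ht fh pS3)
open Pool.Agent.RBM (ThickT OnT Box frc)
open Pool.Agent.RBH (Tube BoxS)
open Pool.Agent.PTH (SP ISP Act)
open Pool.Agent.COR (Equi EquiB BBox OutW PosAt half dv dt PerS)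
open Pool.Agent.KNT (Dom BalC Tubes Str Str2 CD)
open Pool.Agent.KNH (rot Hat circ pb Emb Fam ThinOK thn bx)
open Pool.Agent.CLG (io pol)

namespace Pool.Agent.LKF

universe u

theorem StpF_out {α : Type*} [Finite α] {β : α → ℂ × ℝ → ℂ × ℝ} (hβ : ∀ a, Emb (β a)) (r : ℝ) :
    IsClosed {x : S3 | Outc β r x} := by
  have h1 : {x : S3 | Outc β r x} = (⋃ a, (fun q => io (β a q)) '' {q : ℂ × ℝ | |q.2| < r})ᶜ := by
    ext x
    constructor
    · intro hx hu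
      obtain ⟨a, q, hq, rfl⟩ := mem_iUnion.1 hu
      exact absurd (hx a q rfl) (not_le.2 hq)
    · intro hx a q hq
      by_contra hc
      exact hx (mem_iUnion.2 ⟨a, q, not_le.1 hc, hq.symm⟩)
  rw [h1]
  apply IsOpen.isClosed_compl
  apply isOpen_iUnion
  intro a
  have hld : IsLocalDiffeomorph 𝓘(ℝ, ℂ × ℝ) (𝓡 3) ∞ (fun q => io (β a q)) := by
    intro q
    exact IsLocalDiffeomorphAt.comp (hf := KNH.emb_ld (hβ a) q) (hg := KNH.io_ld (β a q)) ..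
  apply hld.isOpenMap
  exact isOpen_lt (continuous_abs.comp continuous_snd) continuous_const

theorem StpF_main {ι α : Type*} [Finite ι] [Finite α] {Q : (ι → ℝ × ℂ × ℝ → SP) → Prop} (hQ : MonoF.{u} ISP Q)
    {β : ℝ → ℂ × ℝ → ℂ × ℝ} {Y₀ : Set (ℂ × ℝ)} (h : Fam β Y₀) {w₀ δ : ℝ} (hw : ThinOK β w₀ δ)
    {γ : α → ℂ × ℝ → ℂ × ℝ} (hγ : ∀ a, Emb (γ a)) (hγd : ∀ a a' q q', γ a q = γ a' q' → a = a')
    (h0 : ∀ q a q', β 0 q ≠ γ a q') (h1 : ∀ q a q', β 1 q ≠ γ a q')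
    (hends : ∀ l ∈ Icc (0 : ℝ) 1, ∀ q a q', 1 / 4 ≤ |q'.2| → β l q ≠ γ a q')
    {i k : Option α → ι} (hi : Function.Injective i) (hk : Function.Injective k) {Y : ι → Set S3}
    (hY : ∀ m, ∀ l ∈ Icc (0 : ℝ) 1, ∀ q, io (β l q) ∉ Y m) (hYγ : ∀ m a q, io (γ a q) ∉ Y m)
    (hp0 : PosB (pb fun q => β 0 (thn w₀ q))) (hpγ : ∀ a, PosB (pb (γ a)))
    (hX : LS Q (fun m => Y m ∪ ⋃ a, io '' (opt (fun q => β 0 (thn w₀ q)) γ a '' Ln (i a) (k a) m))) :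
    LS Q (fun m => Y m ∪ ⋃ a, io '' (opt (fun q => β 1 (thn w₀ q)) γ a '' Ln (i a) (k a) m)) := by
  obtain ⟨cc, κ₀, hL, heq₀, hcore₀, hrange', hq₀⟩ := hX
  have hrange : ∀ m, range (cc m) =
      Y m ∪ ⋃ a, io '' (opt (fun q => β 0 (thn w₀ q)) γ a '' Ln (i a) (k a) m) := hrange'
  have i0 : (0 : ℝ) ∈ Icc (0 : ℝ) 1 := ⟨le_rfl, zero_le_one⟩
  have i1 : (1 : ℝ) ∈ Icc (0 : ℝ) 1 := ⟨zero_le_one, le_rfl⟩
  have hB₀ : Emb (fun q => β 0 (thn w₀ q)) := KNH.thn_emb (KNH.fam_emb0 h) hw.w_pos hw.w_le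
  have hB₁ : Emb (fun q => β 1 (thn w₀ q)) := KNH.thn_emb (KNH.fam_emb1 h) hw.w_pos hw.w_le
  have hΓ₀ : ∀ a, Emb (opt (fun q => β 0 (thn w₀ q)) γ a) := by
    rintro (_ | a)
    · exact hB₀
    · exact hγ a
  have hΓ₁ : ∀ a, Emb (opt (fun q => β 1 (thn w₀ q)) γ a) := by
    rintro (_ | a)
    · exact hB₁
    · exact hγ a
  have hpos : ∀ a, PosB (pb (opt (fun q => β 0 (thn w₀ q)) γ a)) := by
    rintro (_ | a)
    · exact hp0
    · exact hpγ a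
  have hdis : ∀ (a a' : Option α) q q', opt (fun q => β 0 (thn w₀ q)) γ a q =
      opt (fun q => β 0 (thn w₀ q)) γ a' q' → a = a' := by
    rintro (_ | a) (_ | a') q q' he
    · rfl
    · exact absurd he (h0 _ a' q')
    · exact absurd he.symm (h0 _ a q)
    · rw [hγd a a' q q' he]
  have hYΓ : ∀ (m : ι) (a : Option α) q, io (opt (fun q => β 0 (thn w₀ q)) γ a q) ∉ Y m := by
    rintro m (_ | a) q
    · exact hY m 0 i0 _
    · exact hYγ m a q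
  -- points of the link
  have hpt : ∀ m l x, cc m l = io x → io x ∈ Y m ∨ ∃ a, ∃ q ∈ Ln (i a) (k a) m,
      opt (fun q => β 0 (thn w₀ q)) γ a q = x := by
    intro m l x hx
    have e1 : cc m l ∈ Y m ∪ ⋃ a, io '' (opt (fun q => β 0 (thn w₀ q)) γ a '' Ln (i a) (k a) m) := by
      rw [← hrange m]
      exact mem_range_self l
    rw [hx] at e1
    rcases e1 with e1 | e1
    · exact Or.inl e1
    · obtain ⟨a, y, ⟨q, hq, hy⟩, hy'⟩ := mem_iUnion.1 e1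
      exact Or.inr ⟨a, q, hq, by rw [hy]; exact KNH.io_inj hy'⟩
  have hS : ∀ m a q, (∃ l, cc m l = io (opt (fun q => β 0 (thn w₀ q)) γ a q)) ↔ q ∈ Ln (i a) (k a) m := by
    intro m a q
    constructor
    · rintro ⟨l, hl⟩
      rcases hpt m l _ hl with e1 | ⟨a', q', hq', he⟩
      · exact absurd e1 (hYΓ m a q)
      · obtain rfl := hdis a' a q' q he
        rw [← (hΓ₀ a').inj he]
        exact hq'
    · intro hq
      have e1 : io (opt (fun q => β 0 (thn w₀ q)) γ a q) ∈ range (cc m) := by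
        rw [hrange m]
        exact Or.inr (mem_iUnion.2 ⟨a, _, ⟨q, hq, rfl⟩, rfl⟩)
      exact e1
  have hcc : ∀ m, Continuous (cc m) := fun m => (KNH.StrM_csmooth (hL.thick m) (hcore₀ m)).continuous
  have hccp : ∀ m l, cc m (l + 1) = cc m l := by
    intro m l
    have e1 := (hL.thick m).perl l 0 0
    rw [hcore₀, hcore₀] at e1
    exact congrArg Prod.fst e1
  have hioc : Continuous io := by
    rw [continuous_iff_continuousAt]
    intro q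
    exact (KNH.io_ld q).contMDiffAt.continuousAt
  have hcr : ∀ m, IsCompact (range (cc m)) := by
    intro m
    have e1 : range (cc m) = cc m '' Icc 0 1 := by
      apply subset_antisymm
      · rintro _ ⟨l, rfl⟩
        refine ⟨Int.fract l, ⟨Int.fract_nonneg l, (Int.fract_lt_one l).le⟩, ?_⟩
        have e2 : Function.Periodic (cc m) 1 := hccp m
        have e3 := e2.int_mul ⌊l⌋ (Int.fract l)
        rw [mul_one, Int.fract_add_floor] at e3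
        exact e3.symm
      · exact image_subset_range _ _
    rw [e1]
    exact isCompact_Icc.image (hcc m)
  let T : Set (ℂ × ℝ) := io ⁻¹' ((⋃ m, range (cc m)) ∩ {x : S3 | Outc (opt (fun q => β 0 (thn w₀ q)) γ) (1 / 2) x})
  have hT : IsClosed T := (((isCompact_iUnion hcr).isClosed).inter (StpF_out hΓ₀ _)).preimage hioc
  let K : α → Set (ℂ × ℝ) := fun a => γ a '' {q : ℂ × ℝ | ‖q.1‖ ≤ 5 ∧ 1 / 4 ≤ |q.2| ∧ |q.2| ≤ 1}
  have hQc0 : ∀ r : ℝ, IsCompact {q : ℂ × ℝ | ‖q.1‖ ≤ 5 ∧ |q.2| ≤ r} := by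
    intro r
    have e1 : {q : ℂ × ℝ | ‖q.1‖ ≤ 5 ∧ |q.2| ≤ r} = Metric.closedBall (0 : ℂ) 5 ×ˢ Icc (-r) r := by
      ext q
      simp only [mem_ofPred_eq, mem_prod, Metric.mem_closedBall, dist_zero_right, mem_Icc, abs_le]
    rw [e1]
    exact (isCompact_closedBall _ _).prod isCompact_Icc
  have hK : ∀ a, IsCompact (K a) := by
    intro a
    refine IsCompact.image ?_ (hγ a).smooth.continuous
    have e1 : {q : ℂ × ℝ | ‖q.1‖ ≤ 5 ∧ 1 / 4 ≤ |q.2| ∧ |q.2| ≤ 1} =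
        {q : ℂ × ℝ | ‖q.1‖ ≤ 5 ∧ |q.2| ≤ 1} ∩ {q : ℂ × ℝ | 1 / 4 ≤ |q.2|} := by
      ext q
      simp only [mem_ofPred_eq, mem_inter_iff]
      tauto
    rw [e1]
    exact (hQc0 1).inter_right (isClosed_le continuous_const (continuous_abs.comp continuous_snd))
  have hT' : IsClosed (T ∪ ⋃ a, K a) := hT.union (isCompact_iUnion hK).isClosed
  have hTd : ∀ l ∈ Icc (0 : ℝ) 1, ∀ q : ℂ × ℝ, |q.2| ≤ 1 / 8 → β l q ∉ T ∪ ⋃ a, K a := by
    rintro l hl q hq (⟨hx1, hx2⟩ | hx)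
    · obtain ⟨m, l', he⟩ := mem_iUnion.1 hx1
      rcases hpt m l' _ he with e1 | ⟨a, q', hq', e1⟩
      · exact hY m l hl q e1
      · have e2 : 1 / 2 ≤ |q'.2| := hx2 a q' (by rw [e1])
        rcases a with _ | a
        · exact h.sep l hl q (thn w₀ q') hq (by show 1 / 4 ≤ |q'.2|; linarith) e1.symm
        · exact hends l hl q a q' (by linarith) e1.symm
    · obtain ⟨a, q', ⟨-, hq', -⟩, he⟩ := mem_iUnion.1 hx
      exact hends l hl q a q' hq' he.symm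
  obtain ⟨Mp, hMc, hMi, hMT, hMe⟩ := KNH.exists_Mp h w₀ hT' hTd
  let Fc : ι → Set SP := fun _ =>
    {p | p.1 ∈ io '' (Mp ∪ (fun q => β 1 (thn w₀ q)) '' {q | ‖q.1‖ ≤ 5 ∧ |q.2| ≤ 1 / 4})}
  have hFc : ∀ m, IsClosed (Fc m) := by
    intro m
    have e1 : IsCompact (io '' (Mp ∪ (fun q => β 1 (thn w₀ q)) '' {q | ‖q.1‖ ≤ 5 ∧ |q.2| ≤ 1 / 4})) :=
      (hMc.union ((hQc0 _).image hB₁.smooth.continuous)).image hioc
    exact e1.isClosed.preimage continuous_fst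
  have hF : ∀ m l, Outc (opt (fun q => β 0 (thn w₀ q)) γ) (1 / 2) (cc m l) →
      ∀ t, rot t (cc m l, 1) ∉ Fc m := by
    intro m l ho t ht
    obtain ⟨x, hx, hx'⟩ := ht
    have hx' : io x = cc m l := hx'
    rcases hx with hx | ⟨q, ⟨-, hq⟩, hq'⟩
    · refine Set.disjoint_left.1 hMT hx (Or.inl ⟨?_, ?_⟩)
      · rw [hx']
        exact mem_iUnion.2 ⟨m, mem_range_self l⟩
      · show Outc _ _ _
        rw [hx']
        exact ho
    · have hq' : β 1 (thn w₀ q) = x := hq'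
      rcases hpt m l x hx'.symm with e1 | ⟨a, q', hq2, e1⟩
      · rw [← hq'] at e1
        exact hY m 1 i1 _ e1
      · have e2 : 1 / 2 ≤ |q'.2| := ho a q' (by rw [e1, hx'])
        rcases a with _ | a
        · have e1 : β 0 (thn w₀ q') = x := e1
          have e3 : β 1 (thn w₀ q') = β 0 (thn w₀ q') :=
            h.ends 1 i1 (thn w₀ q') (by show 1 / 8 ≤ |q'.2|; linarith)
          have e4 : q = q' := hB₁.inj (by
            show β 1 (thn w₀ q) = β 1 (thn w₀ q')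
            rw [hq', e3, e1])
          rw [e4] at hq
          linarith
        · have e1 : γ a q' = x := e1
          exact h1 (thn w₀ q) a q' (by rw [hq', e1])
  obtain ⟨κ, φ, e₁, e₂, hbun, heq, hφc, hφ1, hcore, hrest, hq⟩ :=
    exists_bunF hQ hL heq₀ hcore₀ hq₀ hΓ₀ hpos hdis hi hk hS hFc hF
  obtain ⟨G, hG1, hG2, hG4, hG3⟩ := exists_holeN h hw hMi (σ := 1) (Or.inl rfl)
  have hMγ : ∀ (a : α) (q : ℂ × ℝ), ‖q.1‖ ≤ 5 → 1 / 4 ≤ |q.2| → |q.2| ≤ 1 → γ a q ∉ Mp := by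
    intro a q q1 q2 q3 hm
    exact Set.disjoint_left.1 hMT hm (Or.inr (mem_iUnion.2 ⟨a, q, ⟨q1, q2, q3⟩, rfl⟩))
  have hb := hbun (opt (fun s => s / 4) (fun _ _ => 1 / 2))
  have hRF := rib_homF h hw hγ hγd h0 h1 hMe hMγ hb
    (fun m l v t hv hl => hrest (opt (fun s => s / 4) (fun _ _ => 1 / 2)) m l v t hv hl) hG1 hG2 hG3 hG4
  obtain ⟨heq', c', hc', hcore'⟩ := core_swapF (β' := opt (fun q => β 1 (thn w₀ q)) γ) hΓ₀ hΓ₁ hdis (by
    rintro (_ | a) q hq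
    · exact h.ends 1 i1 (thn w₀ q) hq
    · rfl) hb heq hφc hφ1 hcore hYΓ hrange
  refine ⟨c', _, hRF.bun'.link, heq', hcore', hc', ?_⟩
  refine hQ κ _ hb.link hRF.bun'.link ⟨id, Function.surjective_id, ?_⟩ hq
  intro X _ _ _ n j hD
  exact rib_family hRF n j hD

/-- charts which differ at most by the complex conjugation -/
def StpF_E (γ γ' : ℂ × ℝ → ℂ × ℝ) : Prop := γ' = γ ∨ γ' = cjc γ

theorem StpF_pt {γ γ' : ℂ × ℝ → ℂ × ℝ} (h : StpF_E γ γ') (q : ℂ × ℝ) :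
    ∃ q' : ℂ × ℝ, γ' q = γ q' ∧ q'.2 = q.2 := by
  rcases h with rfl | rfl
  · exact ⟨q, rfl, rfl⟩
  · exact ⟨((starRingEnd ℂ) q.1, q.2), rfl, rfl⟩

theorem StpF_ln {ι : Type*} {γ γ' : ℂ × ℝ → ℂ × ℝ} (h : StpF_E γ γ') (i k m : ι) :
    γ' '' Ln i k m = γ '' Ln i k m := by
  rcases h with rfl | rfl
  · rfl
  · exact cjc_ln γ i k m

theorem StpF_emb {γ γ' : ℂ × ℝ → ℂ × ℝ} (h : StpF_E γ γ') (hγ : Emb γ) : Emb γ' := by
  rcases h with rfl | rfl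
  · exact hγ
  · exact cjc_emb hγ

theorem StpF_ex {γ : ℂ × ℝ → ℂ × ℝ} (hγ : Emb γ) : ∃ γ', StpF_E γ γ' ∧ PosB (pb γ') := by
  rcases cjc_pos hγ with hp | hp
  · exact ⟨γ, Or.inl rfl, hp⟩
  · exact ⟨cjc γ, Or.inr rfl, hp⟩

theorem stepF {ι α : Type*} [Finite ι] [Finite α] {Q : (ι → ℝ × ℂ × ℝ → SP) → Prop} (hQ : MonoF.{u} ISP Q)
    {β : ℝ → ℂ × ℝ → ℂ × ℝ} {Y₀ : Set (ℂ × ℝ)} (h : Fam β Y₀) {w₀ δ : ℝ} (hw : ThinOK β w₀ δ)
    {γ : α → ℂ × ℝ → ℂ × ℝ} (hγ : ∀ a, Emb (γ a)) (hγd : ∀ a a' q q', γ a q = γ a' q' → a = a')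
    (h0 : ∀ q a q', β 0 q ≠ γ a q') (h1 : ∀ q a q', β 1 q ≠ γ a q')
    (hends : ∀ l ∈ Icc (0 : ℝ) 1, ∀ q a q', 1 / 4 ≤ |q'.2| → β l q ≠ γ a q')
    {i k : Option α → ι} (hi : Function.Injective i) (hk : Function.Injective k) {Y : ι → Set S3}
    (hY : ∀ m, ∀ l ∈ Icc (0 : ℝ) 1, ∀ q, io (β l q) ∉ Y m) (hYγ : ∀ m a q, io (γ a q) ∉ Y m)
    (hX : LS Q (fun m => Y m ∪ ⋃ a, io '' (opt (fun q => β 0 (thn w₀ q)) γ a '' Ln (i a) (k a) m))) :
    LS Q (fun m => Y m ∪ ⋃ a, io '' (opt (fun q => β 1 (thn w₀ q)) γ a '' Ln (i a) (k a) m)) := by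
  have hB₀ : Emb (fun q => β 0 (thn w₀ q)) := KNH.thn_emb (KNH.fam_emb0 h) hw.w_pos hw.w_le
  choose γ' hγ' hγp using fun a => StpF_ex (hγ a)
  obtain ⟨β', hβ', hfam, hthin, hp0⟩ : ∃ β' : ℝ → ℂ × ℝ → ℂ × ℝ, (∀ l, StpF_E (β l) (β' l)) ∧
      Fam β' Y₀ ∧ ThinOK β' w₀ δ ∧ PosB (pb fun q => β' 0 (thn w₀ q)) := by
    rcases cjc_pos hB₀ with hp | hp
    · exact ⟨β, fun l => Or.inl rfl, h, hw, hp⟩
    · rw [cjc_thn] at hp
      exact ⟨fun l => cjc (β l), fun l => Or.inr rfl, cjc_fam h, cjc_thin hw, hp⟩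
  have hthn : ∀ l, StpF_E (fun q => β l (thn w₀ q)) (fun q => β' l (thn w₀ q)) := by
    intro l
    rcases hβ' l with he | he
    · left
      rw [he]
    · right
      rw [cjc_thn, he]
  have hset : ∀ l, (fun m => Y m ∪ ⋃ a, io '' (opt (fun q => β' l (thn w₀ q)) γ' a '' Ln (i a) (k a) m)) =
      fun m => Y m ∪ ⋃ a, io '' (opt (fun q => β l (thn w₀ q)) γ a '' Ln (i a) (k a) m) := by
    intro l
    funext m
    congr 1
    refine iUnion_congr fun a => ?_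
    congr 1
    rcases a with _ | a
    · exact StpF_ln (hthn l) _ _ _
    · exact StpF_ln (hγ' a) _ _ _
  rw [← hset 0] at hX
  rw [← hset 1]
  refine StpF_main hQ hfam hthin (fun a => StpF_emb (hγ' a) (hγ a)) ?_ ?_ ?_ ?_ hi hk ?_ ?_ hp0 hγp hX
  · intro a a' q q' he
    obtain ⟨p, hp, -⟩ := StpF_pt (hγ' a) q
    obtain ⟨p', hp', -⟩ := StpF_pt (hγ' a') q'
    rw [hp, hp'] at he
    exact hγd a a' p p' he
  · intro q a q' he
    obtain ⟨p, hp, -⟩ := StpF_pt (hβ' 0) q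
    obtain ⟨p', hp', -⟩ := StpF_pt (hγ' a) q'
    rw [hp, hp'] at he
    exact h0 p a p' he
  · intro q a q' he
    obtain ⟨p, hp, -⟩ := StpF_pt (hβ' 1) q
    obtain ⟨p', hp', -⟩ := StpF_pt (hγ' a) q'
    rw [hp, hp'] at he
    exact h1 p a p' he
  · intro l hl q a q' hq he
    obtain ⟨p, hp, -⟩ := StpF_pt (hβ' l) q
    obtain ⟨p', hp', hp2⟩ := StpF_pt (hγ' a) q'
    rw [hp, hp'] at he
    exact hends l hl p a p' (by rw [hp2]; exact hq) he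
  · intro m l hl q
    obtain ⟨p, hp, -⟩ := StpF_pt (hβ' l) q
    rw [hp]
    exact hY m l hl p
  · intro m a q
    obtain ⟨p, hp, -⟩ := StpF_pt (hγ' a) q
    rw [hp]
    exact hYγ m a p

end Pool.Agent.LKF
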