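import Pool.Agent.LKF.Defs
import Pool.Agent.RBM.TorP
import Pool.Agent.RBH.ClM

/-!
# LKF/TopF: tori and boxes in `P`   (difficulty 2)

Family version of `RBM/TorP.lean` and `RBH/ClM.lean` (copy the proofs; for one torus or one box use the theorems themselves: `RBM.kap_int (h.thick i)`, `RBM.box_int (h.box a)`,
`RBH.tube_open`, `RBH.tube_closed`, `RBH.torus_closed`, `RBH.box_closed`; finite unions: `isClosed_iUnion_of_finite`, `isOpen_iUnion`).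
* `win_val`: `RSG.strand_all l` gives `l = 1/2 - d/4 + y + k`, `d = ±1`, `|y| < 1/16`, or all integers are far from both windows.  In the first case: if there is `a` with `c.i a = i` (for
  `d = 1`; `c.k a = i` for `d = -1`) use `strand₁` (`strand₂`), `RBM.kap_int`.  If there is no such `a`, `RestF` holds (the other window is far: the distance of `l` to the other window is `≥ 1/2 - 1/8`).
* `winF`: `win_val` for `h`; the same `a, d, e, y, k` for `h'` (`strand₁, strand₂` of `h'` have the same signs `c.e₁ a`, `c.e₂ a`): give the proof directly, for both at the same time, as `RBH.ClM_win`.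
* `kap_boxF`: in the first case of `win_val`, `b a' (z', s', t) = b a (z, s, t')` gives `a' = a` (`bdisj`) and `box.inj`.
-/

open scoped Manifold ContDiff Topology
open Set Filter
open Complex (I)
open Pool.Agent.RSG (E4 S4 ex cj c1 c2 ht fh Vx XW BBi)
open Pool.Agent.RBM (ThickT OnT Box frc lamJ muJ DomJ BBs gD)
open Pool.Agent.RBH (Tube BoxS)

namespace Pool.Agent.LKF

variable {E : Type*} [NormedAddCommGroup E] [NormedSpace ℝ E] {H : Type*} [TopologicalSpace H]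
  {J : ModelWithCorners ℝ E H}
  {P : Type*} [TopologicalSpace P] [ChartedSpace H P] {ι α : Type*} {κ κ' : ι → ℝ × ℂ × ℝ → P}
  {b b' : α → ℂ × ℝ × ℝ → P} {c : Cmb ι α} {δ : ℝ} {G : Equiv.Perm P}

theorem TopF_far {y : ℝ} (hy : |y| < 1 / 16) (m : ℤ) : 1 / 16 ≤ |y - 1 / 2 + m| ∧ 1 / 16 ≤ |y + 1 / 2 + m| := by
  obtain ⟨h1, h2⟩ := abs_lt.1 hy
  constructor
  · rcases le_or_gt m 0 with hm | hm
    · have hm' : (m : ℝ) ≤ 0 := by exact_mod_cast hm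
      rw [abs_of_nonpos (by linarith)]
      linarith
    · have hm' : (1 : ℝ) ≤ m := by exact_mod_cast hm
      rw [abs_of_nonneg (by linarith)]
      linarith
  · rcases le_or_gt m (-1) with hm | hm
    · have hm' : (m : ℝ) ≤ -1 := by exact_mod_cast hm
      rw [abs_of_nonpos (by linarith)]
      linarith
    · have hm1 : (0 : ℤ) ≤ m := by omega
      have hm' : (0 : ℝ) ≤ m := by exact_mod_cast hm1
      rw [abs_of_nonneg (by linarith)]
      linarith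

theorem TopF_abs {e y : ℝ} (he : e = 1 ∨ e = -1) (hy : |y| < 1 / 16) : |16 * e * y| < 1 := by
  have he' : |e| = 1 := by rcases he with rfl | rfl <;> simp
  rw [abs_mul, abs_mul, he', abs_of_pos (by norm_num : (0 : ℝ) < 16)]
  linarith

/-- both families at the same time -/
theorem TopF_win (h : BunF J κ b c) (h' : BunF J κ' b' c) (i : ι) (l : ℝ) {v : ℂ} (t : ℝ) (hv : ‖v‖ < 1) :
    (∃ (a : α) (d e y : ℝ) (k : ℤ), (d = 1 ∨ d = -1) ∧ (e = 1 ∨ e = -1) ∧ |y| < 1 / 16 ∧ l = 1 / 2 - d / 4 + y + k ∧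
      κ i (l, v, t) = b a (d + cj e v / 2, 16 * e * y, t) ∧
      κ' i (l, v, t) = b' a (d + cj e v / 2, 16 * e * y, t)) ∨ RestF c i l := by
  rcases RSG.strand_all l with ⟨d, y, k, hd, hy, rfl⟩ | h2
  · have p1 : κ i (1 / 2 - d / 4 + y + k, v, t) = κ i (1 / 2 - d / 4 + y, v, t) := by
      have := RBM.kap_int (h.link.thick i) (1 / 2 - d / 4 + y) v t k 0
      simpa using this
    have p2 : κ' i (1 / 2 - d / 4 + y + k, v, t) = κ' i (1 / 2 - d / 4 + y, v, t) := by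
      have := RBM.kap_int (h'.link.thick i) (1 / 2 - d / 4 + y) v t k 0
      simpa using this
    rcases hd with rfl | rfl
    · by_cases ha : ∃ a, c.i a = i
      · left
        obtain ⟨a, rfl⟩ := ha
        refine ⟨a, 1, c.e₁ a, y, k, Or.inl rfl, h.sign₁ a, hy, rfl, ?_, ?_⟩
        · rw [p1, show (1 / 2 - 1 / 4 + y : ℝ) = 1 / 4 + y by ring, h.strand₁ a y v t hy hv, Complex.ofReal_one]
        · rw [p2, show (1 / 2 - 1 / 4 + y : ℝ) = 1 / 4 + y by ring, h'.strand₁ a y v t hy hv, Complex.ofReal_one]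
      · right
        refine ⟨fun a e => absurd ⟨a, e⟩ ha, fun a _ k' => ?_⟩
        have := (TopF_far hy (k - k')).1
        push_cast at this
        rwa [show (1 / 2 - 1 / 4 + y + k - 3 / 4 - k' : ℝ) = y - 1 / 2 + (k - k') by ring]
    · by_cases ha : ∃ a, c.k a = i
      · left
        obtain ⟨a, rfl⟩ := ha
        refine ⟨a, -1, c.e₂ a, y, k, Or.inr rfl, h.sign₂ a, hy, rfl, ?_, ?_⟩
        · rw [p1, show (1 / 2 - (-1) / 4 + y : ℝ) = 3 / 4 + y by ring, h.strand₂ a y v t hy hv,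
            Complex.ofReal_neg, Complex.ofReal_one]
        · rw [p2, show (1 / 2 - (-1) / 4 + y : ℝ) = 3 / 4 + y by ring, h'.strand₂ a y v t hy hv,
            Complex.ofReal_neg, Complex.ofReal_one]
      · right
        refine ⟨fun a _ k' => ?_, fun a e => absurd ⟨a, e⟩ ha⟩
        have := (TopF_far hy (k - k')).2
        push_cast at this
        rwa [show (1 / 2 - (-1) / 4 + y + k - 1 / 4 - k' : ℝ) = y + 1 / 2 + (k - k') by ring]
  · exact Or.inr ⟨fun _ _ k => (h2 k).1, fun _ _ k => (h2 k).2⟩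

theorem win_val (h : BunF J κ b c) (i : ι) (l : ℝ) {v : ℂ} (t : ℝ) (hv : ‖v‖ < 1) :
    (∃ (a : α) (d e y : ℝ) (k : ℤ), (d = 1 ∨ d = -1) ∧ (e = 1 ∨ e = -1) ∧ |y| < 1 / 16 ∧ l = 1 / 2 - d / 4 + y + k ∧
      κ i (l, v, t) = b a (d + cj e v / 2, 16 * e * y, t)) ∨ RestF c i l := by
  rcases TopF_win h h i l t hv with ⟨a, d, e, y, k, hd, he, hy, hl, h1, -⟩ | h2
  · exact Or.inl ⟨a, d, e, y, k, hd, he, hy, hl, h1⟩
  · exact Or.inr h2

theorem winF (h : BunF J κ b c) (h' : BunF J κ' b' c) (i : ι) (l : ℝ) {v : ℂ} (t : ℝ) (hv : ‖v‖ < 1) :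
    (∃ (a : α) (z : ℂ) (s : ℝ), ‖z‖ < 3 / 2 ∧ |s| < 1 ∧ κ i (l, v, t) = b a (z, s, t) ∧
      κ' i (l, v, t) = b' a (z, s, t)) ∨ RestF c i l := by
  rcases TopF_win h h' i l t hv with ⟨a, d, e, y, k, hd, he, hy, -, h1, h2⟩ | h2
  · exact Or.inl ⟨a, _, _, RSG.FKn_norm hd he hv, TopF_abs he hy, h1, h2⟩
  · exact Or.inr h2

/-- the two strands of the box `a` in one formula -/
theorem strandF (h : BunF J κ b c) (a : α) {d : ℝ} (hd : d = 1 ∨ d = -1) :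
    ∃ (i : ι) (ε : ℝ), (ε = 1 ∨ ε = -1) ∧ (d = 1 → i = c.i a ∧ ε = c.e₁ a) ∧ (d = -1 → i = c.k a ∧ ε = c.e₂ a) ∧
      ∀ (l : ℝ) (v : ℂ) (t : ℝ), |l| < 1 / 16 → ‖v‖ < 1 →
        κ i (1 / 2 - d / 4 + l, v, t) = b a (d + cj ε v / 2, 16 * ε * l, t) := by
  rcases hd with rfl | rfl
  · refine ⟨c.i a, c.e₁ a, h.sign₁ a, fun _ => ⟨rfl, rfl⟩, fun h0 => absurd h0 (by norm_num), fun l v t hl hv => ?_⟩
    rw [show (1 / 2 - 1 / 4 + l : ℝ) = 1 / 4 + l by ring, h.strand₁ a l v t hl hv, Complex.ofReal_one]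
  · refine ⟨c.k a, c.e₂ a, h.sign₂ a, fun h0 => absurd h0 (by norm_num), fun _ => ⟨rfl, rfl⟩, fun l v t hl hv => ?_⟩
    rw [show (1 / 2 - (-1) / 4 + l : ℝ) = 3 / 4 + l by ring, h.strand₂ a l v t hl hv, Complex.ofReal_neg,
      Complex.ofReal_one]

theorem kap_boxF (h : BunF J κ b c) {i : ι} {a : α} {l : ℝ} {v : ℂ} {t : ℝ} {z : ℂ} {s t' : ℝ} (hv : ‖v‖ < 1)
    (hz : ‖z‖ < 4) (hs : |s| < 1) (he : κ i (l, v, t) = b a (z, s, t')) :
    ∃ d ε : ℝ, (d = 1 ∨ d = -1) ∧ (ε = 1 ∨ ε = -1) ∧ z = d + cj ε v / 2 := by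
  rcases win_val h i l t hv with ⟨a', d, e, y, k, hd, he', hy, -, h1⟩ | h2
  · refine ⟨d, e, hd, he', ?_⟩
    rw [h1] at he
    have hn := RSG.FKn_norm hd he' hv
    have hl := TopF_abs he' hy
    have ha := h.bdisj _ _ _ _ _ _ _ _ (by linarith) hl hz hs he
    subst ha
    exact ((h.box a').inj _ _ _ _ _ _ (by linarith) hl hz hs he).1.symm
  · exact absurd he (h.rest i l v t hv h2 a z s t' hz hs)

theorem kap_box_normF (h : BunF J κ b c) {i : ι} {a : α} {l : ℝ} {v : ℂ} {t : ℝ} {z : ℂ} {s t' : ℝ} (hv : ‖v‖ < 1)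
    (hz : ‖z‖ < 4) (hs : |s| < 1) (he : κ i (l, v, t) = b a (z, s, t')) : ‖z‖ < 3 / 2 := by
  obtain ⟨d, ε, hd, hε, rfl⟩ := kap_boxF h hv hz hs he
  exact RSG.FKn_norm hd hε hv

theorem box_torusF (h : BunF J κ b c) {a : α} {z : ℂ} {s t : ℝ} (hz : ‖z‖ < 4) (hs : |s| < 1) :
    OnF κ (b a (z, s, t)) ↔ z = 1 ∨ z = -1 := by
  constructor
  · rintro ⟨i, l, t', he⟩
    obtain ⟨d, ε, hd, hε, hze⟩ := kap_boxF h (v := 0) (by simp) hz hs he.symm
    rw [hze, RSG.cj_zero]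
    rcases hd with rfl | rfl <;> simp
  · have key : ∀ ε : ℝ, (ε = 1 ∨ ε = -1) → |ε * s / 16| < 1 / 16 ∧ 16 * ε * (ε * s / 16) = s := by
      intro ε hε
      have hε' : |ε| = 1 := by rcases hε with rfl | rfl <;> simp
      have hε2 : ε * ε = 1 := by rcases hε with rfl | rfl <;> norm_num
      constructor
      · rw [abs_div, abs_mul, hε', abs_of_pos (by norm_num : (0 : ℝ) < 16)]
        linarith
      · linear_combination s * hε2
    rintro (rfl | rfl)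
    · obtain ⟨k1, k2⟩ := key (c.e₁ a) (h.sign₁ a)
      refine ⟨c.i a, 1 / 4 + c.e₁ a * s / 16, t, ?_⟩
      rw [h.strand₁ a _ 0 t k1 (by simp), k2, RSG.cj_zero]
      simp
    · obtain ⟨k1, k2⟩ := key (c.e₂ a) (h.sign₂ a)
      refine ⟨c.k a, 3 / 4 + c.e₂ a * s / 16, t, ?_⟩
      rw [h.strand₂ a _ 0 t k1 (by simp), k2, RSG.cj_zero]
      simp

theorem kap_notF (h : LinkT J κ) {i : ι} {l : ℝ} {v : ℂ} (t : ℝ) (h0 : v ≠ 0) (h1 : ‖v‖ < 1) :
    ¬ OnF κ (κ i (l, v, t)) := by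
  rintro ⟨i', l', t', he⟩
  have hi := h.disj _ _ _ _ _ _ _ _ h1 (by simp) he
  subst hi
  exact RBM.kap_not (h.thick i) t h0 h1 ⟨l', t', he⟩

theorem boxF_closed [T2Space P] [Finite α] (h : ∀ a, Box J (b a) 4) {r₀ s₀ : ℝ} (hr : r₀ < 4) (hs : s₀ < 1) :
    IsClosed {p : P | ∃ (a : α) (z : ℂ) (s t : ℝ), ‖z‖ ≤ r₀ ∧ |s| ≤ s₀ ∧ p = b a (z, s, t)} := by
  have e : {p : P | ∃ (a : α) (z : ℂ) (s t : ℝ), ‖z‖ ≤ r₀ ∧ |s| ≤ s₀ ∧ p = b a (z, s, t)} =
      ⋃ a, {p : P | ∃ (z : ℂ) (s t : ℝ), ‖z‖ ≤ r₀ ∧ |s| ≤ s₀ ∧ p = b a (z, s, t)} := by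
    ext p
    simp only [mem_setOf_eq, mem_iUnion]
  rw [e]
  exact isClosed_iUnion_of_finite fun a => RBH.box_closed (h a) hr hs

theorem tubF_closed [T2Space P] [Finite ι] (h : ∀ i, ThickT J (κ i)) {r₀ : ℝ} (hr : r₀ < 1) :
    IsClosed {p : P | ∃ (i : ι) (l : ℝ) (v : ℂ) (t : ℝ), ‖v‖ ≤ r₀ ∧ p = κ i (l, v, t)} := by
  have e : {p : P | ∃ (i : ι) (l : ℝ) (v : ℂ) (t : ℝ), ‖v‖ ≤ r₀ ∧ p = κ i (l, v, t)} =
      ⋃ i, {p : P | ∃ (l : ℝ) (v : ℂ) (t : ℝ), ‖v‖ ≤ r₀ ∧ p = κ i (l, v, t)} := by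
    ext p
    simp only [mem_setOf_eq, mem_iUnion]
  rw [e]
  exact isClosed_iUnion_of_finite fun i => RBH.tube_closed (h i) hr

theorem torF_closed [T2Space P] [Finite ι] (h : ∀ i, ThickT J (κ i)) : IsClosed {p : P | OnF κ p} := by
  have e : {p : P | OnF κ p} = ⋃ i, {p : P | OnT (κ i) p} := by
    ext p
    simp only [mem_setOf_eq, mem_iUnion]
    rfl
  rw [e]
  exact isClosed_iUnion_of_finite fun i => RBH.torus_closed (h i)

theorem tubF_open (h : ∀ i, ThickT J (κ i)) : IsOpen (TubF κ) := by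
  have e : TubF κ = ⋃ i, Tube (κ i) := by
    ext p
    simp only [TubF, mem_setOf_eq, mem_iUnion]
  rw [e]
  exact isOpen_iUnion fun i => RBH.tube_open (h i)

theorem boxF_open (h : ∀ a, Box J (b a) 4) : IsOpen (BoxF b) := by
  have e : BoxF b = ⋃ a, BoxS (b a) := by
    ext p
    simp only [BoxF, mem_setOf_eq, mem_iUnion]
  rw [e]
  exact isOpen_iUnion fun a => RBH.box_open (h a)

theorem tubF_cases (h : BunF J κ b c) {p : P} (hp : p ∈ TubF κ) :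
    (∃ (a : α) (z : ℂ) (s t : ℝ), ‖z‖ < 3 / 2 ∧ |s| < 1 ∧ p = b a (z, s, t)) ∨
      ∃ (i : ι) (l : ℝ) (v : ℂ) (t : ℝ), ‖v‖ < 1 ∧ RestF c i l ∧ p = κ i (l, v, t) := by
  obtain ⟨i, l, v, t, hv, rfl⟩ := hp
  rcases winF h h i l t hv with ⟨a, z, s, hz, hs, h1, -⟩ | h2
  · exact Or.inl ⟨a, z, s, t, hz, hs, h1⟩
  · exact Or.inr ⟨i, l, v, t, hv, h2, rfl⟩

theorem rest_boxF (h : BunF J κ b c) {i : ι} {l : ℝ} {v : ℂ} {t : ℝ} (hv : ‖v‖ < 1) (hl : RestF c i l) :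
    κ i (l, v, t) ∉ BoxF b := by
  rintro ⟨a, z, s, t', hz, hs, he⟩
  exact h.rest i l v t hv hl a z s t' hz hs he

theorem torus_tubF {p : P} (h : OnF κ p) : p ∈ TubF κ := by
  obtain ⟨i, l, t, rfl⟩ := h
  exact ⟨i, l, 0, t, by simp, rfl⟩

/-- a point of the box is on the new tori iff the old point is on the old tori -/
theorem box_newF (h : BunF J κ b c) (h' : BunF J κ' b' c) {a : α} {z : ℂ} {s t : ℝ} (hz : ‖z‖ < 4)
    (hs : |s| < 1) : OnF κ' (b' a (z, s, t)) ↔ OnF κ (b a (z, s, t)) := by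
  rw [box_torusF h hz hs, box_torusF h' hz hs]

theorem TopF_one (h : BunF J κ b c) (h' : BunF J κ' b' c) {i : ι} {a : α} {l : ℝ} {v : ℂ} {t : ℝ} (hv : ‖v‖ < 1)
    {z : ℂ} {s t' : ℝ} (hz : ‖z‖ < 4) (hs : |s| < 1) (he : κ i (l, v, t) = b a (z, s, t')) :
    κ' i (l, v, t) = b' a (z, s, t') := by
  rcases winF h h' i l t hv with ⟨a0, z0, s0, hz0, hs0, h1, h2⟩ | h2
  · rw [h1] at he
    have ha := h.bdisj _ _ _ _ _ _ _ _ (by linarith) hs0 hz hs he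
    subst ha
    obtain ⟨e1, e2, m, e3⟩ := (h.box a0).inj _ _ _ _ _ _ (by linarith) hs0 hz hs he
    rw [h2, e3, RBM.box_int (h'.box a0), e1, e2]
  · exact absurd he (h.rest i l v t hv h2 a z s t' hz hs)

theorem win_eqF (h : BunF J κ b c) (h' : BunF J κ' b' c) {i : ι} {a : α} {l : ℝ} {v : ℂ} {t : ℝ} (hv : ‖v‖ < 1)
    {z : ℂ} {s t' : ℝ} (hz : ‖z‖ < 4) (hs : |s| < 1) :
    κ i (l, v, t) = b a (z, s, t') ↔ κ' i (l, v, t) = b' a (z, s, t') :=
  ⟨fun he => TopF_one h h' hv hz hs he, fun he => TopF_one h' h hv hz hs he⟩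

theorem bk_tubeF (h' : BunF J κ' b' c) {i : ι} {l : ℝ} {v : ℂ} {t : ℝ} (hv : ‖v‖ < 1)
    (hp : κ' i (l, v, t) ∉ BoxF b') : RestF c i l := by
  rcases winF h' h' i l t hv with ⟨a, z, s, hz, hs, h1, -⟩ | h2
  · exact absurd ⟨a, z, s, t, by linarith, hs, h1⟩ hp
  · exact h2

end Pool.Agent.LKF
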