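import Pool.Agent.LKF.Def2
import Pool.Agent.LKF.TopF
import Pool.Agent.KNH.SwM

/-!
# LKF/SwF: replacing the boxes   (difficulty 3)

Family version of KNH/SwM.lean (copy).  `swpF b b' κ i q = b' a x` if `κ i q = b a x`, `x` in the box (`a` is unique by `bdisj`, `x` modulo an integer in the last coordinate), and `κ i q` otherwise.
`loc`: `win_val` (LKF/TopF) or directly: if `κ i (l, v, t)` is in a box, `l` is in an open window (`rest`) and near the point `swpF .. = b' a (affine)`; otherwise `RestF c i l` and near the point `swpF = κ i` (windows near their ends: `hends`).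
`disj` of `LinkT`: both in boxes: `b' a x = b' a' x'` gives `a = a'` (`hd'`), `x = x'` modulo integers, so `κ i q = κ i' q'`; one in a box, the other not: `hrest`.
`ribF_symm`: clear (`G.symm`; local diffeomorphism: `KNH.ExtM_symm`).
-/

open scoped Manifold ContDiff Topology
open Set Filter
open Complex (I)
open Pool.Agent.CSG (stp)
open Pool.Agent.RSG (E4 S3 S4 ex cj c1 c2 ht fh pS3)
open Pool.Agent.RBM (ThickT OnT Box frc)
open Pool.Agent.RBH (Tube BoxS)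
open Pool.Agent.PTH (SP ISP Act)
open Pool.Agent.COR (Equi EquiB BBox OutW PosAt half dv dt PerS)
open Pool.Agent.KNT (Dom BalC Tubes Str Str2 CD)
open Pool.Agent.KNH (rot Hat circ pb Emb Fam ThinOK thn bx)
open Pool.Agent.CLG (io pol)

namespace Pool.Agent.LKF

universe u

variable {E : Type*} [NormedAddCommGroup E] [NormedSpace ℝ E] {H : Type*} [TopologicalSpace H]
  {J : ModelWithCorners ℝ E H} {P : Type*} [TopologicalSpace P] [ChartedSpace H P]

variable {ι α : Type*} {κ κ' : ι → ℝ × ℂ × ℝ → P} {b b' : α → ℂ × ℝ × ℝ → P} {c : Cmb ι α}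

theorem SwF_per {b : ℂ × ℝ × ℝ → P} (hb : Box J b 4) (z : ℂ) (s t : ℝ) (m : ℤ) : b (z, s, t + m) = b (z, s, t) := by
  have h : ∀ (n : ℕ) (t : ℝ), b (z, s, t + n) = b (z, s, t) := by
    intro n
    induction n with
    | zero => intro t; simp
    | succ n ih =>
      intro t
      have e : t + ((n + 1 : ℕ) : ℝ) = (t + n) + 1 := by push_cast; ring
      rw [e, hb.per, ih]
  obtain ⟨n, rfl | rfl⟩ := m.eq_nat_or_neg
  · simpa using h n t
  · have h1 := h n (t + ((-(n : ℤ) : ℤ) : ℝ))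
    have e : t + ((-(n : ℤ) : ℤ) : ℝ) + n = t := by push_cast; ring
    rw [e] at h1
    exact h1.symm

theorem swpF_box (hb : ∀ a, Box J (b a) 4) (hd : ∀ (a a' : α) (z : ℂ) (s t : ℝ) (z' : ℂ) (s' t' : ℝ), ‖z‖ < 4 → |s| < 1 →
      ‖z'‖ < 4 → |s'| < 1 → b a (z, s, t) = b a' (z', s', t') → a = a') (hb' : ∀ a, Box J (b' a) 4)
    {i : ι} {q : ℝ × ℂ × ℝ} {a : α} {z : ℂ} {s t : ℝ} (hz : ‖z‖ < 4) (hs : |s| < 1) (h : κ i q = b a (z, s, t)) :
    swpF b b' κ i q = b' a (z, s, t) := by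
  have hex : ∃ w : α × (ℂ × ℝ × ℝ), ‖w.2.1‖ < 4 ∧ |w.2.2.1| < 1 ∧ κ i q = b w.1 w.2 := ⟨(a, (z, s, t)), hz, hs, h⟩
  unfold swpF
  rw [dif_pos hex]
  obtain ⟨a1, a2, a3⟩ := hex.choose_spec
  set w := hex.choose
  have e : b w.1 (w.2.1, w.2.2.1, w.2.2.2) = b a (z, s, t) := by rw [← h, a3]
  have ea : w.1 = a := hd _ _ _ _ _ _ _ _ a1 a2 hz hs e
  rw [ea] at e
  obtain ⟨e1, e2, m, e3⟩ := (hb a).inj _ _ _ _ _ _ a1 a2 hz hs e
  have e4 : w.2 = (z, s, w.2.2.2) := Prod.ext e1 (Prod.ext e2 rfl)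
  rw [ea, e4, e3]
  exact (SwF_per (hb' a) z s w.2.2.2 m).symm

theorem swpF_out {i : ι} {q : ℝ × ℂ × ℝ}
    (h : ∀ (a : α) (z : ℂ) (s t : ℝ), ‖z‖ < 4 → |s| < 1 → κ i q ≠ b a (z, s, t)) : swpF b b' κ i q = κ i q := by
  unfold swpF
  rw [dif_neg]
  rintro ⟨w, a1, a2, a3⟩
  exact h w.1 w.2.1 w.2.2.1 w.2.2.2 a1 a2 a3

theorem SwF_congr {i : ι} {q q' : ℝ × ℂ × ℝ} (h : κ i q = κ i q') : swpF b b' κ i q = swpF b b' κ i q' := by
  unfold swpF
  rw [h]

/-- the parameters in the window with centre `x` -/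
structure SwF_Win (κ : ι → ℝ × ℂ × ℝ → P) (b : α → ℂ × ℝ × ℝ → P) (c : Cmb ι α) (i : ι) (a : α) (x : ℝ) (d : ℂ)
    (ε : ℝ) : Prop where
  sign : ε = 1 ∨ ε = -1
  nd : ‖d‖ = 1
  val : ∀ (l : ℝ) (v : ℂ) (t : ℝ), |l - x| < 1 / 16 → ‖v‖ < 1 →
    κ i (l, v, t) = b a (d + cj ε v / 2, 16 * ε * (l - x), t)
  far : ∀ l, RestF c i l → 1 / 16 ≤ |l - x|

theorem SwF_perl {κ : ℝ × ℂ × ℝ → P} (h : ThickT J κ) (l : ℝ) (v : ℂ) (t : ℝ) (m : ℤ) :
    κ (l + m, v, t) = κ (l, v, t) := by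
  have h0 : ∀ (n : ℕ) (l : ℝ), κ (l + n, v, t) = κ (l, v, t) := by
    intro n
    induction n with
    | zero => intro l; simp
    | succ n ih =>
      intro l
      have e : l + ((n + 1 : ℕ) : ℝ) = (l + n) + 1 := by push_cast; ring
      rw [e, h.perl, ih]
  obtain ⟨n, rfl | rfl⟩ := m.eq_nat_or_neg
  · simpa using h0 n l
  · have h1 := h0 n (l + ((-(n : ℤ) : ℤ) : ℝ))
    have e : l + ((-(n : ℤ) : ℤ) : ℝ) + n = l := by push_cast; ring
    rw [e] at h1
    exact h1.symm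

theorem SwF_win (h : BunF J κ b c) {i : ι} {l : ℝ} (hl : ¬ RestF c i l) :
    ∃ (a : α) (x : ℝ) (d : ℂ) (ε : ℝ), SwF_Win κ b c i a x d ε ∧ |l - x| < 1 / 16 := by
  unfold RestF at hl
  by_cases h1 : ∀ a, c.i a = i → ∀ k : ℤ, 1 / 16 ≤ |l - 1 / 4 - k|
  · have h2 : ¬ ∀ a, c.k a = i → ∀ k : ℤ, 1 / 16 ≤ |l - 3 / 4 - k| := fun h2 => hl ⟨h1, h2⟩
    push Not at h2
    obtain ⟨a, ha, k, hk⟩ := h2
    refine ⟨a, 3 / 4 + k, -1, c.e₂ a, ⟨h.sign₂ a, by simp, ?_, ?_⟩, by rwa [sub_add_eq_sub_sub]⟩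
    · intro l v t hl hv
      have e1 : κ i (l, v, t) = κ i (3 / 4 + (l - (3 / 4 + k)), v, t) := by
        rw [← SwF_perl (h.link.thick i) (3 / 4 + (l - (3 / 4 + k))) v t k]
        congr 2
        ring
      rw [e1, ← ha, h.strand₂ a _ v t hl hv]
    · intro l hl
      rw [sub_add_eq_sub_sub]
      exact hl.2 a ha k
  · push Not at h1
    obtain ⟨a, ha, k, hk⟩ := h1
    refine ⟨a, 1 / 4 + k, 1, c.e₁ a, ⟨h.sign₁ a, by simp, ?_, ?_⟩, by rwa [sub_add_eq_sub_sub]⟩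
    · intro l v t hl hv
      have e1 : κ i (l, v, t) = κ i (1 / 4 + (l - (1 / 4 + k)), v, t) := by
        rw [← SwF_perl (h.link.thick i) (1 / 4 + (l - (1 / 4 + k))) v t k]
        congr 2
        ring
      rw [e1, ← ha, h.strand₁ a _ v t hl hv]
    · intro l hl
      rw [sub_add_eq_sub_sub]
      exact hl.1 a ha k

theorem SwF_bd {d v : ℂ} {ε : ℝ} (hε : ε = 1 ∨ ε = -1) (hd : ‖d‖ = 1) (hv : ‖v‖ < 1) :
    ‖d + cj ε v / 2‖ < 4 := by
  have h1 : ‖cj ε v / 2‖ < 1 / 2 := by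
    rw [norm_div, RSG.cj_norm hε]
    norm_num
    linarith
  have := norm_add_le d (cj ε v / 2)
  linarith

theorem SwF_bd2 {x ε : ℝ} (hε : ε = 1 ∨ ε = -1) : |16 * ε * x| = 16 * |x| := by
  rcases hε with rfl | rfl
  · rw [mul_one, abs_mul]
    norm_num
  · rw [abs_mul]
    norm_num

/-- the affine isomorphism -/
noncomputable def SwF_A (d : ℂ) (ε x : ℝ) (hε : ε = 1 ∨ ε = -1) : (ℝ × ℂ × ℝ) ≃ (ℂ × ℝ × ℝ) where
  toFun q := (d + cj ε q.2.1 / 2, 16 * ε * (q.1 - x), q.2.2)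
  invFun q := (x + ε * q.2.1 / 16, cj ε (2 * (q.1 - d)), q.2.2)
  left_inv q := by
    have hε2 : ε * ε = 1 := by rcases hε with rfl | rfl <;> norm_num
    obtain ⟨l, v, t⟩ := q
    refine Prod.ext ?_ (Prod.ext ?_ rfl)
    · show x + ε * (16 * ε * (l - x)) / 16 = l
      have : ε * (16 * ε * (l - x)) = 16 * (ε * ε) * (l - x) := by ring
      rw [this, hε2]
      ring
    · show cj ε (2 * (d + cj ε v / 2 - d)) = v
      have : 2 * (d + cj ε v / 2 - d) = cj ε v := by ring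
      rw [this, RSG.cj_cj hε]
  right_inv q := by
    have hε2 : ε * ε = 1 := by rcases hε with rfl | rfl <;> norm_num
    obtain ⟨z, s, t⟩ := q
    refine Prod.ext ?_ (Prod.ext ?_ rfl)
    · show d + cj ε (cj ε (2 * (z - d))) / 2 = z
      rw [RSG.cj_cj hε]
      ring
    · show 16 * ε * (x + ε * s / 16 - x) = s
      have : 16 * ε * (x + ε * s / 16 - x) = (ε * ε) * s := by ring
      rw [this, hε2, one_mul]

theorem SwF_ld (d : ℂ) (ε x : ℝ) (hε : ε = 1 ∨ ε = -1) (q : ℝ × ℂ × ℝ) :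
    IsLocalDiffeomorphAt 𝓘(ℝ, ℝ × ℂ × ℝ) 𝓘(ℝ, ℂ × ℝ × ℝ) ∞ (SwF_A d ε x hε) q := by
  refine CSG.ld_of_perm ?_ ?_ q
  · show ContDiff ℝ ∞ fun q : ℝ × ℂ × ℝ => (d + cj ε q.2.1 / 2, 16 * ε * (q.1 - x), q.2.2)
    have h1 : ContDiff ℝ ∞ fun q : ℝ × ℂ × ℝ => cj ε q.2.1 := (RSG.cj_smooth ε).comp (by fun_prop)
    exact (contDiff_const.add (h1.div_const 2)).prodMk
      ((contDiff_const.mul (contDiff_fst.sub contDiff_const)).prodMk (by fun_prop))
  · show ContDiff ℝ ∞ fun q : ℂ × ℝ × ℝ => (x + ε * q.2.1 / 16, cj ε (2 * (q.1 - d)), q.2.2)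
    have h1 : ContDiff ℝ ∞ fun q : ℂ × ℝ × ℝ => cj ε (2 * (q.1 - d)) :=
      (RSG.cj_smooth ε).comp (by fun_prop)
    exact ContDiff.prodMk (by fun_prop) (h1.prodMk (by fun_prop))

theorem swap_bunF (h : BunF J κ b c) (hb' : ∀ a, Box J (b' a) 4)
    (hd' : ∀ (a a' : α) (z : ℂ) (s t : ℝ) (z' : ℂ) (s' t' : ℝ), ‖z‖ < 4 → |s| < 1 → ‖z'‖ < 4 → |s'| < 1 →
      b' a (z, s, t) = b' a' (z', s', t') → a = a')
    (hends : ∀ (a : α) (z : ℂ) (s t : ℝ), ‖z‖ < 4 → 1 / 4 ≤ |s| → |s| < 1 → b' a (z, s, t) = b a (z, s, t))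
    (hrest : ∀ (i : ι) (l : ℝ) (v : ℂ) (t : ℝ), ‖v‖ < 1 → RestF c i l → ∀ (a : α) (z : ℂ) (s t' : ℝ), ‖z‖ < 4 → |s| < 1 →
      κ i (l, v, t) ≠ b' a (z, s, t')) :
    BunF J (swpF b b' κ) b' c ∧
      ∀ (i : ι) (l : ℝ) (v : ℂ) (t : ℝ), ‖v‖ < 1 → RestF c i l → swpF b b' κ i (l, v, t) = κ i (l, v, t) := by
  have hR : ∀ (i : ι) (l : ℝ) (v : ℂ) (t : ℝ), ‖v‖ < 1 → RestF c i l → swpF b b' κ i (l, v, t) = κ i (l, v, t) :=
    fun i l v t hv hl => swpF_out fun a z s t' hz hs => h.rest i l v t hv hl a z s t' hz hs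
  -- in a window
  have hW : ∀ {i : ι} {a : α} {x : ℝ} {d : ℂ} {ε : ℝ}, SwF_Win κ b c i a x d ε → ∀ (l : ℝ) (v : ℂ) (t : ℝ),
      |l - x| < 1 / 16 → ‖v‖ < 1 → swpF b b' κ i (l, v, t) = b' a (d + cj ε v / 2, 16 * ε * (l - x), t) := by
    intro i a x d ε w l v t hl hv
    refine swpF_box h.box h.bdisj hb' (SwF_bd w.sign w.nd hv) ?_ (w.val l v t hl hv)
    rw [SwF_bd2 w.sign]
    linarith
  -- equal values
  have hE : ∀ (i i' : ι) (l : ℝ) (v : ℂ) (t l' : ℝ) (v' : ℂ) (t' : ℝ), ‖v‖ < 1 → ‖v'‖ < 1 →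
      swpF b b' κ i (l, v, t) = swpF b b' κ i' (l', v', t') → κ i (l, v, t) = κ i' (l', v', t') := by
    intro i i' l v t l' v' t' hv hv' he
    by_cases hl : RestF c i l
    · rw [hR i l v t hv hl] at he
      by_cases hl' : RestF c i' l'
      · rw [hR i' l' v' t' hv' hl'] at he
        exact he
      · obtain ⟨a, x, d, ε, w, hw⟩ := SwF_win h hl'
        rw [hW w l' v' t' hw hv'] at he
        refine absurd he (hrest i l v t hv hl _ _ _ _ (SwF_bd w.sign w.nd hv') ?_)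
        rw [SwF_bd2 w.sign]
        linarith
    · obtain ⟨a, x, d, ε, w, hw⟩ := SwF_win h hl
      rw [hW w l v t hw hv] at he
      by_cases hl' : RestF c i' l'
      · rw [hR i' l' v' t' hv' hl'] at he
        refine absurd he.symm (hrest i' l' v' t' hv' hl' _ _ _ _ (SwF_bd w.sign w.nd hv) ?_)
        rw [SwF_bd2 w.sign]
        linarith
      · obtain ⟨a', x', d', ε', w', hw'⟩ := SwF_win h hl'
        rw [hW w' l' v' t' hw' hv'] at he
        have ea : a = a' := hd' _ _ _ _ _ _ _ _ (SwF_bd w.sign w.nd hv)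
          (by rw [SwF_bd2 w.sign]; linarith) (SwF_bd w'.sign w'.nd hv')
          (by rw [SwF_bd2 w'.sign]; linarith) he
        subst ea
        obtain ⟨e1, e2, m, e3⟩ := (hb' a).inj _ _ _ _ _ _ (SwF_bd w.sign w.nd hv)
          (by rw [SwF_bd2 w.sign]; linarith) (SwF_bd w'.sign w'.nd hv')
          (by rw [SwF_bd2 w'.sign]; linarith) he
        rw [w.val l v t hw hv, w'.val l' v' t' hw' hv', e1, e2, e3]
        exact (SwF_per (h.box a) _ _ t m).symm
  refine ⟨?_, hR⟩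
  refine
    { link := ?_
      box := hb'
      bdisj := hd'
      sign₁ := h.sign₁
      sign₂ := h.sign₂
      strand₁ := ?_
      strand₂ := ?_
      rest := ?_ }
  · refine
      { thick := fun i =>
          { perl := fun l v t => SwF_congr ((h.link.thick i).perl l v t)
            pert := fun l v t => SwF_congr ((h.link.thick i).pert l v t)
            loc := ?_
            inj := ?_ }
        disj := ?_ }
    · intro l v t hv
      have hv' : ∀ᶠ q : ℝ × ℂ × ℝ in 𝓝 (l, v, t), ‖q.2.1‖ < 1 := by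
        have hc : ContinuousAt (fun q : ℝ × ℂ × ℝ => ‖q.2.1‖) (l, v, t) := by fun_prop
        exact hc.eventually (Iio_mem_nhds hv)
      by_cases hl : RestF c i l
      · refine CSG.ld_congr ((h.link.thick i).loc l v t hv) ?_
        have hl' : ∀ᶠ q : ℝ × ℂ × ℝ in 𝓝 (l, v, t), |q.1 - l| < 1 / 64 := by
          have hc : ContinuousAt (fun q : ℝ × ℂ × ℝ => |q.1 - l|) (l, v, t) := by fun_prop
          refine hc.eventually (Iio_mem_nhds ?_)
          simp
        filter_upwards [hv', hl'] with q hq1 hq2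
        obtain ⟨l', v', t'⟩ := q
        simp only at hq1 hq2
        by_cases hr : RestF c i l'
        · exact hR i l' v' t' hq1 hr
        · obtain ⟨a, x, d, ε, w, hw⟩ := SwF_win h hr
          rw [hW w l' v' t' hw hq1, w.val l' v' t' hw hq1]
          have h1 := w.far l hl
          have h2 : |l - x| ≤ |l' - l| + |l' - x| := by
            have := abs_sub_le l l' x
            rwa [abs_sub_comm l l'] at this
          refine hends _ _ _ _ (SwF_bd w.sign w.nd hq1) ?_ ?_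
          · rw [SwF_bd2 w.sign]
            linarith
          · rw [SwF_bd2 w.sign]
            linarith
      · obtain ⟨a, x, d, ε, w, hw⟩ := SwF_win h hl
        have hev : swpF b b' κ i =ᶠ[𝓝 (l, v, t)] b' a ∘ SwF_A d ε x w.sign := by
          have hl' : ∀ᶠ q : ℝ × ℂ × ℝ in 𝓝 (l, v, t), |q.1 - x| < 1 / 16 := by
            have hc : ContinuousAt (fun q : ℝ × ℂ × ℝ => |q.1 - x|) (l, v, t) := by fun_prop
            exact hc.eventually (Iio_mem_nhds hw)
          filter_upwards [hv', hl'] with q hq1 hq2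
          exact hW w q.1 q.2.1 q.2.2 hq2 hq1
        refine CSG.ld_congr ?_ hev
        refine IsLocalDiffeomorphAt.comp (hf := SwF_ld d ε x w.sign (l, v, t)) (hg := ?_) ..
        refine (hb' a).loc _ _ _ (SwF_bd w.sign w.nd hv) ?_
        rw [SwF_bd2 w.sign]
        linarith
    · intro l v t l' v' t' hv hv' he
      exact (h.link.thick i).inj l v t l' v' t' hv hv' (hE i i l v t l' v' t' hv hv' he)
    · intro i i' l v t l' v' t' hv hv' he
      exact h.link.disj i i' l v t l' v' t' hv hv' (hE i i' l v t l' v' t' hv hv' he)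
  · intro a l v t hl hv
    refine swpF_box h.box h.bdisj hb' (SwF_bd (h.sign₁ a) (by simp) hv) ?_ (h.strand₁ a l v t hl hv)
    rw [SwF_bd2 (h.sign₁ a)]
    linarith
  · intro a l v t hl hv
    refine swpF_box h.box h.bdisj hb' (SwF_bd (h.sign₂ a) (by simp) hv) ?_ (h.strand₂ a l v t hl hv)
    rw [SwF_bd2 (h.sign₂ a)]
    linarith
  · intro i l v t hv hl a z s t' hz hs
    rw [hR i l v t hv hl]
    exact hrest i l v t hv hl a z s t' hz hs

theorem SwF_symm {F : Equiv.Perm P} (hF : ∀ p, IsLocalDiffeomorphAt J J ∞ F p) (p : P) :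
    IsLocalDiffeomorphAt J J ∞ F.symm p := by
  have h1 := CSG.ld_of_comp_left (I := J) (J := J) (K := J) (n := ∞) (f := F) (g := F.symm)
    (x := F.symm p) ?_ (hF (F.symm p))
  · rw [Equiv.apply_symm_apply] at h1
    exact h1
  · have h2 : (F.symm ∘ F : P → P) = id := by
      funext x
      simp
    rw [h2]
    exact CSG.ld_id (F.symm p)

theorem ribF_symm {δ : ℝ} {G : Equiv.Perm P} (h : RibF J κ κ' b b' c δ G) : RibF J κ' κ b' b c δ G.symm where
  bun := h.bun'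
  bun' := h.bun
  tau := h.tau
  pos := h.pos
  G_ld := SwF_symm h.G_ld
  G_rest := fun i l v t hv hl => by
    rw [← h.G_rest i l v t hv hl, Equiv.symm_apply_apply]
  G_ends := fun a z s t hz hs hs' => by
    rw [← h.G_ends a z s t hz hs hs', Equiv.symm_apply_apply]
  G_hole := fun a z s t hz hs ht => by
    rw [← h.G_hole a z s t hz hs ht, Equiv.symm_apply_apply]

end Pool.Agent.LKF
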