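import Pool.Agent.LKF.AdaO
import Pool.Agent.LKF.GluO
import Pool.Agent.LKF.RepO
import Pool.Agent.LKF.OriF

/-!
# LKF/WinO: from the core to two standard arcs, in `O`   (difficulty 4)

Adaptation of `COR.exists_bundle` (file COR/Bnd.lean; all lemmas about `Bnd_U`, `Bnd_s`, `Bnd_out` (with `11/16` instead of `1/2`: see its proof; here `5/8 < 11/16` is needed), .. can be used): the two strands `z = ±1` of one box are replaced by the cores of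
the two charts `A₁`, `A₂` (radius `3/4`, `|s| < 3/4`), there is no sign `σ` (all orientations are positive).
`COR.exists_phi` gives `φ`; `κ₁ = κ₀ (φ l, v, t)` (`repO`, `posT_rep`, `COR.thick_rep`).  `B₁ (l, v, t) = A₁ (cj ε₁ v / 2, 8 ε₁ (l - 1/4), t)`, `B₂` the same at `3/4`; `|8 (l - c)| < 3/4` for `|l - c| < 3/32`, `‖cj ε v / 2‖ < 3/4` for `‖v‖ < 3/2`.
`posAt_arc` instead of `coherent`.  Two times `adapt_arcO` (`c = 1/4`, `c = 3/4`, `h = 11/128`, `h' = 3/32`; positivity is preserved: second application: `posAt_arc` for the new torus, which is positive by `posT_core`-like arguments: it is simpler to use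
`COR.Bnd_far` as in `Bnd_two`, or `posT_germ` applied at the shifted point; e.g. the new torus is equal to the old one near `l = 3/4`, and `posT_all`), then `adapt_glueO` (`U = Bnd_U`, `ς = Bnd_s`, `r = 3/2`): `hinj` from the injectivity of `A₁`, `A₂` and `hd`;
`hoff`: if `B (l, v, t) = κ (l', 0, t')`, then by `Win1.off`, `Win1.strand` (moving by the action) `v = 0`.
`PosT κ`: `posT_of_arc` at `c = 1/4`.
`OutW l`, `l ∈ U`: `κ (l, v, t) = B (l, v', t)`, `1/2 ≤ |8 (l - c - k)| < 11/16`.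
-/

open scoped Manifold ContDiff Topology
open Set Filter
open Complex (I)
open Pool.Agent.CSG (stp)
open Pool.Agent.RSG (E4 S3 S4 ex cj c1 c2 ht fh pS3)
open Pool.Agent.RBM (ThickT OnT Box frc)
open Pool.Agent.RBH (Tube BoxS)
open Pool.Agent.PTH (SP ISP Act)
open Pool.Agent.COR (Equi EquiB BBox OutW PosAt half dv dt PerS)
open Pool.Agent.KNT (Dom BalC Tubes Str Str2 CD)
open Pool.Agent.KNH (rot Hat circ pb Emb Fam ThinOK thn bx)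
open Pool.Agent.CLG (io pol)

namespace Pool.Agent.LKF

universe u

/-! ### the arcs -/

theorem WinO_cj1 (z : ℂ) : cj 1 z = z := by simp [cj, Complex.ext_iff]

/-- the thickening of an arc -/
noncomputable def WinO_st {P : Type*} (A : ℂ × ℝ × ℝ → P) (ε c : ℝ) (q : ℝ × ℂ × ℝ) : P :=
  A (cj ε q.2.1 / 2, 8 * ε * (q.1 - c), q.2.2)

theorem WinO_st_g {P : Type*} (A : ℂ × ℝ × ℝ → P) (ε c : ℝ) :
    WinO_st A ε c = fun q => A (COR.Bnd_g 1 ε 0 8 c q) := by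
  funext q
  unfold WinO_st COR.Bnd_g
  rw [WinO_cj1]
  push_cast
  rw [zero_add, show ε * (8 * (q.1 - c)) = 8 * ε * (q.1 - c) by ring]

theorem WinO_norm {ε : ℝ} (hε : ε = 1 ∨ ε = -1) (v : ℂ) : ‖cj ε v / 2‖ = ‖v‖ / 2 := by
  rw [norm_div, RSG.cj_norm hε]
  simp

theorem WinO_abs {ε : ℝ} (hε : ε = 1 ∨ ε = -1) (x : ℝ) : |8 * ε * x| = 8 * |x| := by
  rw [abs_mul, abs_mul, COR.Bnd_abs hε, abs_of_pos (by norm_num : (0 : ℝ) < 8), mul_one]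

theorem WinO_loc {A : ℂ × ℝ × ℝ → SP} (hA : BBox ISP A (3 / 4) (3 / 4)) {ε : ℝ} (hε : ε = 1 ∨ ε = -1)
    (c l : ℝ) (v : ℂ) (t : ℝ) (hl : |l - c| < 3 / 32) (hv : ‖v‖ < 3 / 2) :
    IsLocalDiffeomorphAt 𝓘(ℝ, ℝ × ℂ × ℝ) ISP ∞ (WinO_st A ε c) (l, v, t) := by
  have hg := COR.Bnd_g_ld (Or.inl rfl) hε (by norm_num : (0 : ℝ) < 8) 0 c (l, v, t)
  have e1 : COR.Bnd_g 1 ε 0 8 c (l, v, t) = (cj ε v / 2, 8 * ε * (l - c), t) := by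
    unfold COR.Bnd_g
    simp only
    rw [WinO_cj1]
    push_cast
    rw [zero_add, show ε * (8 * (l - c)) = 8 * ε * (l - c) by ring]
  have hloc : IsLocalDiffeomorphAt 𝓘(ℝ, ℂ × ℝ × ℝ) ISP ∞ A (COR.Bnd_g 1 ε 0 8 c (l, v, t)) := by
    rw [e1]
    apply hA.loc
    · rw [WinO_norm hε]; linarith
    · rw [WinO_abs hε]; linarith
  rw [WinO_st_g]
  exact IsLocalDiffeomorphAt.comp (hf := hg) (hg := hloc) ..

/-- the thickening over the two arcs -/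
noncomputable def WinO_B {P : Type*} (A₁ A₂ : ℂ × ℝ × ℝ → P) (ε₁ ε₂ : ℝ) (q : ℝ × ℂ × ℝ) : P :=
  if |q.1 - 1 / 4 - round (q.1 - 1 / 4)| ≤ 1 / 4 then
    WinO_st A₁ ε₁ (1 / 4) (q.1 - round (q.1 - 1 / 4), q.2)
  else WinO_st A₂ ε₂ (3 / 4) (q.1 - round (q.1 - 3 / 4), q.2)

theorem WinO_B1 {P : Type*} (A₁ A₂ : ℂ × ℝ × ℝ → P) (ε₁ ε₂ : ℝ) {l : ℝ} {k : ℤ}
    (h : |l - 1 / 4 - k| < 11 / 128) (v : ℂ) (t : ℝ) :
    WinO_B A₁ A₂ ε₁ ε₂ (l, v, t) = WinO_st A₁ ε₁ (1 / 4) (l - k, v, t) := by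
  have hr : round (l - 1 / 4) = k := COR.Bnd_round (lt_trans h (by norm_num))
  unfold WinO_B
  simp only
  rw [hr, if_pos (h.le.trans (by norm_num))]

theorem WinO_B2 {P : Type*} (A₁ A₂ : ℂ × ℝ × ℝ → P) (ε₁ ε₂ : ℝ) {l : ℝ} {k : ℤ}
    (h : |l - 3 / 4 - k| < 11 / 128) (v : ℂ) (t : ℝ) :
    WinO_B A₁ A₂ ε₁ ε₂ (l, v, t) = WinO_st A₂ ε₂ (3 / 4) (l - k, v, t) := by
  have hr : round (l - 3 / 4) = k := COR.Bnd_round (lt_trans h (by norm_num))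
  have hn : ¬ |l - 1 / 4 - round (l - 1 / 4)| ≤ 1 / 4 := by
    intro h2
    set m := round (l - 1 / 4)
    rw [abs_lt] at h
    rw [abs_le] at h2
    rcases le_or_gt m k with hm | hm
    · have : (m : ℝ) ≤ k := by exact_mod_cast hm
      linarith [h.1, h.2, h2.1, h2.2]
    · have : (k : ℝ) + 1 ≤ m := by exact_mod_cast hm
      linarith [h.1, h.2, h2.1, h2.2]
  unfold WinO_B
  simp only
  rw [hr, if_neg hn]

/-- the type of a point over the arcs -/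
def WinO_ty {P : Type*} (A₁ A₂ : ℂ × ℝ × ℝ → P) (ε₁ ε₂ l : ℝ) (A : ℂ × ℝ × ℝ → P) (ε c : ℝ)
    (k : ℤ) : Prop :=
  ((A = A₁ ∧ ε = ε₁ ∧ c = 1 / 4) ∨ (A = A₂ ∧ ε = ε₂ ∧ c = 3 / 4)) ∧ |l - c - k| < 11 / 128

theorem WinO_ty_ex {P : Type*} (A₁ A₂ : ℂ × ℝ × ℝ → P) (ε₁ ε₂ : ℝ) {l : ℝ} (hl : l ∈ COR.Bnd_U) :
    ∃ A ε c k, WinO_ty A₁ A₂ ε₁ ε₂ l A ε c k := by
  obtain ⟨k, hk | hk⟩ := hl
  · exact ⟨A₁, ε₁, 1 / 4, k, Or.inl ⟨rfl, rfl, rfl⟩, hk⟩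
  · exact ⟨A₂, ε₂, 3 / 4, k, Or.inr ⟨rfl, rfl, rfl⟩, hk⟩

theorem WinO_ty_eq {P : Type*} {A₁ A₂ : ℂ × ℝ × ℝ → P} {ε₁ ε₂ l : ℝ} {A : ℂ × ℝ × ℝ → P} {ε c : ℝ}
    {k : ℤ} (h : WinO_ty A₁ A₂ ε₁ ε₂ l A ε c k) (v : ℂ) (t : ℝ) :
    WinO_B A₁ A₂ ε₁ ε₂ (l, v, t) = WinO_st A ε c (l - k, v, t) := by
  rcases h with ⟨⟨rfl, rfl, rfl⟩ | ⟨rfl, rfl, rfl⟩, hk⟩
  · exact WinO_B1 _ _ _ _ hk v t
  · exact WinO_B2 _ _ _ _ hk v t

theorem WinO_ty_sgn {P : Type*} {A₁ A₂ : ℂ × ℝ × ℝ → P} {ε₁ ε₂ l : ℝ} {A : ℂ × ℝ × ℝ → P}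
    {ε c : ℝ} {k : ℤ} (h1 : ε₁ = 1 ∨ ε₁ = -1) (h2 : ε₂ = 1 ∨ ε₂ = -1)
    (h : WinO_ty A₁ A₂ ε₁ ε₂ l A ε c k) : ε = 1 ∨ ε = -1 := by
  rcases h with ⟨⟨rfl, rfl, rfl⟩ | ⟨rfl, rfl, rfl⟩, hk⟩
  · exact h1
  · exact h2

theorem WinO_ty_mem {P : Type*} {A₁ A₂ : ℂ × ℝ × ℝ → P} {ε₁ ε₂ l : ℝ} {A : ℂ × ℝ × ℝ → P}
    {ε c : ℝ} {k : ℤ} (h : WinO_ty A₁ A₂ ε₁ ε₂ l A ε c k) (S : (ℂ × ℝ × ℝ → P) → Prop)
    (h1 : S A₁) (h2 : S A₂) : S A := by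
  rcases h with ⟨⟨rfl, rfl, rfl⟩ | ⟨rfl, rfl, rfl⟩, hk⟩
  · exact h1
  · exact h2

/-! ### adaptation on both arcs, in `O` -/

section
variable {EP : Type*} [NormedAddCommGroup EP] [NormedSpace ℝ EP] {HP : Type*} [TopologicalSpace HP]
  {IP : ModelWithCorners ℝ EP HP} {P : Type*} [TopologicalSpace P] [ChartedSpace HP P]

theorem WinO_two [T2Space P] {a : ℝ → P → P} (ha : Act IP a) {κ B₁ B₂ : ℝ × ℂ × ℝ → P} {O : Set P}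
    (hκ : ThickT IP κ) (hO : Tube κ ⊆ O) (heq : Equi a κ) (heq₁ : Equi a B₁) (heq₂ : Equi a B₂)
    (hloc₁ : ∀ l, |l - 1 / 4| < 3 / 32 → IsLocalDiffeomorphAt 𝓘(ℝ, ℝ × ℂ × ℝ) IP ∞ B₁ (l, 0, 0))
    (hloc₂ : ∀ l, |l - 3 / 4| < 3 / 32 → IsLocalDiffeomorphAt 𝓘(ℝ, ℝ × ℂ × ℝ) IP ∞ B₂ (l, 0, 0))
    (hcore₁ : ∀ l, |l - 1 / 4| < 3 / 32 → B₁ (l, 0, 0) = κ (l, 0, 0))
    (hcore₂ : ∀ l, |l - 3 / 4| < 3 / 32 → B₂ (l, 0, 0) = κ (l, 0, 0))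
    (hpos₁ : PosAt κ B₁ (1 / 4)) (hpos₂ : PosAt κ B₂ (3 / 4)) :
    ∃ κ' : ℝ × ℂ × ℝ → P, ThickT IP κ' ∧ Equi a κ' ∧ Tube κ' ⊆ O ∧
      (∀ l t, κ' (l, 0, t) = κ (l, 0, t)) ∧
      (∃ ε : ℝ, 0 < ε ∧ ∀ l v t, ‖v‖ ≤ ε → (|l - 1 / 4| ≤ 11 / 128 → κ' (l, v, t) = B₁ (l, v, t)) ∧
        (|l - 3 / 4| ≤ 11 / 128 → κ' (l, v, t) = B₂ (l, v, t))) ∧
      ∀ Q : (ℝ × ℂ × ℝ → P) → Prop, Inv0 IP O Q → Q κ → Q κ' := by
  obtain ⟨κ₂, k1, k2, kO, k3, ⟨e₁, he₁, k4⟩, k5, k6⟩ := adapt_arcO ha hκ hO heq heq₁ (c := 1 / 4)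
    (h := 11 / 128) (h' := 3 / 32) (by norm_num) (by norm_num) (by norm_num) hloc₁ hcore₁
    (l₀ := 1 / 4) (by norm_num) hpos₁
  have far₂ : ∀ l : ℝ, (∀ k : ℤ, 3 / 32 ≤ |l - 1 / 4 - k|) → ∀ v t, ‖v‖ < 1 →
      κ₂ (l, v, t) = κ (l, v, t) := fun l hl v t hv => COR.Bnd_far hκ k1 k5 l hl v t hv
  -- separation of the arcs
  have sep : ∀ l : ℝ, |l - 3 / 4| < 1 / 8 → ∀ k : ℤ, 3 / 32 ≤ |l - 1 / 4 - k| := by
    intro l hl k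
    rw [abs_lt] at hl
    rcases le_or_gt k 0 with hk | hk
    · have : (k : ℝ) ≤ 0 := by exact_mod_cast hk
      rw [abs_of_pos] <;> linarith [hl.1, hl.2]
    · have : (1 : ℝ) ≤ k := by exact_mod_cast hk
      rw [abs_of_neg] <;> linarith [hl.1, hl.2]
  have sep' : ∀ l : ℝ, |l - 1 / 4| < 1 / 8 → ∀ k : ℤ, 3 / 32 ≤ |l - 3 / 4 - k| := by
    intro l hl k
    rw [abs_lt] at hl
    rcases le_or_gt 0 k with hk | hk
    · have : (0 : ℝ) ≤ k := by exact_mod_cast hk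
      rw [abs_of_neg] <;> linarith [hl.1, hl.2]
    · have : (k : ℝ) ≤ -1 := by
        have : k ≤ -1 := by omega
        exact_mod_cast this
      rw [abs_of_pos] <;> linarith [hl.1, hl.2]
  have hpos₂' : PosAt κ₂ B₂ (3 / 4) := by
    obtain ⟨lam, om, tau, p1, p2, p3, p4, p5, p6, p7, p8⟩ := hpos₂
    refine ⟨lam, om, tau, p1, p2, p3, p4, p5, p6, ?_, p8⟩
    have q1 : ∀ᶠ q in 𝓝 ((3 / 4 : ℝ), (0 : ℂ)), |lam q - 3 / 4| < 1 / 8 := by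
      have : ContinuousAt (fun q => |lam q - 3 / 4|) ((3 / 4 : ℝ), (0 : ℂ)) :=
        (p1.continuousAt.sub continuousAt_const).abs
      apply this.eventually_lt continuousAt_const
      rw [p4]
      norm_num
    have q2 : ∀ᶠ q in 𝓝 ((3 / 4 : ℝ), (0 : ℂ)), ‖om q‖ < 1 := by
      have : ContinuousAt (fun q => ‖om q‖) ((3 / 4 : ℝ), (0 : ℂ)) := p2.continuousAt.norm
      apply this.eventually_lt continuousAt_const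
      rw [p5]
      norm_num
    filter_upwards [p7, q1, q2] with q h1 h2 h3 t
    rw [h1 t, far₂ _ (sep _ h2) _ _ h3]
  obtain ⟨κ₃, m1, m2, mO, m3, ⟨e₂, he₂, m4⟩, m5, m6⟩ := adapt_arcO ha k1 kO k2 heq₂ (c := 3 / 4)
    (h := 11 / 128) (h' := 3 / 32) (by norm_num) (by norm_num) (by norm_num) hloc₂
    (fun l hl => by rw [hcore₂ l hl, k3]) (l₀ := 3 / 4) (by norm_num) hpos₂'
  refine ⟨κ₃, m1, m2, mO, fun l t => by rw [m3, k3], ⟨min (min e₁ e₂) (1 / 2), ?_, ?_⟩, ?_⟩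
  · exact lt_min (lt_min he₁ he₂) (by norm_num)
  · intro l v t hv
    have v1 : ‖v‖ ≤ e₁ := hv.trans ((min_le_left _ _).trans (min_le_left _ _))
    have v2 : ‖v‖ ≤ e₂ := hv.trans ((min_le_left _ _).trans (min_le_right _ _))
    have v3 : ‖v‖ < 1 := lt_of_le_of_lt (hv.trans (min_le_right _ _)) (by norm_num)
    constructor
    · intro hl
      have h1 : |l - 1 / 4| < 1 / 8 := lt_of_le_of_lt hl (by norm_num)
      rw [COR.Bnd_far k1 m1 m5 l (sep' l h1) v t v3]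
      exact k4 l v t hl v1
    · intro hl
      exact m4 l v t hl v2
  · intro Q hQ hq
    exact m6 Q hQ (k6 Q hQ hq)

end

theorem WinO_main_B {a : ℝ → SP → SP} {A₁ A₂ : ℂ × ℝ × ℝ → SP}
    (hA₁ : BBox ISP A₁ (3 / 4) (3 / 4)) (hA₂ : BBox ISP A₂ (3 / 4) (3 / 4)) (e₁ : EquiB a A₁)
    (e₂ : EquiB a A₂)
    (hd : ∀ (w : ℂ) (s t : ℝ) (w' : ℂ) (s' t' : ℝ), ‖w‖ < 3 / 4 → |s| < 3 / 4 → ‖w'‖ < 3 / 4 → |s'| < 3 / 4 →
      A₁ (w, s, t) ≠ A₂ (w', s', t')) {ε₁ ε₂ : ℝ} (s1 : ε₁ = 1 ∨ ε₁ = -1) (s2 : ε₂ = 1 ∨ ε₂ = -1) :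
    Equi a (WinO_B A₁ A₂ ε₁ ε₂) ∧
    (∀ l v t, WinO_B A₁ A₂ ε₁ ε₂ (l + 1, v, t) = WinO_B A₁ A₂ ε₁ ε₂ (l, v, t)) ∧
    (∀ l ∈ COR.Bnd_U, ∀ v t, ‖v‖ < 3 / 2 →
      IsLocalDiffeomorphAt 𝓘(ℝ, ℝ × ℂ × ℝ) ISP ∞ (WinO_B A₁ A₂ ε₁ ε₂) (l, v, t)) ∧
    (∀ l ∈ COR.Bnd_U, ∀ l' ∈ COR.Bnd_U, ∀ v v' t t', ‖v‖ < 3 / 2 → ‖v'‖ < 3 / 2 →
      WinO_B A₁ A₂ ε₁ ε₂ (l, v, t) = WinO_B A₁ A₂ ε₁ ε₂ (l', v', t') →
      v = v' ∧ (∃ m : ℤ, l' = l + m) ∧ ∃ m : ℤ, t' = t + m) := by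
  refine ⟨?_, ?_, ?_, ?_⟩
  · intro l v t
    unfold WinO_B WinO_st
    simp only
    split_ifs
    · exact e₁ _ _ _
    · exact e₂ _ _ _
  · intro l v t
    have r1 : round (l + 1 - 1 / 4) = round (l - 1 / 4) + 1 := by
      rw [show l + 1 - 1 / 4 = l - 1 / 4 + 1 by ring, round_add_one]
    have r2 : round (l + 1 - 3 / 4) = round (l - 3 / 4) + 1 := by
      rw [show l + 1 - 3 / 4 = l - 3 / 4 + 1 by ring, round_add_one]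
    unfold WinO_B
    simp only
    rw [r1, r2]
    push_cast
    have e1 : l + 1 - 1 / 4 - ((round (l - 1 / 4) : ℝ) + 1) = l - 1 / 4 - round (l - 1 / 4) := by
      ring
    have e2 : l + 1 - ((round (l - 1 / 4) : ℝ) + 1) = l - round (l - 1 / 4) := by ring
    have e3 : l + 1 - ((round (l - 3 / 4) : ℝ) + 1) = l - round (l - 3 / 4) := by ring
    rw [e1, e2, e3]
  · intro l hl v t hv
    obtain ⟨A, ε, c, k, hty⟩ := WinO_ty_ex A₁ A₂ ε₁ ε₂ hl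
    have hε := WinO_ty_sgn s1 s2 hty
    have hA := WinO_ty_mem hty (fun A => BBox ISP A (3 / 4) (3 / 4)) hA₁ hA₂
    have hl2 : |l - k - c| < 3 / 32 := by
      rw [show l - k - c = l - c - k by ring]
      exact hty.2.trans (by norm_num)
    have hg : IsLocalDiffeomorphAt 𝓘(ℝ, ℝ × ℂ × ℝ) 𝓘(ℝ, ℝ × ℂ × ℝ) ∞
        (fun q : ℝ × ℂ × ℝ => ((q.1 - k, q.2) : ℝ × ℂ × ℝ)) (l, v, t) := by
      refine RSG.ld_two (g := fun q : ℝ × ℂ × ℝ => ((q.1 + k, q.2) : ℝ × ℂ × ℝ))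
        (Eventually.of_forall fun y => ?_) (Eventually.of_forall fun y => ?_)
        (Eventually.of_forall fun y => ?_) (Eventually.of_forall fun y => ?_)
      · apply ContDiffAt.contMDiffAt
        apply ContDiff.contDiffAt
        fun_prop
      · apply ContDiffAt.contMDiffAt
        apply ContDiff.contDiffAt
        fun_prop
      · simp
      · simp
    have hcomp : IsLocalDiffeomorphAt 𝓘(ℝ, ℝ × ℂ × ℝ) ISP ∞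
        (WinO_st A ε c ∘ fun q : ℝ × ℂ × ℝ => ((q.1 - k, q.2) : ℝ × ℂ × ℝ)) (l, v, t) :=
      IsLocalDiffeomorphAt.comp (hf := hg) (hg := WinO_loc hA hε c (l - k) v t hl2 hv) ..
    refine CSG.ld_congr hcomp ?_
    have hopen : ∀ᶠ q : ℝ × ℂ × ℝ in 𝓝 (l, v, t), |q.1 - c - k| < 11 / 128 := by
      have : ContinuousAt (fun q : ℝ × ℂ × ℝ => |q.1 - c - k|) (l, v, t) := by fun_prop
      exact this.eventually_lt continuousAt_const hty.2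
    filter_upwards [hopen] with q hq
    obtain ⟨l', v', t'⟩ := q
    exact WinO_ty_eq (ε₁ := ε₁) (ε₂ := ε₂) (A₁ := A₁) (A₂ := A₂) (c := c) (k := k) (A := A)
      ⟨hty.1, hq⟩ v' t'
  · intro l hl l' hl' v v' t t' hv hv' he
    obtain ⟨A, ε, c, k, hty⟩ := WinO_ty_ex A₁ A₂ ε₁ ε₂ hl
    obtain ⟨A', ε', c', k', hty'⟩ := WinO_ty_ex A₁ A₂ ε₁ ε₂ hl'
    have hε := WinO_ty_sgn s1 s2 hty
    have hε' := WinO_ty_sgn s1 s2 hty'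
    have hA := WinO_ty_mem hty (fun A => BBox ISP A (3 / 4) (3 / 4)) hA₁ hA₂
    rw [WinO_ty_eq hty, WinO_ty_eq hty'] at he
    unfold WinO_st at he
    simp only at he
    have b1 : ‖cj ε v / 2‖ < 3 / 4 := by rw [WinO_norm hε]; linarith
    have b1' : ‖cj ε' v' / 2‖ < 3 / 4 := by rw [WinO_norm hε']; linarith
    have b2 : |8 * ε * (l - k - c)| < 3 / 4 := by
      rw [WinO_abs hε, show l - k - c = l - c - k by ring]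
      have := hty.2
      linarith
    have b2' : |8 * ε' * (l' - k' - c')| < 3 / 4 := by
      rw [WinO_abs hε', show l' - k' - c' = l' - c' - k' by ring]
      have := hty'.2
      linarith
    have hall : A = A' ∧ ε = ε' ∧ c = c' := by
      rcases hty.1 with ⟨p1, p2, p3⟩ | ⟨p1, p2, p3⟩ <;>
        rcases hty'.1 with ⟨p1', p2', p3'⟩ | ⟨p1', p2', p3'⟩
      · exact ⟨by rw [p1, p1'], by rw [p2, p2'], by rw [p3, p3']⟩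
      · rw [p1, p1'] at he
        exact absurd he (hd _ _ _ _ _ _ b1 b2 b1' b2')
      · rw [p1, p1'] at he
        exact absurd he.symm (hd _ _ _ _ _ _ b1' b2' b1 b2)
      · exact ⟨by rw [p1, p1'], by rw [p2, p2'], by rw [p3, p3']⟩
    obtain ⟨rfl, rfl, rfl⟩ := hall
    obtain ⟨r1, r2, r3⟩ := hA.inj _ _ _ _ _ _ b1 b2 b1' b2' he
    refine ⟨?_, ⟨k' - k, ?_⟩, r3⟩
    · have r5 : cj ε v = cj ε v' := by linear_combination 2 * r1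
      rw [← RSG.cj_cj hε v, r5, RSG.cj_cj hε]
    · have hne : 8 * ε ≠ 0 := by rcases hε with rfl | rfl <;> norm_num
      have := mul_left_cancel₀ hne r2
      push_cast
      linarith

theorem WinO_out {φ f₁ f₂ : ℝ → ℝ} (h1 : ∀ l, φ (l + 1) = φ l + 1) (hm : StrictMono φ)
    (hm1 : StrictMono f₁) (hm2 : StrictMono f₂)
    (p1 : ∀ u, |u| ≤ 3 / 32 → φ (1 / 4 + u) = f₁ (8 * u))
    (p2 : ∀ u, |u| ≤ 3 / 32 → φ (3 / 4 + u) = f₂ (8 * u)) {l : ℝ} (hl : l ∉ COR.Bnd_U) :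
    ∃ (y : ℝ) (k : ℤ), φ l = y + k ∧
      ((f₁ (5 / 8) ≤ y ∧ y ≤ f₂ (-(5 / 8))) ∨ (f₂ (5 / 8) ≤ y ∧ y ≤ f₁ (-(5 / 8)) + 1)) := by
  have a1 : φ (1 / 4 + 11 / 128) = f₁ (8 * (11 / 128)) := p1 _ (by rw [abs_of_pos] <;> norm_num)
  have a2 : φ (1 / 4 + -(11 / 128)) = f₁ (8 * -(11 / 128)) :=
    p1 _ (by rw [abs_neg, abs_of_pos] <;> norm_num)
  have a3 : φ (3 / 4 + 11 / 128) = f₂ (8 * (11 / 128)) := p2 _ (by rw [abs_of_pos] <;> norm_num)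
  have a4 : φ (3 / 4 + -(11 / 128)) = f₂ (8 * -(11 / 128)) :=
    p2 _ (by rw [abs_neg, abs_of_pos] <;> norm_num)
  have b1 : f₁ (5 / 8) < f₁ (8 * (11 / 128)) := hm1 (by norm_num)
  have b2 : f₁ (8 * -(11 / 128)) < f₁ (-(5 / 8)) := hm1 (by norm_num)
  have b3 : f₂ (5 / 8) < f₂ (8 * (11 / 128)) := hm2 (by norm_num)
  have b4 : f₂ (8 * -(11 / 128)) < f₂ (-(5 / 8)) := hm2 (by norm_num)
  have hl' : ∀ k : ℤ, 11 / 128 ≤ |l - 1 / 4 - k| ∧ 11 / 128 ≤ |l - 3 / 4 - k| := by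
    intro k
    by_contra hk
    apply hl
    refine ⟨k, ?_⟩
    by_contra h
    push Not at h
    exact hk h
  set k := round (l - 1 / 4) with hk
  have h2 := abs_sub_round (l - 1 / 4)
  rw [← hk] at h2
  have c1 := (hl' k).1
  have c2 := (hl' k).2
  have c3 := (hl' (k - 1)).2
  push_cast at c3
  rw [abs_le] at h2
  rcases le_total 0 (l - 1 / 4 - k) with h3 | h3
  · rw [abs_of_nonneg h3] at c1
    have c4 : l - 3 / 4 - k ≤ 0 := by linarith [h2.2]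
    rw [abs_of_nonpos c4] at c2
    refine ⟨φ (l - k), k, ?_, Or.inl ⟨?_, ?_⟩⟩
    · rw [← COR.Bnd_phi_int h1, sub_add_cancel]
    · have := hm.monotone (show 1 / 4 + 11 / 128 ≤ l - k by linarith)
      linarith
    · have := hm.monotone (show l - k ≤ 3 / 4 + -(11 / 128) by linarith)
      linarith
  · rw [abs_of_nonpos h3] at c1
    have c4 : 0 ≤ l - 3 / 4 - (k - 1) := by linarith [h2.1]
    rw [abs_of_nonneg c4] at c3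
    refine ⟨φ (l - (k - 1 : ℤ)), k - 1, ?_, Or.inr ⟨?_, ?_⟩⟩
    · rw [← COR.Bnd_phi_int h1, sub_add_cancel]
    · have := hm.monotone (show 3 / 4 + 11 / 128 ≤ l - (k - 1 : ℤ) by push_cast; linarith)
      linarith
    · have := hm.monotone (show l - (k - 1 : ℤ) ≤ 1 / 4 + -(11 / 128) + 1 by push_cast; linarith)
      rw [h1] at this
      linarith

theorem exists_win {a : ℝ → SP → SP} (ha : Act ISP a) {κ₀ : ℝ × ℂ × ℝ → SP} (hκ₀ : ThickT ISP κ₀) (heq₀ : Equi a κ₀)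
    (hpos : PosT κ₀) {O : Set SP} (hO : Tube κ₀ ⊆ O) {A₁ A₂ : ℂ × ℝ × ℝ → SP}
    (hA₁ : BBox ISP A₁ (3 / 4) (3 / 4)) (hA₂ : BBox ISP A₂ (3 / 4) (3 / 4)) (e₁ : EquiB a A₁) (e₂ : EquiB a A₂)
    (p₁ : PosB A₁) (p₂ : PosB A₂)
    (hd : ∀ (w : ℂ) (s t : ℝ) (w' : ℂ) (s' t' : ℝ), ‖w‖ < 3 / 4 → |s| < 3 / 4 → ‖w'‖ < 3 / 4 → |s'| < 3 / 4 →
      A₁ (w, s, t) ≠ A₂ (w', s', t'))
    (o₁ : ∀ (w : ℂ) (s t : ℝ), ‖w‖ < 3 / 4 → |s| < 3 / 4 → A₁ (w, s, t) ∈ O)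
    (o₂ : ∀ (w : ℂ) (s t : ℝ), ‖w‖ < 3 / 4 → |s| < 3 / 4 → A₂ (w, s, t) ∈ O) {f₁ f₂ : ℝ → ℝ} {ε₁ ε₂ : ℝ}
    (hw : Win2 A₁ A₂ (fun l => κ₀ (l, 0, 0)) f₁ f₂ ε₁ ε₂) {Fc : Set SP} (hFc : IsClosed Fc)
    (hF : ∀ l, (f₁ (5 / 8) ≤ l ∧ l ≤ f₂ (-(5 / 8))) ∨ (f₂ (5 / 8) ≤ l ∧ l ≤ f₁ (-(5 / 8)) + 1) →
      ∀ t, a t (κ₀ (l, 0, 0)) ∉ Fc)
    (z₁ : ∀ (l : ℝ) (w : ℂ) (s t : ℝ), ‖w‖ < 3 / 4 → |s| < 3 / 4 → κ₀ (l, 0, 0) = A₁ (w, s, t) → w = 0)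
    (z₂ : ∀ (l : ℝ) (w : ℂ) (s t : ℝ), ‖w‖ < 3 / 4 → |s| < 3 / 4 → κ₀ (l, 0, 0) = A₂ (w, s, t) → w = 0) :
    ∃ (κ : ℝ × ℂ × ℝ → SP) (φ : ℝ → ℝ), ThickT ISP κ ∧ Equi a κ ∧ PosT κ ∧ Tube κ ⊆ O ∧
      ContDiff ℝ ∞ φ ∧ (∀ l, φ (l + 1) = φ l + 1) ∧ (∀ l, 0 < deriv φ l) ∧
      (∀ l, κ (l, 0, 0) = κ₀ (φ l, 0, 0)) ∧
      (∀ (l : ℝ) (v : ℂ) (t : ℝ), |l| ≤ 1 / 16 → ‖v‖ < 1 → κ (1 / 4 + l, v, t) = A₁ (cj ε₁ v / 2, 8 * ε₁ * l, t)) ∧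
      (∀ (l : ℝ) (v : ℂ) (t : ℝ), |l| ≤ 1 / 16 → ‖v‖ < 1 → κ (3 / 4 + l, v, t) = A₂ (cj ε₂ v / 2, 8 * ε₂ * l, t)) ∧
      (∀ (l : ℝ) (v : ℂ) (t : ℝ), ‖v‖ < 1 → OutW l → κ (l, v, t) ∉ Fc ∨
        ∃ (w : ℂ) (s t' : ℝ), ‖w‖ < 1 / 2 ∧ 1 / 2 ≤ |s| ∧ |s| < 3 / 4 ∧
          (κ (l, v, t) = A₁ (w, s, t') ∨ κ (l, v, t) = A₂ (w, s, t'))) ∧
      ∀ Q : (ℝ × ℂ × ℝ → SP) → Prop, Inv0 ISP O Q → Q κ₀ → Q κ := by
  obtain ⟨φ, f1, f2, f3, f4, f5⟩ := COR.exists_phi hw.w₁.smooth hw.w₂.smooth hw.w₁.deriv_pos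
    hw.w₂.deriv_pos hw.ord₁ hw.ord₂
  have hm : StrictMono φ := strictMono_of_deriv_pos f3
  have hm1 : StrictMono f₁ := strictMono_of_deriv_pos hw.w₁.deriv_pos
  have hm2 : StrictMono f₂ := strictMono_of_deriv_pos hw.w₂.deriv_pos
  have s1 := hw.w₁.sign
  have s2 := hw.w₂.sign
  -- the reparametrised torus
  have hκ₁ := COR.thick_rep hκ₀ f1 f2 f3
  have hO₁ : Tube (fun q : ℝ × ℂ × ℝ => κ₀ (φ q.1, q.2)) ⊆ O := (tube_rep φ).trans hO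
  have hpos₁ := posT_rep hκ₀ hpos f1 f3
  have hQ₁ : ∀ Q : (ℝ × ℂ × ℝ → SP) → Prop, Inv0 ISP O Q → Q κ₀ →
      Q (fun q : ℝ × ℂ × ℝ => κ₀ (φ q.1, q.2)) := fun Q hQ h => repO hQ hκ₀ hO f1 f2 f3 h
  set κ₁ : ℝ × ℂ × ℝ → SP := fun q => κ₀ (φ q.1, q.2) with hκ₁d
  have heq₁ : Equi a κ₁ := fun l v t => heq₀ (φ l) v t
  have hcore : ∀ l, κ₁ (l, 0, 0) = κ₀ (φ l, 0, 0) := fun l => rfl
  have hKp : ∀ l, κ₀ (l + 1, 0, 0) = κ₀ (l, 0, 0) := fun l => hκ₀.perl l 0 0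
  have cj0 : ∀ ε : ℝ, cj ε 0 = 0 := RSG.cj_zero
  have core₁ : ∀ l, |l - 1 / 4| ≤ 3 / 32 → κ₁ (l, 0, 0) = A₁ (0, 8 * ε₁ * (l - 1 / 4), 0) := by
    intro l hl
    have h1 := f4 (l - 1 / 4) hl
    rw [add_sub_cancel] at h1
    rw [hcore, h1]
    have h2 := hw.w₁.strand (8 * (l - 1 / 4)) (by
      rw [abs_mul, abs_of_pos (by norm_num : (0 : ℝ) < 8)]; linarith)
    rw [h2]
    congr 3
    ring
  have core₂ : ∀ l, |l - 3 / 4| ≤ 3 / 32 → κ₁ (l, 0, 0) = A₂ (0, 8 * ε₂ * (l - 3 / 4), 0) := by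
    intro l hl
    have h1 := f5 (l - 3 / 4) hl
    rw [add_sub_cancel] at h1
    rw [hcore, h1]
    have h2 := hw.w₂.strand (8 * (l - 3 / 4)) (by
      rw [abs_mul, abs_of_pos (by norm_num : (0 : ℝ) < 8)]; linarith)
    rw [h2]
    congr 3
    ring
  have ev : ∀ c : ℝ, ∀ᶠ l in 𝓝 c, |l - c| ≤ 3 / 32 := by
    intro c
    have : ContinuousAt (fun l : ℝ => |l - c|) c := by fun_prop
    have h2 : ∀ᶠ l in 𝓝 c, |l - c| < 3 / 32 := by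
      apply this.eventually_lt continuousAt_const
      simp
    exact h2.mono fun l hl => hl.le
  have hp₁ : PosAt κ₁ (WinO_st A₁ ε₁ (1 / 4)) (1 / 4) :=
    posAt_arc ha hκ₁ heq₁ hpos₁ (by norm_num) (by norm_num) hA₁ e₁ p₁ s1 (by norm_num)
      ((ev (1 / 4)).mono fun l hl => core₁ l hl)
  have hp₂ : PosAt κ₁ (WinO_st A₂ ε₂ (3 / 4)) (3 / 4) :=
    posAt_arc ha hκ₁ heq₁ hpos₁ (by norm_num) (by norm_num) hA₂ e₂ p₂ s2 (by norm_num)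
      ((ev (3 / 4)).mono fun l hl => core₂ l hl)
  -- the thickenings
  have eqS₁ : Equi a (WinO_st A₁ ε₁ (1 / 4)) := fun l v t => e₁ _ _ _
  have eqS₂ : Equi a (WinO_st A₂ ε₂ (3 / 4)) := fun l v t => e₂ _ _ _
  have st0 : ∀ (A : ℂ × ℝ × ℝ → SP) (ε c l : ℝ), WinO_st A ε c (l, 0, 0) =
      A (0, 8 * ε * (l - c), 0) := by
    intro A ε c l
    unfold WinO_st
    simp only [cj0, zero_div]
  obtain ⟨κ₃, m1, m2, mO, m3, ⟨ε, hε, m4⟩, m5⟩ := WinO_two ha hκ₁ hO₁ heq₁ eqS₁ eqS₂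
    (fun l hl => WinO_loc hA₁ s1 _ l 0 0 hl (by norm_num))
    (fun l hl => WinO_loc hA₂ s2 _ l 0 0 hl (by norm_num))
    (fun l hl => by rw [st0, core₁ l hl.le])
    (fun l hl => by rw [st0, core₂ l hl.le]) hp₁ hp₂
  -- the core of `κ₃`
  have hcore₃ : ∀ l t, κ₃ (l, 0, t) = a t (κ₀ (φ l, 0, 0)) := by
    intro l t
    rw [m2 l 0 t, m3, hcore]
  have hback : ∀ (A : ℂ × ℝ × ℝ → SP), EquiB a A → ∀ l t z s t', κ₃ (l, 0, t) = A (z, s, t') →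
      κ₀ (φ l, 0, 0) = A (z, s, t' - t) := by
    intro A hA l t z s t' h
    rw [hcore₃] at h
    have h1 : a (-t) (a t (κ₀ (φ l, 0, 0))) = κ₀ (φ l, 0, 0) := by
      rw [← ha.add, neg_add_cancel, ha.zero]
    rw [← h1, h, hA, ← ha.add, hA z s (t' - t)]
    congr 1
    ring
  obtain ⟨hB1, hB2, hB3, hB4⟩ := WinO_main_B hA₁ hA₂ e₁ e₂ hd s1 s2
  have bx : ∀ {l : ℝ} {A : ℂ × ℝ × ℝ → SP} {ε' c : ℝ} {k : ℤ}, WinO_ty A₁ A₂ ε₁ ε₂ l A ε' c k →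
      |8 * ε' * (l - k - c)| = 8 * |l - c - k| ∧ 8 * |l - c - k| < 11 / 16 := by
    intro l A ε' c k hty
    rw [WinO_abs (WinO_ty_sgn s1 s2 hty), show l - k - c = l - c - k by ring]
    have := hty.2
    exact ⟨rfl, by linarith⟩
  have hoff : ∀ l ∈ COR.Bnd_U, ∀ v t, v ≠ 0 → ‖v‖ < 3 / 2 → ∀ l' t',
      WinO_B A₁ A₂ ε₁ ε₂ (l, v, t) ≠ κ₃ (l', 0, t') := by
    intro l hl v t hv0 hv l' t' he
    obtain ⟨A, ε', c, k, hty⟩ := WinO_ty_ex A₁ A₂ ε₁ ε₂ hl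
    have hε' := WinO_ty_sgn s1 s2 hty
    have hz := WinO_ty_mem hty (fun A => ∀ (l : ℝ) (w : ℂ) (s t : ℝ), ‖w‖ < 3 / 4 → |s| < 3 / 4 →
      κ₀ (l, 0, 0) = A (w, s, t) → w = 0) z₁ z₂
    have he' := WinO_ty_mem hty (fun A => EquiB a A) e₁ e₂
    rw [WinO_ty_eq hty] at he
    have h1 := hback A he' l' t' _ _ _ he.symm
    have h2 := hz _ _ _ _ (by rw [WinO_norm hε']; linarith)
      (by obtain ⟨q1, q2⟩ := bx hty; rw [q1]; linarith) h1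
    apply hv0
    have h3 : ‖cj ε' v / 2‖ = 0 := by
      simp only at h2
      rw [h2, norm_zero]
    rw [WinO_norm hε'] at h3
    have : ‖v‖ = 0 := by linarith
    exact norm_eq_zero.1 this
  have hgerm : ∀ l ∈ COR.Bnd_U, ∀ v t, ‖v‖ ≤ ε → κ₃ (l, v, t) = WinO_B A₁ A₂ ε₁ ε₂ (l, v, t) := by
    rintro l ⟨k, hk | hk⟩ v t hv
    · rw [WinO_B1 A₁ A₂ ε₁ ε₂ hk, ← (m4 (l - k) v t hv).1 (by
        rw [show l - k - 1 / 4 = l - 1 / 4 - k by ring]; exact hk.le)]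
      have := COR.Bnd_int (f := fun l => κ₃ (l, v, t)) (fun l => m1.perl l v t) (l - k) k
      simp only [sub_add_cancel] at this
      exact this
    · rw [WinO_B2 A₁ A₂ ε₁ ε₂ hk, ← (m4 (l - k) v t hv).2 (by
        rw [show l - k - 3 / 4 = l - 3 / 4 - k by ring]; exact hk.le)]
      have := COR.Bnd_int (f := fun l => κ₃ (l, v, t)) (fun l => m1.perl l v t) (l - k) k
      simp only [sub_add_cancel] at this
      exact this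
  have hbO : ∀ l ∈ COR.Bnd_U, ∀ v t, ‖v‖ < 1 → WinO_B A₁ A₂ ε₁ ε₂ (l, v, t) ∈ O := by
    intro l hl v t hv
    obtain ⟨A, ε', c, k, hty⟩ := WinO_ty_ex A₁ A₂ ε₁ ε₂ hl
    have hε' := WinO_ty_sgn s1 s2 hty
    have ho := WinO_ty_mem hty (fun A => ∀ (w : ℂ) (s t : ℝ), ‖w‖ < 3 / 4 → |s| < 3 / 4 →
      A (w, s, t) ∈ O) o₁ o₂
    rw [WinO_ty_eq hty]
    obtain ⟨q1, q2⟩ := bx hty
    exact ho _ _ _ (by rw [WinO_norm hε']; linarith) (by rw [q1]; linarith)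
  have hKF : ∀ l, l ∉ COR.Bnd_U → ∀ t, κ₃ (l, 0, t) ∉ Fc := by
    intro l hl t h
    rw [hcore₃] at h
    obtain ⟨y, k, hy, hy2⟩ := WinO_out f2 hm hm1 hm2 f4 f5 hl
    rw [hy, COR.Bnd_int (f := fun l => κ₀ (l, 0, 0)) hKp] at h
    exact hF y hy2 t h
  obtain ⟨κ, n1, n2, nO, n3, n4, n5, n6, n7⟩ := adapt_glueO ha m1 mO m2 hB1 hB2 COR.Bnd_U_open
    COR.Bnd_U_per COR.Bnd_s_smooth COR.Bnd_s_per
    (fun l => ⟨CSG.stp_nonneg _ _ _, CSG.stp_le_one _ _ _⟩) COR.Bnd_tsupp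
    (r := 3 / 2) (by norm_num) hB3 hB4 hε hgerm hoff hbO hFc hKF
  -- the windows
  have win₁ : ∀ (l : ℝ) (v : ℂ) (t : ℝ), |l| ≤ 1 / 16 → ‖v‖ < 1 →
      κ (1 / 4 + l, v, t) = A₁ (cj ε₁ v / 2, 8 * ε₁ * l, t) := by
    intro l v t hl hv
    have hk : |1 / 4 + l - 1 / 4 - ((0 : ℤ) : ℝ)| < 11 / 128 := by
      rw [show 1 / 4 + l - 1 / 4 - ((0 : ℤ) : ℝ) = l by push_cast; ring]
      linarith
    rw [n4 _ v t (COR.Bnd_s_one ⟨0, Or.inl (by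
      rw [show 1 / 4 + l - 1 / 4 - ((0 : ℤ) : ℝ) = l by push_cast; ring]; exact hl)⟩) hv,
      WinO_B1 A₁ A₂ ε₁ ε₂ hk]
    change A₁ (cj ε₁ v / 2, 8 * ε₁ * (1 / 4 + l - ((0 : ℤ) : ℝ) - 1 / 4), t) = _
    rw [show 1 / 4 + l - ((0 : ℤ) : ℝ) - 1 / 4 = l by push_cast; ring]
  have win₂ : ∀ (l : ℝ) (v : ℂ) (t : ℝ), |l| ≤ 1 / 16 → ‖v‖ < 1 →
      κ (3 / 4 + l, v, t) = A₂ (cj ε₂ v / 2, 8 * ε₂ * l, t) := by
    intro l v t hl hv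
    have hk : |3 / 4 + l - 3 / 4 - ((0 : ℤ) : ℝ)| < 11 / 128 := by
      rw [show 3 / 4 + l - 3 / 4 - ((0 : ℤ) : ℝ) = l by push_cast; ring]
      linarith
    rw [n4 _ v t (COR.Bnd_s_one ⟨0, Or.inr (by
      rw [show 3 / 4 + l - 3 / 4 - ((0 : ℤ) : ℝ) = l by push_cast; ring]; exact hl)⟩) hv,
      WinO_B2 A₁ A₂ ε₁ ε₂ hk]
    change A₂ (cj ε₂ v / 2, 8 * ε₂ * (3 / 4 + l - ((0 : ℤ) : ℝ) - 3 / 4), t) = _
    rw [show 3 / 4 + l - ((0 : ℤ) : ℝ) - 3 / 4 = l by push_cast; ring]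
  have hposκ : PosT κ := by
    refine posT_of_arc n1 (by norm_num) (by norm_num) hA₁ p₁ s1 (w := 8) (c := 1 / 4)
      (by norm_num) ?_
    have c1 : ∀ᶠ q : ℝ × ℂ × ℝ in 𝓝 ((1 / 4, 0, 0) : ℝ × ℂ × ℝ), |q.1 - 1 / 4| < 1 / 16 := by
      have : ContinuousAt (fun q : ℝ × ℂ × ℝ => |q.1 - 1 / 4|) ((1 / 4, 0, 0) : ℝ × ℂ × ℝ) := by
        fun_prop
      apply this.eventually_lt continuousAt_const
      norm_num
    have c2 : ∀ᶠ q : ℝ × ℂ × ℝ in 𝓝 ((1 / 4, 0, 0) : ℝ × ℂ × ℝ), ‖q.2.1‖ < 1 := by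
      have : ContinuousAt (fun q : ℝ × ℂ × ℝ => ‖q.2.1‖) ((1 / 4, 0, 0) : ℝ × ℂ × ℝ) := by
        fun_prop
      apply this.eventually_lt continuousAt_const
      norm_num
    filter_upwards [c1, c2] with q h1 h2
    obtain ⟨l, v, t⟩ := q
    have h3 := win₁ (l - 1 / 4) v t h1.le h2
    rw [add_sub_cancel] at h3
    exact h3
  refine ⟨κ, φ, n1, n2, hposκ, nO, f1, f2, f3, ?_, win₁, win₂, ?_, ?_⟩
  · intro l
    rw [n3, hcore₃, ha.zero]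
  · intro l v t hv ho
    by_cases hl : l ∈ COR.Bnd_U
    · right
      obtain ⟨v', hv', he⟩ := n5 l hl v t hv
      obtain ⟨A, ε', c, k, hty⟩ := WinO_ty_ex A₁ A₂ ε₁ ε₂ hl
      have hε' := WinO_ty_sgn s1 s2 hty
      obtain ⟨q1, q2⟩ := bx hty
      rw [WinO_ty_eq hty] at he
      unfold WinO_st at he
      simp only at he
      have h16 : 1 / 16 ≤ |l - c - k| := by
        rcases hty.1 with ⟨-, -, rfl⟩ | ⟨-, -, rfl⟩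
        · exact (ho k).1
        · exact (ho k).2
      refine ⟨cj ε' v' / 2, 8 * ε' * (l - k - c), t, ?_, ?_, ?_, ?_⟩
      · rw [WinO_norm hε']; linarith
      · rw [q1]; linarith
      · rw [q1]; linarith
      · rcases hty.1 with ⟨p1, -, -⟩ | ⟨p1, -, -⟩
        · left; rw [he, p1]
        · right; rw [he, p1]
    · exact Or.inl (n6 l hl v t hv)
  · intro Q hQ h
    exact n7 Q hQ (m5 Q hQ (hQ₁ Q hQ h))

end Pool.Agent.LKF
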